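import Mathlib.Tactic.Abel
import Mathlib.LinearAlgebra.Finsupp.LinearCombination
import Mathlib.Algebra.Ring.GeomSum
import Mathlib.CategoryTheory.Category.Init
import Mathlib.Tactic.Continuity
import Mathlib.Tactic.LinearCombination

/-!
Chains on lists: cone, boundary, prism, and the operators `1 - g` and `1 + g + ... + g^(p-1)`.
-/

namespace Pool.Agent.MP_8bdec9_gt.LS

variable {R : Type*} [CommRing R] {A B : Type*}

/-- Chains: finitely supported functions on lists. -/
abbrev Ch (R : Type*) [CommRing R] (A : Type*) := List A →₀ R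

/-- The basis chain of a list. -/
noncomputable def sg (R : Type*) [CommRing R] (l : List A) : Ch R A := Finsupp.single l 1

/-- Linear extension of a function on lists. -/
noncomputable def ext {M : Type*} [AddCommGroup M] [Module R M] (f : List A → M) :
    Ch R A →ₗ[R] M := Finsupp.linearCombination R f

@[simp] lemma ext_sg {M : Type*} [AddCommGroup M] [Module R M] (f : List A → M) (l : List A) :
    ext (R := R) f (sg R l) = f l := by
  simp [ext, sg]

lemma hom_ext {M : Type*} [AddCommGroup M] [Module R M] {f g : Ch R A →ₗ[R] M}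
    (h : ∀ l, f (sg R l) = g (sg R l)) : f = g := by
  apply Finsupp.lhom_ext'
  intro l
  apply LinearMap.ext_ring
  exact h l

/-- Chains supported on lists with property `P`. -/
noncomputable def S (R : Type*) [CommRing R] (P : List A → Prop) : Submodule R (Ch R A) :=
  Finsupp.supported R R {l | P l}

lemma sg_mem {P : List A → Prop} {l : List A} (h : P l) : sg R l ∈ S R P :=
  Finsupp.single_mem_supported R 1 h

lemma map_mem {M : Type*} [AddCommGroup M] [Module R M] {P : List A → Prop}
    (f : Ch R A →ₗ[R] M) (T : Submodule R M) (h : ∀ l, P l → f (sg R l) ∈ T)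
    {c : Ch R A} (hc : c ∈ S R P) : f c ∈ T := by
  have : S R P ≤ T.comap f := by
    rw [S, Finsupp.supported_eq_span_single, Submodule.span_le]
    rintro _ ⟨l, hl, rfl⟩
    exact h l hl
  exact this hc

lemma congr_on {M : Type*} [AddCommGroup M] [Module R M] {P : List A → Prop}
    (f g : Ch R A →ₗ[R] M) (h : ∀ l, P l → f (sg R l) = g (sg R l))
    {c : Ch R A} (hc : c ∈ S R P) : f c = g c := by
  have := map_mem (f - g) ⊥ (fun l hl => by simp [h l hl]) hc
  simpa [sub_eq_zero] using this

lemma S_mono {P Q : List A → Prop} (h : ∀ l, P l → Q l) {c : Ch R A} (hc : c ∈ S R P) :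
    c ∈ S R Q :=
  map_mem LinearMap.id _ (fun l hl => sg_mem (h l hl)) hc

lemma eq_zero_of_S {P : List A → Prop} (h : ∀ l, ¬ P l) {c : Ch R A} (hc : c ∈ S R P) :
    c = 0 := by
  have := map_mem LinearMap.id ⊥ (fun l hl => absurd hl (h l)) hc
  simpa using this

/-- The cone with apex `a`. -/
noncomputable def cone (a : A) : Ch R A →ₗ[R] Ch R A := ext fun l => sg R (a :: l)

@[simp] lemma cone_sg (a : A) (l : List A) : cone a (sg R l) = sg R (a :: l) := ext_sg _ _

/-- The map on chains induced by a map of vertices. -/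
noncomputable def lmap (f : A → B) : Ch R A →ₗ[R] Ch R B := ext fun l => sg R (l.map f)

@[simp] lemma lmap_sg (f : A → B) (l : List A) : lmap f (sg R l) = sg R (l.map f) := ext_sg _ _

/-- The boundary of a list. -/
noncomputable def bdL (R : Type*) [CommRing R] : List A → Ch R A
  | [] => 0
  | a :: l => sg R l - cone a (bdL R l)

/-- The boundary of a chain. -/
noncomputable def bd : Ch R A →ₗ[R] Ch R A := ext (bdL R)

lemma bd_sg (l : List A) : bd (sg R l) = bdL R l := ext_sg _ _

@[simp] lemma bd_nil : bd (sg R ([] : List A)) = 0 := bd_sg _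

lemma bd_cons (a : A) (l : List A) : bd (sg R (a :: l)) = sg R l - cone a (bd (sg R l)) := by
  rw [bd_sg, bd_sg]; rfl

lemma bd_cone (a : A) (c : Ch R A) : bd (cone a c) = c - cone a (bd c) := by
  have : bd ∘ₗ cone a = LinearMap.id - (cone a ∘ₗ bd : Ch R A →ₗ[R] Ch R A) :=
    hom_ext fun l => by simp [bd_cons]
  exact LinearMap.congr_fun this c

lemma bd_bd (c : Ch R A) : bd (bd c) = 0 := by
  have : (bd ∘ₗ bd : Ch R A →ₗ[R] Ch R A) = 0 := hom_ext fun l => by
    induction l with
    | nil => simp
    | cons a l ih =>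
      simp only [LinearMap.comp_apply, LinearMap.zero_apply] at ih ⊢
      rw [bd_cons, map_sub, bd_cone, ih]
      simp
  exact LinearMap.congr_fun this c

lemma lmap_cone (f : A → B) (a : A) (c : Ch R A) :
    lmap f (cone a c) = cone (f a) (lmap f c) := by
  have : lmap f ∘ₗ cone a = (cone (f a) ∘ₗ lmap f : Ch R A →ₗ[R] Ch R B) :=
    hom_ext fun l => by simp
  exact LinearMap.congr_fun this c

lemma lmap_bd (f : A → B) (c : Ch R A) : lmap f (bd c) = bd (lmap f c) := by
  have : lmap f ∘ₗ bd = (bd ∘ₗ lmap f : Ch R A →ₗ[R] Ch R B) := hom_ext fun l => by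
    induction l with
    | nil => simp
    | cons a l ih =>
      simp only [LinearMap.comp_apply, lmap_sg] at ih ⊢
      rw [bd_cons, map_sub, lmap_cone, ih, List.map_cons, bd_cons, lmap_sg]
  exact LinearMap.congr_fun this c

lemma lmap_id (c : Ch R A) : lmap (fun x => x) c = c := by
  have : lmap (fun x => x) = (LinearMap.id : Ch R A →ₗ[R] Ch R A) := hom_ext fun l => by simp
  exact LinearMap.congr_fun this c

lemma lmap_pow_sg (g : A → A) (n : ℕ) (l : List A) :
    ((lmap g : Module.End R (Ch R A)) ^ n) (sg R l) = sg R (l.map g^[n]) := by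
  induction n with
  | zero => simp
  | succ n ih =>
    rw [pow_succ', Module.End.mul_apply, ih, lmap_sg, List.map_map, Function.iterate_succ']

lemma bd_sg_mem (l : List A) :
    bd (sg R l) ∈ S R fun m => m.length + 1 = l.length ∧ m.Sublist l := by
  induction l with
  | nil => simp
  | cons a l ih =>
    rw [bd_cons]
    refine Submodule.sub_mem _ (sg_mem ⟨rfl, List.sublist_cons_self a l⟩) ?_
    refine map_mem _ _ (fun m hm => ?_) ih
    rw [cone_sg]
    exact sg_mem ⟨by simp [hm.1], hm.2.cons_cons a⟩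

/-- The prism between two vertex maps. -/
noncomputable def prismL (R : Type*) [CommRing R] (f0 f1 : A → B) : List A → Ch R B
  | [] => 0
  | x :: r => sg R (f0 x :: f1 x :: r.map f1) - cone (f0 x) (prismL R f0 f1 r)

/-- The prism operator. -/
noncomputable def prism (f0 f1 : A → B) : Ch R A →ₗ[R] Ch R B := ext (prismL R f0 f1)

lemma prism_cone (f0 f1 : A → B) (x : A) (c : Ch R A) :
    prism f0 f1 (cone x c) =
      cone (f0 x) (cone (f1 x) (lmap f1 c)) - cone (f0 x) (prism f0 f1 c) := by
  have : prism f0 f1 ∘ₗ cone x = (cone (f0 x) ∘ₗ cone (f1 x) ∘ₗ lmap f1 -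
      cone (f0 x) ∘ₗ prism f0 f1 : Ch R A →ₗ[R] Ch R B) :=
    hom_ext fun l => by simp [prism, prismL]
  exact LinearMap.congr_fun this c

lemma bd_prism (f0 f1 : A → B) (c : Ch R A) :
    bd (prism f0 f1 c) + prism f0 f1 (bd c) = lmap f1 c - lmap f0 c := by
  have : bd ∘ₗ prism f0 f1 + prism f0 f1 ∘ₗ bd =
      (lmap f1 - lmap f0 : Ch R A →ₗ[R] Ch R B) := hom_ext fun l => by
    induction l with
    | nil => simp [prism, prismL]
    | cons x r ih =>
      simp only [LinearMap.add_apply, LinearMap.comp_apply, LinearMap.sub_apply] at ih ⊢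
      rw [← cone_sg, prism_cone, bd_cone x, map_sub (prism (R := R) f0 f1), prism_cone, lmap_cone,
        lmap_cone, map_sub (bd (R := R) (A := B)), bd_cone, bd_cone, bd_cone, lmap_bd]
      have := congrArg (cone (R := R) (f0 x)) ih
      simp only [map_add, map_sub] at this ⊢
      linear_combination (norm := abel1) this
  exact LinearMap.congr_fun this c

lemma prism_sg_mem (f0 f1 : A → B) (l : List A) :
    prism f0 f1 (sg R l) ∈ S R fun m => m.length = l.length + 1 ∧
      ∀ y ∈ m, ∃ x ∈ l, y = f0 x ∨ y = f1 x := by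
  induction l with
  | nil => simp [prism, prismL]
  | cons x r ih =>
    rw [← cone_sg, prism_cone]
    refine Submodule.sub_mem _ ?_ ?_
    · simp only [lmap_sg, cone_sg]
      refine sg_mem ⟨by simp, fun y hy => ?_⟩
      simp only [List.mem_cons, List.mem_map] at hy ⊢
      rcases hy with rfl | rfl | ⟨z, hz, rfl⟩
      · exact ⟨x, Or.inl rfl, Or.inl rfl⟩
      · exact ⟨x, Or.inl rfl, Or.inr rfl⟩
      · exact ⟨z, Or.inr hz, Or.inr rfl⟩
    · refine map_mem _ _ (fun m hm => ?_) ih
      rw [cone_sg]
      refine sg_mem ⟨by simp [hm.1], fun y hy => ?_⟩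
      simp only [List.mem_cons] at hy ⊢
      rcases hy with rfl | hy
      · exact ⟨x, Or.inl rfl, Or.inl rfl⟩
      · obtain ⟨z, hz, h⟩ := hm.2 y hy
        exact ⟨z, Or.inr hz, h⟩

/-- The operator `1 - g`. -/
noncomputable def sig (g : A → A) : Module.End R (Ch R A) := 1 - lmap g

/-- The operator `1 + g + ... + g^(p-1)`. -/
noncomputable def nm (p : ℕ) (g : A → A) : Module.End R (Ch R A) :=
  ∑ i ∈ Finset.range p, (lmap g : Module.End R (Ch R A)) ^ i

/-- The alternating operators. -/
noncomputable def tau (p : ℕ) (g : A → A) (i : ℕ) : Module.End R (Ch R A) :=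
  if Even i then sig g else nm p g

lemma lmap_pow_eq_one {p : ℕ} {g : A → A} (hg : ∀ x, g^[p] x = x) :
    (lmap g : Module.End R (Ch R A)) ^ p = 1 :=
  hom_ext fun l => by
    rw [lmap_pow_sg, show g^[p] = id from funext hg]; simp

lemma tau_tau {p : ℕ} {g : A → A} (hg : ∀ x, g^[p] x = x) (i : ℕ) (c : Ch R A) :
    tau p g (i + 1) (tau p g i c) = 0 := by
  have h1 : (nm p g * sig g : Module.End R (Ch R A)) = 0 := by
    have := geom_sum_mul_neg (lmap g : Module.End R (Ch R A)) p
    rw [lmap_pow_eq_one hg, sub_self] at this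
    exact this
  have h2 : (sig g * nm p g : Module.End R (Ch R A)) = 0 := by
    have := mul_neg_geom_sum (lmap g : Module.End R (Ch R A)) p
    rw [lmap_pow_eq_one hg, sub_self] at this
    exact this
  rw [← Module.End.mul_apply]
  unfold tau
  by_cases hi : Even i
  · rw [if_pos hi, if_neg (by simpa [Nat.even_add_one] using hi), h1]; rfl
  · rw [if_neg hi, if_pos (by simpa [Nat.even_add_one] using hi), h2]; rfl

lemma tau_add_two (p : ℕ) (g : A → A) (i : ℕ) :
    (tau p g (i + 2) : Module.End R (Ch R A)) = tau p g i := by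
  simp [tau, Nat.even_add]

/-- A linear map intertwining the two actions on an invariant submodule intertwines `tau`. -/
lemma map_tau {p : ℕ} {g : A → A} {g' : B → B} (f : Ch R A →ₗ[R] Ch R B)
    (T : Submodule R (Ch R A)) (hT : ∀ c ∈ T, lmap g c ∈ T)
    (hf : ∀ c ∈ T, f (lmap g c) = lmap g' (f c)) (i : ℕ) {c : Ch R A} (hc : c ∈ T) :
    tau p g i c ∈ T ∧ f (tau p g i c) = tau p g' i (f c) := by
  have hpow : ∀ n : ℕ, ((lmap g : Module.End R (Ch R A)) ^ n) c ∈ T ∧
      f (((lmap g : Module.End R (Ch R A)) ^ n) c) =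
        ((lmap g' : Module.End R (Ch R B)) ^ n) (f c) := by
    intro n
    induction n with
    | zero => simpa using hc
    | succ n ih =>
      rw [pow_succ', pow_succ', Module.End.mul_apply, Module.End.mul_apply]
      exact ⟨hT _ ih.1, by rw [hf _ ih.1, ih.2]⟩
  unfold tau
  split_ifs
  · refine ⟨T.sub_mem hc (hT c hc), ?_⟩
    simp [sig, hf c hc]
  · simp only [nm, LinearMap.sum_apply, map_sum]
    exact ⟨T.sum_mem fun n _ => (hpow n).1, Finset.sum_congr rfl fun n _ => (hpow n).2⟩

lemma bd_tau (p : ℕ) (g : A → A) (i : ℕ) (c : Ch R A) :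
    bd (tau p g i c) = tau p g i (bd c) :=
  (map_tau bd ⊤ (fun _ _ => trivial) (fun c _ => (lmap_bd g c).symm) i trivial).2

/-- The cycle that the `i`-th chain of a generalised sphere has to bound. -/
noncomputable def cyc (p : ℕ) (g : A → A) (c : ℕ → Ch R A) : ℕ → Ch R A
  | 0 => sg R []
  | i + 1 => tau p g i (c i)

end Pool.Agent.MP_8bdec9_gt.LS
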