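import Mathlib.Data.ZMod.Basic
import Pool.Agent.MP_8bdec9_gt.LSChain

/-!
No generalised sphere of dimension `k` is subordinate to `k` cyclic families of disjoint sets.
-/

namespace Pool.Agent.MP_8bdec9_gt.LS

variable {R : Type*} [CommRing R] {A : Type*} {p : ℕ}

/-- The cyclic shift of labels. -/
def sh (p : ℕ) (x : ℕ × ZMod p) : ℕ × ZMod p := (x.1, x.2 + 1)

lemma sh_iterate (n : ℕ) (x : ℕ × ZMod p) : (sh p)^[n] x = (x.1, x.2 + n) := by
  induction n with
  | zero => simp
  | succ n ih => rw [Function.iterate_succ_apply', ih]; simp [sh, add_assoc]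

lemma sh_injective : Function.Injective (sh p) := by
  intro x y h
  simp only [sh, Prod.mk.injEq, add_left_inj] at h
  exact Prod.ext h.1 h.2

/-- The phase of a list of labels. -/
def phase : List (ℕ × ZMod p) → ZMod p
  | [] => 0
  | x :: _ => x.2

lemma phase_map {l : List (ℕ × ZMod p)} (hl : l ≠ []) (n : ℕ) :
    phase (l.map (sh p)^[n]) = phase l + n := by
  cases l with
  | nil => exact absurd rfl hl
  | cons x r => simp [phase, sh_iterate]

/-- Projection to the lists of phase `a`. -/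
noncomputable def proj (a : ZMod p) : Ch R (ℕ × ZMod p) →ₗ[R] Ch R (ℕ × ZMod p) :=
  ext fun l => if phase l = a then sg R l else 0

lemma proj_sg (a : ZMod p) (l : List (ℕ × ZMod p)) :
    proj a (sg R l) = if phase l = a then sg R l else 0 := ext_sg _ _

lemma sum_range_ite [NeZero p] {M : Type*} [AddCommMonoid M] (a : ZMod p) (f : ℕ → M) :
    ∑ i ∈ Finset.range p, (if a = (i : ZMod p) then f i else 0) = f a.val := by
  rw [Finset.sum_eq_single a.val]
  · simp
  · intro i hi hne
    rw [if_neg]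
    intro h
    apply hne
    rw [h, ZMod.val_cast_of_lt (Finset.mem_range.1 hi)]
  · intro h
    exact absurd (Finset.mem_range.2 (ZMod.val_lt a)) h

lemma lmap_pow_mem {g : A → A} {n : ℕ} (i : ℕ) {c : Ch R A}
    (hc : c ∈ S R fun l => l.length = n) :
    ((lmap g : Module.End R (Ch R A)) ^ i) c ∈ S R fun l => l.length = n :=
  map_mem _ _ (fun l hl => by rw [lmap_pow_sg]; exact sg_mem (by simpa using hl)) hc

lemma exact_step [NeZero p] (i n : ℕ) {c : Ch R (ℕ × ZMod p)}
    (hc : c ∈ S R fun l => l.length = n + 1) (h : tau p (sh p) i c = 0) :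
    ∃ e ∈ S R fun l => l.length = n + 1, c = tau p (sh p) (i + 1) e := by
  have hne : ∀ l : List (ℕ × ZMod p), l.length = n + 1 → l ≠ [] := by
    rintro l hl rfl
    simp at hl
  unfold tau at h ⊢
  by_cases hi : Even i
  · rw [if_pos hi] at h
    rw [if_neg (by simpa [Nat.even_add_one] using hi)]
    have hfix : lmap (sh p) c = c := by
      simp only [sig, LinearMap.sub_apply, Module.End.one_apply, sub_eq_zero] at h
      exact h.symm
    have hfix' : ∀ k : ℕ, ((lmap (sh p) : Module.End R (Ch R (ℕ × ZMod p))) ^ k) c = c := by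
      intro k
      induction k with
      | zero => simp
      | succ k ih => rw [pow_succ', Module.End.mul_apply, ih, hfix]
    refine ⟨proj 0 c, map_mem _ _ (fun l hl => ?_) hc, ?_⟩
    · rw [proj_sg]
      split_ifs
      · exact sg_mem hl
      · exact Submodule.zero_mem _
    · have h1 : ∀ k : ℕ, ((lmap (sh p) : Module.End R (Ch R (ℕ × ZMod p))) ^ k) (proj 0 c) =
          proj (k : ZMod p) c := by
        intro k
        conv_rhs => rw [← hfix' k]
        refine congr_on (((lmap (sh p) : Module.End R (Ch R (ℕ × ZMod p))) ^ k) ∘ₗ proj 0)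
          (proj (k : ZMod p) ∘ₗ ((lmap (sh p) : Module.End R (Ch R (ℕ × ZMod p))) ^ k))
          (fun l hl => ?_) hc
        simp only [LinearMap.comp_apply, lmap_pow_sg, proj_sg, phase_map (hne l hl),
          add_eq_right]
        split_ifs
        · rw [lmap_pow_sg]
        · simp
      simp only [nm, LinearMap.sum_apply, h1]
      have h2 : (∑ k ∈ Finset.range p, proj (k : ZMod p) :
          Ch R (ℕ × ZMod p) →ₗ[R] Ch R (ℕ × ZMod p)) = LinearMap.id := hom_ext fun l => by
        simp only [LinearMap.sum_apply, proj_sg, LinearMap.id_apply]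
        exact sum_range_ite (phase l) fun _ => sg R l
      have h3 := LinearMap.congr_fun h2 c
      simp only [LinearMap.sum_apply, LinearMap.id_apply] at h3
      exact h3.symm
  · rw [if_neg hi] at h
    rw [if_pos (by simpa [Nat.even_add_one] using hi)]
    have h1 := map_mem (LinearMap.id - proj 0 ∘ₗ nm p (sh p))
      ((S R fun l => l.length = n + 1).map (sig (sh p))) (fun l hl => ?_) hc
    · simp only [LinearMap.sub_apply, LinearMap.id_apply, LinearMap.comp_apply, h, map_zero,
        sub_zero] at h1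
      obtain ⟨e, he, hce⟩ := h1
      exact ⟨e, he, hce.symm⟩
    · have h2 : proj 0 (nm p (sh p) (sg R l)) = sg R (l.map (sh p)^[(-phase l).val]) := by
        simp only [nm, LinearMap.sum_apply, map_sum, lmap_pow_sg, proj_sg, phase_map (hne l hl)]
        rw [← sum_range_ite (-phase l) fun k => sg R (l.map (sh p)^[k])]
        refine Finset.sum_congr rfl fun k _ => ?_
        refine if_congr ?_ rfl rfl
        rw [add_eq_zero_iff_neg_eq]
      simp only [LinearMap.sub_apply, LinearMap.id_apply, LinearMap.comp_apply, h2]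
      refine ⟨nm (-phase l).val (sh p) (sg R l), ?_, ?_⟩
      · simp only [nm, LinearMap.sum_apply]
        exact Submodule.sum_mem _ fun k _ => lmap_pow_mem k (sg_mem hl)
      · have h3 := mul_neg_geom_sum (lmap (sh p) : Module.End R (Ch R (ℕ × ZMod p)))
          (-phase l).val
        have h4 := LinearMap.congr_fun h3 (sg R l)
        rw [LinearMap.sub_apply, lmap_pow_sg] at h4
        exact h4

lemma nm_apply_nil (g : A → A) (c : Ch R A) : nm p g c [] = p * c [] := by
  have h1 : ∀ k : ℕ, (((lmap g : Module.End R (Ch R A)) ^ k) c) [] = c [] := by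
    intro k
    have : (Finsupp.lapply [] ∘ₗ ((lmap g : Module.End R (Ch R A)) ^ k) : Ch R A →ₗ[R] R) =
        Finsupp.lapply [] := hom_ext fun l => by
      simp only [LinearMap.comp_apply, lmap_pow_sg, Finsupp.lapply_apply]
      cases l <;> simp [sg]
    exact LinearMap.congr_fun this c
  simp [nm, LinearMap.sum_apply, Finsupp.finsetSum_apply, h1]

/-- A generalised sphere of labels has nonzero chains. -/
lemma descent (hp : 2 ≤ p) (k : ℕ) (d : ℕ → Ch (ZMod p) (ℕ × ZMod p))
    (hd : ∀ i ≤ k, d i ∈ S (ZMod p) fun l => l.length = i + 1)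
    (hb : ∀ i ≤ k, bd (d i) = cyc p (sh p) d i) (h0 : d k = 0) : False := by
  have : NeZero p := ⟨by omega⟩
  have : Fact (1 < p) := ⟨by omega⟩
  have key : ∀ m i, i + m = k → ∃ e, ∃ e0 ∈ S (ZMod p) fun l => l.length = i + 1,
      d i - bd e = tau p (sh p) (i + 1) e0 := by
    intro m
    induction m with
    | zero =>
      intro i hi
      obtain rfl : i = k := by simpa using hi
      exact ⟨0, 0, Submodule.zero_mem _, by simp [h0]⟩
    | succ m ih =>
      intro i hi
      obtain ⟨e, e0, he0, h⟩ := ih (i + 1) (by omega)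
      have h1 := congrArg bd h
      rw [map_sub, bd_bd, sub_zero, hb _ (by omega), bd_tau, tau_add_two] at h1
      have h2 : tau p (sh p) i (d i - bd e0) = 0 := by
        rw [map_sub, ← h1]; exact sub_self _
      have h3 : d i - bd e0 ∈ S (ZMod p) fun l => l.length = i + 1 := by
        refine Submodule.sub_mem _ (hd i (by omega)) (map_mem _ _ (fun l hl => ?_) he0)
        exact S_mono (fun m hm => by have := hm.1; omega) (bd_sg_mem l)
      obtain ⟨e1, he1, h4⟩ := exact_step i i h3 h2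
      exact ⟨e0, e1, he1, h4⟩
  obtain ⟨e, e0, -, h⟩ := key k 0 (by simp)
  have h1 := congrArg bd h
  rw [map_sub, bd_bd, sub_zero, hb 0 (by omega), bd_tau] at h1
  have h2 := DFunLike.congr_fun h1 []
  have h3 : tau p (sh p) (0 + 1) = (nm p (sh p) : Module.End (ZMod p) _) := by simp [tau]
  rw [h3, nm_apply_nil] at h2
  simp [cyc, sg] at h2

/-- The cone that kills the lists starting with the apex. -/
noncomputable def cone' (x : ℕ × ZMod p) : Ch R (ℕ × ZMod p) →ₗ[R] Ch R (ℕ × ZMod p) :=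
  ext fun l => if l.head? = some x then 0 else sg R (x :: l)

lemma cone'_sg (x : ℕ × ZMod p) (l : List (ℕ × ZMod p)) :
    cone' x (sg R l) = if l.head? = some x then 0 else sg R (x :: l) := ext_sg _ _

/-- Strictly decreasing lists of labels below `x`. -/
def Dec (x : ℕ × ZMod p) (m : List (ℕ × ZMod p)) : Prop :=
  m.Pairwise (fun u v => v.1 < u.1) ∧ ∀ u ∈ m, u.1 < x.1 ∨ u = x

lemma Dec.lt {x : ℕ × ZMod p} {m : List (ℕ × ZMod p)} (h : Dec x m) (hx : m.head? ≠ some x) :
    ∀ u ∈ m, u.1 < x.1 := by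
  cases m with
  | nil => simp
  | cons y r =>
    have hy : y.1 < x.1 := (h.2 y (by simp)).resolve_right (by simpa using hx)
    intro u hu
    rcases List.mem_cons.1 hu with rfl | hu
    · exact hy
    · exact ((List.pairwise_cons.1 h.1).1 u hu).trans hy

lemma cone'_eq_cone {x : ℕ × ZMod p} {c : Ch R (ℕ × ZMod p)}
    (hc : c ∈ S R fun m => ∀ u ∈ m, u.1 < x.1) : cone' x c = cone x c := by
  refine congr_on _ _ (fun m hm => ?_) hc
  rw [cone'_sg, cone_sg, if_neg]
  intro h
  exact lt_irrefl _ (hm x (List.mem_of_mem_head? h))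

lemma cone'_cone (x : ℕ × ZMod p) (c : Ch R (ℕ × ZMod p)) : cone' x (cone x c) = 0 := by
  have : (cone' x ∘ₗ cone x : Ch R (ℕ × ZMod p) →ₗ[R] Ch R (ℕ × ZMod p)) = 0 :=
    hom_ext fun l => by simp [cone'_sg]
  exact LinearMap.congr_fun this c

lemma bd_cone' {x : ℕ × ZMod p} {c : Ch R (ℕ × ZMod p)} (hc : c ∈ S R (Dec x)) :
    bd (cone' x c) = c - cone' x (bd c) := by
  refine congr_on (bd ∘ₗ cone' x) (LinearMap.id - cone' x ∘ₗ bd) (fun m hm => ?_) hc
  simp only [LinearMap.comp_apply, LinearMap.sub_apply, LinearMap.id_apply]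
  rw [cone'_sg]
  split_ifs with h
  · cases m with
    | nil => simp at h
    | cons y r =>
      obtain rfl : y = x := by simpa using h
      rw [bd_cons, map_sub, cone'_cone, cone'_eq_cone (sg_mem (List.pairwise_cons.1 hm.1).1)]
      simp
  · rw [bd_cons, cone'_eq_cone]
    exact S_mono (fun m' hm' u hu => hm.lt h u (hm'.2.subset hu)) (bd_sg_mem m)

lemma cone'_mem {x : ℕ × ZMod p} {n : ℕ} {c : Ch R (ℕ × ZMod p)}
    (hc : c ∈ S R fun m => m.length = n ∧ Dec x m) :
    cone' x c ∈ S R fun m => m.length = n + 1 ∧ Dec x m := by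
  refine map_mem _ _ (fun m hm => ?_) hc
  rw [cone'_sg]
  split_ifs with h
  · exact Submodule.zero_mem _
  · refine sg_mem ⟨by simp [hm.1], List.pairwise_cons.2 ⟨hm.2.lt h, hm.2.1⟩, fun u hu => ?_⟩
    rcases List.mem_cons.1 hu with rfl | hu
    · exact Or.inr rfl
    · exact hm.2.2 u hu

lemma lmap_cone' (x : ℕ × ZMod p) (c : Ch R (ℕ × ZMod p)) :
    lmap (sh p) (cone' x c) = cone' (sh p x) (lmap (sh p) c) := by
  have : (lmap (sh p) ∘ₗ cone' x : Ch R (ℕ × ZMod p) →ₗ[R] Ch R (ℕ × ZMod p)) =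
      cone' (sh p x) ∘ₗ lmap (sh p) := hom_ext fun l => by
    simp only [LinearMap.comp_apply, lmap_sg, cone'_sg]
    have : (l.map (sh p)).head? = some (sh p x) ↔ l.head? = some x := by
      cases l <;> simp [sh_injective.eq_iff]
    simp only [this]
    split_ifs <;> simp
  exact LinearMap.congr_fun this c

lemma length_le_of_pairwise : ∀ (m : List (ℕ × ZMod p)) (k : ℕ),
    m.Pairwise (fun u v => v.1 < u.1) → (∀ u ∈ m, u.1 < k) → m.length ≤ k
  | [], _, _, _ => by simp
  | y :: r, k, h1, h2 => by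
    have := length_le_of_pairwise r y.1 (List.pairwise_cons.1 h1).2 (List.pairwise_cons.1 h1).1
    have := h2 y (by simp)
    simp only [List.length_cons]
    omega

variable (O : ℕ → ZMod p → Set A)

/-- A list is good if it lies in one of the sets. -/
def Good (l : List A) : Prop := ∃ j a, ∀ x ∈ l, x ∈ O j a

open Classical in
/-- The label of a good list. -/
noncomputable def lab (l : List A) : ℕ × ZMod p :=
  if h : Good O l then (Nat.find h, (Nat.find_spec h).choose) else (0, 0)

variable {O}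

lemma lab_spec {l : List A} (h : Good O l) :
    (∀ x ∈ l, x ∈ O (lab O l).1 (lab O l).2) ∧
      ∀ j a, (∀ x ∈ l, x ∈ O j a) → (lab O l).1 ≤ j := by
  classical
  unfold lab
  rw [dif_pos h]
  exact ⟨(Nat.find_spec h).choose_spec, fun j a hj => Nat.find_min' h ⟨a, hj⟩⟩

lemma Good.sub {l m : List A} (h : Good O l) (hm : ∀ x ∈ m, x ∈ l) : Good O m := by
  obtain ⟨j, a, h⟩ := h
  exact ⟨j, a, fun x hx => h x (hm x hx)⟩

lemma lab_sub (hdisj : ∀ j a a' x, x ∈ O j a → x ∈ O j a' → a = a') {l m : List A}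
    (h : Good O l) (hm : ∀ x ∈ m, x ∈ l) (hne : m ≠ []) :
    (lab O m).1 < (lab O l).1 ∨ lab O m = lab O l := by
  have h1 := lab_spec h
  have h2 := lab_spec (h.sub hm)
  rcases (h2.2 _ _ fun x hx => h1.1 x (hm x hx)).lt_or_eq with h3 | h3
  · exact Or.inl h3
  · obtain ⟨x, hx⟩ := List.exists_mem_of_ne_nil m hne
    exact Or.inr (Prod.ext h3 (hdisj _ _ _ x (h3 ▸ h2.1 x hx) (h1.1 x (hm x hx))))

lemma Good.map {g : A → A} (hmap : ∀ j a x, x ∈ O j a → g x ∈ O j (a + 1)) {l : List A}
    (h : Good O l) : Good O (l.map g) := by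
  obtain ⟨j, a, h⟩ := h
  refine ⟨j, a + 1, fun y hy => ?_⟩
  obtain ⟨x, hx, rfl⟩ := List.mem_map.1 hy
  exact hmap _ _ _ (h x hx)

lemma lab_map (hp : 2 ≤ p) {g : A → A} (hg : ∀ x, g^[p] x = x)
    (hmap : ∀ j a x, x ∈ O j a → g x ∈ O j (a + 1))
    (hdisj : ∀ j a a' x, x ∈ O j a → x ∈ O j a' → a = a') {l : List A}
    (h : Good O l) (hne : l ≠ []) : lab O (l.map g) = sh p (lab O l) := by
  have h1 := lab_spec h
  have h2 := lab_spec (h.map hmap)
  have hit : ∀ (n : ℕ) j a x, x ∈ O j a → g^[n] x ∈ O j (a + n) := by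
    intro n j a x hx
    induction n with
    | zero => simpa using hx
    | succ n ih =>
      rw [Function.iterate_succ_apply', Nat.cast_succ, ← add_assoc]
      exact hmap _ _ _ ih
  have h3 : ∀ y ∈ l.map g, y ∈ O (lab O l).1 ((lab O l).2 + 1) := fun y hy => by
    obtain ⟨x, hx, rfl⟩ := List.mem_map.1 hy
    exact hmap _ _ _ (h1.1 x hx)
  have h4 : (lab O (l.map g)).1 = (lab O l).1 := by
    refine le_antisymm (h2.2 _ _ h3) (h1.2 _ ((lab O (l.map g)).2 + (p - 1 : ℕ)) fun x hx => ?_)
    have := hit (p - 1) _ _ _ (h2.1 (g x) (List.mem_map_of_mem hx))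
    rwa [← Function.iterate_succ_apply, show (p - 1).succ = p by omega, hg] at this
  obtain ⟨x, hx⟩ := List.exists_mem_of_ne_nil l hne
  exact Prod.ext h4 (hdisj _ _ _ (g x) (h4 ▸ h2.1 _ (List.mem_map_of_mem hx))
    (h3 _ (List.mem_map_of_mem hx)))

variable (O) in
/-- The chain map to lists of labels. -/
noncomputable def Phi : ℕ → (Ch R A →ₗ[R] Ch R (ℕ × ZMod p))
  | 0 => ext fun _ => sg R []
  | n + 1 => ext fun l => cone' (lab O l) (Phi n (bd (sg R l)))

lemma Phi_zero (l : List A) : Phi O 0 (sg R l) = sg R [] := ext_sg _ _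

lemma Phi_succ (n : ℕ) (l : List A) :
    Phi O (n + 1) (sg R l) = cone' (lab O l) (Phi O n (bd (sg R l))) := ext_sg _ _

lemma bd_mem_good {n : ℕ} {l : List A} (hl : l.length = n + 1) (h : Good O l) :
    bd (sg R l) ∈ S R fun m => m.length = n ∧ Good O m :=
  S_mono (fun m hm => ⟨by have := hm.1; omega, h.sub fun _ hx => hm.2.subset hx⟩) (bd_sg_mem l)

lemma Phi_mem (hdisj : ∀ j a a' x, x ∈ O j a → x ∈ O j a' → a = a') (n : ℕ) :
    ∀ (l : List A) (x : ℕ × ZMod p), l.length = n → Good O l →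
      (l ≠ [] → (lab O l).1 < x.1 ∨ lab O l = x) →
      Phi O n (sg R l) ∈ S R fun m => m.length = n ∧ Dec x m := by
  induction n with
  | zero =>
    intro l x _ _ _
    rw [Phi_zero]
    exact sg_mem ⟨rfl, by simp [Dec]⟩
  | succ n ih =>
    intro l x hl h hx
    rw [Phi_succ]
    have h1 : Phi O n (bd (sg R l)) ∈ S R fun m => m.length = n ∧ Dec (lab O l) m :=
      map_mem _ _ (fun m hm => ih m _ (by have := hm.1; omega) (h.sub fun _ hx => hm.2.subset hx)
        (lab_sub hdisj h fun _ hx => hm.2.subset hx)) (bd_sg_mem l)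
    refine S_mono (fun m hm => ⟨hm.1, hm.2.1, fun u hu => ?_⟩) (cone'_mem h1)
    rcases hx (by rintro rfl; simp at hl) with h2 | h2
    · rcases hm.2.2 u hu with h3 | rfl
      · exact Or.inl (h3.trans h2)
      · exact Or.inl h2
    · rw [← h2]; exact hm.2.2 u hu

lemma bd_Phi (hdisj : ∀ j a a' x, x ∈ O j a → x ∈ O j a' → a = a') (n : ℕ) :
    ∀ c ∈ S R fun l => l.length = n + 1 ∧ Good O l,
      bd (Phi O (n + 1) c) = Phi O n (bd c) := by
  have aux : ∀ (n : ℕ) (l : List A), l.length = n + 1 → Good O l →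
      bd (Phi O n (bd (sg R l))) = 0 → bd (Phi O (n + 1) (sg R l)) = Phi O n (bd (sg R l)) := by
    intro n l hl h h0
    rw [Phi_succ, bd_cone', h0, map_zero, sub_zero]
    exact map_mem _ _ (fun m hm => S_mono (fun _ h' => h'.2)
      (Phi_mem hdisj n m _ (by have := hm.1; omega) (h.sub fun _ hx => hm.2.subset hx)
        (lab_sub hdisj h fun _ hx => hm.2.subset hx))) (bd_sg_mem l)
  induction n with
  | zero =>
    intro c hc
    refine congr_on (bd ∘ₗ Phi O 1) (Phi O 0 ∘ₗ bd) (fun l hl => aux 0 l hl.1 hl.2 ?_) hc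
    have : (bd ∘ₗ Phi O 0 : Ch R A →ₗ[R] Ch R (ℕ × ZMod p)) = 0 := hom_ext fun l => by
      simp [Phi_zero]
    exact LinearMap.congr_fun this _
  | succ n ih =>
    intro c hc
    refine congr_on (bd ∘ₗ Phi O (n + 2)) (Phi O (n + 1) ∘ₗ bd)
      (fun l hl => aux (n + 1) l hl.1 hl.2 ?_) hc
    rw [ih _ (bd_mem_good hl.1 hl.2), bd_bd, map_zero]

lemma Phi_lmap (hp : 2 ≤ p) {g : A → A} (hg : ∀ x, g^[p] x = x)
    (hmap : ∀ j a x, x ∈ O j a → g x ∈ O j (a + 1))
    (hdisj : ∀ j a a' x, x ∈ O j a → x ∈ O j a' → a = a') (n : ℕ) :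
    ∀ c ∈ S R fun l => l.length = n ∧ Good O l,
      Phi O n (lmap g c) = lmap (sh p) (Phi O n c) := by
  induction n with
  | zero =>
    intro c hc
    exact congr_on (Phi O 0 ∘ₗ lmap g) (lmap (sh p) ∘ₗ Phi O 0)
      (fun l _ => by simp [Phi_zero]) hc
  | succ n ih =>
    intro c hc
    refine congr_on (Phi O (n + 1) ∘ₗ lmap g) (lmap (sh p) ∘ₗ Phi O (n + 1))
      (fun l hl => ?_) hc
    simp only [LinearMap.comp_apply, lmap_sg, Phi_succ]
    rw [lab_map hp hg hmap hdisj hl.2 (by rintro rfl; simp at hl), lmap_cone',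
      ← ih _ (bd_mem_good hl.1 hl.2), lmap_bd, lmap_sg]

/-- No generalised sphere of dimension `k` consists of good lists for `k` cyclic families. -/
theorem no_sphere (hp : 2 ≤ p) {g : A → A} (hg : ∀ x, g^[p] x = x)
    (hmap : ∀ j a x, x ∈ O j a → g x ∈ O j (a + 1))
    (hdisj : ∀ j a a' x, x ∈ O j a → x ∈ O j a' → a = a') (k : ℕ)
    (hk : ∀ j a x, x ∈ O j a → j < k) (c : ℕ → Ch (ZMod p) A)
    (hc : ∀ i ≤ k, c i ∈ S (ZMod p) fun l => l.length = i + 1 ∧ Good O l)
    (hb : ∀ i ≤ k, bd (c i) = cyc p g c i) : False := by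
  refine descent hp k (fun i => Phi O (i + 1) (c i)) (fun i hi => ?_) (fun i hi => ?_) ?_
  · exact map_mem _ _ (fun l hl => S_mono (fun _ h' => h'.1)
      (Phi_mem hdisj _ l _ hl.1 hl.2 fun _ => Or.inr rfl)) (hc i hi)
  · rw [bd_Phi hdisj i _ (hc i hi), hb i hi]
    cases i with
    | zero => exact Phi_zero _
    | succ i =>
      refine (map_tau (Phi O (i + 1)) _ (fun c hc => map_mem _ _ (fun l hl => ?_) hc)
        (Phi_lmap hp hg hmap hdisj (i + 1)) i (hc i (by omega))).2
      rw [lmap_sg]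
      exact sg_mem ⟨by simpa using hl.1, hl.2.map hmap⟩
  · have := map_mem (Phi O (k + 1)) ⊥ (fun l hl => ?_) (hc k le_rfl)
    · simpa using this
    · obtain ⟨x, hx⟩ := List.exists_mem_of_ne_nil l (by rintro rfl; simp at hl)
      have h1 := hk _ _ _ ((lab_spec hl.2).1 x hx)
      refine (Submodule.mem_bot _).2 (eq_zero_of_S (fun m hm => ?_)
        (Phi_mem hdisj _ l _ hl.1 hl.2 fun _ => Or.inr rfl))
      have := length_le_of_pairwise m k hm.2.1 fun u hu => by
        rcases hm.2.2 u hu with h | rfl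
        · exact h.trans h1
        · exact h1
      have := hm.1
      omega

end Pool.Agent.MP_8bdec9_gt.LS
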