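import Mathlib.LinearAlgebra.FreeModule.StrongRankCondition
import Mathlib.LinearAlgebra.FiniteDimensional.Lemmas
import Mathlib.RingTheory.Flat.TorsionFree
import Mathlib.Analysis.Normed.Operator.BoundedLinearMaps
import Mathlib.Algebra.Order.Star.Real
import Mathlib.GroupTheory.CosetCover
import Mathlib.RingTheory.SimpleRing.Principal
import Mathlib.Tactic.Algebra.Basic
import Pool.Agent.MP_8bdec9_gt.LSLabel

/-!
The `Z_p` Lyusternik-Schnirelmann covering lemma.
-/

namespace Pool.Agent.MP_8bdec9_gt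

namespace LS

variable {R : Type*} [CommRing R] {X : Type*} [NormedAddCommGroup X] [NormedSpace ℝ X]

/-- Lists with entries in `Y` and of diameter at most `eps`. -/
def Sm (N : Seminorm ℝ X) (Y : Set X) (eps : ℝ) (l : List X) : Prop :=
  (∀ x ∈ l, x ∈ Y) ∧ ∀ x ∈ l, ∀ y ∈ l, N (x - y) ≤ eps

/-- A small cycle in `Y` bounds a small chain in the cone over `Y`. -/
lemma fill (N : Seminorm ℝ X) {Y Y' : Set X} {v : X} {C eps : ℝ} (heps : 0 < eps)
    (hC : ∀ y ∈ Y, N (y - v) ≤ C) (hv : v ∈ Y')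
    (hY' : ∀ x ∈ Y, ∀ s : ℝ, 0 ≤ s → s ≤ 1 → (1 - s) • x + s • v ∈ Y') {q : ℕ} {z : Ch R X}
    (hz : z ∈ S R fun l => l.length = q ∧ Sm N Y (eps / 2) l) (hbd : bd z = 0) :
    ∃ c ∈ S R fun l => l.length = q + 1 ∧ Sm N Y' eps l, bd c = z := by
  obtain ⟨M, hM⟩ := exists_nat_gt (max 0 (2 * C / eps))
  have hM0 : (0 : ℝ) < M := (le_max_left _ _).trans_lt hM
  have hMC : C / M ≤ eps / 2 := by
    have h1 : 2 * C / eps < M := (le_max_right _ _).trans_lt hM
    rw [div_lt_iff₀ heps] at h1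
    rw [div_le_iff₀ hM0]
    linarith
  let f : ℕ → X → X := fun i x => (1 - (i : ℝ) / M) • x + ((i : ℝ) / M) • v
  have hf0 : f 0 = fun x => x := by funext x; simp [f]
  have hfM : f M = fun _ => v := by funext x; simp [f, hM0.ne']
  have htel : ∑ i ∈ Finset.range M, bd (prism (f i) (f (i + 1)) z) = lmap (f M) z - z := by
    have h1 : ∀ i, bd (prism (f i) (f (i + 1)) z) = lmap (f (i + 1)) z - lmap (f i) z := by
      intro i
      rw [← bd_prism, hbd, map_zero, add_zero]
    simp only [h1]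
    rw [Finset.sum_range_sub (fun i => lmap (f i) z), hf0, lmap_id]
  refine ⟨cone v (lmap (f M) z) - ∑ i ∈ Finset.range M, prism (f i) (f (i + 1)) z,
    Submodule.sub_mem _ ?_ (Submodule.sum_mem _ fun i hi => ?_), ?_⟩
  · refine map_mem (cone v ∘ₗ lmap (f M)) _ (fun l hl => ?_) hz
    simp only [LinearMap.comp_apply, lmap_sg, cone_sg]
    have hall : ∀ x ∈ v :: l.map (f M), x = v := by
      intro x hx
      rcases List.mem_cons.1 hx with rfl | hx
      · rfl
      · obtain ⟨y, -, rfl⟩ := List.mem_map.1 hx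
        rw [hfM]
    refine sg_mem ⟨by simp [hl.1], fun x hx => hall x hx ▸ hv, fun x hx y hy => ?_⟩
    rw [hall x hx, hall y hy, sub_self, map_zero]
    exact heps.le
  · have hi' : i + 1 ≤ M := Finset.mem_range.1 hi
    refine map_mem _ _ (fun l hl => S_mono (fun m hm => ?_) (prism_sg_mem _ _ l)) hz
    have hrep : ∀ y ∈ m, ∃ x ∈ l, ∃ j : ℕ, i ≤ j ∧ j ≤ i + 1 ∧ y = f j x := by
      intro y hy
      obtain ⟨x, hx, h | h⟩ := hm.2 y hy
      · exact ⟨x, hx, i, le_rfl, by omega, h⟩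
      · exact ⟨x, hx, i + 1, by omega, le_rfl, h⟩
    have hs : ∀ j : ℕ, j ≤ i + 1 → 0 ≤ (j : ℝ) / M ∧ (j : ℝ) / M ≤ 1 := by
      intro j hj
      refine ⟨by positivity, (div_le_one hM0).2 ?_⟩
      exact_mod_cast hj.trans hi'
    refine ⟨by rw [hm.1, hl.1], fun y hy => ?_, fun y hy y' hy' => ?_⟩
    · obtain ⟨x, hx, j, -, hj, rfl⟩ := hrep y hy
      exact hY' x (hl.2.1 x hx) _ (hs j hj).1 (hs j hj).2
    · obtain ⟨x, hx, j, hj1, hj, rfl⟩ := hrep y hy
      obtain ⟨x', hx', j', hj1', hj', rfl⟩ := hrep y' hy'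
      have e : f j x - f j' x' =
          (1 - (j : ℝ) / M) • (x - x') + (((j' : ℝ) - j) / M) • (x' - v) := by
        simp only [f, sub_div]
        module
      have h1 : N ((1 - (j : ℝ) / M) • (x - x')) ≤ eps / 2 := by
        rw [map_smul_eq_mul, Real.norm_of_nonneg (by linarith [(hs j hj).2])]
        have := hl.2.2 x hx x' hx'
        have h0 := apply_nonneg N (x - x')
        nlinarith [(hs j hj).1]
      have h2 : N ((((j' : ℝ) - j) / M) • (x' - v)) ≤ C / M := by
        rw [map_smul_eq_mul, Real.norm_eq_abs, abs_div, abs_of_pos hM0, div_mul_eq_mul_div]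
        refine div_le_div_of_nonneg_right ?_ hM0.le
        have h3 : |(j' : ℝ) - j| ≤ 1 := by
          have a1 : (i : ℝ) ≤ j := by exact_mod_cast hj1
          have a2 : (i : ℝ) ≤ j' := by exact_mod_cast hj1'
          have a3 : (j : ℝ) ≤ i + 1 := by exact_mod_cast hj
          have a4 : (j' : ℝ) ≤ i + 1 := by exact_mod_cast hj'
          rw [abs_le]; constructor <;> linarith
        have h4 := hC x' (hl.2.1 x' hx')
        have h0 := apply_nonneg N (x' - v)
        nlinarith [abs_nonneg ((j' : ℝ) - j)]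
      rw [e]
      linarith [map_add_le_add N ((1 - (j : ℝ) / M) • (x - x')) ((((j' : ℝ) - j) / M) • (x' - v))]
  · rw [map_sub, map_sum, htel, bd_cone, ← lmap_bd, hbd]
    simp

lemma Sm.mono {N : Seminorm ℝ X} {Y Y' : Set X} {eps eps' : ℝ} (hY : Y ⊆ Y') (he : eps ≤ eps')
    {l : List X} (h : Sm N Y eps l) : Sm N Y' eps' l :=
  ⟨fun x hx => hY (h.1 x hx), fun x hx y hy => (h.2 x hx y hy).trans he⟩

/-- Arbitrarily fine generalised spheres inside a compact set missing the origin. -/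
lemma exists_sphere [FiniteDimensional ℝ X] {p : ℕ} (hp : 2 ≤ p) (g : X →L[ℝ] X)
    (hg : ∀ x, g^[p] x = x) (N : Seminorm ℝ X) (hNg : ∀ x, N (g x) = N x) (hNc : Continuous N)
    (q : ℕ) (hq : q ≤ Module.finrank ℝ X) :
    ∃ Y : Set X, IsCompact Y ∧ (0 : X) ∉ Y ∧ (∀ x ∈ Y, g x ∈ Y) ∧
      (∃ T : Finset (Submodule ℝ X), ⊥ ∈ T ∧ (∀ W ∈ T, Module.finrank ℝ W ≤ q) ∧
        ∀ x ∈ Y, ∃ W ∈ T, x ∈ W) ∧
      ∀ eps : ℝ, 0 < eps → ∃ c : ℕ → Ch R X, ∀ i < q,
        (c i ∈ S R fun l => l.length = i + 1 ∧ Sm N Y eps l) ∧ bd (c i) = cyc p g c i := by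
  classical
  induction q with
  | zero =>
    exact ⟨∅, isCompact_empty, by simp, by simp, ⟨{⊥}, by simp, by simp, by simp⟩,
      fun _ _ => ⟨fun _ => 0, by simp⟩⟩
  | succ q ih =>
    obtain ⟨Y, hYc, hY0, hYg, ⟨T, hT0, hTr, hTY⟩, hsph⟩ := ih (by omega)
    have hpow : ∀ (a : ℕ) (x : X), (g ^ a) x = g^[a] x := fun a x => by
      rw [FunLike.coe_pow_eq_iterate]
    have hback : ∀ a < p, ∀ x : X, (g ^ (p - a)) ((g ^ a) x) = x := by
      intro a ha x
      rw [hpow, hpow, ← Function.iterate_add_apply, Nat.sub_add_cancel ha.le, hg]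
    obtain ⟨v, hv⟩ : ∃ v : X, ∀ a < p, ∀ W ∈ T, (g ^ a) v ∉ W := by
      have hne := Subspace.biUnion_ne_univ_of_top_notMem
        (s := (Finset.range p ×ˢ T).image fun aW : ℕ × Submodule ℝ X =>
          aW.2.map ((g ^ (p - aW.1) : X →L[ℝ] X) : X →ₗ[ℝ] X)) (by
        intro h
        obtain ⟨⟨a, W⟩, haW, h⟩ := Finset.mem_image.1 h
        have h1 := Submodule.finrank_map_le ((g ^ (p - a) : X →L[ℝ] X) : X →ₗ[ℝ] X) W
        have h2 := hTr W (Finset.mem_product.1 haW).2
        simp only at h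
        rw [h, finrank_top] at h1
        omega)
      obtain ⟨v, hv⟩ := (Set.ne_univ_iff_exists_notMem _).1 hne
      refine ⟨v, fun a ha W hW h => hv ?_⟩
      simp only [Set.mem_iUnion]
      refine ⟨_, Finset.mem_image.2 ⟨(a, W), Finset.mem_product.2 ⟨Finset.mem_range.2 ha, hW⟩,
        rfl⟩, (g ^ a) v, h, hback a ha v⟩
    let orb : Set X := (fun a => (g ^ a) v) '' {a | a < p}
    have horbc : IsCompact orb := ((Set.finite_lt_nat p).image _).isCompact
    have horbg : ∀ w ∈ orb, g w ∈ orb := by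
      rintro _ ⟨a, ha, rfl⟩
      by_cases h : a + 1 < p
      · exact ⟨a + 1, h, by simp [pow_succ']⟩
      · refine ⟨0, by simp; omega, ?_⟩
        have ha' : a < p := ha
        have := hg v
        rw [show p = a + 1 by omega, Function.iterate_succ_apply', ← hpow] at this
        simpa using this.symm
    have hvorb : v ∈ orb := ⟨0, by simp; omega, by simp⟩
    let F : X × ℝ × X → X := fun t => (1 - t.2.1) • t.1 + t.2.1 • t.2.2
    let Y' : Set X := orb ∪ F '' (Y ×ˢ Set.Icc (0 : ℝ) 1 ×ˢ orb)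
    have hYY' : Y ⊆ Y' := fun x hx =>
      Or.inr ⟨(x, 0, v), ⟨hx, by simp, hvorb⟩, by simp [F]⟩
    refine ⟨Y', horbc.union ((hYc.prod (isCompact_Icc.prod horbc)).image (by fun_prop)),
      ?_, ?_, ?_, ?_⟩
    · rintro (⟨a, ha, h⟩ | ⟨⟨x, s, _⟩, ⟨hx, hs, a, ha, rfl⟩, h⟩)
      · exact hv a ha ⊥ hT0 (by simpa using h)
      · simp only [F] at h
        obtain ⟨W, hW, hxW⟩ := hTY x hx
        by_cases hs0 : s = 0
        · apply hY0
          simp only [hs0, sub_zero, one_smul, zero_smul, add_zero] at h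
          exact h ▸ hx
        · apply hv a ha W hW
          have : (g ^ a) v = (-(s⁻¹ * (1 - s))) • x := by
            have h1 : s • (g ^ a) v = -((1 - s) • x) := eq_neg_of_add_eq_zero_right h
            calc (g ^ a) v = s⁻¹ • s • (g ^ a) v := by rw [smul_smul, inv_mul_cancel₀ hs0, one_smul]
              _ = _ := by rw [h1, smul_neg, smul_smul, neg_smul]
          rw [this]
          exact W.smul_mem _ hxW
    · rintro _ (h | ⟨⟨x, s, w⟩, ⟨hx, hs, hw⟩, rfl⟩)
      · exact Or.inl (horbg _ h)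
      · exact Or.inr ⟨(g x, s, g w), ⟨hYg x hx, hs, horbg w hw⟩, by simp [F]⟩
    · refine ⟨insert ⊥ ((Finset.range p ×ˢ T).image fun aW : ℕ × Submodule ℝ X =>
        aW.2 ⊔ Submodule.span ℝ {(g ^ aW.1) v}), by simp, fun W hW => ?_, fun x hx => ?_⟩
      · rcases Finset.mem_insert.1 hW with rfl | hW
        · simp
        · obtain ⟨⟨a, W⟩, haW, rfl⟩ := Finset.mem_image.1 hW
          have h1 := Submodule.finrank_add_le_finrank_add_finrank W
            (Submodule.span ℝ {(g ^ a) v})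
          have h2 := hTr W (Finset.mem_product.1 haW).2
          have h3 : Module.finrank ℝ (Submodule.span ℝ {(g ^ a) v}) ≤ 1 := by
            simpa using finrank_span_le_card (R := ℝ) ({(g ^ a) v} : Set X)
          simp only
          omega
      · rcases hx with ⟨a, ha, rfl⟩ | ⟨⟨x, s, _⟩, ⟨hx, hs, a, ha, rfl⟩, rfl⟩
        · exact ⟨_, Finset.mem_insert_of_mem (Finset.mem_image.2 ⟨(a, ⊥),
            Finset.mem_product.2 ⟨Finset.mem_range.2 ha, hT0⟩, rfl⟩),
            Submodule.mem_sup_right (Submodule.mem_span_singleton_self _)⟩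
        · obtain ⟨W, hW, hxW⟩ := hTY x hx
          exact ⟨_, Finset.mem_insert_of_mem (Finset.mem_image.2 ⟨(a, W),
            Finset.mem_product.2 ⟨Finset.mem_range.2 ha, hW⟩, rfl⟩),
            Submodule.add_mem _ (Submodule.mem_sup_left (W.smul_mem _ hxW))
              (Submodule.mem_sup_right (Submodule.smul_mem _ _
                (Submodule.mem_span_singleton_self _)))⟩
    · intro eps heps
      obtain ⟨c, hc⟩ := hsph (eps / 2) (by positivity)
      obtain ⟨C, hC⟩ : ∃ C : ℝ, ∀ y ∈ Y, N (y - v) ≤ C := by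
        obtain ⟨C, hC⟩ := (hYc.image (f := fun y => N (y - v)) (by fun_prop)).bddAbove
        exact ⟨C, fun y hy => hC ⟨y, hy, rfl⟩⟩
      have hz : (cyc p g c q ∈ S R fun l => l.length = q ∧ Sm N Y (eps / 2) l) ∧
          bd (cyc p g c q) = 0 := by
        cases q with
        | zero => exact ⟨sg_mem ⟨rfl, by simp [Sm]⟩, bd_nil⟩
        | succ i =>
          refine ⟨(map_tau (g' := g) LinearMap.id _ (fun c hc => map_mem _ _ (fun l hl => ?_) hc)
            (fun _ _ => rfl) i (hc i (by omega)).1).1, ?_⟩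
          · rw [lmap_sg]
            refine sg_mem ⟨by simpa using hl.1, fun y hy => ?_, fun y hy y' hy' => ?_⟩
            · obtain ⟨x, hx, rfl⟩ := List.mem_map.1 hy
              exact hYg x (hl.2.1 x hx)
            · obtain ⟨x, hx, rfl⟩ := List.mem_map.1 hy
              obtain ⟨x', hx', rfl⟩ := List.mem_map.1 hy'
              rw [← map_sub, hNg]
              exact hl.2.2 x hx x' hx'
          · show bd (tau p g i (c i)) = 0
            rw [bd_tau, (hc i (by omega)).2]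
            cases i with
            | zero => simp [cyc, tau, sig]
            | succ j => exact tau_tau hg j _
      obtain ⟨c', hc', hbd⟩ := fill N (Y' := Y') heps hC (Or.inl hvorb)
        (fun x hx s h0 h1 => Or.inr ⟨(x, s, v), ⟨hx, ⟨h0, h1⟩, hvorb⟩, rfl⟩) hz.1 hz.2
      have hcyc : ∀ i ≤ q, cyc p g (Function.update c q c') i = cyc p g c i := by
        intro i hi
        cases i with
        | zero => rfl
        | succ j => simp only [cyc]; rw [Function.update_of_ne (by omega)]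
      refine ⟨Function.update c q c', fun i hi => ?_⟩
      rw [hcyc i (by omega)]
      by_cases hiq : i = q
      · subst hiq
        rw [Function.update_self]
        exact ⟨hc', hbd⟩
      · rw [Function.update_of_ne hiq]
        exact ⟨S_mono (fun l hl => ⟨hl.1, hl.2.mono hYY' (by linarith)⟩) (hc i (by omega)).1,
          (hc i (by omega)).2⟩

lemma exists_seminorm {p : ℕ} (hp : 2 ≤ p) (g : X →L[ℝ] X) (hg : ∀ x, g^[p] x = x) :
    ∃ N : Seminorm ℝ X, (∀ x, N (g x) = N x) ∧ Continuous N ∧ ∀ x, ‖x‖ ≤ N x := by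
  let N : Seminorm ℝ X := Seminorm.of (fun x => ∑ a ∈ Finset.range p, ‖(g ^ a) x‖)
    (fun x y => by
      rw [← Finset.sum_add_distrib]
      exact Finset.sum_le_sum fun a _ => by rw [map_add]; exact norm_add_le _ _)
    (fun c x => by simp only [map_smul, norm_smul, Finset.mul_sum])
  have hN : ∀ x, N x = ∑ a ∈ Finset.range p, ‖(g ^ a) x‖ := fun _ => rfl
  refine ⟨N, fun x => ?_, ?_, fun x => ?_⟩
  · rw [hN, hN]
    have h1 := Finset.sum_range_succ (fun a => ‖(g ^ a) x‖) p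
    have h2 := Finset.sum_range_succ' (fun a => ‖(g ^ a) x‖) p
    have h3 : (g ^ p) x = x := by rw [FunLike.coe_pow_eq_iterate, hg]
    simp only [h3, pow_zero, one_apply_eq_self, pow_succ,
      mul_apply_eq_comp] at h1 h2
    linarith
  · rw [show (N : X → ℝ) = fun x => ∑ a ∈ Finset.range p, ‖(g ^ a) x‖ from funext hN]
    fun_prop
  · rw [hN]
    have := Finset.single_le_sum (f := fun a => ‖(g ^ a) x‖) (s := Finset.range p)
      (fun _ _ => norm_nonneg _) (Finset.mem_range.2 (show 0 < p by omega))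
    simpa using this

end LS

open LS in
theorem zp_cover {X : Type*} [NormedAddCommGroup X] [NormedSpace ℝ X] [FiniteDimensional ℝ X]
    (p : ℕ) (hp : 2 ≤ p) (g : X →L[ℝ] X) (hg : ∀ x, g^[p] x = x)
    {ι : Type*} [Fintype ι] (hι : Fintype.card ι < Module.finrank ℝ X)
    (O : ι → ZMod p → Set X) (hO : ∀ j a, IsOpen (O j a))
    (hmap : ∀ j a x, x ∈ O j a → g x ∈ O j (a + 1))
    (hdisj : ∀ j a a' x, x ∈ O j a → x ∈ O j a' → a = a') :
    ∃ x : X, x ≠ 0 ∧ ∀ j a, x ∉ O j a := by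
  by_contra hcon
  push Not at hcon
  obtain ⟨N, hNg, hNc, hN⟩ := exists_seminorm hp g hg
  obtain ⟨Y, hYc, hY0, -, -, hsph⟩ :=
    exists_sphere (R := ZMod p) hp g hg N hNg hNc (Fintype.card ι + 1) hι
  obtain ⟨δ, hδ, hleb⟩ := lebesgue_number_lemma_of_metric (c := fun ja : ι × ZMod p => O ja.1 ja.2)
    hYc (fun ja => hO _ _) (fun x hx => by
      obtain ⟨j, a, h⟩ := hcon x (fun h => hY0 (h ▸ hx))
      exact Set.mem_iUnion.2 ⟨(j, a), h⟩)
  obtain ⟨c, hc⟩ := hsph (δ / 2) (by positivity)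
  let e := Fintype.equivFin ι
  let O' : ℕ → ZMod p → Set X := fun j a => {x | ∃ i : ι, (e i : ℕ) = j ∧ x ∈ O i a}
  refine no_sphere (O := O') hp hg ?_ ?_ (Fintype.card ι) ?_ c (fun i hi => ?_)
    (fun i hi => (hc i (by omega)).2)
  · rintro j a x ⟨i, hi, hx⟩
    exact ⟨i, hi, hmap _ _ _ hx⟩
  · rintro j a a' x ⟨i, hi, hx⟩ ⟨i', hi', hx'⟩
    obtain rfl : i = i' := e.injective (Fin.ext (hi.trans hi'.symm))
    exact hdisj _ _ _ _ hx hx'
  · rintro j a x ⟨i, rfl, -⟩
    exact (e i).2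
  · refine S_mono (fun l hl => ⟨hl.1, ?_⟩) (hc i (by omega)).1
    obtain ⟨x, hx⟩ := List.exists_mem_of_ne_nil l (by rintro rfl; simp at hl)
    obtain ⟨⟨j, a⟩, hja⟩ := hleb x (hl.2.1 x hx)
    refine ⟨e j, a, fun y hy => ⟨j, rfl, hja ?_⟩⟩
    rw [Metric.mem_ball, dist_eq_norm]
    linarith [hN (y - x), hl.2.2 y hy x hx]

end Pool.Agent.MP_8bdec9_gt
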