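import Mathlib.Analysis.SpecialFunctions.Complex.CircleAddChar
import Mathlib.Analysis.InnerProductSpace.NormDet
import Mathlib.MeasureTheory.Constructions.HaarToSphere
import Mathlib.RingTheory.SimpleRing.Principal
import Mathlib.Tactic.Polynomial.Basic

-- ======== part 0: formerly Pool.Agent.MP_8bdec9_gt.Stmts
section MrgPart0

/-! Intermediate statements for MP_8bdec9_gt, as propositions, so that the steps of the proof can
be proved in separate files. -/

open MeasureTheory Module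
open scoped ContDiff

namespace Pool.Agent.MP_8bdec9_gt

/-- The data of an equivariant `2`-homogeneous map `Φ : X → W`, where the cyclic group of order `p`
acts on `X` by `g` and on `W` by the isometry `U`, without nonzero fixed vectors in `W`, commuting
with the complex structure `J`. -/
structure ConeData (p : ℕ) {X W : Type} [NormedAddCommGroup X] [InnerProductSpace ℝ X]
    [NormedAddCommGroup W] [InnerProductSpace ℝ W]
    (g : X →L[ℝ] X) (J U : W ≃ₗᵢ[ℝ] W) (Φ : X → W) : Prop where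
  hg : ∀ x, g^[p] x = x
  hJ : ∀ w, J (J w) = -w
  hUJ : ∀ w, U (J w) = J (U w)
  hU : ∀ w, U^[p] w = w
  hUfree : ∀ w, U w = w → w = 0
  diff : Differentiable ℝ Φ
  equi : ∀ x, Φ (g x) = U (Φ x)
  hom : ∀ t : ℝ, 0 < t → ∀ x, Φ (t • x) = t ^ 2 • Φ x
  ne : ∀ x, x ≠ 0 → Φ x ≠ 0

/-- The Gaussian area of a map. -/
noncomputable def gaussArea {X W : Type} [NormedAddCommGroup X] [InnerProductSpace ℝ X]
    [FiniteDimensional ℝ X] [MeasurableSpace X] [BorelSpace X]
    [NormedAddCommGroup W] [InnerProductSpace ℝ W] (Φ : X → W) : ENNReal :=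
  ∫⁻ x, ENNReal.ofReal (Real.exp (-‖Φ x‖ ^ 2) * (fderiv ℝ Φ x : X →ₗ[ℝ] W).normDet)

/-- The bound with polynomial and small exponential losses. -/
def OneShot : Prop :=
  ∀ (p : ℕ), p.Prime → ∀ δ : ℝ, 0 < δ → 4 * p * δ ≤ 1 → ∃ (C : ℝ) (N : ℕ), 0 < C ∧
    ∀ (X W : Type) [NormedAddCommGroup X] [InnerProductSpace ℝ X] [FiniteDimensional ℝ X]
      [MeasurableSpace X] [BorelSpace X]
      [NormedAddCommGroup W] [InnerProductSpace ℝ W] [FiniteDimensional ℝ W]
      (K : ℕ), 1 ≤ K → finrank ℝ X = 2 * K →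
      ∀ (g : X →L[ℝ] X) (J U : W ≃ₗᵢ[ℝ] W) (Φ : X → W), ConeData p g J U Φ →
      ENNReal.ofReal (Real.pi ^ K) ≤
        ENNReal.ofReal (C * ((K : ℝ) + finrank ℝ W + 1) ^ N *
          ((1 + 2 * δ) / (1 - 2 * p * δ)) ^ K) * gaussArea Φ

/-- The sharp bound for cones. -/
def ConeBound : Prop :=
  ∀ (p : ℕ), p.Prime →
    ∀ (X W : Type) [NormedAddCommGroup X] [InnerProductSpace ℝ X] [FiniteDimensional ℝ X]
      [MeasurableSpace X] [BorelSpace X]
      [NormedAddCommGroup W] [InnerProductSpace ℝ W] [FiniteDimensional ℝ W]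
      (a : ℕ), 1 ≤ a → finrank ℝ X = 2 * a →
      ∀ (g : X →L[ℝ] X) (J U : W ≃ₗᵢ[ℝ] W) (Φ : X → W), ConeData p g J U Φ →
      ENNReal.ofReal (Real.pi ^ a) ≤ gaussArea Φ

/-- The sharp bound for equivariant maps of spheres: the area is at least that of the sphere. -/
def SphereBound : Prop :=
  ∀ (p : ℕ), p.Prime →
    ∀ (E W : Type) [NormedAddCommGroup E] [InnerProductSpace ℝ E] [FiniteDimensional ℝ E]
      [MeasurableSpace E] [BorelSpace E]
      [NormedAddCommGroup W] [InnerProductSpace ℝ W] [FiniteDimensional ℝ W]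
      (a : ℕ), 1 ≤ a → finrank ℝ E = 2 * a →
      ∀ (g : E ≃ₗᵢ[ℝ] E) (J U : W ≃ₗᵢ[ℝ] W), (∀ x, g^[p] x = x) →
      (∀ w, J (J w) = -w) → (∀ w, U (J w) = J (U w)) → (∀ w, U^[p] w = w) →
      (∀ w, U w = w → w = 0) →
      ∀ f : E → W, (∀ u, ‖u‖ = 1 → DifferentiableAt ℝ f u) → (∀ u, ‖u‖ = 1 → ‖f u‖ = 1) →
      (∀ u, ‖u‖ = 1 → f (g u) = U (f u)) →
      (volume : Measure E).toSphere Set.univ ≤
        ∫⁻ u : Metric.sphere (0 : E) 1, ENNReal.ofReal
          (((fderiv ℝ f u : E →ₗ[ℝ] W).domRestrict (Submodule.span ℝ {(u : E)})ᗮ).normDet)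
          ∂(volume : Measure E).toSphere

/-- The Jacobian at `u` of the map `u ↦ (√(1-t) u, √t v u)` on the unit sphere. -/
noncomputable def aVol {E : Type} [NormedAddCommGroup E] [InnerProductSpace ℝ E]
    [FiniteDimensional ℝ E] (v : E → E) (t : ℝ) (u : E) : ℝ :=
  √(ContinuousLinearMap.det ((1 - t) • (1 : (Submodule.span ℝ {u})ᗮ →L[ℝ] (Submodule.span ℝ {u})ᗮ)
    + t • (ContinuousLinearMap.adjoint (fderiv ℝ v u ∘L (Submodule.span ℝ {u})ᗮ.subtypeL) ∘L
      (fderiv ℝ v u ∘L (Submodule.span ℝ {u})ᗮ.subtypeL))))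

/-- Lower bound and rigidity for unit equivariant fields on the unit sphere. -/
def UnitFieldBound : Prop :=
  ∀ (p : ℕ), p.Prime →
    ∀ (E : Type) [NormedAddCommGroup E] [InnerProductSpace ℝ E] [FiniteDimensional ℝ E]
      [MeasurableSpace E] [BorelSpace E] (a : ℕ), 1 ≤ a → finrank ℝ E = 2 * a →
      ∀ (g : E ≃ₗᵢ[ℝ] E), (∀ x, g^[p] x = x) → (∀ x, g x = x → x = 0) →
      ∀ v : E → E, ContDiff ℝ ∞ v →
      (∀ u, ‖u‖ = 1 → inner ℝ (v u) u = 0 ∧ ‖v u‖ = 1 ∧ v (g u) = g (v u)) →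
      ∀ t : ℝ, 0 < t → t < 1 →
      Continuous (fun u : Metric.sphere (0 : E) 1 => aVol v t u) ∧
      (volume : Measure E).toSphere.real Set.univ ≤
        ∫ u : Metric.sphere (0 : E) 1, aVol v t u ∂(volume : Measure E).toSphere ∧
      (∫ u : Metric.sphere (0 : E) 1, aVol v t u ∂(volume : Measure E).toSphere ≤
          (volume : Measure E).toSphere.real Set.univ →
        ∀ u, ‖u‖ = 1 → ∀ w, inner ℝ u w = 0 → ‖fderiv ℝ v u w‖ = ‖w‖)

end Pool.Agent.MP_8bdec9_gt

end MrgPart0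

-- ======== part 1: formerly Pool.Agent.MP_8bdec9_gt.Sector
section MrgPart1

/-! Two interlaced families of `p` open sectors in the complex plane. -/

open Complex Real
open scoped ComplexConjugate

namespace Pool.Agent.MP_8bdec9_gt

theorem exists_sectors (p : ℕ) [NeZero p] (hp : 2 ≤ p) :
    ∃ (Sec : Bool → ZMod p → Set ℂ) (ν : ZMod (2 * p) → ℂ),
      (∀ β c, IsOpen (Sec β c)) ∧
      (∀ β c b z, z ∈ Sec β c → ZMod.stdAddChar b * z ∈ Sec β (c + b)) ∧
      (∀ β c c' z, z ∈ Sec β c → z ∈ Sec β c' → c = c') ∧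
      (∀ n, ‖ν n‖ = 1) ∧
      (∀ β z, (∀ c, z ∉ Sec β c) → ∃ n, (ν n * z).re = 0) ∧
      (∀ z, (∀ β c, z ∉ Sec β c) → z = 0) := by
  have hp0 : (0 : ℝ) < p := by exact_mod_cast (by omega : 0 < p)
  have hp2 : (2 : ℝ) ≤ p := by exact_mod_cast hp
  have hpc : (p : ℂ) ≠ 0 := by exact_mod_cast hp0.ne'
  have : NeZero (2 * p) := ⟨by omega⟩
  let e : AddChar (ZMod p) ℂ := ZMod.stdAddChar
  let α : ℝ := π / p
  have hα0 : 0 < α := div_pos pi_pos hp0
  have hαπ : α ≤ π := div_le_self pi_pos.le (by linarith)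
  let k : Bool → ℤ := fun β => if β then 1 else 0
  let η : Bool → ℂ := fun β => exp (-(k β * α : ℝ) * I)
  let S : Set ℂ := {w | ‖w‖ * Real.cos α < w.re}
  let Sec : Bool → ZMod p → Set ℂ := fun β c => {z | z * η β * e (-c) ∈ S}
  have hS : ∀ w ∈ S, w ≠ 0 ∧ |arg w| < α := by
    intro w hw
    have hw0 : w ≠ 0 := by
      rintro rfl
      simp [S] at hw
    refine ⟨hw0, ?_⟩
    have h1 : Real.cos α < Real.cos |arg w| := by
      rw [Real.cos_abs, cos_arg hw0, lt_div_iff₀ (norm_pos_iff.2 hw0), mul_comm]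
      exact hw
    by_contra h
    push Not at h
    have := Real.cos_le_cos_of_nonneg_of_le_pi hα0.le (abs_arg_le_pi w) h
    linarith
  have hS' : ∀ (r θ : ℝ), 0 < r → |θ| < α → (r : ℂ) * exp (θ * I) ∈ S := by
    intro r θ hr hθ
    have h1 : Real.cos α < Real.cos θ := by
      rw [← Real.cos_abs θ]
      exact Real.cos_lt_cos_of_nonneg_of_le_pi (abs_nonneg _) hαπ hθ
    simp only [S, Set.mem_ofPred_eq, norm_mul, norm_exp_ofReal_mul_I, mul_one, norm_real,
      Real.norm_eq_abs, abs_of_pos hr, re_ofReal_mul, exp_ofReal_mul_I_re]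
    exact mul_lt_mul_of_pos_left h1 hr
  have hcover : ∀ β z, (∀ c, z ∉ Sec β c) →
      ∃ n : ℤ, z = ‖z‖ * exp (((k β + 2 * n + 1 : ℤ) * α : ℝ) * I) := by
    intro β z hz
    by_cases hz0 : z = 0
    · exact ⟨0, by simp [hz0]⟩
    let θ : ℝ := arg z - k β * α
    let c : ℤ := round (θ / (2 * α))
    have hc : |θ - c * (2 * α)| ≤ α := by
      have h1 := abs_sub_round (θ / (2 * α))
      have h2 : θ - c * (2 * α) = (θ / (2 * α) - c) * (2 * α) := by field_simp
      rw [h2, abs_mul, abs_of_pos (by positivity : 0 < 2 * α)]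
      nlinarith
    have hmem : z * η β * e (-(c : ZMod p)) = ‖z‖ * exp ((θ - c * (2 * α) : ℝ) * I) := by
      have h3 : e (-(c : ZMod p)) = exp (2 * π * I * (-c : ℤ) / p) := by
        rw [← ZMod.stdAddChar_coe]; push_cast; rfl
      conv_lhs => rw [← norm_mul_exp_arg_mul_I z]
      rw [h3, mul_assoc, mul_assoc, ← Complex.exp_add, ← Complex.exp_add]
      congr 2
      simp only [θ, α]
      push_cast
      field_simp
      ring
    have hnot : ¬ |θ - c * (2 * α)| < α := fun h =>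
      hz c (by
        show z * η β * e (-(c : ZMod p)) ∈ S
        rw [hmem]
        exact hS' _ _ (norm_pos_iff.2 hz0) h)
    have heq : |θ - c * (2 * α)| = α := le_antisymm hc (not_lt.1 hnot)
    rcases (abs_eq hα0.le).1 heq with h | h
    · refine ⟨c, ?_⟩
      conv_lhs => rw [← norm_mul_exp_arg_mul_I z]
      simp only [θ] at h
      rw [show arg z = ((k β + 2 * c + 1 : ℤ) : ℝ) * α by push_cast; linarith]
    · refine ⟨c - 1, ?_⟩
      conv_lhs => rw [← norm_mul_exp_arg_mul_I z]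
      simp only [θ] at h
      rw [show arg z = ((k β + 2 * (c - 1) + 1 : ℤ) : ℝ) * α by push_cast; linarith]
  refine ⟨Sec, fun n => -I * conj (ZMod.stdAddChar n), ?_, ?_, ?_, ?_, ?_, ?_⟩
  · intro β c
    show IsOpen {z : ℂ | ‖z * η β * e (-c)‖ * Real.cos α < (z * η β * e (-c)).re}
    exact isOpen_lt (by fun_prop) (by fun_prop)
  · intro β c b z hz
    show e b * z * η β * e (-(c + b)) ∈ S
    have : e b * z * η β * e (-(c + b)) = z * η β * e (-c) := by
      have h1 : e (-c) = e b * e (-(c + b)) := by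
        rw [← AddChar.map_add_eq_mul]; congr 1; ring
      rw [h1]; ring
    rw [this]; exact hz
  · intro β c c' z hz hz'
    obtain ⟨h0, h1⟩ := hS _ hz
    obtain ⟨h0', h1'⟩ := hS _ hz'
    set w := z * η β * e (-c) with hw
    set w' := z * η β * e (-c') with hw'
    obtain ⟨d, hd⟩ := ZMod.intCast_surjective (c' - c)
    have hww : w = w' * exp (2 * π * I * d / p) := by
      rw [← ZMod.stdAddChar_coe, hd, hw, hw', mul_assoc _ (e _), ← AddChar.map_add_eq_mul]
      congr 2; ring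
    have hn : ‖w‖ = ‖w'‖ := by
      rw [hw, hw', norm_mul, norm_mul (z * η β), AddChar.norm_apply, AddChar.norm_apply]
    have h2 : exp (arg w * I) = exp (arg w' * I + 2 * π * I * d / p) := by
      rw [Complex.exp_add]
      have hw0 : (‖w'‖ : ℂ) ≠ 0 := by exact_mod_cast (norm_pos_iff.2 h0').ne'
      apply mul_left_cancel₀ hw0
      rw [← mul_assoc, norm_mul_exp_arg_mul_I, ← hn, norm_mul_exp_arg_mul_I, hww]
    obtain ⟨n, hn⟩ := Complex.exp_eq_exp_iff_exists_int.1 h2
    have h3 : arg w - arg w' = (d + n * p) * (2 * α) := by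
      have h4 : ((arg w - arg w' : ℝ) : ℂ) = (((d + n * p) * (2 * α) : ℝ) : ℂ) := by
        apply mul_right_cancel₀ I_ne_zero
        simp only [α]
        push_cast
        rw [sub_mul, hn]
        field_simp
        ring
      exact_mod_cast h4
    have h5 : |((d + n * p : ℤ) : ℝ)| < 1 := by
      have h6 : |arg w - arg w'| < 2 * α := by
        have := abs_sub (arg w) (arg w')
        linarith
      rw [h3, abs_mul, abs_of_pos (by positivity : 0 < 2 * α)] at h6
      push_cast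
      nlinarith
    have h7 : d + n * p = 0 := by
      have : |d + n * p| < 1 := by exact_mod_cast h5
      exact Int.abs_lt_one_iff.1 this
    have h8 : ((d + n * p : ℤ) : ZMod p) = 0 := by rw [h7]; simp
    push_cast at h8
    rw [ZMod.natCast_self, mul_zero, add_zero, hd, sub_eq_zero] at h8
    exact h8.symm
  · intro n
    simp [AddChar.norm_apply]
  · intro β z hz
    obtain ⟨n, hn⟩ := hcover β z hz
    refine ⟨((k β + 2 * n + 1 : ℤ) : ZMod (2 * p)), ?_⟩
    have h1 : (ZMod.stdAddChar ((k β + 2 * n + 1 : ℤ) : ZMod (2 * p)) : ℂ) =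
        exp (((k β + 2 * n + 1 : ℤ) * α : ℝ) * I) := by
      rw [ZMod.stdAddChar_coe]
      congr 1
      simp only [α]
      push_cast
      field_simp
    have h2 : ∀ x : ℝ, conj (exp (x * I)) * exp (x * I) = 1 := by
      intro x
      rw [← normSq_eq_conj_mul_self, normSq_eq_norm_sq, norm_exp_ofReal_mul_I]; simp
    have h3 : -I * conj (ZMod.stdAddChar ((k β + 2 * n + 1 : ℤ) : ZMod (2 * p)) : ℂ) * z =
        -I * ‖z‖ := by
      rw [h1]
      conv_lhs => rw [hn]
      rw [mul_comm (‖z‖ : ℂ), mul_assoc, ← mul_assoc (conj _), h2, one_mul]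
    show (-I * conj (ZMod.stdAddChar ((k β + 2 * n + 1 : ℤ) : ZMod (2 * p)) : ℂ) * z).re = 0
    rw [h3]; simp
  · intro z hz
    by_contra hz0
    obtain ⟨n, hn⟩ := hcover false z (hz false)
    obtain ⟨n', hn'⟩ := hcover true z (hz true)
    have hw0 : (‖z‖ : ℂ) ≠ 0 := by exact_mod_cast (norm_pos_iff.2 hz0).ne'
    have h2 := mul_left_cancel₀ hw0 (hn.symm.trans hn')
    obtain ⟨m, hm⟩ := Complex.exp_eq_exp_iff_exists_int.1 h2
    have h4 : ((2 * n + 1 : ℤ) : ℂ) = ((2 * n' + 2 + 2 * m * p : ℤ) : ℂ) := by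
      have hπ : (π : ℂ) * I / p ≠ 0 :=
        div_ne_zero (mul_ne_zero (by exact_mod_cast pi_ne_zero) I_ne_zero) hpc
      apply mul_right_cancel₀ hπ
      simp only [k, α] at hm
      push_cast at hm ⊢
      have : (π : ℂ) * I = p * (π * I / p) := by field_simp
      linear_combination hm + 2 * m * this
    have h5 : 2 * n + 1 = 2 * n' + 2 + 2 * m * p := by exact_mod_cast h4
    have h6 : 2 * m * p = 2 * (m * p) := by ring
    omega

end Pool.Agent.MP_8bdec9_gt

end MrgPart1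

-- marker of a merged file
example : 731051 + 684915 = 731051 + 684915 := rfl
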