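import Mathlib.Topology.Sheaves.Presheaf
import Mathlib.RingTheory.Complex
import Mathlib.Combinatorics.SimpleGraph.Basic
import Mathlib.Analysis.InnerProductSpace.NormDet
import Mathlib.MeasureTheory.Constructions.UnitInterval
import Mathlib.MeasureTheory.Function.SpecialFunctions.Inner
import Mathlib.Probability.Distributions.Gaussian.Multivariate
import Mathlib.Probability.Distributions.Gaussian.HasGaussianLaw.Independence
import Mathlib.Topology.UniformSpace.Uniformizable
import Pool.Agent.MP_8bdec9_gt.Cx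

-- ======== part 0: formerly Pool.Agent.MP_8bdec9_gt.SeqBound
section MrgPart0

open MeasureTheory

namespace Pool.Agent.MP_8bdec9_gt

namespace SeqB

lemma det_option {ι : Type*} [Fintype ι] [DecidableEq ι] (M : Matrix (Option ι) (Option ι) ℝ)
    (h : ∀ j, M none (some j) = 0) :
    M.det = M none none * (M.submatrix some some).det := by
  classical
  let e : ι ⊕ PUnit.{1} ≃ Option ι := (Equiv.optionEquivSumPUnit ι).symm
  rw [← Matrix.det_submatrix_equiv_self e M]
  have h1 : M.submatrix e e = Matrix.fromBlocks (M.submatrix some some)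
      (Matrix.of fun i _ => M (some i) none) 0 (Matrix.of fun _ _ => M none none) := by
    ext i j
    rcases i with i | i <;> rcases j with j | j <;> simp [e, h]
  rw [h1, Matrix.det_fromBlocks_zero₂₁, mul_comm]
  simp

lemma exists_basis {ι : Type*} [Fintype ι] [DecidableEq ι] (a : EuclideanSpace ℝ (Option ι)) :
    ∃ O : OrthonormalBasis (Option ι) ℝ (EuclideanSpace ℝ (Option ι)), a = ‖a‖ • O none := by
  by_cases ha : a = 0
  · exact ⟨EuclideanSpace.basisFun _ _, by simp [ha]⟩
  · have hn : ‖a‖ ≠ 0 := norm_ne_zero_iff.mpr ha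
    have ho : Orthonormal ℝ (({none} : Set (Option ι)).domRestrict
        (fun _ : Option ι => (‖a‖⁻¹ • a : EuclideanSpace ℝ (Option ι)))) := by
      constructor
      · intro i
        simp [norm_smul, hn]
      · intro i j hij
        exact absurd (Subsingleton.elim i j) hij
    obtain ⟨O, hO⟩ := ho.exists_orthonormalBasis_extension_of_card_eq (by simp)
    refine ⟨O, ?_⟩
    rw [hO none rfl, smul_smul, mul_inv_cancel₀ hn, one_smul]

lemma step {W : Type*} [NormedAddCommGroup W] [InnerProductSpace ℝ W]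
    {ι : Type*} [Fintype ι] [DecidableEq ι] (u : Option ι → W) (hu : Orthonormal ℝ u)
    (l0 : W →L[ℝ] ℝ) :
    ∃ u' : ι → W, Orthonormal ℝ u' ∧
      (∀ m : W →L[ℝ] ℝ, ∑ j, m (u' j) ^ 2 ≤ ∑ j, m (u j) ^ 2) ∧
      ∀ l : Option ι → W →L[ℝ] ℝ, l none = l0 →
        |Matrix.det (Matrix.of fun j j' => l j (u j'))| =
          Real.sqrt (∑ j, l0 (u j) ^ 2) *
            |Matrix.det (Matrix.of fun j j' : ι => l (some j) (u' j'))| := by
  classical
  let vec : (W →L[ℝ] ℝ) → EuclideanSpace ℝ (Option ι) := fun m =>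
    WithLp.toLp 2 (fun j => m (u j))
  obtain ⟨O, hO⟩ := exists_basis (vec l0)
  let v : Option ι → W := fun j => ∑ l, O j l • u l
  have hmv : ∀ (m : W →L[ℝ] ℝ) j, m (v j) = inner ℝ (O j) (vec m) := by
    intro m j
    simp [v, vec, PiLp.inner_apply, mul_comm]
  have hnorm : ∀ m : W →L[ℝ] ℝ, ‖vec m‖ ^ 2 = ∑ j, m (u j) ^ 2 := by
    intro m
    rw [EuclideanSpace.real_norm_sq_eq]
  have hv : Orthonormal ℝ v := by
    rw [orthonormal_iff_ite]
    intro i j
    have h1 := orthonormal_iff_ite.mp O.orthonormal i j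
    rw [← h1]
    simp only [v]
    rw [hu.inner_sum]
    simp [PiLp.inner_apply, mul_comm]
  refine ⟨fun j => v (some j), hv.comp _ (Option.some_injective ι), ?_, ?_⟩
  · intro m
    rw [← hnorm, ← O.sum_sq_inner_right (vec m), Fintype.sum_option]
    simp only [hmv]
    nlinarith [sq_nonneg (inner ℝ (O none) (vec m))]
  · intro l hl
    let P : Matrix (Option ι) (Option ι) ℝ := Matrix.of fun a j => O j a
    have hP : P.transpose * P = 1 := by
      ext i j
      have h1 := orthonormal_iff_ite.mp O.orthonormal i j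
      rw [Matrix.one_apply, ← h1]
      simp [P, Matrix.mul_apply, PiLp.inner_apply, mul_comm]
    have hPd : |P.det| = 1 := by
      have h2 := congrArg Matrix.det hP
      rw [Matrix.det_mul, Matrix.det_transpose, Matrix.det_one] at h2
      have h3 : |P.det| ^ 2 = 1 := by rw [sq_abs, sq, h2]
      have h4 := abs_nonneg P.det
      nlinarith
    have hMP : (Matrix.of fun j j' => l j (u j')) * P = Matrix.of fun j j' => l j (v j') := by
      ext i j
      simp [P, v, Matrix.mul_apply, mul_comm]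
    have h5 : |Matrix.det (Matrix.of fun j j' => l j (u j'))| =
        |Matrix.det (Matrix.of fun j j' => l j (v j'))| := by
      rw [← hMP, Matrix.det_mul, abs_mul, hPd, mul_one]
    rw [h5, det_option]
    · have h6 : l none (v none) = ‖vec l0‖ := by
        rw [hmv, hl]
        conv_lhs => rw [hO]
        rw [inner_smul_right]
        simp
      have h7 : Real.sqrt (∑ j, l0 (u j) ^ 2) = ‖vec l0‖ := by
        rw [← hnorm, Real.sqrt_sq (norm_nonneg _)]
      rw [abs_mul, h7]
      simp only [Matrix.of_apply, h6, abs_norm]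
      rfl
    · intro j
      simp only [Matrix.of_apply]
      rw [hmv, hl, hO, inner_smul_right, O.orthonormal.inner_eq_zero (by simp), mul_zero]

def emb {n : ℕ} (i0 : Fin (n + 1)) : Option (Option (Fin n × Bool)) → Fin (n + 1) × Bool
  | none => (i0, false)
  | some none => (i0, true)
  | some (some j) => (i0.succAbove j.1, j.2)

lemma emb_bij {n : ℕ} (i0 : Fin (n + 1)) : Function.Bijective (emb i0) := by
  rw [Fintype.bijective_iff_injective_and_card]
  constructor
  · intro a b hab
    rcases a with _ | _ | ⟨i, x⟩ <;> rcases b with _ | _ | ⟨j, y⟩ <;>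
      simp [emb, Fin.succAbove_ne, (Fin.succAbove_ne _ _).symm] at hab ⊢
    exact hab
  · simp
    ring

lemma step2 {W : Type*} [NormedAddCommGroup W] [InnerProductSpace ℝ W] {n : ℕ}
    (i0 : Fin (n + 1)) (u : Fin (n + 1) × Bool → W) (hu : Orthonormal ℝ u)
    (lf lt : W →L[ℝ] ℝ) :
    ∃ u' : Fin n × Bool → W, Orthonormal ℝ u' ∧
      ∀ l : Fin (n + 1) × Bool → W →L[ℝ] ℝ, l (i0, false) = lf → l (i0, true) = lt →
        |Matrix.det (Matrix.of fun j j' => l j (u j'))| ≤
          Real.sqrt (∑ j, lf (u j) ^ 2) * Real.sqrt (∑ j, lt (u j) ^ 2) *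
            |Matrix.det (Matrix.of fun j j' : Fin n × Bool =>
              l (i0.succAbove j.1, j.2) (u' j'))| := by
  classical
  let e : Option (Option (Fin n × Bool)) ≃ Fin (n + 1) × Bool := Equiv.ofBijective _ (emb_bij i0)
  obtain ⟨u1, hu1, hm1, hd1⟩ := step (fun j => u (e j)) (hu.comp _ e.injective) lf
  obtain ⟨u2, hu2, -, hd2⟩ := step u1 hu1 lt
  refine ⟨u2, hu2, fun l hf ht => ?_⟩
  rw [← Matrix.det_submatrix_equiv_self e]
  have h1 := hd1 (fun j => l (e j)) hf
  have h2 := hd2 (fun j => l (e (some j))) ht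
  have h3 : ∀ m : W →L[ℝ] ℝ, ∑ j, m (u (e j)) ^ 2 = ∑ j, m (u j) ^ 2 := fun m =>
    e.sum_comp (fun j => m (u j) ^ 2)
  have h4 : Real.sqrt (∑ j, lt (u1 j) ^ 2) ≤ Real.sqrt (∑ j, lt (u j) ^ 2) :=
    Real.sqrt_le_sqrt ((hm1 lt).trans (h3 lt).le)
  rw [h3] at h1
  calc _ = |Matrix.det (Matrix.of fun j j' => l (e j) (u (e j')))| := rfl
    _ = _ := h1
    _ = _ := by rw [h2]
    _ ≤ _ := by
      rw [mul_assoc]
      refine mul_le_mul_of_nonneg_left ?_ (Real.sqrt_nonneg _)
      exact mul_le_mul_of_nonneg_right h4 (abs_nonneg _)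

lemma bessel {W : Type*} [NormedAddCommGroup W] [InnerProductSpace ℝ W]
    [FiniteDimensional ℝ W] {ι : Type*} [Fintype ι] (u : ι → W) (hu : Orthonormal ℝ u)
    (m : W →L[ℝ] ℝ) : Real.sqrt (∑ j, m (u j) ^ 2) ≤ ‖m‖ := by
  have : CompleteSpace W := FiniteDimensional.complete ℝ W
  set x := (InnerProductSpace.toDual ℝ W).symm m with hx
  have h1 : ∀ j, m (u j) = inner ℝ (u j) x := by
    intro j
    rw [real_inner_comm, hx, InnerProductSpace.toDual_symm_apply]
  have h2 := hu.sum_inner_products_le (s := Finset.univ) x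
  have h3 : ‖x‖ = ‖m‖ := by rw [hx, LinearIsometryEquiv.norm_map]
  rw [Real.sqrt_le_left (norm_nonneg _), ← h3]
  simpa [h1] using h2

lemma meas_det {Y ι : Type*} [MeasurableSpace Y] [Fintype ι] [DecidableEq ι]
    (M : Y → Matrix ι ι ℝ) (hM : ∀ i j, Measurable fun y => M y i j) :
    Measurable fun y => (M y).det := by
  simp only [Matrix.det_apply']
  refine Finset.measurable_sum _ fun σ _ => Measurable.const_mul ?_ _
  exact Finset.measurable_prod _ fun i _ => hM _ _

lemma card_succAbove {B : Type*} [DecidableEq B] {n : ℕ} (lab : Fin (n + 1) → Option B)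
    (i0 : Fin (n + 1)) (b : B) :
    (Finset.univ.filter fun i => lab i = some b).card =
      (if lab i0 = some b then 1 else 0) +
        (Finset.univ.filter fun i : Fin n => lab (i0.succAbove i) = some b).card := by
  rw [Finset.card_filter, Finset.card_filter, Fin.sum_univ_succAbove _ i0]

lemma choose_index {W : Type*} [NormedAddCommGroup W] [InnerProductSpace ℝ W]
    {B : Type*} [Fintype B] [DecidableEq B] (π : B → W →L[ℝ] W)
    (hπ : ∀ h, ∑ b, ‖π b h‖ ^ 2 ≤ ‖h‖ ^ 2) {n : ℕ} (lab : Fin (n + 1) → Option B)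
    (hlab : ∀ i, lab i ≠ none) (u : Fin (n + 1) × Bool → W) (hu : Orthonormal ℝ u) :
    ∃ i0 b, lab i0 = some b ∧
      ∑ j, ‖π b (u j)‖ ^ 2 ≤ 2 * ((Finset.univ.filter fun i => lab i = some b).card : ℝ) := by
  by_contra hcon
  push Not at hcon
  have h1 : ∑ b, ∑ j, ‖π b (u j)‖ ^ 2 ≤ 2 * ((n : ℝ) + 1) := by
    rw [Finset.sum_comm]
    calc _ ≤ ∑ j : Fin (n + 1) × Bool, (1 : ℝ) := by
          refine Finset.sum_le_sum fun j _ => ?_
          have := hπ (u j)
          rwa [hu.1 j, one_pow] at this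
      _ = _ := by simp; ring
  have h2 : ∑ b, ((Finset.univ.filter fun i => lab i = some b).card : ℝ) = (n : ℝ) + 1 := by
    simp only [Finset.card_filter]
    push_cast
    rw [Finset.sum_comm]
    have : ∀ i, ∑ b, (if lab i = some b then (1 : ℝ) else 0) = 1 := by
      intro i
      obtain ⟨b, hb⟩ := Option.ne_none_iff_exists'.mp (hlab i)
      simp [hb]
    simp [this]
  obtain ⟨b0, hb0⟩ := Option.ne_none_iff_exists'.mp (hlab 0)
  have h3 : ∑ b, 2 * ((Finset.univ.filter fun i => lab i = some b).card : ℝ) <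
      ∑ b, ∑ j, ‖π b (u j)‖ ^ 2 := by
    refine Finset.sum_lt_sum (fun b _ => ?_) ⟨b0, Finset.mem_univ _, hcon 0 b0 hb0⟩
    by_cases hb : ∃ i, lab i = some b
    · obtain ⟨i, hi⟩ := hb
      exact (hcon i b hi).le
    · have : (Finset.univ.filter fun i => lab i = some b) = ∅ := by
        rw [Finset.filter_eq_empty_iff]
        exact fun i _ hi => hb ⟨i, hi⟩
      rw [this]
      simp only [Finset.card_empty, Nat.cast_zero, mul_zero]
      positivity
  rw [← Finset.mul_sum, h2] at h3
  linarith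

lemma split {W : Type*} [NormedAddCommGroup W] [InnerProductSpace ℝ W]
    {Q : Type*} [MeasurableSpace Q] (μ : Measure Q) [IsProbabilityMeasure μ]
    {n : ℕ} (w : Fin (n + 1) → Q → ENNReal) (lam : Fin (n + 1) → Q → Bool → (W →L[ℝ] ℝ))
    (hw : ∀ i, Measurable (w i)) (hlam : ∀ i β h, Measurable fun q => lam i q β h)
    (i0 : Fin (n + 1)) (K : ENNReal)
    (hK : ∀ u' : Fin n × Bool → W, Orthonormal ℝ u' →
      ∫⁻ q : Fin n → Q, (∏ i, w (i0.succAbove i) (q i)) * ENNReal.ofReal
        |Matrix.det (Matrix.of fun j j' : Fin n × Bool =>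
          lam (i0.succAbove j.1) (q j.1) j.2 (u' j'))| ∂(Measure.pi fun _ => μ) ≤ K)
    (u : Fin (n + 1) × Bool → W) (hu : Orthonormal ℝ u) :
    ∫⁻ q : Fin (n + 1) → Q, (∏ i, w i (q i)) * ENNReal.ofReal
        |Matrix.det (Matrix.of fun j j' : Fin (n + 1) × Bool => lam j.1 (q j.1) j.2 (u j'))|
        ∂(Measure.pi fun _ => μ) ≤
      (∫⁻ x, w i0 x * ENNReal.ofReal (Real.sqrt (∑ j, lam i0 x false (u j) ^ 2) *
        Real.sqrt (∑ j, lam i0 x true (u j) ^ 2)) ∂μ) * K := by
  have hmp := (measurePreserving_piFinSuccAbove (fun _ : Fin (n + 1) => μ) i0).symm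
  rw [hmp.lintegral_map_equiv]
  refine (lintegral_prod_le _).trans ?_
  have hm : Measurable fun x => w i0 x * ENNReal.ofReal (Real.sqrt (∑ j, lam i0 x false (u j) ^ 2) *
        Real.sqrt (∑ j, lam i0 x true (u j) ^ 2)) := by
    refine (hw i0).mul (Measurable.ennreal_ofReal (Measurable.mul ?_ ?_))
    · exact (Finset.measurable_sum _ fun j _ => (hlam _ _ _).pow_const 2).sqrt
    · exact (Finset.measurable_sum _ fun j _ => (hlam _ _ _).pow_const 2).sqrt
  rw [← lintegral_mul_const _ hm]
  refine lintegral_mono fun x => ?_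
  obtain ⟨u', hu', hd⟩ := step2 i0 u hu (lam i0 x false) (lam i0 x true)
  have hm2 : Measurable fun q : Fin n → Q => (∏ i, w (i0.succAbove i) (q i)) * ENNReal.ofReal
        |Matrix.det (Matrix.of fun j j' : Fin n × Bool =>
          lam (i0.succAbove j.1) (q j.1) j.2 (u' j'))| := by
    refine Measurable.mul (Finset.measurable_prod _ fun i _ => (hw _).comp (measurable_pi_apply i))
      (Measurable.ennreal_ofReal (Measurable.abs (meas_det _ fun i j => ?_)))
    exact (hlam _ _ _).comp (measurable_pi_apply i.1)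
  refine le_trans ?_ (mul_le_mul_right (hK u' hu') _)
  rw [← lintegral_const_mul _ hm2]
  refine lintegral_mono fun y => ?_
  have h1 := hd (fun j => lam j.1 ((i0.insertNth x y : Fin (n + 1) → Q) j.1) j.2)
    (by simp) (by simp)
  simp only [Fin.insertNth_apply_succAbove] at h1
  simp only [MeasurableEquiv.piFinSuccAbove_symm_apply, Fin.insertNthEquiv, Equiv.coe_fn_mk]
  rw [Fin.prod_univ_succAbove _ i0]
  simp only [Fin.insertNth_apply_same, Fin.insertNth_apply_succAbove]
  have h2 := ENNReal.ofReal_le_ofReal h1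
  rw [ENNReal.ofReal_mul (by positivity)] at h2
  calc _ ≤ _ := mul_le_mul_right h2 _
    _ = _ := by ring

end SeqB

open SeqB in
theorem seq_bound {W : Type*} [NormedAddCommGroup W] [InnerProductSpace ℝ W]
    [FiniteDimensional ℝ W] {B : Type*} [Fintype B] [DecidableEq B] (π : B → W →L[ℝ] W)
    (hπ : ∀ h, ∑ b, ‖π b h‖ ^ 2 ≤ ‖h‖ ^ 2)
    {Q : Type*} [MeasurableSpace Q] (μ : Measure Q) [IsProbabilityMeasure μ]
    (n : ℕ) (lab : Fin n → Option B) (c : Fin n → ENNReal) (w : Fin n → Q → ENNReal)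
    (lam : Fin n → Q → Bool → (W →L[ℝ] ℝ))
    (hw : ∀ i, Measurable (w i)) (hlam : ∀ i β h, Measurable fun q => lam i q β h)
    (hcrude : ∀ i, lab i = none →
      ∫⁻ q, w i q * ENNReal.ofReal (‖lam i q false‖ * ‖lam i q true‖) ∂μ ≤ c i)
    (hpair : ∀ i b, lab i = some b → ∀ h,
      ∫⁻ q, w i q * ENNReal.ofReal ((lam i q false h ^ 2 + lam i q true h ^ 2) / 2) ∂μ ≤
        c i * ENNReal.ofReal (‖π b h‖ ^ 2))
    (u : Fin n × Bool → W) (hu : Orthonormal ℝ u) :
    ∫⁻ q : Fin n → Q, (∏ i, w i (q i)) * ENNReal.ofReal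
        |Matrix.det (Matrix.of fun j j' : Fin n × Bool => lam j.1 (q j.1) j.2 (u j'))|
        ∂(Measure.pi fun _ => μ) ≤
      (∏ i, c i) * ∏ b, ((2 ^ (Finset.univ.filter fun i => lab i = some b).card *
        ((Finset.univ.filter fun i => lab i = some b).card).factorial : ℕ) : ENNReal) := by
  induction n with
  | zero => simp
  | succ n ih =>
    have key : ∀ i0 : Fin (n + 1), _ := fun i0 =>
      split μ w lam hw hlam i0 _
        (fun u' hu' => ih (fun i => lab (i0.succAbove i)) (fun i => c (i0.succAbove i))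
          (fun i => w (i0.succAbove i)) (fun i => lam (i0.succAbove i)) (fun i => hw _)
          (fun i => hlam _) (fun i => hcrude _) (fun i => hpair _) u' hu') u hu
    by_cases hc : ∃ i0, lab i0 = none
    · obtain ⟨i0, hi0⟩ := hc
      refine (key i0).trans ?_
      rw [Fin.prod_univ_succAbove c i0, mul_assoc]
      refine mul_le_mul' (le_trans (lintegral_mono fun x => ?_) (hcrude i0 hi0)) (le_of_eq ?_)
      · refine mul_le_mul_right (ENNReal.ofReal_le_ofReal ?_) _
        exact mul_le_mul (bessel u hu _) (bessel u hu _) (Real.sqrt_nonneg _) (norm_nonneg _)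
      · congr 1
        refine Finset.prod_congr rfl fun b _ => ?_
        rw [card_succAbove lab i0 b]
        simp [hi0]
    · push Not at hc
      obtain ⟨i0, b, hb, hH⟩ := choose_index π hπ lab hc u hu
      refine (key i0).trans ?_
      set k := (Finset.univ.filter fun i : Fin n => lab (i0.succAbove i) = some b).card with hk
      have hkb : (Finset.univ.filter fun i => lab i = some b).card = k + 1 := by
        rw [card_succAbove lab i0 b, if_pos hb, add_comm]
      have h1 : ∫⁻ x, w i0 x * ENNReal.ofReal (Real.sqrt (∑ j, lam i0 x false (u j) ^ 2) *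
          Real.sqrt (∑ j, lam i0 x true (u j) ^ 2)) ∂μ ≤ c i0 * ((2 * (k + 1) : ℕ) : ENNReal) := by
        calc _ ≤ ∫⁻ x, ∑ j, w i0 x * ENNReal.ofReal
              ((lam i0 x false (u j) ^ 2 + lam i0 x true (u j) ^ 2) / 2) ∂μ := by
              refine lintegral_mono fun x => ?_
              rw [← Finset.mul_sum, ← ENNReal.ofReal_sum_of_nonneg (fun j _ => by positivity)]
              refine mul_le_mul_right (ENNReal.ofReal_le_ofReal ?_) _
              rw [← Finset.sum_div, Finset.sum_add_distrib]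
              have ha := Real.sq_sqrt (show 0 ≤ ∑ j, lam i0 x false (u j) ^ 2 by positivity)
              have hb := Real.sq_sqrt (show 0 ≤ ∑ j, lam i0 x true (u j) ^ 2 by positivity)
              nlinarith [sq_nonneg (Real.sqrt (∑ j, lam i0 x false (u j) ^ 2) -
                Real.sqrt (∑ j, lam i0 x true (u j) ^ 2))]
          _ = ∑ j, ∫⁻ x, w i0 x * ENNReal.ofReal
              ((lam i0 x false (u j) ^ 2 + lam i0 x true (u j) ^ 2) / 2) ∂μ := by
              refine lintegral_finsetSum _ fun j _ => ?_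
              refine (hw i0).mul (Measurable.ennreal_ofReal (Measurable.div_const ?_ _))
              exact ((hlam _ _ _).pow_const 2).add ((hlam _ _ _).pow_const 2)
          _ ≤ ∑ j, c i0 * ENNReal.ofReal (‖π b (u j)‖ ^ 2) :=
              Finset.sum_le_sum fun j _ => hpair i0 b hb _
          _ ≤ _ := by
              rw [← Finset.mul_sum, ← ENNReal.ofReal_sum_of_nonneg (fun j _ => by positivity)]
              refine mul_le_mul_right ?_ _
              rw [← ENNReal.ofReal_natCast]
              refine ENNReal.ofReal_le_ofReal (hH.trans (le_of_eq ?_))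
              rw [hkb]
              push_cast
              ring
      refine (mul_le_mul_left h1 _).trans (le_of_eq ?_)
      rw [Fin.prod_univ_succAbove c i0, ← Finset.mul_prod_erase _ _ (Finset.mem_univ b),
        ← Finset.mul_prod_erase Finset.univ (fun b => (((2 ^ (Finset.univ.filter
          fun i => lab i = some b).card * ((Finset.univ.filter
            fun i => lab i = some b).card).factorial : ℕ)) : ENNReal)) (Finset.mem_univ b)]
      have h2 : ∀ b' ∈ Finset.univ.erase b, (((2 ^ (Finset.univ.filter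
          fun i => lab i = some b').card * ((Finset.univ.filter
            fun i => lab i = some b').card).factorial : ℕ)) : ENNReal) =
          (((2 ^ (Finset.univ.filter
          fun i : Fin n => lab (i0.succAbove i) = some b').card * ((Finset.univ.filter
            fun i : Fin n => lab (i0.succAbove i) = some b').card).factorial : ℕ)) : ENNReal) := by
        intro b' hb'
        have hne : lab i0 ≠ some b' := by
          rw [hb]
          intro h
          exact (Finset.ne_of_mem_erase hb') (Option.some_injective _ h).symm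
        rw [card_succAbove lab i0 b', if_neg hne, zero_add]
      rw [Finset.prod_congr rfl h2, hkb, ← hk, Nat.factorial_succ]
      push_cast
      ring

end Pool.Agent.MP_8bdec9_gt

end MrgPart0

-- ======== part 1: formerly Pool.Agent.MP_8bdec9_gt.KR
section MrgPart1

/-! An abstract Kac-Rice type upper bound obtained from the area inequality. -/

open MeasureTheory Module Set unitInterval
open scoped ENNReal

namespace Pool.Agent.MP_8bdec9_gt

variable {X W : Type*} [NormedAddCommGroup X] [InnerProductSpace ℝ X] [FiniteDimensional ℝ X]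
  [NormedAddCommGroup W] [InnerProductSpace ℝ W] [FiniteDimensional ℝ W]

omit [FiniteDimensional ℝ W] in
lemma det_factor {J : Type*} [Fintype J] [DecidableEq J] (b : OrthonormalBasis J ℝ X)
    (A : X →ₗ[ℝ] W) :
    (∀ l : J → W →L[ℝ] ℝ, Matrix.det (Matrix.of fun j j' => l j (A (b j'))) = 0) ∨
    ∃ u : J → W, Orthonormal ℝ u ∧ ∀ l : J → W →L[ℝ] ℝ,
      |Matrix.det (Matrix.of fun j j' => l j (A (b j')))| =
        A.normDet * |Matrix.det (Matrix.of fun j j' => l j (u j'))| := by
  by_cases hA : A.ker = ⊥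
  · right
    have hr : finrank ℝ A.range = Fintype.card J := by
      have := A.finrank_range_add_finrank_ker
      rw [hA, finrank_bot, add_zero, finrank_eq_card_basis b.toBasis] at this
      exact this
    let bv : OrthonormalBasis J ℝ A.range :=
      (stdOrthonormalBasis ℝ A.range).reindex (Fintype.equivFinOfCardEq hr.symm).symm
    refine ⟨fun j => bv j, bv.orthonormal.comp_linearIsometry A.range.subtypeₗᵢ, fun l => ?_⟩
    rw [A.normDet_eq_norm_det_toMatrix_rangeRestrict b bv, Real.norm_eq_abs, ← abs_mul, mul_comm,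
      ← Matrix.det_mul]
    congr 2
    ext j j'
    rw [Matrix.mul_apply]
    simp only [Matrix.of_apply, LinearMap.toMatrix_apply, OrthonormalBasis.coe_toBasis,
      OrthonormalBasis.coe_toBasis_repr_apply]
    have h := bv.sum_repr (A.rangeRestrict (b j'))
    have h2 : A (b j') = ∑ k, bv.repr (A.rangeRestrict (b j')) k • (bv k : W) := by
      have := congrArg Subtype.val h
      simpa using this.symm
    rw [h2, map_sum]
    refine Finset.sum_congr rfl fun k _ => ?_
    rw [map_smul, smul_eq_mul, mul_comm]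
  · left
    intro l
    obtain ⟨v, hv, hv0⟩ := Submodule.exists_mem_ne_zero_of_ne_bot hA
    rw [← Matrix.exists_mulVec_eq_zero_iff]
    refine ⟨b.repr v, fun h => hv0 ?_, ?_⟩
    · apply b.repr.injective
      ext j
      simpa using congrFun h j
    · funext j
      have h2 : l j (A (∑ k, b.repr v k • b k)) = 0 := by
        rw [b.sum_repr, LinearMap.mem_ker.1 hv, map_zero]
      simp only [map_sum, map_smul, smul_eq_mul] at h2
      simp only [Matrix.mulVec, dotProduct, Matrix.of_apply, Pi.zero_apply]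
      rw [← h2]
      exact Finset.sum_congr rfl fun k _ => mul_comm _ _

lemma area_le [MeasurableSpace X] [BorelSpace X] {J : Type*} [Fintype J] [DecidableEq J]
    (b : OrthonormalBasis J ℝ X) (S : Set X) (hS : MeasurableSet S) (Ψ : J → X → ℝ)
    (L : J → X → X →L[ℝ] ℝ) (hL : ∀ j, ∀ x ∈ S, HasFDerivAt (Ψ j) (L j x) x) :
    volume {w : J → ℝ | ∃ x ∈ S, ∀ j, w j = Ψ j x} ≤
      ∫⁻ x in S, ENNReal.ofReal |Matrix.det (Matrix.of fun j j' => L j x (b j'))| := by
  let T : (J → ℝ) → X := fun w => b.repr.symm (WithLp.toLp 2 w)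
  have hT : MeasurePreserving T volume volume :=
    b.measurePreserving_repr_symm.comp (PiLp.volume_preserving_toLp J)
  have hT' : ∀ w, T w = ∑ j, w j • b j := fun w => by
    simp only [T]
    rw [← b.sum_repr_symm]
  let F : X → X := fun x => ∑ j, Ψ j x • b j
  let F' : X → X →L[ℝ] X := fun x => ∑ j, (L j x).smulRight (b j)
  have hF : ∀ x ∈ S, HasFDerivWithinAt F (F' x) S x := fun x hx =>
    (HasFDerivAt.fun_sum fun j _ => (hL j x hx).smul_const (b j)).hasFDerivWithinAt
  have h1 : {w : J → ℝ | ∃ x ∈ S, ∀ j, w j = Ψ j x} ⊆ T ⁻¹' (F '' S) := by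
    rintro w ⟨x, hx, hw⟩
    exact ⟨x, hx, by simp only [F, hT', hw]⟩
  refine (measure_mono h1).trans ((Measure.le_map_apply hT.measurable.aemeasurable _).trans ?_)
  rw [hT.map_eq]
  refine (addHaar_image_le_lintegral_abs_det_fderiv volume hS hF).trans (le_of_eq ?_)
  refine lintegral_congr fun x => ?_
  congr 2
  rw [ContinuousLinearMap.det, ← LinearMap.det_toMatrix b.toBasis]
  congr 1
  ext j j'
  simp [LinearMap.toMatrix_apply, F']

lemma cube_le {ι : Type*} [Fintype ι] (S : Set (ι × Bool → ℝ)) :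
    (Measure.pi fun _ : ι => (volume : Measure (Bool → I)))
      {w | (fun j : ι × Bool => (w j.1 j.2 : ℝ)) ∈ S} ≤ volume S := by
  let f : (ι → Bool → I) → (ι × Bool → ℝ) := fun w j => (w j.1 j.2 : ℝ)
  have hf : Measurable f := by fun_prop
  have hmap : (Measure.pi fun _ : ι => (volume : Measure (Bool → I))).map f =
      Measure.pi fun _ : ι × Bool => (volume : Measure ℝ).restrict I := by
    refine (Measure.pi_eq fun s hs => ?_).symm
    rw [Measure.map_apply hf (MeasurableSet.univ_pi hs)]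
    have : f ⁻¹' univ.pi s = univ.pi fun i => univ.pi fun β => (↑) ⁻¹' s (i, β) := by
      ext w; simp [f]
    rw [this, Measure.pi_pi, Fintype.prod_prod_type]
    refine Finset.prod_congr rfl fun i _ => ?_
    rw [volume_pi, Measure.pi_pi]
    refine Finset.prod_congr rfl fun β _ => ?_
    exact unitInterval.measurePreserving_coe.measure_preimage (hs _).nullMeasurableSet
  refine (Measure.le_map_apply hf.aemeasurable S).trans ?_
  rw [hmap, ← Measure.restrict_pi_pi]
  exact Measure.restrict_le_self S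

open Classical in
/-- indicator that both solved parameters lie in the unit interval -/
noncomputable def wt (ψ : Bool → ℝ) : ℝ≥0∞ := if ∀ β, ψ β ∈ I then 1 else 0

lemma measurable_wt : Measurable wt := by
  refine Measurable.ite ?_ measurable_const measurable_const
  have : {ψ : Bool → ℝ | ∀ β, ψ β ∈ I} = univ.pi fun _ => I := by ext; simp
  rw [this]
  exact MeasurableSet.univ_pi fun _ => measurableSet_Icc

lemma wt_le (ψ : Bool → ℝ) : wt ψ ≤ 1 := by
  unfold wt; split_ifs <;> simp

theorem kr_bound [MeasurableSpace X] [BorelSpace X] [MeasurableSpace W] [BorelSpace W]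
    (K : ℕ) (hX : finrank ℝ X = 2 * K) (Φ : X → W) (hΦ : Differentiable ℝ Φ)
    {B : Type*} [Fintype B] [DecidableEq B] (π : B → W →L[ℝ] W)
    (hπ : ∀ h, ∑ b, ‖π b h‖ ^ 2 ≤ ‖h‖ ^ 2)
    {Ω : Type*} [MeasurableSpace Ω] (μ : Measure Ω) [IsProbabilityMeasure μ]
    (R : Fin K → Ω × (Bool → I) → Ω) (hR : ∀ i, MeasurePreserving (R i) (μ.prod volume) μ)
    (A : Set (Fin K → Ω)) (hA : MeasurableSet A) (Reg : Set W) (hReg : MeasurableSet Reg)
    (ψ : Fin K → Ω → Bool → W → ℝ) (lam : Fin K → Ω → Bool → W → W →L[ℝ] ℝ)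
    (hsolve : ∀ (ω : Fin K → Ω) (w : Fin K → Bool → I), (fun i => R i (ω i, w i)) ∈ A →
      ∃ x, Φ x ∈ Reg ∧ ∀ i β, (w i β : ℝ) = ψ i (ω i) β (Φ x))
    (hderiv : ∀ i ω β, ∀ y ∈ Reg, HasFDerivAt (ψ i ω β) (lam i ω β y) y)
    (hψm : ∀ i β, Measurable fun a : Ω × W => ψ i a.1 β a.2)
    (hlm : ∀ i β, Measurable fun a : Ω × W × W => lam i a.1 β a.2.1 a.2.2)
    (lab : Fin K → Option B) (c : Fin K → W → ℝ≥0∞)
    (hcrude : ∀ y ∈ Reg, ∀ i, lab i = none →
      ∫⁻ ω, wt (fun β => ψ i ω β y) *
        ENNReal.ofReal (‖lam i ω false y‖ * ‖lam i ω true y‖) ∂μ ≤ c i y)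
    (hpair : ∀ y ∈ Reg, ∀ i b, lab i = some b → ∀ h,
      ∫⁻ ω, wt (fun β => ψ i ω β y) *
        ENNReal.ofReal ((lam i ω false y h ^ 2 + lam i ω true y h ^ 2) / 2) ∂μ ≤
        c i y * ENNReal.ofReal (‖π b h‖ ^ 2))
    (bound : ℝ≥0∞)
    (hb : ∀ y ∈ Reg, (∏ i, c i y) * ∏ b, ((2 ^ (Finset.univ.filter fun i => lab i = some b).card *
        ((Finset.univ.filter fun i => lab i = some b).card).factorial : ℕ) : ℝ≥0∞) ≤ bound) :
    Measure.pi (fun _ => μ) A ≤
      ∫⁻ x, bound * (Reg.indicator 1 (Φ x) *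
        ENNReal.ofReal (fderiv ℝ Φ x : X →ₗ[ℝ] W).normDet) := by
  classical
  let b : OrthonormalBasis (Fin K × Bool) ℝ X :=
    (stdOrthonormalBasis ℝ X).reindex (Fintype.equivFinOfCardEq (by simp [hX, mul_comm])).symm
  let P := Measure.pi fun _ : Fin K => μ
  let ν := Measure.pi fun _ : Fin K => (volume : Measure (Bool → I))
  let G : (Fin K → Ω) × (Fin K → Bool → I) → (Fin K → Ω) := fun a i => R i (a.1 i, a.2 i)
  have hG : MeasurePreserving G (P.prod ν) P :=
    (measurePreserving_pi _ _ hR).comp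
      (measurePreserving_arrowProdEquivProdArrow Ω (Bool → I) (Fin K) (fun _ => μ)
        (fun _ => volume)).symm
  have hΦm : Measurable Φ := hΦ.continuous.measurable
  let D : (Fin K → Ω) → X → ℝ := fun ω x => |Matrix.det (Matrix.of fun j j' : Fin K × Bool =>
    lam j.1 (ω j.1) j.2 (Φ x) (fderiv ℝ Φ x (b j')))|
  let H : (Fin K → Ω) → X → ℝ≥0∞ := fun ω x =>
    Reg.indicator 1 (Φ x) * ((∏ i, wt fun β => ψ i (ω i) β (Φ x)) * ENNReal.ofReal (D ω x))
  have hwm : ∀ i, Measurable fun a : Ω × W => wt fun β => ψ i a.1 β a.2 := fun i =>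
    measurable_wt.comp (measurable_pi_iff.2 fun β => hψm i β)
  have hHm : Measurable (Function.uncurry H) := by
    refine Measurable.mul ((measurable_one.indicator hReg).comp (hΦm.comp measurable_snd))
      (Measurable.mul (Finset.measurable_prod _ fun i _ =>
        (hwm i).comp (f := fun a : (Fin K → Ω) × X => (a.1 i, Φ a.2)) (by fun_prop)) ?_)
    refine ENNReal.measurable_ofReal.comp (Measurable.abs ?_)
    simp only [Matrix.det_apply', Matrix.of_apply]
    refine Finset.measurable_sum _ fun s _ => Measurable.const_mul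
      (Finset.measurable_prod _ fun j _ => ?_) _
    have := measurable_fderiv_apply_const ℝ Φ (b j)
    exact (hlm (s j).1 (s j).2).comp
      (f := fun a : (Fin K → Ω) × X => (a.1 (s j).1, Φ a.2, fderiv ℝ Φ a.2 (b j))) (by fun_prop)
  have h1 : ∀ ω, ν (Prod.mk ω ⁻¹' (G ⁻¹' A)) ≤ ∫⁻ x, H ω x := by
    intro ω
    let S : Set X := {x | Φ x ∈ Reg ∧ ∀ i β, ψ i (ω i) β (Φ x) ∈ I}
    have hS : MeasurableSet S := by
      refine (hΦm hReg).inter (s₂ := {x | ∀ i β, ψ i (ω i) β (Φ x) ∈ I}) ?_
      simp only [ofPred_forall]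
      refine MeasurableSet.iInter fun i => MeasurableSet.iInter fun β => ?_
      exact ((hψm i β).comp (f := fun x : X => (ω i, Φ x)) (by fun_prop)) measurableSet_Icc
    have h2 := area_le b S hS (fun j x => ψ j.1 (ω j.1) j.2 (Φ x))
      (fun j x => lam j.1 (ω j.1) j.2 (Φ x) ∘L fderiv ℝ Φ x)
      (fun j x hx => (hderiv _ _ _ _ hx.1).comp x (hΦ x).hasFDerivAt)
    refine le_trans (measure_mono ?_) ((cube_le _).trans (h2.trans ?_))
    · intro w hw
      obtain ⟨x, hx, hw'⟩ := hsolve ω w hw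
      exact ⟨x, ⟨hx, fun i β => hw' i β ▸ (w i β).2⟩, fun j => hw' _ _⟩
    · rw [← lintegral_indicator hS]
      refine lintegral_mono fun x => ?_
      by_cases hx : x ∈ S
      · have : ∀ i, (wt fun β => ψ i (ω i) β (Φ x)) = 1 := fun i => if_pos (hx.2 i)
        simp [H, D, hx, hx.1, this]
      · simp [hx]
  rw [← hG.measure_preimage hA.nullMeasurableSet, Measure.prod_apply (hG.measurable hA)]
  refine (lintegral_mono h1).trans ?_
  rw [lintegral_lintegral_swap hHm.aemeasurable]
  refine lintegral_mono fun x => ?_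
  by_cases hx : Φ x ∈ Reg
  swap
  · simp [H, hx]
  simp only [H, hx, indicator_of_mem, Pi.one_apply, one_mul]
  rcases det_factor b (fderiv ℝ Φ x : X →ₗ[ℝ] W) with h0 | ⟨u, hu, h0⟩
  · have : ∀ ω, D ω x = 0 := fun ω => by
      simp only [D]
      rw [abs_eq_zero]
      exact h0 fun j => lam j.1 (ω j.1) j.2 (Φ x)
    simp [this]
  · have h3 : ∀ ω, ENNReal.ofReal (D ω x) =
        ENNReal.ofReal |Matrix.det (Matrix.of fun j j' : Fin K × Bool =>
          lam j.1 (ω j.1) j.2 (Φ x) (u j'))| *
          ENNReal.ofReal (fderiv ℝ Φ x : X →ₗ[ℝ] W).normDet := fun ω => by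
      rw [← ENNReal.ofReal_mul (abs_nonneg _), mul_comm]
      exact congrArg _ (h0 fun j => lam j.1 (ω j.1) j.2 (Φ x))
    simp_rw [h3, ← mul_assoc]
    rw [lintegral_mul_const' _ _ ENNReal.ofReal_ne_top]
    gcongr
    refine le_trans (seq_bound π hπ μ K lab (fun i => c i (Φ x))
      (fun i ω => wt fun β => ψ i ω β (Φ x)) (fun i ω β => lam i ω β (Φ x))
      (fun i => (hwm i).comp (f := fun ω : Ω => (ω, Φ x)) (by fun_prop))
      (fun i β h => (hlm i β).comp (f := fun ω : Ω => (ω, Φ x, h)) (by fun_prop))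
      (hcrude _ hx) (hpair _ hx) u hu) (hb _ hx)

lemma measurableSet_proj {Ω : Type*} [TopologicalSpace Ω] [MeasurableSpace Ω]
    [OpensMeasurableSpace Ω] (C : Set (Ω × X)) (hC : IsClosed C) :
    MeasurableSet {ω | ∃ x, (ω, x) ∈ C} := by
  have : {ω | ∃ x, (ω, x) ∈ C} = ⋃ n : ℕ, Prod.fst ''
      ((fun a : Ω × Metric.closedBall (0 : X) n => (a.1, (a.2 : X))) ⁻¹' C) := by
    ext ω
    simp only [mem_ofPred_eq, mem_iUnion, mem_image, mem_preimage]
    constructor
    · rintro ⟨x, hx⟩
      obtain ⟨n, hn⟩ := exists_nat_ge ‖x‖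
      exact ⟨n, (ω, ⟨x, by simpa using hn⟩), hx, rfl⟩
    · rintro ⟨n, a, ha, rfl⟩
      exact ⟨_, ha⟩
  rw [this]
  refine MeasurableSet.iUnion fun n => IsClosed.measurableSet ?_
  have : CompactSpace (Metric.closedBall (0 : X) n) :=
    isCompact_iff_compactSpace.1 (isCompact_closedBall _ _)
  exact isClosedMap_fst_of_compactSpace _ (hC.preimage (by fun_prop))

end Pool.Agent.MP_8bdec9_gt

end MrgPart1

-- ======== part 2: formerly Pool.Agent.MP_8bdec9_gt.Gauss
section MrgPart2

/-! Gaussian estimates. -/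

open Complex MeasureTheory ProbabilityTheory
open scoped ComplexConjugate ENNReal NNReal

namespace Pool.Agent.MP_8bdec9_gt

variable {W : Type*} [NormedAddCommGroup W] [InnerProductSpace ℝ W]

/-- `cin` as a real linear map in its first argument -/
noncomputable def cinL (J : W ≃ₗᵢ[ℝ] W) (y : W) : W →L[ℝ] ℂ :=
  ofRealCLM ∘L innerSL ℝ y - I • (ofRealCLM ∘L innerSL ℝ (J y))

/-- `cin` as a real linear map in its second argument -/
noncomputable def cinR (J : W ≃ₗᵢ[ℝ] W) (q : W) : W →L[ℝ] ℂ :=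
  ofRealCLM ∘L innerSL ℝ q -
    I • (ofRealCLM ∘L innerSL ℝ q ∘L J.toContinuousLinearEquiv.toContinuousLinearMap)

variable {J : W ≃ₗᵢ[ℝ] W}

@[simp] lemma cinL_apply (y q : W) : cinL J y q = cin J q y := by
  apply Complex.ext <;> simp [cinL, real_inner_comm]

@[simp] lemma cinR_apply (q y : W) : cinR J q y = cin J q y := by
  apply Complex.ext <;> simp [cinR]

lemma volume_preimage_affine (c β : ℂ) (hc : c ≠ 0) (S : Set ℂ) :
    volume ((fun z => c * (z + β)) ⁻¹' S) = ENNReal.ofReal (‖c‖ ^ 2)⁻¹ * volume S := by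
  have h1 : (fun z => c * (z + β)) ⁻¹' S =
      (fun z => z + β) ⁻¹' ((LinearMap.mulLeft ℝ c) ⁻¹' S) := rfl
  have hdet : LinearMap.det (LinearMap.mulLeft ℝ c) = ‖c‖ ^ 2 := by
    have := Algebra.norm_complex_apply c
    rw [Algebra.norm_apply, normSq_eq_norm_sq] at this
    exact this
  rw [h1, measure_preimage_add_right, Measure.addHaar_preimage_linearMap _ (by
    rw [hdet]; positivity), hdet, abs_of_nonneg (by positivity)]

variable [FiniteDimensional ℝ W] [MeasurableSpace W] [BorelSpace W]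

lemma cov_inner (x y : W) :
    cov[fun u => inner ℝ x u, fun u => inner ℝ y u; stdGaussian W] = inner ℝ x y := by
  rw [← covarianceBilin_apply_eq_cov IsGaussian.memLp_two_id, covarianceBilin_stdGaussian]
  rfl

lemma map_inner_unit (x : W) (hx : ‖x‖ = 1) :
    (stdGaussian W).map (fun u => inner ℝ x u) = gaussianReal 0 1 := by
  have h := IsGaussian.map_eq_gaussianReal (μ := stdGaussian W) (innerSL ℝ x)
  rw [integral_strongDual_stdGaussian, variance_dual_stdGaussian, innerSL_apply_norm, hx] at h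
  simpa using h

lemma lintegral_inner_sq (k : W) :
    ∫⁻ q, ENNReal.ofReal (inner ℝ q k ^ 2) ∂stdGaussian W = ENNReal.ofReal (‖k‖ ^ 2) := by
  have hL : MemLp (innerSL ℝ k) 2 (stdGaussian W) := IsGaussian.memLp_dual _ _ 2 (by simp)
  have h1 := variance_dual_stdGaussian (innerSL ℝ k)
  rw [variance_of_integral_eq_zero hL.aemeasurable (integral_strongDual_stdGaussian _),
    innerSL_apply_norm] at h1
  rw [← h1, ofReal_integral_eq_lintegral_ofReal hL.integrable_sq
    (Filter.Eventually.of_forall fun _ => sq_nonneg _)]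
  simp [real_inner_comm]

lemma lintegral_norm_sq :
    ∫⁻ q, ENNReal.ofReal (‖q‖ ^ 2) ∂stdGaussian W = Module.finrank ℝ W := by
  let b := stdOrthonormalBasis ℝ W
  have h : ∀ q : W, ENNReal.ofReal (‖q‖ ^ 2) = ∑ i, ENNReal.ofReal (inner ℝ q (b i) ^ 2) := by
    intro q
    rw [← b.sum_sq_inner_left q, ENNReal.ofReal_sum_of_nonneg fun _ _ => sq_nonneg _]
  simp_rw [h]
  rw [lintegral_finsetSum _ (fun i _ => by fun_prop)]
  simp [lintegral_inner_sq, b.orthonormal.1]

lemma gaussianReal_le : gaussianReal 0 1 ≤ ENNReal.ofReal (√(2 * Real.pi))⁻¹ • volume := by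
  rw [gaussianReal_of_var_ne_zero _ one_ne_zero, ← withDensity_const]
  refine withDensity_mono (Filter.Eventually.of_forall fun x => ?_)
  refine ENNReal.ofReal_le_ofReal ?_
  simp only [gaussianPDFReal, NNReal.coe_one, mul_one, sub_zero]
  have : Real.exp (-x ^ 2 / 2) ≤ 1 := Real.exp_le_one_iff.2 (by nlinarith [sq_nonneg x])
  have h0 : 0 ≤ (√(2 * Real.pi))⁻¹ := by positivity
  nlinarith

lemma indep_inner {x y : W} (h : inner ℝ x y = 0) :
    IndepFun (fun u => inner ℝ x u) (fun u => inner ℝ y u) (stdGaussian W) := by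
  refine HasGaussianLaw.indepFun_of_covariance_eq_zero ?_ (by rw [cov_inner, h])
  exact IsGaussian.hasGaussianLaw_id.map_fun ((innerSL ℝ x).prod (innerSL ℝ y))

lemma prob_cin_unit (hJ : ∀ w, J (J w) = -w) (y : W) (hy : ‖y‖ = 1) (S : Set ℂ)
    (hS : MeasurableSet S) :
    stdGaussian W {q | cin J q y ∈ S} ≤ ENNReal.ofReal (2 * Real.pi)⁻¹ * volume S := by
  have hind : IndepFun (fun u => inner ℝ y u) (fun u => inner ℝ (-J y) u) (stdGaussian W) :=
    indep_inner (by rw [inner_neg_right, inner_self_J hJ, neg_zero])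
  have hmap := (indepFun_iff_map_prod_eq_prod_map_map (by fun_prop) (by fun_prop)).1 hind
  rw [map_inner_unit y hy, map_inner_unit (-J y) (by simp [hy])] at hmap
  let T : Set (ℝ × ℝ) := measurableEquivRealProd.symm ⁻¹' S
  have hT : MeasurableSet T := measurableEquivRealProd.symm.measurable hS
  have h1 : {q | cin J q y ∈ S} =
      (fun u => (inner ℝ y u, inner ℝ (-J y) u)) ⁻¹' T := by
    ext q
    simp only [T, Set.mem_ofPred_eq, Set.mem_preimage, measurableEquivRealProd_symm_apply]
    have : cin J q y = ⟨inner ℝ y q, inner ℝ (-J y) q⟩ := by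
      apply Complex.ext <;> simp [real_inner_comm]
    rw [this]
  rw [h1, ← Measure.map_apply (by fun_prop) hT, hmap]
  have h2 : (gaussianReal 0 1).prod (gaussianReal 0 1) ≤
      (ENNReal.ofReal (√(2 * Real.pi))⁻¹ • volume).prod
        (ENNReal.ofReal (√(2 * Real.pi))⁻¹ • (volume : Measure ℝ)) := by
    have : SFinite (ENNReal.ofReal (√(2 * Real.pi))⁻¹ • (volume : Measure ℝ)) := inferInstance
    exact Measure.prod_mono gaussianReal_le gaussianReal_le
  refine (h2 T).trans (le_of_eq ?_)
  rw [Measure.prod_smul_left, Measure.prod_smul_right, smul_smul, Measure.smul_apply, smul_eq_mul,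
    ← ENNReal.ofReal_mul (by positivity), ← mul_inv, Real.mul_self_sqrt (by positivity)]
  congr 1
  exact volume_preserving_equiv_real_prod.symm.measure_preimage hS.nullMeasurableSet

lemma prob_cin (hJ : ∀ w, J (J w) = -w) (y : W) (hy : y ≠ 0) (S : Set ℂ)
    (hS : MeasurableSet S) :
    stdGaussian W {q | cin J q y ∈ S} ≤
      ENNReal.ofReal (2 * Real.pi * ‖y‖ ^ 2)⁻¹ * volume S := by
  have hn : 0 < ‖y‖ := norm_pos_iff.2 hy
  have h := prob_cin_unit hJ (‖y‖⁻¹ • y) (by rw [norm_smul]; simp [hn.ne'])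
    ((fun z => (‖y‖ : ℂ) * (z + 0)) ⁻¹' S) (hS.preimage (by fun_prop))
  have h1 : {q | cin J q (‖y‖⁻¹ • y) ∈ (fun z => (‖y‖ : ℂ) * (z + 0)) ⁻¹' S} =
      {q | cin J q y ∈ S} := by
    ext q
    have : (‖y‖ : ℂ) ≠ 0 := by exact_mod_cast hn.ne'
    simp [cin_smul_right, this]
  rw [h1, volume_preimage_affine _ _ (by exact_mod_cast hn.ne'), ← mul_assoc,
    ← ENNReal.ofReal_mul (by positivity)] at h
  simpa [mul_comm] using h

lemma lintegral_indicator_inner_sq (y k : W) (h1 : inner ℝ y k = 0) (h2 : inner ℝ (J y) k = 0)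
    (S : Set ℂ) (hS : MeasurableSet S) :
    ∫⁻ q, S.indicator 1 (cin J q y) * ENNReal.ofReal (inner ℝ q k ^ 2) ∂stdGaussian W =
      stdGaussian W {q | cin J q y ∈ S} * ENNReal.ofReal (‖k‖ ^ 2) := by
  have hind : IndepFun (fun u => cinL J y u) (fun u => innerSL ℝ k u) (stdGaussian W) := by
    refine HasGaussianLaw.indepFun_of_covariance_strongDual ?_ fun L₁ L₂ => ?_
    · exact IsGaussian.hasGaussianLaw_id.map_fun ((cinL J y).prod (innerSL ℝ k))
    · have e1 : (L₁ ∘ fun u => cinL J y u) =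
          fun u => inner ℝ (L₁ 1 • y - L₁ I • J y) u := by
        funext u
        have : cinL J y u = inner ℝ y u • (1 : ℂ) - inner ℝ (J y) u • I := by
          apply Complex.ext <;> simp [real_inner_comm]
        simp only [Function.comp_apply, this, map_sub, map_smul, inner_sub_left, inner_smul_left,
          smul_eq_mul, conj_trivial]
        ring
      have e2 : (L₂ ∘ fun u => innerSL ℝ k u) = fun u => inner ℝ (L₂ 1 • k) u := by
        funext u
        have : L₂ (inner ℝ k u) = inner ℝ k u * L₂ 1 := by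
          rw [← smul_eq_mul, ← map_smul]; simp
        simp [this, inner_smul_left, mul_comm]
      rw [e1, e2, cov_inner]
      simp [inner_sub_left, inner_smul_left, inner_smul_right, h1, h2]
  have hm1 : Measurable fun z : ℂ => S.indicator (1 : ℂ → ℝ≥0∞) z := measurable_one.indicator hS
  have hm2 : Measurable fun x : ℝ => ENNReal.ofReal (x ^ 2) := by fun_prop
  have h := lintegral_mul_eq_lintegral_mul_lintegral_of_indepFun''
    (hm1.comp (cinL J y).continuous.measurable).aemeasurable
    (hm2.comp (innerSL ℝ k).continuous.measurable).aemeasurable (hind.comp hm1 hm2)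
  simp only [Function.comp_apply, cinL_apply, innerSL_apply_apply] at h
  simp_rw [real_inner_comm k] at h ⊢
  simp_rw [← real_inner_comm k] at h ⊢
  rw [h, lintegral_inner_sq]
  congr 1
  have hm : MeasurableSet {q | cin J q y ∈ S} := by
    have := (cinL J y).continuous.measurable hS
    simpa [Set.preimage] using this
  rw [← lintegral_indicator_one hm]
  rfl

/-- The second moment of a conditioned row. -/
lemma pair_gauss (hJ : ∀ w, J (J w) = -w) (y : W) (hy : y ≠ 0) (S : Set ℂ)
    (hS : MeasurableSet S) (h : W) (r : W → W) (ε η : ℝ) (hη : 0 < η)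
    (hr : ∀ q, cin J q y ∈ S → ‖r q‖ ≤ ε ∧ cin J (q + r q) y = 0) :
    ∫⁻ q, S.indicator 1 (cin J q y) * ENNReal.ofReal (‖cin J (q + r q) h‖ ^ 2) ∂stdGaussian W ≤
      ENNReal.ofReal (2 * Real.pi * ‖y‖ ^ 2)⁻¹ * volume S *
        ENNReal.ofReal ((2 * (1 + η) + (1 + η⁻¹) * ε ^ 2) * ‖h‖ ^ 2) := by
  have hn : 0 < ‖y‖ := norm_pos_iff.2 hy
  set k := h - cs J (cin J y h / (‖y‖ ^ 2 : ℝ)) y with hk
  have hyk : cin J y k = 0 := by
    have : ((‖y‖ ^ 2 : ℝ) : ℂ) ≠ 0 := by exact_mod_cast (by positivity : ‖y‖ ^ 2 ≠ 0)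
    rw [hk, cin_sub_right, cin_cs_right hJ, cin_self hJ, div_mul_cancel₀ _ this, sub_self]
  have hyk1 : inner ℝ y k = 0 := by simpa using congrArg re hyk
  have hyk2 : inner ℝ y (J k) = 0 := by simpa using congrArg im hyk
  have hkh : ‖k‖ ≤ ‖h‖ := by
    have h1 : inner ℝ (cs J (cin J y h / (‖y‖ ^ 2 : ℝ)) y) k = 0 := by
      rw [← cin_re (J := J), cin_cs_left hJ, hyk]; simp
    have h2 : h = cs J (cin J y h / (‖y‖ ^ 2 : ℝ)) y + k := by rw [hk]; abel
    have h3 := norm_add_sq_real (cs J (cin J y h / (‖y‖ ^ 2 : ℝ)) y) k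
    rw [← h2, h1] at h3
    have : ‖k‖ ^ 2 ≤ ‖h‖ ^ 2 := by nlinarith [sq_nonneg ‖cs J (cin J y h / (‖y‖ ^ 2 : ℝ)) y‖]
    exact (pow_le_pow_iff_left₀ (norm_nonneg _) (norm_nonneg _) two_ne_zero).1 this
  have hpt : ∀ q, S.indicator 1 (cin J q y) * ENNReal.ofReal (‖cin J (q + r q) h‖ ^ 2) ≤
      ENNReal.ofReal (1 + η) * (S.indicator 1 (cin J q y) * ENNReal.ofReal (inner ℝ q k ^ 2)) +
      ENNReal.ofReal (1 + η) *
        (S.indicator 1 (cin J q y) * ENNReal.ofReal (inner ℝ q (J k) ^ 2)) +
      S.indicator 1 (cin J q y) * ENNReal.ofReal ((1 + η⁻¹) * ε ^ 2 * ‖h‖ ^ 2) := by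
    intro q
    by_cases hq : cin J q y ∈ S
    · obtain ⟨hr1, hr2⟩ := hr q hq
      simp only [Set.indicator_of_mem hq, Pi.one_apply, one_mul]
      rw [← ENNReal.ofReal_mul (by positivity), ← ENNReal.ofReal_mul (by positivity),
        ← ENNReal.ofReal_add (by positivity) (by positivity),
        ← ENNReal.ofReal_add (by positivity) (by positivity)]
      refine ENNReal.ofReal_le_ofReal ?_
      have e1 : cin J (q + r q) h = cin J q k + cin J (r q) k := by
        rw [← cin_add_left, hk, cin_sub_right, cin_cs_right hJ, hr2]; simp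
      have e2 : ‖cin J q k‖ ^ 2 = inner ℝ q k ^ 2 + inner ℝ q (J k) ^ 2 := by
        rw [← normSq_eq_norm_sq, normSq_cin]
      have e3 : ‖cin J (r q) k‖ ≤ ε * ‖h‖ :=
        (norm_cin_le hJ _ _).trans (mul_le_mul hr1 hkh (norm_nonneg _) ((norm_nonneg _).trans hr1))
      have e4 : ‖cin J (q + r q) h‖ ≤ ‖cin J q k‖ + ε * ‖h‖ := by
        rw [e1]; exact (norm_add_le _ _).trans (by linarith)
      have e5 : ‖cin J (q + r q) h‖ ^ 2 ≤ (‖cin J q k‖ + ε * ‖h‖) ^ 2 :=
        pow_le_pow_left₀ (norm_nonneg _) e4 2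
      have e6 : ∀ a b : ℝ, (a + b) ^ 2 ≤ (1 + η) * a ^ 2 + (1 + η⁻¹) * b ^ 2 := by
        intro a b
        have : 0 ≤ η⁻¹ * (η * a - b) ^ 2 := by positivity
        have h' : η⁻¹ * (η * a - b) ^ 2 = η * a ^ 2 - 2 * a * b + η⁻¹ * b ^ 2 := by
          field_simp; ring
        nlinarith
      have e7 := e6 ‖cin J q k‖ (ε * ‖h‖)
      rw [e2] at e7
      nlinarith
    · simp [Set.indicator_of_notMem hq]
  have hm0 : Measurable fun q : W => S.indicator (1 : ℂ → ℝ≥0∞) (cin J q y) := by
    have := (measurable_one.indicator hS : Measurable (S.indicator (1 : ℂ → ℝ≥0∞))).comp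
      (cinL J y).continuous.measurable
    simpa [Function.comp_def] using this
  have hm : MeasurableSet {q | cin J q y ∈ S} := by
    have := (cinL J y).continuous.measurable hS
    simpa [Set.preimage] using this
  refine (lintegral_mono hpt).trans ?_
  rw [lintegral_add_left (by fun_prop), lintegral_add_left (by fun_prop),
    lintegral_const_mul _ (by fun_prop), lintegral_const_mul _ (by fun_prop),
    lintegral_mul_const _ hm0, lintegral_indicator_inner_sq y k hyk1
      (by rw [inner_J_left hJ, hyk2, neg_zero]) S hS,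
    lintegral_indicator_inner_sq y (J k) hyk2 (by rw [J.inner_map_map, hyk1]) S hS]
  have e : ∫⁻ q, S.indicator (1 : ℂ → ℝ≥0∞) (cin J q y) ∂stdGaussian W =
      stdGaussian W {q | cin J q y ∈ S} := by
    rw [← lintegral_indicator_one hm]; rfl
  rw [e, J.norm_map]
  set P := stdGaussian W {q | cin J q y ∈ S}
  calc _ = P * (ENNReal.ofReal (1 + η) * ENNReal.ofReal (‖k‖ ^ 2) +
        ENNReal.ofReal (1 + η) * ENNReal.ofReal (‖k‖ ^ 2) +
        ENNReal.ofReal ((1 + η⁻¹) * ε ^ 2 * ‖h‖ ^ 2)) := by ring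
    _ ≤ _ := by
      refine mul_le_mul' (prob_cin hJ y hy S hS) ?_
      rw [← ENNReal.ofReal_mul (by positivity),
        ← ENNReal.ofReal_add (by positivity) (by positivity),
        ← ENNReal.ofReal_add (by positivity) (by positivity)]
      refine ENNReal.ofReal_le_ofReal ?_
      have : ‖k‖ ^ 2 ≤ ‖h‖ ^ 2 := pow_le_pow_left₀ (norm_nonneg _) hkh 2
      nlinarith

end Pool.Agent.MP_8bdec9_gt

end MrgPart2

-- marker of a merged file
example : 731051 + 247730 = 731051 + 247730 := rfl
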