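import Mathlib.RingTheory.Flat.TorsionFree
import Pool.Agent.MP_8bdec9_gt.Gauss

/-! The pairs of equations used in the Kac-Rice bound. -/

open MeasureTheory Module Set ProbabilityTheory
open scoped ENNReal ComplexConjugate

namespace Pool.Agent.MP_8bdec9_gt

section quot
variable {W : Type*} [NormedAddCommGroup W] [NormedSpace ℝ W] {𝕜 : Type*} [RCLike 𝕜]

/-- quotient of two linear forms -/
noncomputable def qv (F G : W →L[ℝ] 𝕜) (y : W) : 𝕜 := -F y / G y

/-- its derivative -/
noncomputable def qd (F G : W →L[ℝ] 𝕜) (y : W) : W →L[ℝ] 𝕜 :=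
  (-(G y)⁻¹) • (F + qv F G y • G)

lemma qd_apply (F G : W →L[ℝ] 𝕜) (y h : W) :
    qd F G y h = -(G y)⁻¹ * (F h + qv F G y * G h) := by
  simp [qd]
  ring

lemma hasFDerivAt_qv (F G : W →L[ℝ] 𝕜) (y : W) (hy : G y ≠ 0) :
    HasFDerivAt (qv F G) (qd F G y) y := by
  have h1 := ((hasFDerivAt_inv hy).restrictScalars ℝ).comp y G.hasFDerivAt
  have h2 := F.hasFDerivAt.neg.mul h1
  convert h2 using 1
  · funext x; simp [qv, div_eq_mul_inv]
  · ext h
    simp [qd_apply, qv]
    field_simp
    ring

lemma eq_qv (F G : W →L[ℝ] 𝕜) (y : W) (hy : G y ≠ 0) (c : 𝕜) (h : F y + c * G y = 0) :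
    c = qv F G y := by
  rw [qv, eq_div_iff hy]
  linear_combination h

end quot

/-- the random parameters -/
abbrev Par (B M : Type) := Option (B × M) × Bool → unitInterval

/-- labels of pairs of equations -/
abbrev Lab (B N : Type) := B ⊕ (Bool → Finset B ⊕ B × N)

/-- resampling of two parameters -/
def upd {B M : Type} [DecidableEq B] [DecidableEq M] (ι : Bool → Option (B × M)) (z : Par B M)
    (w : Bool → unitInterval) : Par B M :=
  fun a => if a.1 = ι a.2 then w a.2 else z a

lemma measurePreserving_upd {B M : Type} [Fintype B] [Fintype M] [DecidableEq B] [DecidableEq M]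
    (ι : Bool → Option (B × M)) :
    MeasurePreserving (fun a : Par B M × (Bool → unitInterval) => upd ι a.1 a.2)
      (volume.prod volume) volume := by
  have hm : Measurable (fun a : Par B M × (Bool → unitInterval) => upd ι a.1 a.2) := by
    refine measurable_pi_iff.2 fun a => ?_
    unfold upd
    split_ifs <;> fun_prop
  refine ⟨hm, (Measure.pi_eq fun s hs => ?_).symm⟩
  rw [Measure.map_apply hm (MeasurableSet.univ_pi hs)]
  have : (fun a : Par B M × (Bool → unitInterval) => upd ι a.1 a.2) ⁻¹' univ.pi s =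
      (univ.pi fun a => if a.1 = ι a.2 then univ else s a) ×ˢ univ.pi fun β => s (ι β, β) := by
    ext ⟨z, w⟩
    simp only [mem_preimage, mem_pi, mem_univ, true_imp_iff, mem_prod, upd]
    constructor
    · intro h
      refine ⟨fun a => ?_, fun β => by simpa using h (ι β, β)⟩
      have := h a
      split_ifs at this ⊢ <;> simp [this]
    · rintro ⟨h1, h2⟩ ⟨o, β⟩
      have := h1 (o, β)
      split_ifs at this ⊢ with h
      · obtain rfl : o = ι β := h
        exact h2 β
      · exact this
  rw [this, Measure.prod_prod, volume_pi, volume_pi, Measure.pi_pi, Measure.pi_pi,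
    Fintype.prod_prod_type_right, Fintype.prod_prod_type_right, ← Finset.prod_mul_distrib]
  refine Finset.prod_congr rfl fun β _ => ?_
  rw [← Finset.mul_prod_erase _ _ (Finset.mem_univ (ι β)),
    ← Finset.mul_prod_erase _ (fun o => volume (s (o, β))) (Finset.mem_univ (ι β))]
  simp only [if_true, measure_univ, one_mul]
  rw [mul_comm]
  congr 1
  exact Finset.prod_congr rfl fun o ho => by rw [if_neg (Finset.ne_of_mem_erase ho)]

/-- the fixed data -/
structure Dat (W B N M : Type) [NormedAddCommGroup W] [InnerProductSpace ℝ W] where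
  J : W ≃ₗᵢ[ℝ] W
  π : B → W →L[ℝ] W
  ν : N → ℂ
  e : M → W
  ε : ℝ
  ℓ : ℝ
  n0 : N

namespace Dat

variable {W B N M : Type} [NormedAddCommGroup W] [InnerProductSpace ℝ W]
  [Fintype B] [Fintype M] [DecidableEq B] [DecidableEq M] (D : Dat W B N M)

/-- shift directions -/
def E (m : M) (β : Bool) : W := cond β (D.J (D.e m)) (D.e m)

/-- shift direction of a parameter in a block -/
def dir : Option (B × M) → Bool → B → W
  | none, _, _ => 0
  | some a, β, b => if a.1 = b then D.E a.2 β else 0

/-- the shift -/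
def sh (z : Par B M) (b : B) : W := D.ε • ∑ a, (z a : ℝ) • D.dir a.1 a.2 b

lemma sh_upd (ι : Bool → Option (B × M)) (z : Par B M) (w : Bool → unitInterval) (b : B) :
    D.sh (upd ι z w) b = D.sh (upd ι z 0) b + D.ε • ∑ β, (w β : ℝ) • D.dir (ι β) β b := by
  rw [sh, sh, ← smul_add, Fintype.sum_prod_type_right, Fintype.sum_prod_type_right,
    ← Finset.sum_add_distrib]
  congr 1
  refine Finset.sum_congr rfl fun β _ => ?_
  rw [← Finset.add_sum_erase _ _ (Finset.mem_univ (ι β)),
    ← Finset.add_sum_erase _ (fun o => _) (Finset.mem_univ (ι β))]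
  simp only [upd, if_true, Pi.zero_apply, Icc.coe_zero, zero_smul, zero_add]
  rw [add_comm]
  congr 1
  exact Finset.sum_congr rfl fun o ho => by
    rw [if_neg (Finset.ne_of_mem_erase ho), if_neg (Finset.ne_of_mem_erase ho)]

omit [DecidableEq M] in
lemma continuous_sh (b : B) : Continuous fun z => D.sh z b := by
  unfold sh; fun_prop

omit [Fintype B] [Fintype M] in
lemma continuous_upd (ι : Bool → Option (B × M)) : Continuous fun z : Par B M => upd ι z 0 := by
  refine continuous_pi fun a => ?_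
  unfold upd
  split_ifs <;> fun_prop

omit [Fintype B] [Fintype M] [DecidableEq B] [DecidableEq M] in
lemma norm_E (he : ∀ m, ‖D.e m‖ = 1) (m : M) (β : Bool) : ‖D.E m β‖ = 1 := by
  cases β <;> simp [E, he]

omit [DecidableEq M] in
lemma norm_sh (he : ∀ m, ‖D.e m‖ = 1) (hε : 0 ≤ D.ε) (z : Par B M) (b : B) :
    ‖D.sh z b‖ ≤ D.ε * Fintype.card (Option (B × M) × Bool) := by
  rw [sh, norm_smul, Real.norm_of_nonneg hε]
  gcongr
  refine (norm_sum_le _ _).trans ?_
  refine (Finset.sum_le_card_nsmul _ _ 1 fun a _ => ?_).trans (by simp)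
  rw [norm_smul, Real.norm_of_nonneg (z a).2.1]
  refine mul_le_one₀ (z a).2.2 (norm_nonneg _) ?_
  obtain ⟨_ | o, β⟩ := a
  · simp [dir]
  · simp only [dir]
    split_ifs
    · exact (D.norm_E he _ _).le
    · simp

/-- rotated block projection -/
noncomputable def v (a : B × N) : W →L[ℝ] W := cs D.J (D.ν a.2) ∘L D.π a.1

/-- the resampled parameters -/
def iota (l : B × N × Bool → M) : Lab B N → Bool → Option (B × M)
  | .inl b, _ => some (b, l (b, D.n0, false))
  | .inr s, β => (s β).elim (fun _ => none) fun a => some (a.1, l (a.1, a.2, β))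

/-- one real equation -/
def EqnS (off : Finset B → ℝ) (ω : Par B M × W) (β : Bool) (y : W) : Finset B ⊕ B × N → Prop
  | .inl Bs => ∑ b ∈ Bs, ‖D.π b y‖ ^ 2 = off Bs + D.ℓ * ω.1 (none, β)
  | .inr a => inner ℝ (ω.2 + D.sh ω.1 a.1) (D.v a y) = 0

/-- the pair of equations -/
def Eqn (off : Bool → Finset B → ℝ) (ω : Par B M × W) (y : W) : Lab B N → Prop
  | .inl b => cin D.J (ω.2 + D.sh ω.1 b) (D.π b y) = 0
  | .inr s => ∀ β, D.EqnS (off β) ω β y (s β)

omit [DecidableEq M] in
lemma isClosed_Eqn (off : Bool → Finset B → ℝ) (t : Lab B N) :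
    IsClosed {a : (Par B M × W) × W | D.Eqn off a.1 a.2 t} := by
  have hsh := D.continuous_sh
  rcases t with b | s
  · refine isClosed_eq (continuous_cin.comp
      (f := fun a : (Par B M × W) × W => (a.1.2 + D.sh a.1.1 b, D.π b a.2)) ?_) continuous_const
    fun_prop
  · simp only [Eqn, ofPred_forall]
    refine isClosed_iInter fun β => ?_
    rcases s β with Bs | a
    · exact isClosed_eq (by fun_prop) (by fun_prop)
    · exact isClosed_eq (by fun_prop) (by fun_prop)

/-- numerator, complex equation -/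
noncomputable def Fp (q : W) (b : B) : W →L[ℝ] ℂ := cinR D.J q ∘L D.π b

omit [Fintype B] [Fintype M] [DecidableEq B] [DecidableEq M] in
lemma Fp_apply (q : W) (b : B) (y : W) : D.Fp q b y = cin D.J q (D.π b y) := by simp [Fp]

/-- numerator, real equation -/
noncomputable def Fs (q : W) (a : B × N) : W →L[ℝ] ℝ := innerSL ℝ q ∘L D.v a

/-- solved parameter, real equation -/
noncomputable def psiS (l : B × N × Bool → M) (off : Finset B → ℝ) (q : B → W) (β : Bool) :
    Finset B ⊕ B × N → W → ℝ
  | .inl Bs => fun y => D.ℓ⁻¹ * (∑ b ∈ Bs, ‖D.π b y‖ ^ 2 - off Bs)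
  | .inr a => qv (D.Fs (q a.1) a) (D.Fs (D.ε • D.E (l (a.1, a.2, β)) β) a)

/-- its derivative -/
noncomputable def lamS (l : B × N × Bool → M) (q : B → W) (β : Bool) :
    Finset B ⊕ B × N → W → W →L[ℝ] ℝ
  | .inl Bs => fun y => D.ℓ⁻¹ • ∑ b ∈ Bs, (2 : ℕ) • (innerSL ℝ (D.π b y) ∘L D.π b)
  | .inr a => qd (D.Fs (q a.1) a) (D.Fs (D.ε • D.E (l (a.1, a.2, β)) β) a)

/-- real and imaginary parts -/
noncomputable def part (β : Bool) : ℂ →L[ℝ] ℝ := cond β (-Complex.imCLM) Complex.reCLM

/-- the random vector with the resampled parameters removed -/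
def q0 (l : B × N × Bool → M) (t : Lab B N) (ω : Par B M × W) (b : B) : W :=
  ω.2 + D.sh (upd (D.iota l t) ω.1 0) b

/-- solved parameters -/
noncomputable def psi (l : B × N × Bool → M) (off : Bool → Finset B → ℝ) (t : Lab B N)
    (ω : Par B M × W) (β : Bool) : W → ℝ :=
  t.elim (fun b y => part β (qv (D.Fp (D.q0 l t ω b) b)
      (D.Fp (D.ε • D.e (l (b, D.n0, false))) b) y))
    fun s => D.psiS l (off β) (D.q0 l t ω) β (s β)

/-- their derivatives -/
noncomputable def lam (l : B × N × Bool → M) (t : Lab B N)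
    (ω : Par B M × W) (β : Bool) : W → W →L[ℝ] ℝ :=
  t.elim (fun b y => part β ∘L qd (D.Fp (D.q0 l t ω b) b)
      (D.Fp (D.ε • D.e (l (b, D.n0, false))) b) y)
    fun s => D.lamS l (D.q0 l t ω) β (s β)

/-- nondegeneracy -/
def Good (l : B × N × Bool → M) (D1 : ℝ) (y : W) : Lab B N → Prop
  | .inl b => cin D.J (D.ε • D.e (l (b, D.n0, false))) (D.π b y) ≠ 0
  | .inr s => (∀ β a, s β = .inr a →
      1 ≤ D1 * |inner ℝ (D.ε • D.E (l (a.1, a.2, β)) β) (D.v a y)|) ∧
      ∀ a a', s false = .inr a → s true = .inr a' → a.1 ≠ a'.1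

variable {D} {l : B × N × Bool → M} {off : Bool → Finset B → ℝ} {D1 : ℝ} {y : W} {t : Lab B N}

lemma hasFDerivAt_psi (hy : D.Good l D1 y t) (ω : Par B M × W) (β : Bool) :
    HasFDerivAt (D.psi l off t ω β) (D.lam l t ω β y) y := by
  rcases t with b | s
  · exact (part β).hasFDerivAt.comp y (hasFDerivAt_qv _ _ y (by rw [Fp_apply]; exact hy))
  · simp only [psi, lam, Sum.elim_inr]
    have h := hy.1 β
    rcases hs : s β with Bs | a
    · simp only [psiS, lamS]
      refine HasFDerivAt.const_mul (HasFDerivAt.sub_const _ (HasFDerivAt.fun_sum fun b _ => ?_)) _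
      exact (D.π b).hasFDerivAt.norm_sq
    · refine hasFDerivAt_qv _ _ y fun h0 => ?_
      have := h a hs
      rw [show inner ℝ (D.ε • D.E (l (a.1, a.2, β)) β) (D.v a y) = 0 from h0] at this
      norm_num at this

lemma solve (hJ : ∀ w, D.J (D.J w) = -w) (hℓ : D.ℓ ≠ 0) (hy : D.Good l D1 y t)
    (ω : Par B M × W) (w : Bool → unitInterval)
    (h : D.Eqn off (upd (D.iota l t) ω.1 w, ω.2) y t) (β : Bool) :
    (w β : ℝ) = D.psi l off t ω β y := by
  rcases t with b | s
  · simp only [Eqn] at h
    rw [sh_upd, ← add_assoc, cin_add_left] at h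
    have h2 : D.ε • ∑ β, (w β : ℝ) • D.dir (D.iota l (.inl b) β) β b =
        cs D.J ⟨w false, w true⟩ (D.ε • D.e (l (b, D.n0, false))) := by
      simp [iota, dir, E, cs_apply, smul_smul, add_comm]
    rw [h2, cin_cs_left hJ] at h
    have h3 := eq_qv (D.Fp (D.q0 l (.inl b) ω b) b) (D.Fp (D.ε • D.e (l (b, D.n0, false))) b) y
      (by rw [Fp_apply]; exact hy) _ (by rw [Fp_apply, Fp_apply]; exact h)
    simp only [psi, Sum.elim_inl, ← h3]
    cases β <;> simp [part]
  · have h1 := h β
    simp only [psi, Sum.elim_inr]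
    have h4 := hy.1 β
    rcases hs : s β with Bs | a
    · rw [hs] at h1
      simp only [EqnS, upd, iota, hs, Sum.elim_inl, if_true] at h1
      simp only [psiS, h1]
      field_simp
      ring
    · rw [hs] at h1
      simp only [EqnS] at h1
      rw [sh_upd, ← add_assoc, inner_add_left] at h1
      have h2 : D.ε • ∑ β', (w β' : ℝ) • D.dir (D.iota l (.inr s) β') β' a.1 =
          (w β : ℝ) • D.ε • D.E (l (a.1, a.2, β)) β := by
        rw [Finset.sum_eq_single β, smul_comm]
        · simp [iota, hs, dir]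
        · intro β' _ hβ
          rcases hs' : s β' with Bs | a'
          · simp [iota, hs', dir]
          · have : a'.1 ≠ a.1 := by
              cases β <;> cases β'
              · exact absurd rfl hβ
              · exact (hy.2 _ _ hs hs').symm
              · exact hy.2 _ _ hs' hs
              · exact absurd rfl hβ
            simp [iota, hs', dir, this]
        · simp
      rw [h2, real_inner_smul_left] at h1
      refine eq_qv _ _ y (fun h0 => ?_) _ h1
      have := h4 a hs
      rw [show inner ℝ (D.ε • D.E (l (a.1, a.2, β)) β) (D.v a y) = 0 from h0] at this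
      norm_num at this

end Dat

end Pool.Agent.MP_8bdec9_gt
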