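import Mathlib.RingTheory.PiTensorProduct
import Pool.Agent.MP_8bdec9_gt.Units
import Pool.Agent.MP_8bdec9_gt.Sector
import Pool.Agent.MP_8bdec9_gt.LS

/-! The topological step: every choice of the random parameters solves one of finitely many
systems of equations. -/

open MeasureTheory Module Set
open scoped ComplexConjugate

namespace Pool.Agent.MP_8bdec9_gt

lemma cover_W {p : ℕ} (hp : 2 ≤ p) {X W : Type} [NormedAddCommGroup X] [InnerProductSpace ℝ X]
    [FiniteDimensional ℝ X] [NormedAddCommGroup W] [InnerProductSpace ℝ W]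
    {g : X →L[ℝ] X} {J U : W ≃ₗᵢ[ℝ] W} {Φ : X → W} (h : ConeData p g J U Φ)
    {ι : Type*} [Fintype ι] (hι : Fintype.card ι < finrank ℝ X)
    (O : ι → ZMod p → Set W) (hO : ∀ j a, IsOpen (O j a))
    (hmap : ∀ j a x, x ∈ O j a → U x ∈ O j (a + 1))
    (hdisj : ∀ j a a' x, x ∈ O j a → x ∈ O j a' → a = a') (ρ : ℝ) (hρ : 0 < ρ) :
    ∃ x, ‖Φ x‖ ^ 2 = ρ ∧ ∀ j a, Φ x ∉ O j a := by
  let Y : X → W := fun x => (√ρ / ‖Φ x‖) • Φ x
  have hc := h.diff.continuous
  have hY : ContinuousOn Y {x | Φ x ≠ 0} :=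
    (continuousOn_const.div hc.norm.continuousOn fun x hx => norm_ne_zero_iff.2 hx).smul
      hc.continuousOn
  obtain ⟨x, hx0, hx⟩ := zp_cover p hp g h.hg hι (fun j a => {x | Φ x ≠ 0} ∩ Y ⁻¹' O j a)
    (fun j a => hY.isOpen_inter_preimage (isOpen_ne_fun hc continuous_const) (hO j a))
    (fun j a x hx => ⟨by
      have : Φ x ≠ 0 := hx.1
      simpa [h.equi] using this, by
      have := hmap j a _ hx.2
      simpa [Y, h.equi] using this⟩)
    (fun j a a' x h1 h2 => hdisj j a a' _ h1.2 h2.2)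
  have hΦ := h.ne x hx0
  have hn : 0 < ‖Φ x‖ := norm_pos_iff.2 hΦ
  have hs : 0 < √ρ / ‖Φ x‖ := div_pos (Real.sqrt_pos.2 hρ) hn
  have h1 : Φ (√(√ρ / ‖Φ x‖) • x) = Y x := by
    rw [h.hom _ (Real.sqrt_pos.2 hs), Real.sq_sqrt hs.le]
  refine ⟨√(√ρ / ‖Φ x‖) • x, ?_, fun j a hj => hx j a ⟨hΦ, by rwa [h1] at hj⟩⟩
  rw [h1]
  simp only [Y]
  rw [norm_smul, Real.norm_of_nonneg hs.le, div_mul_cancel₀ _ hn.ne', Real.sq_sqrt hρ.le]

namespace Dat

variable {W N M : Type} [NormedAddCommGroup W] [InnerProductSpace ℝ W] {p : ℕ} [NeZero p]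
  [Fintype M] [DecidableEq M] (D : Dat W (ZMod p) N M) (d : ℝ)

/-- cumulative truncated masses of the blocks -/
noncomputable def S (k : ℕ) (y : W) : ℝ :=
  ∑ b ∈ Finset.univ.filter (fun b : ZMod p => b.val < k), max (‖D.π b y‖ ^ 2 - d) 0

omit [Fintype M] [DecidableEq M]

lemma continuous_S (k : ℕ) : Continuous (D.S d k) := by
  unfold S; fun_prop

lemma S_mono (y : W) {k k' : ℕ} (h : k ≤ k') : D.S d k y ≤ D.S d k' y :=
  Finset.sum_le_sum_of_subset_of_nonneg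
    (fun b hb => by simp only [Finset.mem_filter, Finset.mem_univ, true_and] at hb ⊢; omega)
    fun _ _ _ => le_max_right _ _

lemma S_succ (y : W) (b : ZMod p) :
    D.S d (b.val + 1) y = D.S d b.val y + max (‖D.π b y‖ ^ 2 - d) 0 := by
  have : Finset.univ.filter (fun c : ZMod p => c.val < b.val + 1) =
      insert b (Finset.univ.filter fun c : ZMod p => c.val < b.val) := by
    ext c
    simp only [Finset.mem_filter, Finset.mem_univ, true_and, Finset.mem_insert,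
      ← (ZMod.val_injective p).eq_iff]
    omega
  rw [S, this, Finset.sum_insert (by simp), add_comm, S]

lemma S_top (y : W) : ∑ b, ‖D.π b y‖ ^ 2 - p * d ≤ D.S d p y := by
  rw [S, Finset.filter_true_of_mem fun b _ => ZMod.val_lt b]
  calc _ = ∑ b : ZMod p, (‖D.π b y‖ ^ 2 - d) := by simp [ZMod.card]
    _ ≤ _ := Finset.sum_le_sum fun b _ => le_max_left _ _

lemma S_eq (k : ℕ) (y : W) :
    ∃ Bs : Finset (ZMod p), ∑ b ∈ Bs, ‖D.π b y‖ ^ 2 = D.S d k y + d * Bs.card := by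
  classical
  refine ⟨(Finset.univ.filter fun b : ZMod p => b.val < k).filter fun b => d ≤ ‖D.π b y‖ ^ 2, ?_⟩
  rw [Finset.card_eq_sum_ones, Nat.cast_sum, Finset.mul_sum, S]
  generalize Finset.univ.filter (fun b : ZMod p => b.val < k) = A
  rw [Finset.sum_filter, Finset.sum_filter, ← Finset.sum_add_distrib]
  refine Finset.sum_congr rfl fun b _ => ?_
  split_ifs with h
  · rw [max_eq_left (by linarith)]; simp
  · rw [max_eq_right (by linarith)]; simp

lemma slot_alt (y : W) {t : ℝ} (h0 : 0 ≤ t) (h1 : t ≤ D.S d p y) :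
    (∃ k ≤ p, t = D.S d k y) ∨ ∃ b : ZMod p, D.S d b.val y < t ∧ t < D.S d (b.val + 1) y := by
  classical
  have hex : ∃ k, t ≤ D.S d k y := ⟨p, h1⟩
  have hk := Nat.find_spec hex
  have hkp : Nat.find hex ≤ p := Nat.find_min' hex h1
  rcases hk.eq_or_lt with h | h
  · exact Or.inl ⟨_, hkp, h⟩
  · right
    obtain ⟨k, hk'⟩ : ∃ k, Nat.find hex = k + 1 := by
      refine Nat.exists_eq_succ_of_ne_zero fun h2 => ?_
      rw [h2] at h
      simp only [S, not_lt_zero, Finset.filter_false, Finset.sum_empty] at h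
      linarith
    have hv : (k : ZMod p).val = k := ZMod.val_natCast_of_lt (by omega)
    refine ⟨k, ?_, ?_⟩
    · rw [hv]
      exact not_le.1 (Nat.find_min hex (by omega))
    · rwa [hv, ← hk']

lemma block_unique (y : W) {b b' : ZMod p} (h : D.S d b.val y < D.S d (b'.val + 1) y)
    (h' : D.S d b'.val y < D.S d (b.val + 1) y) : b = b' := by
  apply ZMod.val_injective p
  by_contra hne
  rcases lt_or_gt_of_ne hne with h1 | h1
  · exact absurd (D.S_mono d y (show b.val + 1 ≤ b'.val from h1)) (not_le.2 h')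
  · exact absurd (D.S_mono d y (show b'.val + 1 ≤ b.val from h1)) (not_le.2 h)

lemma lt_of_S_lt (y : W) {b : ZMod p} (h : D.S d b.val y < D.S d (b.val + 1) y) :
    d < ‖D.π b y‖ ^ 2 := by
  rw [S_succ, lt_add_iff_pos_right, lt_max_iff] at h
  rcases h with h | h
  · linarith
  · exact absurd h (lt_irrefl _)

/-- offsets of the quadratic equations -/
noncomputable def off (K i : ℕ) (β : Bool) (Bs : Finset (ZMod p)) : ℝ :=
  if i = 0 ∧ β = false then K else D.ℓ * (4 * i + cond β 2 0) + d * Bs.card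

/-- compatibility of a label with a point -/
def Compat (i : ℕ) (y : W) : Lab (ZMod p) N → Prop
  | .inl b => D.S d b.val y ≤ D.ℓ * (4 * i + 1) ∧ D.ℓ * (4 * i + 2) ≤ D.S d (b.val + 1) y
  | .inr s => (i = 0 ∨ ∃ k ≤ p, D.ℓ * (4 * i) ≤ D.S d k y ∧ D.S d k y ≤ D.ℓ * (4 * i + 3)) ∧
      (∀ β a, s β = .inr a → d ≤ ‖D.π a.1 y‖ ^ 2) ∧
      ∀ a a', s false = .inr a → s true = .inr a' → a.1 ≠ a'.1

/-- the region attached to a type -/
def Reg (K L : ℕ) (l : ZMod p × N × Bool → M) (T : Fin K → Lab (ZMod p) N) : Set W :=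
  {y | K ≤ ‖y‖ ^ 2 ∧ ‖y‖ ^ 2 ≤ K + 1 ∧
    (∀ b n β, ‖D.π b y‖ ^ 2 ≤ L * inner ℝ (D.E (l (b, n, β)) β) (D.v (b, n) y) ^ 2) ∧
    ∀ i : Fin K, D.Compat d i y (T i)}

lemma isClosed_Reg (K L : ℕ) (l : ZMod p × N × Bool → M) (T : Fin K → Lab (ZMod p) N) :
    IsClosed (D.Reg d K L l T) := by
  have hS := D.continuous_S d
  refine (isClosed_le (by fun_prop) (by fun_prop)).and
    ((isClosed_le (by fun_prop) (by fun_prop)).and (IsClosed.and ?_ ?_))
  · simp only [ofPred_forall]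
    exact isClosed_iInter fun _ => isClosed_iInter fun _ => isClosed_iInter fun _ =>
      isClosed_le (by fun_prop) (by fun_prop)
  · simp only [ofPred_forall]
    refine isClosed_iInter fun i => ?_
    rcases T i with b | s
    · exact (isClosed_le (by fun_prop) (by fun_prop)).and (isClosed_le (by fun_prop) (by fun_prop))
    · refine IsClosed.and (IsClosed.union isClosed_const ?_) (IsClosed.and ?_ isClosed_const)
      · have : {y | ∃ k ≤ p, D.ℓ * (4 * (i : ℕ)) ≤ D.S d k y ∧ D.S d k y ≤ D.ℓ * (4 * (i : ℕ) + 3)}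
            = ⋃ k ∈ Iic p, {y | D.ℓ * (4 * (i : ℕ)) ≤ D.S d k y ∧
              D.S d k y ≤ D.ℓ * (4 * (i : ℕ) + 3)} := by
          ext; simp only [mem_ofPred_eq, mem_iUnion, mem_Iic, exists_prop]
        refine Eq.mpr (congrArg IsClosed this) ?_
        exact (finite_Iic p).isClosed_biUnion fun k _ =>
          (isClosed_le (by fun_prop) (by fun_prop)).and (isClosed_le (by fun_prop) (by fun_prop))
      · simp only [ofPred_forall]
        exact isClosed_iInter fun _ => isClosed_iInter fun _ => isClosed_iInter fun _ =>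
          isClosed_le (by fun_prop) (by fun_prop)

lemma exists_label [Fintype M] (i K : ℕ) (y : W) (ω : Par (ZMod p) M × W) (hℓ : 0 < D.ℓ)
    (hJ : ∀ w, D.J (D.J w) = -w)
    (hrad : i = 0 → ∑ b, ‖D.π b y‖ ^ 2 = K + D.ℓ * ω.1 (none, false))
    (htop : D.ℓ * (4 * i + 3) ≤ D.S d p y) (Out : Bool → ℂ → Prop)
    (h1 : ∀ β z, Out β z → ∃ n, (D.ν n * z).re = 0) (h2 : ∀ z, (∀ β, Out β z) → z = 0)
    (hout : ∀ β, ¬(i = 0 ∧ β = false) → ∀ b : ZMod p,
      D.S d b.val y < D.ℓ * (4 * i + cond β 2 0 + ω.1 (none, β)) →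
      D.ℓ * (4 * i + cond β 2 0 + ω.1 (none, β)) < D.S d (b.val + 1) y →
      Out β (cin D.J (ω.2 + D.sh ω.1 b) (D.π b y))) :
    ∃ t, D.Compat d i y t ∧ D.Eqn (D.off d K i) ω y t := by
  set τ : Bool → ℝ := fun β => D.ℓ * (4 * i + cond β 2 0 + ω.1 (none, β)) with hτ
  have hi : (0 : ℝ) ≤ i := Nat.cast_nonneg i
  have z0 := fun β => (ω.1 (none, β)).2.1
  have z1 := fun β => (ω.1 (none, β)).2.2
  have t1 : D.ℓ * (4 * i) ≤ τ false := by
    have := z0 false
    exact mul_le_mul_of_nonneg_left (by simp only [cond_false]; linarith) hℓ.le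
  have t2 : τ false ≤ D.ℓ * (4 * i + 1) := by
    have := z1 false
    exact mul_le_mul_of_nonneg_left (by simp only [cond_false]; linarith) hℓ.le
  have t3 : D.ℓ * (4 * i + 2) ≤ τ true := by
    have := z0 true
    exact mul_le_mul_of_nonneg_left (by simp only [cond_true]; linarith) hℓ.le
  have t4 : τ true ≤ D.ℓ * (4 * i + 3) := by
    have := z1 true
    exact mul_le_mul_of_nonneg_left (by simp only [cond_true]; linarith) hℓ.le
  have t5 : D.ℓ * (4 * i + 1) < D.ℓ * (4 * i + 2) := by gcongr; norm_num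
  have t0 : 0 ≤ D.ℓ * (4 * i) := by positivity
  have halt : ∀ β, _ := fun β => D.slot_alt d y (t := τ β) (by cases β <;> linarith)
    (by cases β <;> linarith)
  by_cases hA : i ≠ 0 ∧ ∃ b : ZMod p, D.S d b.val y < τ false ∧ τ true < D.S d (b.val + 1) y
  · obtain ⟨hi0, b, hb1, hb2⟩ := hA
    refine ⟨.inl b, ⟨by linarith, by linarith⟩, h2 _ fun β => hout β (fun h => hi0 h.1) b ?_ ?_⟩
    · change _ < τ β
      cases β <;> linarith
    · change τ β < _
      cases β <;> linarith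
  have hs : ∀ β, ∃ σ : Finset (ZMod p) ⊕ ZMod p × N, D.EqnS (D.off d K i β) ω β y σ ∧
      ∀ a, σ = .inr a → ¬(i = 0 ∧ β = false) ∧ D.S d a.1.val y < τ β ∧
        τ β < D.S d (a.1.val + 1) y := by
    intro β
    by_cases h0 : i = 0 ∧ β = false
    · refine ⟨.inl Finset.univ, ?_, by simp⟩
      simp only [EqnS, off, if_pos h0]
      rw [h0.2]
      exact hrad h0.1
    rcases halt β with ⟨k, -, hk⟩ | ⟨b, hb1, hb2⟩
    · obtain ⟨Bs, hBs⟩ := D.S_eq d k y
      refine ⟨.inl Bs, ?_, by simp⟩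
      simp only [EqnS, off, if_neg h0]
      rw [hBs, ← hk, hτ]
      ring
    · obtain ⟨n, hn⟩ := h1 β _ (hout β h0 b hb1 hb2)
      refine ⟨.inr (b, n), ?_, ?_⟩
      · rw [← cin_cs_right hJ, cin_re] at hn
        exact hn
      · rintro a ⟨rfl⟩
        exact ⟨h0, hb1, hb2⟩
  choose s hs1 hs2 using hs
  refine ⟨.inr s, ⟨?_, fun β a ha => ?_, fun a a' ha ha' heq => ?_⟩, hs1⟩
  · by_cases hi0 : i = 0
    · exact Or.inl hi0
    right
    rcases halt false with ⟨k, hkp, hk⟩ | ⟨b, hb1, hb2⟩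
    · exact ⟨k, hkp, by linarith, by linarith⟩
    · refine ⟨b.val + 1, ZMod.val_lt b, by linarith, ?_⟩
      have : ¬τ true < D.S d (b.val + 1) y := fun h => hA ⟨hi0, b, hb1, h⟩
      linarith
  · exact (D.lt_of_S_lt d y ((hs2 β a ha).2.1.trans (hs2 β a ha).2.2)).le
  · refine hA ⟨fun h => (hs2 _ a ha).1 ⟨h, rfl⟩, a.1, (hs2 _ a ha).2.1, ?_⟩
    rw [heq]
    exact (hs2 _ a' ha').2.2

theorem exists_type {W N M : Type} [NormedAddCommGroup W] [InnerProductSpace ℝ W] {p : ℕ} [NeZero p]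
    [Fintype M] [Nonempty M] (D : Dat W (ZMod p) N M) (d : ℝ) (hp : p.Prime)
    {X : Type} [NormedAddCommGroup X] [InnerProductSpace ℝ X]
    [FiniteDimensional ℝ X] {g : X →L[ℝ] X} {U : W ≃ₗᵢ[ℝ] W} {Φ : X → W}
    (h : ConeData p g D.J U Φ) (K : ℕ) (hK : 1 ≤ K) (hX : finrank ℝ X = 2 * K)
    (hπU : ∀ b y, D.π b (U y) = cs D.J (ZMod.stdAddChar b) (D.π b y))
    (hπ : ∀ y, ∑ b, ‖D.π b y‖ ^ 2 = ‖y‖ ^ 2) (hπ0 : ∀ y, D.π 0 y = 0)
    (Sec : Bool → ZMod p → Set ℂ) (hS1 : ∀ β c, IsOpen (Sec β c))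
    (hS2 : ∀ β c b z, z ∈ Sec β c → ZMod.stdAddChar b * z ∈ Sec β (c + b))
    (hS3 : ∀ β c c' z, z ∈ Sec β c → z ∈ Sec β c' → c = c') (hν : ∀ n, ‖D.ν n‖ = 1)
    (hS4 : ∀ β z, (∀ c, z ∉ Sec β c) → ∃ n, (D.ν n * z).re = 0)
    (hS5 : ∀ z, (∀ β c, z ∉ Sec β c) → z = 0)
    (hd : 0 ≤ d) (hℓ : 0 < D.ℓ) (hℓ1 : D.ℓ ≤ 1) (hKd : D.ℓ * (4 * K) ≤ K - p * d)
    (hE : ∀ β w, ∑ m, inner ℝ (D.E m β) w ^ 2 = ‖w‖ ^ 2) (ω : Fin K → Par (ZMod p) M × W) :
    ∃ l T x, Φ x ∈ D.Reg d K (Fintype.card M) l T ∧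
      ∀ i : Fin K, D.Eqn (D.off d K i) (ω i) (Φ x) (T i) := by
  have := Fact.mk hp
  have hJ := h.hJ
  let i0 : Fin K := ⟨0, hK⟩
  let τ : Fin K → Bool → ℝ := fun i β => D.ℓ * (4 * (i : ℕ) + cond β 2 0 + (ω i).1 (none, β))
  let O : Fin K × Bool → ZMod p → Set W := fun j a => ⋃ b : ZMod p,
    {y | D.S d b.val y < τ j.1 j.2 ∧ τ j.1 j.2 < D.S d (b.val + 1) y ∧
      cin D.J ((ω j.1).2 + D.sh (ω j.1).1 b) (D.π b y) ∈ Sec j.2 (a * b)}
  have hSU : ∀ k y, D.S d k (U y) = D.S d k y := by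
    intro k y
    simp only [S, hπU, norm_cs hJ, AddChar.norm_apply, one_mul]
  have hb0 : ∀ (y : W) (b : ZMod p), D.S d b.val y < D.S d (b.val + 1) y → b ≠ 0 := by
    rintro y b hb rfl
    have := D.lt_of_S_lt d y hb
    rw [hπ0] at this
    simp only [norm_zero] at this
    linarith
  have hS := D.continuous_S d
  have hz0 : 0 ≤ D.ℓ * (ω i0).1 (none, false) := mul_nonneg hℓ.le ((ω i0).1 (none, false)).2.1
  have hz1 : D.ℓ * (ω i0).1 (none, false) ≤ 1 :=
    mul_le_one₀ hℓ1 ((ω i0).1 (none, false)).2.1 ((ω i0).1 (none, false)).2.2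
  have hK' : (1 : ℝ) ≤ K := by exact_mod_cast hK
  obtain ⟨x, hx, hxO⟩ := cover_W hp.two_le h
    (ι := {j : Fin K × Bool // ¬((j.1 : ℕ) = 0 ∧ j.2 = false)})
    (by
      refine (Fintype.card_subtype_lt (x := (i0, false)) (by simp [i0])).trans_eq ?_
      simp [hX, mul_comm])
    (fun j a => O j a)
    (fun j a => isOpen_iUnion fun b => (isOpen_lt (hS _) continuous_const).and
      ((isOpen_lt continuous_const (hS _)).and ((hS1 _ _).preimage
        (continuous_cin.comp (f := fun y : W => (_, D.π b y)) (by fun_prop)))))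
    (fun j a y hy => by
      obtain ⟨b, h1, h2, h3⟩ := mem_iUnion.1 hy
      refine mem_iUnion.2 ⟨b, by rwa [hSU], by rwa [hSU], ?_⟩
      rw [hπU, cin_cs_right hJ, add_mul, one_mul]
      exact hS2 _ _ _ _ h3)
    (fun j a a' y hy hy' => by
      obtain ⟨b, h1, h2, h3⟩ := mem_iUnion.1 hy
      obtain ⟨b', h1', h2', h3'⟩ := mem_iUnion.1 hy'
      obtain rfl := D.block_unique d y (h1.trans h2') (h1'.trans h2)
      exact mul_right_cancel₀ (hb0 y b (h1.trans h2)) (hS3 _ _ _ _ h3 h3'))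
    (K + D.ℓ * (ω i0).1 (none, false)) (by linarith)
  set y := Φ x
  have hl : ∀ a : ZMod p × N × Bool, ∃ m, ‖D.π a.1 y‖ ^ 2 ≤
      Fintype.card M * inner ℝ (D.E m a.2.2) (D.v (a.1, a.2.1) y) ^ 2 := by
    rintro ⟨b, n, β⟩
    obtain ⟨m, -, hm⟩ := Finset.exists_le_of_sum_le (s := Finset.univ) Finset.univ_nonempty
      (f := fun _ : M => ‖D.π b y‖ ^ 2)
      (g := fun m => Fintype.card M * inner ℝ (D.E m β) (D.v (b, n) y) ^ 2) (by
        rw [← Finset.mul_sum, hE]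
        simp [v, norm_cs hJ, hν])
    exact ⟨m, hm⟩
  choose l hl using hl
  have hT : ∀ i : Fin K, ∃ t, D.Compat d i y t ∧ D.Eqn (D.off d K i) (ω i) y t := by
    intro i
    refine D.exists_label d i K y (ω i) hℓ hJ (fun hi => ?_) ?_ (fun β z => ∀ c, z ∉ Sec β c)
      hS4 hS5 fun β hβ b h1 h2 c hc => ?_
    · obtain rfl : i = i0 := Fin.ext hi
      rw [hπ, hx]
    · have h1 := D.S_top d y
      have h2 : ((i : ℕ) : ℝ) + 1 ≤ K := by exact_mod_cast i.2
      rw [hπ, hx] at h1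
      nlinarith
    · refine hxO ⟨(i, β), hβ⟩ (c * b⁻¹) (mem_iUnion.2 ⟨b, h1, h2, ?_⟩)
      rwa [inv_mul_cancel_right₀ (hb0 y b (h1.trans h2))]
  choose T hT1 hT2 using hT
  exact ⟨l, T, x, ⟨by linarith, by linarith, fun b n β => hl (b, n, β), hT1⟩, hT2⟩

open Classical in
/-- the exceptional indices -/
noncomputable def exc (K : ℕ) (y : W) : Finset (Fin K) :=
  Finset.univ.filter fun i => (i : ℕ) = 0 ∨
    ∃ k ≤ p, D.ℓ * (4 * (i : ℕ)) ≤ D.S d k y ∧ D.S d k y ≤ D.ℓ * (4 * (i : ℕ) + 3)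

lemma card_exc (hℓ : 0 < D.ℓ) (K : ℕ) (y : W) : (D.exc d K y).card ≤ p + 2 := by
  classical
  have h : D.exc d K y ⊆ (Finset.univ.filter fun i : Fin K => (i : ℕ) = 0) ∪
      (Finset.range (p + 1)).biUnion fun k => Finset.univ.filter fun i : Fin K =>
        D.ℓ * (4 * (i : ℕ)) ≤ D.S d k y ∧ D.S d k y ≤ D.ℓ * (4 * (i : ℕ) + 3) := by
    intro i hi
    simp only [exc, Finset.mem_filter, Finset.mem_univ, true_and, Finset.mem_union,
      Finset.mem_biUnion, Finset.mem_range, Nat.lt_succ_iff] at hi ⊢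
    exact hi
  refine (Finset.card_le_card h).trans ((Finset.card_union_le _ _).trans ?_)
  have h1 : (Finset.univ.filter fun i : Fin K => (i : ℕ) = 0).card ≤ 1 :=
    Finset.card_le_one.2 fun a ha b hb => Fin.ext (by
      simp only [Finset.mem_filter] at ha hb; omega)
  refine (add_le_add h1 (Finset.card_biUnion_le_card_mul _ _ 1 fun k _ => ?_)).trans
    (by simp; omega)
  refine Finset.card_le_one.2 fun a ha b hb => Fin.ext ?_
  simp only [Finset.mem_filter] at ha hb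
  have h2 := le_of_mul_le_mul_left (ha.2.1.trans hb.2.2) hℓ
  have h3 := le_of_mul_le_mul_left (hb.2.1.trans ha.2.2) hℓ
  have h2' : 4 * (a : ℕ) ≤ 4 * (b : ℕ) + 3 := by exact_mod_cast h2
  have h3' : 4 * (b : ℕ) ≤ 4 * (a : ℕ) + 3 := by exact_mod_cast h3
  omega

open Classical in
lemma card_types [Fintype N] (hℓ : 0 < D.ℓ) (K : ℕ) (y : W) :
    (Finset.univ.filter fun T : Fin K → Lab (ZMod p) N => ∀ i : Fin K, D.Compat d i y (T i)).card ≤
      Fintype.card (Lab (ZMod p) N) ^ (p + 2) := by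
  have h : (Finset.univ.filter fun T : Fin K → Lab (ZMod p) N => ∀ i : Fin K,
      D.Compat d i y (T i)) =
      Fintype.piFinset fun i : Fin K => Finset.univ.filter fun t => D.Compat d i y t := by
    ext T; simp
  rw [h, Fintype.card_piFinset]
  have h0 : 1 ≤ Fintype.card (Lab (ZMod p) N) := Fintype.card_pos_iff.2 ⟨.inl 0⟩
  refine le_trans ?_ (Nat.pow_le_pow_right h0 (D.card_exc d hℓ K y))
  rw [← Finset.prod_const, ← Finset.prod_ite_mem_eq (D.exc d K y)]
  refine Finset.prod_le_prod (fun _ _ => Nat.zero_le _) fun i _ => ?_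
  split_ifs with hi
  · exact Finset.card_le_univ _
  · refine Finset.card_le_one.2 fun a ha b hb => ?_
    simp only [Finset.mem_filter, Finset.mem_univ, true_and, exc] at ha hb hi
    have t5 : D.ℓ * (4 * (i : ℕ) + 1) < D.ℓ * (4 * (i : ℕ) + 2) := by gcongr; norm_num
    rcases a with a | a
    · rcases b with b | b
      · rw [D.block_unique d y (ha.1.trans_lt (t5.trans_le hb.2))
          (hb.1.trans_lt (t5.trans_le ha.2))]
      · exact absurd hb.1 hi
    · exact absurd ha.1 hi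

lemma card_crude (hℓ : 0 < D.ℓ) {K : ℕ} {y : W} {T : Fin K → Lab (ZMod p) N}
    (hT : ∀ i : Fin K, D.Compat d i y (T i)) :
    (Finset.univ.filter fun i => (T i).getLeft? = none).card ≤ p + 2 := by
  refine le_trans (Finset.card_le_card fun i hi => ?_) (D.card_exc d hℓ K y)
  have h := hT i
  simp only [Finset.mem_filter, Finset.mem_univ, true_and, exc] at hi ⊢
  rcases hs : T i with b | s
  · simp [hs] at hi
  · rw [hs] at h
    exact h.1

lemma card_pair (hℓ : 0 < D.ℓ) (hd : 0 ≤ d) {K : ℕ} {y : W} {T : Fin K → Lab (ZMod p) N}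
    (hT : ∀ i : Fin K, D.Compat d i y (T i)) (b : ZMod p) :
    (Finset.univ.filter fun i => (T i).getLeft? = some b).card = 0 ∨ (d ≤ ‖D.π b y‖ ^ 2 ∧
      (((Finset.univ.filter fun i => (T i).getLeft? = some b).card : ℝ) - 1) * (4 * D.ℓ) ≤
        ‖D.π b y‖ ^ 2) := by
  set A := Finset.univ.filter fun i => (T i).getLeft? = some b
  rcases A.eq_empty_or_nonempty with h | h
  · simp [h]
  right
  have hA : ∀ i ∈ A, D.S d b.val y ≤ D.ℓ * (4 * (i : ℕ) + 1) ∧
      D.ℓ * (4 * (i : ℕ) + 2) ≤ D.S d (b.val + 1) y := by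
    intro i hi
    have h1 := hT i
    rw [Sum.getLeft?_eq_some_iff.1 (Finset.mem_filter.1 hi).2] at h1
    exact h1
  have h1 := (hA _ (A.min'_mem h)).1
  have h2 := (hA _ (A.max'_mem h)).2
  have h3 : A.card ≤ (Finset.Icc (A.min' h) (A.max' h)).card :=
    Finset.card_le_card fun i hi => Finset.mem_Icc.2 ⟨A.min'_le i hi, A.le_max' i hi⟩
  have h4 : (A.min' h : ℕ) ≤ A.max' h := A.min'_le_max' h
  rw [Fin.card_Icc] at h3
  have h5 : A.card + (A.min' h : ℕ) ≤ A.max' h + 1 := by omega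
  have h6 : (A.card : ℝ) + (A.min' h : ℕ) ≤ (A.max' h : ℕ) + 1 := by exact_mod_cast h5
  have h4' : ((A.min' h : ℕ) : ℝ) ≤ (A.max' h : ℕ) := by exact_mod_cast h4
  have h7 := D.lt_of_S_lt d y (b := b) (by nlinarith)
  rw [S_succ, max_eq_left (by linarith)] at h2
  exact ⟨h7.le, by nlinarith⟩

end Dat

end Pool.Agent.MP_8bdec9_gt
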