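import Mathlib.Algebra.Order.Archimedean.Real.Hom
import Mathlib.Algebra.Order.Star.Real
import Mathlib.Analysis.CStarAlgebra.Classes
import Mathlib.Analysis.SpecialFunctions.Complex.CircleAddChar
import Mathlib.RingTheory.SimpleRing.Principal

/-! Complex scalar multiplication and Hermitian product attached to a complex structure `J`,
and the weight decomposition for an isometry of finite order. -/

open Complex Finset
open scoped ComplexConjugate

namespace Pool.Agent.MP_8bdec9_gt

variable {W : Type*} [NormedAddCommGroup W] [InnerProductSpace ℝ W]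

/-- multiplication by the complex number `z` -/
noncomputable def cs (J : W ≃ₗᵢ[ℝ] W) (z : ℂ) : W →L[ℝ] W :=
  z.re • ContinuousLinearMap.id ℝ W + z.im • J.toContinuousLinearEquiv.toContinuousLinearMap

/-- the Hermitian product -/
noncomputable def cin (J : W ≃ₗᵢ[ℝ] W) (q w : W) : ℂ := ⟨inner ℝ q w, -inner ℝ q (J w)⟩

variable {J : W ≃ₗᵢ[ℝ] W}

lemma cs_apply (z : ℂ) (w : W) : cs J z w = z.re • w + z.im • J w := rfl

@[simp] lemma cin_re (q w : W) : (cin J q w).re = inner ℝ q w := rfl
@[simp] lemma cin_im (q w : W) : (cin J q w).im = -inner ℝ q (J w) := rfl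

lemma inner_J_left (hJ : ∀ w, J (J w) = -w) (a b : W) :
    inner ℝ (J a) b = -inner ℝ a (J b) := by
  rw [← J.inner_map_map (J a) b, hJ, inner_neg_left]

lemma inner_self_J (hJ : ∀ w, J (J w) = -w) (a : W) : inner ℝ a (J a) = 0 := by
  have h := inner_J_left hJ a a
  rw [real_inner_comm] at h
  linarith

lemma cin_add_left (q q' w : W) : cin J (q + q') w = cin J q w + cin J q' w := by
  apply Complex.ext <;> simp [inner_add_left]; ring

lemma cin_add_right (q w w' : W) : cin J q (w + w') = cin J q w + cin J q w' := by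
  apply Complex.ext <;> simp [inner_add_right]; ring

lemma cin_sub_right (q w w' : W) : cin J q (w - w') = cin J q w - cin J q w' := by
  apply Complex.ext <;> simp [inner_sub_right]; ring

lemma cin_smul_left (c : ℝ) (q w : W) : cin J (c • q) w = c * cin J q w := by
  apply Complex.ext <;> simp [inner_smul_left]

lemma cin_smul_right (c : ℝ) (q w : W) : cin J q (c • w) = c * cin J q w := by
  apply Complex.ext <;> simp [inner_smul_right]

@[simp] lemma cin_zero_right (q : W) : cin J q 0 = 0 := by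
  apply Complex.ext <;> simp

@[simp] lemma cin_zero_left (q : W) : cin J 0 q = 0 := by
  apply Complex.ext <;> simp

lemma cin_cs_right (hJ : ∀ w, J (J w) = -w) (z : ℂ) (q w : W) :
    cin J q (cs J z w) = z * cin J q w := by
  apply Complex.ext <;>
    simp [cs_apply, inner_add_right, inner_smul_right, hJ] <;> ring

lemma cin_cs_left (hJ : ∀ w, J (J w) = -w) (z : ℂ) (q w : W) :
    cin J (cs J z q) w = conj z * cin J q w := by
  apply Complex.ext <;>
    simp [cs_apply, inner_add_left, inner_smul_left, inner_J_left hJ, hJ] <;> ring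

lemma cin_self (hJ : ∀ w, J (J w) = -w) (w : W) : cin J w w = (‖w‖ ^ 2 : ℝ) := by
  apply Complex.ext
  · simp only [cin_re, ofReal_re, real_inner_self_eq_norm_sq]
  · simp only [cin_im, inner_self_J hJ, neg_zero, ofReal_im]

lemma cin_sum_left {ι : Type*} (s : Finset ι) (q : ι → W) (w : W) :
    cin J (∑ i ∈ s, q i) w = ∑ i ∈ s, cin J (q i) w := by
  classical
  induction s using Finset.induction_on with
  | empty => simp
  | insert a s ha ih => rw [sum_insert ha, sum_insert ha, cin_add_left, ih]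

lemma cin_sum_right {ι : Type*} (s : Finset ι) (q : W) (w : ι → W) :
    cin J q (∑ i ∈ s, w i) = ∑ i ∈ s, cin J q (w i) := by
  classical
  induction s using Finset.induction_on with
  | empty => simp
  | insert a s ha ih => rw [sum_insert ha, sum_insert ha, cin_add_right, ih]

lemma normSq_cin (q w : W) :
    normSq (cin J q w) = inner ℝ q w ^ 2 + inner ℝ q (J w) ^ 2 := by
  rw [normSq_apply]; simp; ring

lemma norm_cs (hJ : ∀ w, J (J w) = -w) (z : ℂ) (w : W) : ‖cs J z w‖ = ‖z‖ * ‖w‖ := by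
  have h : ‖cs J z w‖ ^ 2 = (‖z‖ * ‖w‖) ^ 2 := by
    have h1 := cin_self hJ (cs J z w)
    rw [cin_cs_left hJ, cin_cs_right hJ, cin_self hJ, ← mul_assoc, ← normSq_eq_conj_mul_self,
      normSq_eq_norm_sq] at h1
    rw [mul_pow]
    exact_mod_cast h1.symm
  exact (pow_left_inj₀ (norm_nonneg _) (by positivity) two_ne_zero).1 h

lemma norm_cin_le (hJ : ∀ w, J (J w) = -w) (q w : W) : ‖cin J q w‖ ≤ ‖q‖ * ‖w‖ := by
  set z := cin J q w with hz
  have h1 : inner ℝ q (cs J (conj z) w) = ‖z‖ ^ 2 := by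
    rw [← cin_re (J := J), cin_cs_right hJ, ← hz, ← normSq_eq_conj_mul_self, normSq_eq_norm_sq,
      ofReal_re]
  have h2 := real_inner_le_norm q (cs J (conj z) w)
  rw [h1, norm_cs hJ, Complex.norm_conj] at h2
  rcases (norm_nonneg z).eq_or_lt with h | h
  · rw [← h]; positivity
  · nlinarith

lemma cs_mul (hJ : ∀ w, J (J w) = -w) (z z' : ℂ) (w : W) :
    cs J (z * z') w = cs J z (cs J z' w) := by
  simp only [cs_apply, mul_re, mul_im, map_add, map_smul, hJ]
  module

@[simp] lemma cs_one (w : W) : cs J 1 w = w := by simp [cs_apply]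

lemma cs_comm {U : W ≃ₗᵢ[ℝ] W} (hUJ : ∀ w, U (J w) = J (U w)) (z : ℂ) (w : W) :
    U (cs J z w) = cs J z (U w) := by
  simp [cs_apply, hUJ]

lemma continuous_cin : Continuous fun p : W × W => cin J p.1 p.2 := by
  have : (fun p : W × W => cin J p.1 p.2) =
      fun p => ((inner ℝ p.1 p.2 : ℝ) : ℂ) - (inner ℝ p.1 (J p.2) : ℝ) * I := by
    funext p
    apply Complex.ext <;> simp
  rw [this]
  fun_prop

/-- The weight decomposition. -/
theorem exists_blocks (p : ℕ) [NeZero p] {U : W ≃ₗᵢ[ℝ] W} (hJ : ∀ w, J (J w) = -w)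
    (hUJ : ∀ w, U (J w) = J (U w)) (hU : ∀ w, U^[p] w = w) (hfree : ∀ w, U w = w → w = 0) :
    ∃ π : ZMod p → W →L[ℝ] W,
      (∀ b y, π b (U y) = cs J (ZMod.stdAddChar b) (π b y)) ∧
      (∀ y, ∑ b, ‖π b y‖ ^ 2 = ‖y‖ ^ 2) ∧ ∀ y, π 0 y = 0 := by
  let e : AddChar (ZMod p) ℂ := ZMod.stdAddChar
  let V : W →L[ℝ] W := U.toContinuousLinearEquiv.toContinuousLinearMap
  have hV : ∀ j y, (V ^ j) y = U^[j] y := by
    intro j y
    induction j with
    | zero => rfl
    | succ j ih => rw [pow_succ', Function.iterate_succ_apply', ← ih]; rfl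
  let π : ZMod p → W →L[ℝ] W := fun b =>
    (p : ℝ)⁻¹ • ∑ j ∈ range p, cs J (e (-(b * j))) ∘L V ^ j
  have hπ : ∀ b y, π b y = (p : ℝ)⁻¹ • ∑ j ∈ range p, cs J (e (-(b * j))) (U^[j] y) := by
    intro b y
    simp [π, hV]
  have h1 : ∀ b y, π b (U y) = cs J (e b) (π b y) := by
    intro b y
    rw [hπ, hπ, map_smul, map_sum]
    congr 1
    let t : ℕ → W := fun j => cs J (e b) (cs J (e (-(b * j))) (U^[j] y))
    have h2 : ∀ j : ℕ, cs J (e (-(b * j))) (U^[j] (U y)) = t (j + 1) := by
      intro j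
      simp only [t]
      rw [← cs_mul hJ, ← AddChar.map_add_eq_mul, Function.iterate_succ_apply]
      congr 3
      push_cast; ring
    have h3 : t p = t 0 := by simp [t, hU]
    have h4 := Finset.sum_range_succ t p
    rw [Finset.sum_range_succ', h3] at h4
    simp_rw [h2]
    exact add_right_cancel h4
  have hp0 : (p : ℝ) ≠ 0 := Nat.cast_ne_zero.mpr (NeZero.ne p)
  refine ⟨π, h1, fun y => ?_, fun y => ?_⟩
  · have key : ∀ b, ((‖π b y‖ ^ 2 : ℝ) : ℂ) = (p : ℂ)⁻¹ * (p : ℂ)⁻¹ *
        ∑ j ∈ range p, ∑ j' ∈ range p, e (b * (j - j')) * cin J (U^[j] y) (U^[j'] y) := by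
      intro b
      rw [← cin_self hJ, hπ, cin_smul_left, cin_smul_right, cin_sum_left, ← mul_assoc]
      congr 1
      · push_cast; ring
      refine sum_congr rfl fun j _ => ?_
      rw [cin_sum_right]
      refine sum_congr rfl fun j' _ => ?_
      rw [cin_cs_left hJ, cin_cs_right hJ, ← mul_assoc, ← AddChar.map_neg_eq_conj, neg_neg,
        ← AddChar.map_add_eq_mul]
      congr 2
      ring
    have hsum : ∀ j ∈ range p, ∀ j' ∈ range p,
        ∑ b : ZMod p, e (b * ((j : ZMod p) - j')) = if j = j' then (p : ℂ) else 0 := by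
      intro j hj j' hj'
      rw [AddChar.sum_mulShift _ (ZMod.isPrimitive_stdAddChar p), ZMod.card]
      have : ((j : ZMod p) - j' = 0) ↔ j = j' := by
        rw [sub_eq_zero, ZMod.natCast_eq_natCast_iff', Nat.mod_eq_of_lt (mem_range.1 hj),
          Nat.mod_eq_of_lt (mem_range.1 hj')]
      by_cases h : j = j'
      · simp [h]
      · simp [h, this]
    have hnorm : ∀ j, ‖U^[j] y‖ = ‖y‖ := by
      intro j
      induction j with
      | zero => rfl
      | succ j ih => rw [Function.iterate_succ_apply', U.norm_map, ih]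
    have hp0' : (p : ℂ) ≠ 0 := Nat.cast_ne_zero.mpr (NeZero.ne p)
    apply Complex.ofReal_injective
    rw [ofReal_sum]
    simp_rw [key]
    rw [← mul_sum, sum_comm]
    have : ∀ j ∈ range p, ∑ b : ZMod p, ∑ j' ∈ range p,
        e (b * (j - j')) * cin J (U^[j] y) (U^[j'] y) = p * ((‖y‖ ^ 2 : ℝ) : ℂ) := by
      intro j hj
      rw [sum_comm]
      simp_rw [← sum_mul]
      rw [sum_congr rfl fun j' hj' => by rw [hsum j hj j' hj']]
      simp only [ite_mul, zero_mul, sum_ite_eq, hj, if_true]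
      rw [cin_self hJ, hnorm]
    rw [sum_congr rfl this, sum_const, card_range, nsmul_eq_mul]
    field_simp
  · apply hfree
    have h2 := h1 0 y
    rw [AddChar.map_zero_eq_one, cs_one] at h2
    refine Eq.trans ?_ h2
    rw [hπ, hπ, map_smul, map_sum]
    congr 1
    refine sum_congr rfl fun j _ => ?_
    rw [cs_comm hUJ, ← Function.iterate_succ_apply' U, Function.iterate_succ_apply]

end Pool.Agent.MP_8bdec9_gt
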