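import Mathlib.LinearAlgebra.FreeModule.PID
import Mathlib.RingTheory.Flat.TorsionFree
import Mathlib.RepresentationTheory.Basic
import Mathlib.Algebra.Order.Archimedean.Real.Hom
import Mathlib.Algebra.Order.Star.Real
import Mathlib.LinearAlgebra.Matrix.FiniteDimensional
import Mathlib.Analysis.InnerProductSpace.Spectrum
import Mathlib.RingTheory.SimpleRing.Principal
import Mathlib.Tactic.Algebra.Basic

/-! Linear algebra for invariant complex structures: trace formula, parity, gluing. -/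

namespace Pool.Agent.MP_8bdec9_gt.Cx

open Module Finset
open scoped RealInnerProductSpace

universe u

section Defs

variable {G : Type*} [Group G] {W : Type*} [NormedAddCommGroup W] [InnerProductSpace ℝ W]

/-- Orthogonal representation. -/
def Orth (ρ : Representation ℝ G W) : Prop := ∀ g x y, ⟪ρ g x, ρ g y⟫ = ⟪x, y⟫

/-- Fixed point free representation. -/
def Free (ρ : Representation ℝ G W) : Prop := ∀ g, g ≠ 1 → ∀ x, ρ g x = x → x = 0

/-- Skew operator. -/
def Skew (A : W →ₗ[ℝ] W) : Prop := ∀ x y, ⟪A x, y⟫ = -⟪x, A y⟫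

/-- There is an invariant orthogonal complex structure. -/
def HasJ (ρ : Representation ℝ G W) : Prop :=
  ∃ J : W →ₗ[ℝ] W, J * J = -1 ∧ Skew J ∧ ∀ g, ρ g * J = J * ρ g

/-- There is a nonzero invariant skew operator. -/
def HasSkew (ρ : Representation ℝ G W) : Prop :=
  ∃ A : W →ₗ[ℝ] W, A ≠ 0 ∧ Skew A ∧ ∀ g, ρ g * A = A * ρ g

/-- The commutant. -/
def comm (ρ : Representation ℝ G W) : Submodule ℝ (W →ₗ[ℝ] W) where
  carrier := {A | ∀ g, ρ g * A = A * ρ g}
  add_mem' := by
    intro a b ha hb g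
    rw [mul_add, add_mul, ha g, hb g]
  zero_mem' := by intro g; simp
  smul_mem' := by
    intro c a ha g
    rw [mul_smul_comm, smul_mul_assoc, ha g]

/-- The skew part of the commutant. -/
def skewComm (ρ : Representation ℝ G W) : Submodule ℝ (W →ₗ[ℝ] W) where
  carrier := {A | (∀ g, ρ g * A = A * ρ g) ∧ Skew A}
  add_mem' := by
    intro a b ha hb
    refine ⟨fun g => by rw [mul_add, add_mul, ha.1 g, hb.1 g], fun x y => ?_⟩
    simp only [LinearMap.add_apply, inner_add_left, inner_add_right, ha.2 x y, hb.2 x y]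
    ring
  zero_mem' := ⟨by intro g; simp, fun x y => by simp⟩
  smul_mem' := by
    intro c a ha
    refine ⟨fun g => by rw [mul_smul_comm, smul_mul_assoc, ha.1 g], fun x y => ?_⟩
    simp only [LinearMap.smul_apply, real_inner_smul_left, real_inner_smul_right, ha.2 x y]
    ring

lemma Orth.inner_left {ρ : Representation ℝ G W} (h : Orth ρ) (g : G) (x y : W) :
    ⟪ρ g x, y⟫ = ⟪x, ρ g⁻¹ y⟫ := by
  rw [← h g x, ← Module.End.mul_apply, ← map_mul, mul_inv_cancel, map_one, Module.End.one_apply]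

lemma Free.eq_one_or_neg_one {ρ : Representation ℝ G W} (h : Free ρ) {g : G} (hg : g * g = 1) :
    ρ g = 1 ∨ ρ g = -1 := by
  by_cases h1 : g = 1
  · left; rw [h1, map_one]
  · right
    ext x
    have := h g h1 (ρ g x + x) (by
      rw [map_add, ← Module.End.mul_apply, ← map_mul, hg, map_one, Module.End.one_apply, add_comm])
    simpa using eq_neg_of_add_eq_zero_left this

lemma Free.injective {ρ : Representation ℝ G W} (h : Free ρ) [Nontrivial W] {a b : G}
    (hab : ρ a = ρ b) : a = b := by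
  by_contra hne
  obtain ⟨x, hx⟩ := exists_ne (0 : W)
  refine hx (h (b⁻¹ * a) (fun h1 => hne (inv_mul_eq_one.1 h1).symm) x ?_)
  rw [map_mul, hab, ← map_mul, inv_mul_cancel, map_one, Module.End.one_apply]

lemma Orth.sub {ρ : Representation ℝ G W} (h : Orth ρ) (U : Submodule ℝ W)
    (hU : ∀ g, U ≤ U.comap (ρ g)) : Orth (ρ.subrepresentation U hU) :=
  fun g x y => h g x y

lemma Free.sub {ρ : Representation ℝ G W} (h : Free ρ) (U : Submodule ℝ W)
    (hU : ∀ g, U ≤ U.comap (ρ g)) : Free (ρ.subrepresentation U hU) :=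
  fun g hg x hx => Subtype.ext (h g hg x (congrArg Subtype.val hx))

lemma Orth.orthogonal {ρ : Representation ℝ G W} (h : Orth ρ) {U : Submodule ℝ W}
    (hU : ∀ g, U ≤ U.comap (ρ g)) (g : G) : Uᗮ ≤ Uᗮ.comap (ρ g) := by
  intro x hx
  rw [Submodule.mem_comap, Submodule.mem_orthogonal']
  intro u hu
  rw [h.inner_left]
  exact (Submodule.mem_orthogonal' _ _).1 hx _ (hU g⁻¹ hu)

lemma Orth.comp {ρ : Representation ℝ G W} (h : Orth ρ) {H : Type*} [Group H] (f : H →* G) :
    Orth (ρ.comp f) := fun g x y => h (f g) x y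

lemma Free.comp {ρ : Representation ℝ G W} (h : Free ρ) (H : Subgroup G) :
    Free (ρ.comp H.subtype) :=
  fun g hg x hx => h g (fun h1 => hg (Subtype.ext h1)) x hx

end Defs

lemma even_of_sq_eq_neg_one {V : Type*} [AddCommGroup V] [Module ℝ V] [FiniteDimensional ℝ V]
    (J : V →ₗ[ℝ] V) (h : J * J = -1) : Even (finrank ℝ V) := by
  have h1 := congrArg LinearMap.det h
  rw [map_mul, ← neg_one_smul ℝ (1 : V →ₗ[ℝ] V), LinearMap.det_smul, map_one, mul_one] at h1
  by_contra hodd
  rw [(Nat.not_even_iff_odd.1 hodd).neg_one_pow] at h1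
  nlinarith [mul_self_nonneg (LinearMap.det J)]

section Trace

variable {G : Type*} [Group G] {W : Type*} [NormedAddCommGroup W] [InnerProductSpace ℝ W]
  [FiniteDimensional ℝ W]

lemma skew_iff (A : W →ₗ[ℝ] W) : Skew A ↔ LinearMap.adjoint A = -A := by
  constructor
  · intro h
    symm
    rw [LinearMap.eq_adjoint_iff]
    intro x y
    simp [h x y]
  · intro h x y
    rw [← LinearMap.adjoint_inner_right, h]
    simp

lemma Orth.adjoint {ρ : Representation ℝ G W} (h : Orth ρ) (g : G) :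
    LinearMap.adjoint (ρ g) = ρ g⁻¹ := by
  symm
  rw [LinearMap.eq_adjoint_iff]
  intro x y
  rw [h.inner_left, inv_inv]

lemma adjoint_mul (A B : W →ₗ[ℝ] W) :
    LinearMap.adjoint (A * B) = LinearMap.adjoint B * LinearMap.adjoint A :=
  LinearMap.adjoint_comp A B

lemma Skew.exists_ker {A : W →ₗ[ℝ] W} (h : Skew A) (hodd : ¬ Even (finrank ℝ W)) :
    ∃ x, x ≠ 0 ∧ A x = 0 := by
  have b := stdOrthonormalBasis ℝ W
  have h1 : LinearMap.det (LinearMap.adjoint A) = LinearMap.det A := by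
    rw [← LinearMap.det_toMatrix b.toBasis, ← LinearMap.det_toMatrix b.toBasis,
      LinearMap.toMatrix_adjoint, Matrix.det_conjTranspose]
    simp
  rw [(skew_iff A).1 h, ← neg_one_smul ℝ A, LinearMap.det_smul,
    (Nat.not_even_iff_odd.1 hodd).neg_one_pow] at h1
  have h2 : LinearMap.det A = 0 := by linarith
  obtain ⟨x, hx, hx0⟩ := (Submodule.ne_bot_iff _).1 (LinearMap.det_eq_zero_iff_ker_ne_bot.1 h2)
  exact ⟨x, hx0, hx⟩

variable (W) in
/-- The adjoint as a real linear map. -/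
noncomputable def adjL : (W →ₗ[ℝ] W) →ₗ[ℝ] (W →ₗ[ℝ] W) where
  toFun := LinearMap.adjoint
  map_add' := by simp
  map_smul' := by simp

lemma adjL_apply (A : W →ₗ[ℝ] W) : adjL W A = LinearMap.adjoint A := rfl

lemma trace_mul_adj (X Y : W →ₗ[ℝ] W) :
    LinearMap.trace ℝ _ (LinearMap.mulLeft ℝ X ∘ₗ LinearMap.mulRight ℝ Y ∘ₗ adjL W) =
      LinearMap.trace ℝ _ (X * LinearMap.adjoint Y) := by
  have b := stdOrthonormalBasis ℝ W
  rw [LinearMap.trace_eq_matrix_trace ℝ (b.toBasis.linearMap b.toBasis),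
    LinearMap.trace_eq_matrix_trace ℝ b.toBasis, LinearMap.toMatrix_mul,
    LinearMap.toMatrix_adjoint]
  simp only [Matrix.trace, Matrix.diag_apply, Fintype.sum_prod_type]
  refine sum_congr rfl fun i _ => ?_
  rw [Matrix.mul_apply]
  refine sum_congr rfl fun j _ => ?_
  rw [LinearMap.toMatrix_apply, Basis.linearMap_repr_apply]
  simp only [LinearMap.comp_apply, LinearMap.mulLeft_apply, LinearMap.mulRight_apply, adjL_apply]
  rw [LinearMap.toMatrix_mul, LinearMap.toMatrix_mul, LinearMap.toMatrix_adjoint,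
    Basis.linearMap_apply, LinearMap.toMatrix_toLin, Matrix.stdBasis_eq_single]
  have hr : ∀ M : Matrix (Fin (finrank ℝ W)) (Fin (finrank ℝ W)) ℝ,
      (Matrix.stdBasis ℝ _ _).repr M (i, j) = M i j := by
    intro M
    simp [Matrix.stdBasis]
  erw [hr]
  simp [Matrix.mul_apply, Matrix.single, Finset.sum_ite_eq, ite_and]

variable [Fintype G] (ρ : Representation ℝ G W)

/-- Averaging over the conjugation action. -/
noncomputable def avg : (W →ₗ[ℝ] W) →ₗ[ℝ] (W →ₗ[ℝ] W) :=
  (Fintype.card G : ℝ)⁻¹ • ∑ g, LinearMap.mulLeft ℝ (ρ g) ∘ₗ LinearMap.mulRight ℝ (ρ g⁻¹)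

omit [FiniteDimensional ℝ W] in
lemma avg_apply (A : W →ₗ[ℝ] W) :
    avg ρ A = (Fintype.card G : ℝ)⁻¹ • ∑ g, ρ g * (A * ρ g⁻¹) := by
  simp [avg, LinearMap.sum_apply]

omit [FiniteDimensional ℝ W] in
lemma avg_mem (A : W →ₗ[ℝ] W) : avg ρ A ∈ comm ρ := by
  intro h
  rw [avg_apply, mul_smul_comm, smul_mul_assoc, mul_sum, sum_mul]
  congr 1
  refine Fintype.sum_equiv (Equiv.mulLeft h) _ _ fun g => ?_
  simp only [Equiv.coe_mulLeft, mul_inv_rev, map_mul, mul_assoc]
  rw [← map_mul ρ h⁻¹ h, inv_mul_cancel, map_one, mul_one]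

omit [FiniteDimensional ℝ W] in
lemma avg_of_mem {A : W →ₗ[ℝ] W} (hA : A ∈ comm ρ) : avg ρ A = A := by
  rw [avg_apply, sum_congr rfl (g := fun _ => A) fun g _ => by
    rw [← mul_assoc, hA g, mul_assoc, ← map_mul, mul_inv_cancel, map_one, mul_one]]
  rw [sum_const, card_univ, ← Nat.cast_smul_eq_nsmul ℝ, smul_smul,
    inv_mul_cancel₀ (by exact_mod_cast Fintype.card_ne_zero), one_smul]

lemma adjoint_avg (h : Orth ρ) (A : W →ₗ[ℝ] W) :
    LinearMap.adjoint (avg ρ A) = avg ρ (LinearMap.adjoint A) := by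
  rw [avg_apply, avg_apply, ← adjL_apply, map_smul, map_sum]
  congr 1
  refine sum_congr rfl fun g _ => ?_
  rw [adjL_apply, adjoint_mul, adjoint_mul, h.adjoint, h.adjoint, inv_inv, mul_assoc]

/-- The trace formula. -/
theorem sum_trace_sq (h : Orth ρ) : ∑ g, LinearMap.trace ℝ W (ρ g * ρ g) =
    Fintype.card G * ((finrank ℝ (comm ρ) : ℝ) - 2 * finrank ℝ (skewComm ρ)) := by
  have h1 : LinearMap.IsProj (comm ρ) (avg ρ) := ⟨avg_mem ρ, fun _ => avg_of_mem ρ⟩
  have h2 : LinearMap.IsProj (skewComm ρ) ((1 / 2 : ℝ) • (avg ρ - avg ρ ∘ₗ adjL W)) := by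
    constructor
    · intro A
      simp only [LinearMap.smul_apply, LinearMap.sub_apply, LinearMap.comp_apply, adjL_apply]
      refine Submodule.smul_mem _ _ ⟨(comm ρ).sub_mem (avg_mem ρ _) (avg_mem ρ _), ?_⟩
      rw [skew_iff, map_sub, adjoint_avg ρ h, adjoint_avg ρ h, LinearMap.adjoint_adjoint, neg_sub]
    · intro A hA
      simp only [LinearMap.smul_apply, LinearMap.sub_apply, LinearMap.comp_apply, adjL_apply]
      rw [(skew_iff A).1 hA.2, map_neg, avg_of_mem ρ hA.1]
      module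
  have h3 := h1.trace
  have h4 := h2.trace
  rw [map_smul, map_sub, h3, smul_eq_mul] at h4
  have h5 : LinearMap.trace ℝ _ (avg ρ ∘ₗ adjL W) =
      (Fintype.card G : ℝ)⁻¹ * ∑ g, LinearMap.trace ℝ W (ρ g * ρ g) := by
    rw [avg, LinearMap.smul_comp, map_smul, smul_eq_mul, ← Module.End.mul_eq_comp, sum_mul, map_sum]
    congr 1
    refine sum_congr rfl fun g _ => ?_
    rw [Module.End.mul_eq_comp, LinearMap.comp_assoc, trace_mul_adj, h.adjoint, inv_inv]
  have h6 : (Fintype.card G : ℝ) ≠ 0 := by exact_mod_cast Fintype.card_ne_zero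
  rw [h5] at h4
  field_simp at h4
  linarith

theorem parity (h : Orth ρ) (J : W →ₗ[ℝ] W) (hJ : J * J = -1) (hc : ∀ g, ρ g * J = J * ρ g) :
    ∃ e : ℤ, ∑ g, LinearMap.trace ℝ W (ρ g * ρ g) = Fintype.card G * (2 * e) := by
  have hmap : ∀ A ∈ comm ρ, LinearMap.mulLeft ℝ J A ∈ comm ρ := by
    intro A hA g
    simp only [LinearMap.mulLeft_apply]
    rw [← mul_assoc, hc g, mul_assoc, hA g, mul_assoc]
  obtain ⟨k, hk⟩ := even_of_sq_eq_neg_one ((LinearMap.mulLeft ℝ J).restrict hmap) (by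
    refine LinearMap.ext fun A => Subtype.ext ?_
    show J * (J * A.1) = -A.1
    rw [← mul_assoc, hJ, neg_one_mul])
  refine ⟨k - finrank ℝ (skewComm ρ), ?_⟩
  rw [sum_trace_sq ρ h, hk]
  push_cast
  ring

theorem hasSkew_of_sum_nonpos [Nontrivial W] (h : Orth ρ)
    (hs : ∑ g, LinearMap.trace ℝ W (ρ g * ρ g) ≤ 0) : HasSkew ρ := by
  by_contra hno
  have h1 : skewComm ρ = ⊥ := by
    rw [Submodule.eq_bot_iff]
    intro A hA
    by_contra hne
    exact hno ⟨A, hne, hA.2, hA.1⟩
  have h2 : 0 < finrank ℝ (comm ρ) := by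
    rw [Module.finrank_pos_iff_exists_ne_zero]
    exact ⟨⟨1, fun g => by simp⟩, fun h => one_ne_zero (congrArg Subtype.val h)⟩
  rw [sum_trace_sq ρ h, h1, finrank_bot] at hs
  have h3 : (0 : ℝ) < Fintype.card G := by exact_mod_cast Fintype.card_pos
  have h4 : (0 : ℝ) < finrank ℝ (comm ρ) := by exact_mod_cast h2
  simp only [Nat.cast_zero, mul_zero, sub_zero] at hs
  nlinarith

theorem sum_eq_card_of_irreducible [Nontrivial W] (h : Orth ρ) (hno : ¬ HasSkew ρ)
    (hirr : ∀ U : Submodule ℝ W, (∀ g, U ≤ U.comap (ρ g)) → U ≠ ⊥ → U = ⊤) :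
    ∑ g, LinearMap.trace ℝ W (ρ g * ρ g) = Fintype.card G := by
  have h1 : skewComm ρ = ⊥ := by
    rw [Submodule.eq_bot_iff]
    intro A hA
    by_contra hne
    exact hno ⟨A, hne, hA.2, hA.1⟩
  have h2 : comm ρ = Submodule.span ℝ {(1 : W →ₗ[ℝ] W)} := by
    apply le_antisymm
    · intro A hA
      have hadj : LinearMap.adjoint A ∈ comm ρ := by
        rw [← avg_of_mem ρ hA, adjoint_avg ρ h]
        exact avg_mem ρ _
      have hsk : A - LinearMap.adjoint A ∈ skewComm ρ :=
        ⟨(comm ρ).sub_mem hA hadj, by rw [skew_iff, map_sub, LinearMap.adjoint_adjoint, neg_sub]⟩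
      rw [h1, Submodule.mem_bot, sub_eq_zero] at hsk
      have hsym : A.IsSymmetric := fun x y => (LinearMap.eq_adjoint_iff A A).1 hsk x y
      have hpos : 0 < finrank ℝ W := Module.finrank_pos
      have hv := hsym.hasEigenvector_eigenvectorBasis rfl ⟨0, hpos⟩
      set l := hsym.eigenvalues rfl ⟨0, hpos⟩
      have htop := hirr (Module.End.eigenspace A l) (by
        intro g x hx
        rw [Submodule.mem_comap, Module.End.mem_eigenspace_iff] at *
        rw [← Module.End.mul_apply, ← hA g, Module.End.mul_apply, hx, map_smul])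
        ((Submodule.ne_bot_iff _).2 ⟨_, hv.1, hv.2⟩)
      refine Submodule.mem_span_singleton.2 ⟨l, ?_⟩
      ext x
      have hx : x ∈ Module.End.eigenspace A l := htop ▸ Submodule.mem_top
      simpa using (Module.End.mem_eigenspace_iff.1 hx).symm
    · rw [Submodule.span_le, Set.singleton_subset_iff]
      intro g
      simp
  rw [sum_trace_sq ρ h, h1, h2, finrank_bot, finrank_span_singleton one_ne_zero]
  simp

end Trace

section Glue

variable {G : Type*} [Group G]

lemma hasSkew_of_sq {W : Type*} [NormedAddCommGroup W] [InnerProductSpace ℝ W]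
    [FiniteDimensional ℝ W] [Nontrivial W] {ρ : Representation ℝ G W} (hf : Free ρ)
    (hE : Even (finrank ℝ W)) (hsq : ∀ g : G, g * g = 1) : HasSkew ρ := by
  have hpos : 0 < finrank ℝ W := Module.finrank_pos
  have h2 : 1 < finrank ℝ W := by obtain ⟨k, hk⟩ := hE; omega
  have b := stdOrthonormalBasis ℝ W
  set e1 := b ⟨0, hpos⟩
  set e2 := b ⟨1, h2⟩
  have h11 : ⟪e1, e1⟫ = 1 := by simp [e1]
  have h21 : ⟪e2, e1⟫ = 0 := b.orthonormal.2 (by simp)
  refine ⟨(innerₗ W e1).smulRight e2 - (innerₗ W e2).smulRight e1, ?_, ?_, ?_⟩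
  · intro h
    have := congrArg (fun A : W →ₗ[ℝ] W => A e1) h
    simp only [LinearMap.sub_apply, LinearMap.smulRight_apply, innerₗ_apply_apply, h11, h21,
      one_smul, zero_smul, sub_zero, LinearMap.zero_apply] at this
    exact b.orthonormal.ne_zero _ this
  · intro x y
    simp only [LinearMap.sub_apply, LinearMap.smulRight_apply, innerₗ_apply_apply, inner_sub_left,
      inner_sub_right, real_inner_smul_left, real_inner_smul_right]
    rw [real_inner_comm x e1, real_inner_comm x e2]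
    ring
  · intro g
    rcases hf.eq_one_or_neg_one (hsq g) with h | h <;> simp [h]

lemma HasSkew.extend {W : Type*} [NormedAddCommGroup W] [InnerProductSpace ℝ W]
    [FiniteDimensional ℝ W] {ρ : Representation ℝ G W} (ho : Orth ρ) {U : Submodule ℝ W}
    {hU : ∀ g, U ≤ U.comap (ρ g)} (h : HasSkew (ρ.subrepresentation U hU)) : HasSkew ρ := by
  obtain ⟨A, hA0, hA1, hA2⟩ := h
  set B : W →ₗ[ℝ] W := LinearMap.ofIsCompl U.isCompl_orthogonal (U.subtype ∘ₗ A) 0 with hB
  have hBu : ∀ u (hu : u ∈ U) k (_ : k ∈ Uᗮ), B (u + k) = A ⟨u, hu⟩ := by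
    intro u hu k hk
    have e1 : B u = A ⟨u, hu⟩ := LinearMap.ofIsCompl_apply_left _ (⟨u, hu⟩ : U)
    have e2 : B k = 0 := LinearMap.ofIsCompl_apply_right _ (⟨k, hk⟩ : Uᗮ)
    rw [map_add, e1, e2, add_zero]
  refine ⟨B, ?_, ?_, ?_⟩
  · intro h0
    apply hA0
    ext u
    have := hBu u u.2 0 (zero_mem _)
    rw [h0] at this
    simpa using this.symm
  · intro x y
    obtain ⟨u, hu, k, hk, rfl⟩ := U.exists_add_mem_mem_orthogonal x
    obtain ⟨u', hu', k', hk', rfl⟩ := U.exists_add_mem_mem_orthogonal y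
    rw [hBu u hu k hk, hBu u' hu' k' hk', inner_add_right, inner_add_left,
      Submodule.inner_right_of_mem_orthogonal (A _).2 hk',
      Submodule.inner_left_of_mem_orthogonal (A _).2 hk, add_zero, add_zero]
    exact hA1 ⟨u, hu⟩ ⟨u', hu'⟩
  · intro g
    ext x
    obtain ⟨u, hu, k, hk, rfl⟩ := U.exists_add_mem_mem_orthogonal x
    rw [Module.End.mul_apply, Module.End.mul_apply, hBu u hu k hk, map_add,
      hBu _ (hU g hu) _ (ho.orthogonal hU g hk)]
    exact congrArg Subtype.val (LinearMap.congr_fun (hA2 g) ⟨u, hu⟩)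

theorem hasJ_of_forall_skew
    (hsk : ∀ (W : Type u) [NormedAddCommGroup W] [InnerProductSpace ℝ W] [FiniteDimensional ℝ W]
      [Nontrivial W] (ρ : Representation ℝ G W), Orth ρ → Free ρ → Even (finrank ℝ W) → HasSkew ρ)
    (n : ℕ) : ∀ (W : Type u) [NormedAddCommGroup W] [InnerProductSpace ℝ W] [FiniteDimensional ℝ W]
      (ρ : Representation ℝ G W), finrank ℝ W = n → Orth ρ → Free ρ → Even n → HasJ ρ := by
  induction n using Nat.strong_induction_on with
  | _ n ih =>
    intro W _ _ _ ρ hn ho hf hE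
    rcases subsingleton_or_nontrivial W with hW | hW
    · exact ⟨0, Subsingleton.elim _ _, fun x y => by simp, fun g => by simp⟩
    obtain ⟨A, hA0, hA1, hA2⟩ := hsk W ρ ho hf (hn ▸ hE)
    have hsym : (-(A * A)).IsSymmetric := by
      intro x y
      simp only [LinearMap.neg_apply, Module.End.mul_apply, inner_neg_left, inner_neg_right]
      rw [hA1, hA1 x, neg_neg]
    obtain ⟨i, hi⟩ : ∃ i, hsym.eigenvalues rfl i ≠ 0 := by
      by_contra hall
      push Not at hall
      apply hA0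
      have hB : -(A * A) = 0 := (hsym.eigenvectorBasis rfl).toBasis.ext fun i => by
        rw [OrthonormalBasis.coe_toBasis, hsym.apply_eigenvectorBasis, hall i]
        simp
      ext x
      have h1 := hA1 x (A x)
      have h2 : A (A x) = 0 := by simpa using LinearMap.congr_fun hB x
      rw [h2, inner_zero_right, neg_zero, inner_self_eq_zero] at h1
      exact h1
    set l : ℝ := hsym.eigenvalues rfl i with hl
    have hv := hsym.hasEigenvector_eigenvectorBasis rfl i
    set U := Module.End.eigenspace (-(A * A)) l with hUdef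
    have hmem : ∀ x, x ∈ U ↔ A (A x) = -(l • x) := by
      intro x
      rw [hUdef, Module.End.mem_eigenspace_iff]
      simp [neg_eq_iff_eq_neg]
    have hlpos : 0 < l := by
      set v := hsym.eigenvectorBasis rfl i
      have h1 := hA1 v (A v)
      rw [(hmem v).1 hv.1, inner_neg_right, neg_neg, real_inner_smul_right] at h1
      have h2 : ⟪v, v⟫ = 1 := by simp [v]
      rw [h2, mul_one] at h1
      exact lt_of_le_of_ne (h1 ▸ real_inner_self_nonneg) hi.symm
    have hcomm : ∀ g x, ρ g (A x) = A (ρ g x) := fun g x => LinearMap.congr_fun (hA2 g) x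
    have hU : ∀ g, U ≤ U.comap (ρ g) := by
      intro g x hx
      rw [Submodule.mem_comap, hmem, ← hcomm, ← hcomm, (hmem x).1 hx, map_neg, map_smul]
    have hAU : ∀ x ∈ U, A x ∈ U := by
      intro x hx
      rw [hmem, (hmem x).1 hx, map_neg, map_smul]
    set c : ℝ := (√l)⁻¹ with hc
    have hcc : c * c * l = 1 := by
      rw [hc, ← mul_inv, Real.mul_self_sqrt hlpos.le, inv_mul_cancel₀ hlpos.ne']
    have hUeven : Even (finrank ℝ U) := even_of_sq_eq_neg_one (c • A.restrict hAU) (by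
      ext x
      simp only [Module.End.mul_apply, LinearMap.smul_apply, map_smul, SetLike.val_smul,
        LinearMap.coe_restrict_apply, LinearMap.neg_apply, Module.End.one_apply,
        NegMemClass.coe_neg]
      rw [(hmem x).1 x.2, smul_neg, smul_neg, smul_smul, smul_smul, hcc, one_smul])
    have hUpos : 0 < finrank ℝ U := by
      rw [Module.finrank_pos_iff_exists_ne_zero]
      exact ⟨⟨_, hv.1⟩, fun h => hv.2 (congrArg Subtype.val h)⟩
    have hdim := U.finrank_add_finrank_orthogonal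
    obtain ⟨J, hJ1, hJ2, hJ3⟩ := ih (finrank ℝ Uᗮ) (by omega) Uᗮ
      (ρ.subrepresentation Uᗮ (ho.orthogonal hU)) rfl (ho.sub _ _) (hf.sub _ _) (by
        obtain ⟨a, ha⟩ := hE
        obtain ⟨b, hb⟩ := hUeven
        exact ⟨a - b, by omega⟩)
    set B : W →ₗ[ℝ] W := LinearMap.ofIsCompl U.isCompl_orthogonal (c • (A ∘ₗ U.subtype))
      (Uᗮ.subtype ∘ₗ J) with hB
    have hBu : ∀ u (_ : u ∈ U) k (hk : k ∈ Uᗮ), B (u + k) = c • A u + J ⟨k, hk⟩ := by
      intro u hu k hk
      have e1 : B u = c • A u := LinearMap.ofIsCompl_apply_left _ (⟨u, hu⟩ : U)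
      have e2 : B k = J ⟨k, hk⟩ := LinearMap.ofIsCompl_apply_right _ (⟨k, hk⟩ : Uᗮ)
      rw [map_add, e1, e2]
    refine ⟨B, ?_, ?_, ?_⟩
    · ext x
      obtain ⟨u, hu, k, hk, rfl⟩ := U.exists_add_mem_mem_orthogonal x
      rw [Module.End.mul_apply, hBu u hu k hk, hBu _ (U.smul_mem c (hAU u hu)) _ (J _).2, map_smul,
        (hmem u).1 hu, smul_neg, smul_neg, smul_smul, smul_smul, hcc, one_smul]
      have := congrArg Subtype.val (LinearMap.congr_fun hJ1 ⟨k, hk⟩)
      simp only [Module.End.mul_apply, LinearMap.neg_apply, Module.End.one_apply,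
        NegMemClass.coe_neg] at this
      simp only [Subtype.coe_eta, this, LinearMap.neg_apply, Module.End.one_apply]
      abel
    · intro x y
      obtain ⟨u, hu, k, hk, rfl⟩ := U.exists_add_mem_mem_orthogonal x
      obtain ⟨u', hu', k', hk', rfl⟩ := U.exists_add_mem_mem_orthogonal y
      have e : ⟪(J ⟨k, hk⟩ : W), k'⟫ = -⟪k, (J ⟨k', hk'⟩ : W)⟫ := hJ2 ⟨k, hk⟩ ⟨k', hk'⟩
      rw [hBu u hu k hk, hBu u' hu' k' hk']
      simp only [inner_add_left, inner_add_right, real_inner_smul_left, real_inner_smul_right]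
      rw [Submodule.inner_right_of_mem_orthogonal (hAU u hu) hk',
        Submodule.inner_left_of_mem_orthogonal hu' (J _).2,
        Submodule.inner_right_of_mem_orthogonal hu (J _).2,
        Submodule.inner_left_of_mem_orthogonal (hAU u' hu') hk, hA1 u u', e]
      ring
    · intro g
      ext x
      obtain ⟨u, hu, k, hk, rfl⟩ := U.exists_add_mem_mem_orthogonal x
      rw [Module.End.mul_apply, Module.End.mul_apply, hBu u hu k hk, map_add, map_add (ρ g),
        hBu _ (hU g hu) _ (ho.orthogonal hU g hk), map_smul, hcomm]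
      congr 1
      exact congrArg Subtype.val (LinearMap.congr_fun (hJ3 g) ⟨k, hk⟩)

end Glue

end Pool.Agent.MP_8bdec9_gt.Cx
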