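import Mathlib.Analysis.InnerProductSpace.Adjoint
import Mathlib.MeasureTheory.Constructions.HaarToSphere

/-! Definitions for MP_8bdec9_gt: volume of vector fields on spherical space forms.
A space form `S / G` is handled through its universal cover: fields on `S / G` are the
`G`-invariant fields on the round sphere `S` of radius `1 / √c` in the Euclidean space `E`, and
integrals over `S / G` are integrals over `S` divided by the order of `G`. -/

open MeasureTheory
open scoped ContDiff

namespace Pool.Agent.MP_8bdec9_gt.Sp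

variable {E : Type} [NormedAddCommGroup E] [InnerProductSpace ℝ E] [FiniteDimensional ℝ E]

/-- `√det (I + Aᵗ A)` -/
noncomputable def jac (A : E →L[ℝ] E) : ℝ :=
  √(ContinuousLinearMap.det (1 + ContinuousLinearMap.adjoint A ∘L A))

/-- `A` is skew-symmetric -/
def IsSkew (A : E →L[ℝ] E) : Prop := ∀ u w : E, inner ℝ (A u) w + inner ℝ u (A w) = 0

/-- the compression of `A` to the subspace `T` -/
noncomputable def compress (T : Submodule ℝ E) (A : E →L[ℝ] E) : T →L[ℝ] T :=
  T.orthogonalProjectionOnto ∘L A ∘L T.subtypeL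

/-- The tangent space at `x` of the sphere centred at `0` through `x`. -/
noncomputable abbrev Tan (x : E) : Submodule ℝ E := (Submodule.span ℝ {x})ᗮ

/-- `V` restricts to a smooth `G`-invariant tangent field of length `r` on the sphere of
curvature `c`. -/
def IsField (c : ℝ) (G : Subgroup (E ≃ₗᵢ[ℝ] E)) (r : ℝ) (V : E → E) : Prop :=
  ContDiff ℝ ∞ V ∧ ∀ x : E, ‖x‖ = 1 / √c →
    inner ℝ (V x) x = 0 ∧ ‖V x‖ = r ∧ ∀ g ∈ G, V (g x) = g (V x)

/-- The integrand `√det (I + (∇V)ᵗ ∇V)` at `x`. -/
noncomputable def dens (V : E → E) (x : E) : ℝ := jac (compress (Tan x) (fderiv ℝ V x))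

/-- `V` is a Killing field of the sphere of curvature `c`: `∇V` is skew-symmetric. -/
def IsKilling (c : ℝ) (V : E → E) : Prop :=
  ∀ x : E, ‖x‖ = 1 / √c → IsSkew (compress (Tan x) (fderiv ℝ V x))

/-- The volume of `V` as a field on the quotient by `G` of the `n`-sphere of curvature `c`. -/
noncomputable def Vol [MeasurableSpace E] [BorelSpace E] (n : ℕ) (c : ℝ)
    (G : Subgroup (E ≃ₗᵢ[ℝ] E)) (V : E → E) : ℝ :=
  (Nat.card G : ℝ)⁻¹ * (1 / √c) ^ n *
    ∫ u : Metric.sphere (0 : E) 1, dens V ((1 / √c) • (u : E)) ∂(volume.toSphere)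

/-- `G` acts freely on the sphere of curvature `c`. -/
def ActsFreely (c : ℝ) (G : Subgroup (E ≃ₗᵢ[ℝ] E)) : Prop :=
  ∀ g ∈ G, g ≠ 1 → ∀ x : E, ‖x‖ = 1 / √c → g x ≠ x

end Pool.Agent.MP_8bdec9_gt.Sp
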