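import Mathlib.Topology.Sheaves.Presheaf
import Mathlib.Algebra.Ring.IsFormallyReal
import Mathlib.Analysis.Calculus.FDeriv.Symmetric
import Mathlib.RingTheory.PiTensorProduct
import Pool.Agent.MP_8bdec9_gt.CxStrLin
import Pool.Agent.MP_8bdec9_gt.GDefs
import Pool.Agent.MP_8bdec9_gt.Sector

-- ======== part 0: formerly Pool.Agent.MP_8bdec9_gt.CxStrGrp
section MrgPart0

/-! Pure group theory for invariant complex structures. -/

namespace Pool.Agent.MP_8bdec9_gt.Cx

open Finset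

/-- `H` is an extension of an abelian normal subgroup by a `2`-group. -/
def AbTwo (H : Type*) [Group H] : Prop :=
  ∃ C : Subgroup H, C.Normal ∧ (∀ a ∈ C, ∀ b ∈ C, a * b = b * a) ∧ ∀ h : H, ∃ k : ℕ, h ^ 2 ^ k ∈ C

theorem AbTwo.exists_selfCentralizing {H : Type*} [Group H] [Finite H] (h : AbTwo H) :
    ∃ A : Subgroup H, A.Normal ∧ (∀ a ∈ A, ∀ b ∈ A, a * b = b * a) ∧
      ∀ z : H, (∀ a ∈ A, z * a = a * z) → z ∈ A := by
  obtain ⟨C, hC1, hC2, hC3⟩ := h
  obtain ⟨A, ⟨hA1, hA2, hA3⟩, hmax⟩ := (Set.toFinite {A : Subgroup H | A.Normal ∧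
    (∀ a ∈ A, ∀ b ∈ A, a * b = b * a) ∧ C ≤ A}).exists_maximal ⟨C, hC1, hC2, le_rfl⟩
  refine ⟨A, hA1, hA2, fun z0 hz0 => ?_⟩
  by_contra hz0A
  have hQ : IsPGroup 2 (H ⧸ A) := by
    intro q
    obtain ⟨x, rfl⟩ := QuotientGroup.mk_surjective q
    obtain ⟨k, hk⟩ := hC3 x
    exact ⟨k, by rw [← QuotientGroup.mk_pow, QuotientGroup.eq_one_iff]; exact hA3 hk⟩
  set Z : Subgroup H := Subgroup.centralizer (A : Set H) with hZ
  have hZn : Z.Normal := Subgroup.normal_centralizer
  set Zb : Subgroup (H ⧸ A) := Z.map (QuotientGroup.mk' A) with hZb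
  have hZbn : Zb.Normal := hZn.map _ (QuotientGroup.mk'_surjective A)
  have hz0Z : z0 ∈ Z := fun a ha => (hz0 a ha).symm
  have hnt : Nontrivial Zb := ⟨⟨1, ⟨QuotientGroup.mk z0, z0, hz0Z, rfl⟩, fun h => hz0A (by
    have := congrArg Subtype.val h
    exact (QuotientGroup.eq_one_iff z0).1 this.symm)⟩⟩
  let : MulAction (H ⧸ A) Zb := MulAction.compHom Zb (MulAut.conjNormal : H ⧸ A →* MulAut Zb)
  have hdvd : 2 ∣ Nat.card Zb := by
    obtain ⟨n, hn, hc⟩ := (hQ.to_subgroup Zb).nontrivial_iff_card.1 hnt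
    rw [hc]
    exact dvd_pow_self 2 hn.ne'
  have h1 : (1 : Zb) ∈ MulAction.fixedPoints (H ⧸ A) Zb := fun q => map_one (MulAut.conjNormal q)
  obtain ⟨b, hb, hb1⟩ := hQ.exists_fixed_point_of_prime_dvd_card_of_fixed_point Zb hdvd h1
  have hbc : ∀ q : H ⧸ A, q * b.1 * q⁻¹ = b.1 := fun q => by
    have := congrArg Subtype.val (hb q)
    rwa [← MulAut.conjNormal_apply]
  obtain ⟨_, z, hzZ, rfl⟩ := b
  simp only [QuotientGroup.mk'_apply] at hbc
  have hzA : z ∉ A := fun h => hb1 (Subtype.ext ((QuotientGroup.eq_one_iff z).2 h).symm)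
  set A' : Subgroup H := Z ⊓ (Subgroup.zpowers (z : H ⧸ A)).comap (QuotientGroup.mk' A) with hA'
  have hform : ∀ x ∈ A', ∃ n : ℤ, ∃ a ∈ A, x = z ^ n * a := by
    rintro x ⟨-, n, hn⟩
    refine ⟨n, (z ^ n)⁻¹ * x, QuotientGroup.eq.1 ?_, by group⟩
    simpa using hn
  have hAA' : A ≤ A' := fun a ha => ⟨fun b hb => hA2 b hb a ha, by
    show (a : H ⧸ A) ∈ Subgroup.zpowers (z : H ⧸ A)
    rw [(QuotientGroup.eq_one_iff a).2 ha]
    exact one_mem _⟩
  have hle := hmax (y := A') ⟨?_, ?_, hA3.trans hAA'⟩ hAA'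
  · exact hzA (hle ⟨hzZ, Subgroup.mem_zpowers _⟩)
  · have : (Subgroup.zpowers (z : H ⧸ A)).Normal := ⟨by
      rintro _ ⟨n, rfl⟩ q
      exact ⟨n, by simp only; rw [← conj_zpow, hbc]⟩⟩
    exact Subgroup.normal_inf_normal _ _
  · intro x hx y hy
    obtain ⟨n, a, ha, rfl⟩ := hform x hx
    obtain ⟨m, b, hb', rfl⟩ := hform y hy
    have c1 : Commute a z := hzZ a ha
    have c2 : Commute b z := hzZ b hb'
    have c3 : Commute a b := hA2 a ha b hb'
    exact Commute.mul_left (Commute.mul_right (Commute.zpow_zpow_self z n m)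
      (c2.zpow_right n).symm) (Commute.mul_right (c1.zpow_right m) c3)

/-- Number of points fixed by `x`. -/
noncomputable def fixc {G : Type*} [Group G] (O : Type*) [MulAction G O] (x : G) : ℕ :=
  Nat.card {o : O // x • o = o}

lemma odd_fixc_iff {G : Type*} [Group G] (O : Type*) [MulAction G O] [Finite O] (g : G) (n : ℕ) :
    fixc O (g ^ 2 ^ n) ≡ fixc O g [MOD 2] := by
  classical
  set c := g ^ 2 ^ n with hc
  have := Fintype.ofFinite O
  let f : Function.End {o : O // c • o = o} := fun q => ⟨g • q.1, by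
    have hcg : c * g = g * c := by rw [hc, ← pow_succ, pow_succ']
    rw [← mul_smul, hcg, mul_smul, q.2]⟩
  have hf : ∀ (k : ℕ) (q : {o : O // c • o = o}), ((f ^ k) q).1 = g ^ k • q.1 := by
    intro k
    induction k with
    | zero => intro q; simp [Function.End.one_def]
    | succ k ih =>
      intro q
      rw [pow_succ', pow_succ', mul_smul, ← ih q]
      rfl
  have h1 : f ^ 2 ^ n = 1 := by
    funext q
    exact Subtype.ext ((hf _ q).trans q.2)
  have h2 := Equiv.Perm.card_fixedPoints_modEq h1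
  have h3 : Fintype.card f.fixedPoints = fixc O g := by
    rw [fixc, ← Nat.card_eq_fintype_card]
    refine Nat.card_congr ⟨fun q => ⟨q.1.1, congrArg Subtype.val q.2⟩, fun o => ⟨⟨o.1, ?_⟩, ?_⟩,
      fun q => rfl, fun o => rfl⟩
    · exact MulAction.mem_fixedBy.1 (MulAction.mem_fixedBy_zpow (MulAction.mem_fixedBy.2 o.2)
        ((2 ^ n : ℕ) : ℤ) |> fun h => by simpa only [zpow_natCast] using h)
    · exact Subtype.ext o.2
  rw [← h3, fixc, Nat.card_eq_fintype_card]
  exact h2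

lemma smul_mk_eq_iff {G : Type*} [Group G] (H : Subgroup G) (c x : G) :
    c • (x : G ⧸ H) = x ↔ x⁻¹ * c * x ∈ H := by
  rw [MulAction.Quotient.smul_mk, eq_comm, QuotientGroup.eq, smul_eq_mul, mul_assoc]

theorem exists_abTwo_odd {G : Type*} [Group G] [Finite G] (g : G) :
    ∃ H : Subgroup G, AbTwo H ∧ Odd (fixc (G ⧸ H) g) := by
  obtain ⟨n, m, hm, hord⟩ := Nat.exists_eq_two_pow_mul_odd (orderOf_pos g).ne'
  set c := g ^ 2 ^ n with hc
  have hcm : c ^ m = 1 := by rw [hc, ← pow_mul, ← hord, pow_orderOf_eq_one]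
  set C := Subgroup.zpowers c with hC
  set N := Subgroup.normalizer (C : Set G) with hN
  have hCn : (C.subgroupOf N).Normal := Subgroup.normal_in_normalizer
  obtain ⟨S⟩ : Nonempty (Sylow 2 (N ⧸ C.subgroupOf N)) := inferInstance
  set H' : Subgroup N := (S : Subgroup (N ⧸ C.subgroupOf N)).comap (QuotientGroup.mk' (C.subgroupOf N)) with hH'
  set H : Subgroup G := H'.map N.subtype with hH
  have hHN : H ≤ N := Subgroup.map_subtype_le _
  have hCH : C ≤ H := fun a ha => ⟨⟨a, Subgroup.le_normalizer ha⟩, by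
    rw [SetLike.mem_coe, hH', Subgroup.mem_comap, QuotientGroup.mk'_apply,
      (QuotientGroup.eq_one_iff _).2 (Subgroup.mem_subgroupOf.2 ha)]
    exact one_mem _, rfl⟩
  have hpow : ∀ y ∈ H, ∃ k : ℕ, y ^ 2 ^ k ∈ C := by
    rintro _ ⟨y, hy, rfl⟩
    obtain ⟨k, hk⟩ := S.isPGroup' ⟨_, hy⟩
    refine ⟨k, ?_⟩
    have h1 := congrArg Subtype.val hk
    simp only [SubgroupClass.coe_pow, QuotientGroup.mk'_apply, OneMemClass.coe_one] at h1
    rw [← QuotientGroup.mk_pow, QuotientGroup.eq_one_iff, Subgroup.mem_subgroupOf] at h1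
    simpa using h1
  have hconj : ∀ x ∈ N, ∀ a ∈ C, x * a * x⁻¹ ∈ C := fun x hx a ha =>
    (Subgroup.mem_normalizer_iff.1 hx a).1 ha
  refine ⟨H, ⟨C.subgroupOf H, ⟨fun a ha x => ?_⟩, ?_, fun h => ?_⟩, ?_⟩
  · rw [Subgroup.mem_subgroupOf] at ha ⊢
    exact hconj x (hHN x.2) a ha
  · rintro a ⟨i, hi⟩ b ⟨j, hj⟩
    apply Subtype.ext
    simp only [Subgroup.coe_subtype] at hi hj
    rw [Subgroup.coe_mul, Subgroup.coe_mul, ← hi, ← hj]
    exact Commute.zpow_zpow_self c i j
  · obtain ⟨k, hk⟩ := hpow h h.2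
    exact ⟨k, by rw [Subgroup.mem_subgroupOf]; simpa using hk⟩
  · have key : ∀ x : G, x⁻¹ * c * x ∈ H ↔ x ∈ N := by
      intro x
      constructor
      · intro hx
        obtain ⟨k, hk⟩ := hpow _ hx
        have h1 : (x⁻¹ * c * x) ^ m = 1 := by
          have := conj_pow (a := x⁻¹) (b := c) (i := m)
          rw [inv_inv] at this
          rw [this, hcm]
          group
        have h2 : (2 ^ k).gcd (orderOf (x⁻¹ * c * x)) = 1 :=
          Nat.Coprime.coprime_dvd_right (orderOf_dvd_of_pow_eq_one h1)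
            (Nat.Coprime.pow_left k (Nat.coprime_two_left.2 hm))
        have h3 : x⁻¹ * c * x ∈ C :=
          (Subgroup.zpowers_le.2 hk) (mem_zpowers_pow_iff.2 h2)
        refine (Subgroup.inv_mem_iff N).1 (Subgroup.mem_normalizer_fintype ?_)
        rintro _ ⟨i, rfl⟩
        simp only
        rw [← conj_zpow, inv_inv]
        exact C.zpow_mem h3 i
      · intro hx
        have := hconj x⁻¹ (N.inv_mem hx) c (Subgroup.mem_zpowers c)
        rw [inv_inv] at this
        exact hCH this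
    have h1 := QuotientGroup.card_preimage_mk H {q : G ⧸ H | c • q = q}
    have h2 : (QuotientGroup.mk ⁻¹' {q : G ⧸ H | c • q = q} : Set G) = N := by
      ext x
      simp only [Set.mem_preimage, Set.mem_ofPred_eq, smul_mk_eq_iff, key, SetLike.mem_coe]
    have h3 : Nat.card H = Nat.card H' := Subgroup.card_map_of_injective N.subtype_injective
    have h4 := H'.card_mul_index
    have h5 : H'.index = (S : Subgroup (N ⧸ C.subgroupOf N)).index :=
      Subgroup.index_comap_of_surjective (S : Subgroup (N ⧸ C.subgroupOf N))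
        (QuotientGroup.mk'_surjective (C.subgroupOf N))
    have h6 : fixc (G ⧸ H) c = (S : Subgroup (N ⧸ C.subgroupOf N)).index := by
      rw [h2, h3] at h1
      have h7 : Nat.card H' * fixc (G ⧸ H) c = Nat.card H' * H'.index := by
        rw [h4]; exact h1.symm
      rw [← h5]
      exact Nat.eq_of_mul_eq_mul_left Nat.card_pos h7
    have h8 := odd_fixc_iff (G ⧸ H) g n
    rw [← hc, h6] at h8
    have h9 := S.not_dvd_index
    rw [Nat.odd_iff]
    unfold Nat.ModEq at h8
    omega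

lemma fixc_pi {G : Type*} [Group G] {ι : Type*} [Fintype ι] (O : ι → Type*)
    [∀ i, MulAction G (O i)] (x : G) : fixc (∀ i, O i) x = ∏ i, fixc (O i) x := by
  simp only [fixc]
  rw [← Nat.card_pi, ← Nat.card_congr (Equiv.subtypePiEquivPi (p := fun i o => x • o = o))]
  exact Nat.card_congr (Equiv.subtypeEquivRight fun o => funext_iff)

/-- Orbit summation. -/
theorem sum_fixc_mul {G : Type*} [Group G] [Fintype G] (O : Type*) [MulAction G O] [Finite O]
    (ψ : G → ℝ) (hψ : ∀ x y, ψ (y * x * y⁻¹) = ψ x)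
    (hst : ∀ o : O, ∃ e : ℤ, ∑ᶠ x : MulAction.stabilizer G o, ψ x =
      Nat.card (MulAction.stabilizer G o) * (2 * e)) :
    ∃ k : ℤ, ∑ x, (fixc O x : ℝ) * ψ x = Fintype.card G * (2 * k) := by
  classical
  have := Fintype.ofFinite O
  set s : O → ℝ := fun o => ∑ x, if x • o = o then ψ x else 0 with hs
  have h1 : ∑ x, (fixc O x : ℝ) * ψ x = ∑ o, s o := by
    rw [hs, sum_comm]
    refine sum_congr rfl fun x _ => ?_
    rw [fixc, Nat.card_eq_fintype_card, Fintype.card_subtype, ← sum_filter, sum_const,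
      nsmul_eq_mul]
  have h2 : ∀ (y : G) (o : O), s (y • o) = s o := by
    intro y o
    refine (Fintype.sum_equiv (MulAut.conj y).toEquiv _ _ fun x => ?_).symm
    simp only [MulEquiv.toEquiv_eq_coe, EquivLike.coe_coe, MulAut.conj_apply, hψ, mul_smul,
      inv_smul_smul, smul_left_cancel_iff]
  choose e he using hst
  have h3 : ∀ o, s o = Nat.card (MulAction.stabilizer G o) * (2 * e o) := by
    intro o
    rw [← he, finsum_eq_sum_of_fintype, hs]
    simp only
    rw [← sum_filter]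
    exact sum_subtype _ (by simp) _
  refine ⟨∑ ω : MulAction.orbitRel.Quotient G O, e ω.out, ?_⟩
  rw [h1, ← sum_fiberwise univ (Quotient.mk'' : O → MulAction.orbitRel.Quotient G O)]
  push_cast
  rw [mul_sum, mul_sum]
  refine sum_congr rfl fun ω _ => ?_
  have h4 : ∀ o, (Quotient.mk'' o : MulAction.orbitRel.Quotient G O) = ω ↔
      o ∈ MulAction.orbit G ω.out := by
    intro o
    rw [← MulAction.orbitRel_apply, ← Quotient.eq'', Quotient.out_eq']
  rw [sum_congr rfl (g := fun _ => s ω.out) (by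
    intro o ho
    obtain ⟨y, rfl⟩ := (h4 o).1 (mem_filter.1 ho).2
    exact h2 y _), sum_const, h3, nsmul_eq_mul, ← mul_assoc,
    ← MulAction.card_orbit_mul_card_stabilizer_eq_card_group G ω.out, Nat.card_eq_fintype_card]
  push_cast
  congr 3
  rw [Fintype.card_subtype]
  congr 1
  ext o
  simp [h4]

/-- The parity argument replacing an induction theorem. -/
theorem not_sum_eq_card {G : Type*} [Group G] [Fintype G] (ψ : G → ℝ)
    (hψ : ∀ x y, ψ (y * x * y⁻¹) = ψ x)
    (hgood : ∀ H : Subgroup G, AbTwo H → ∀ (y : G) (K : Subgroup G),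
      (∀ x ∈ K, y⁻¹ * x * y ∈ H) → ∃ e : ℤ, ∑ᶠ x : K, ψ x = Nat.card K * (2 * e)) :
    ∑ x, ψ x ≠ Fintype.card G := by
  classical
  intro hsum
  choose H hH hodd using fun g : G => exists_abTwo_odd g
  set f : G → G → ℤ := fun g x => fixc (G ⧸ H g) x with hf
  have h0 : ∀ x, ∏ g, (f g x + -f g g) = 0 := fun x => prod_eq_zero (mem_univ x) (by simp)
  have h1 : ∀ T : Finset G, T ≠ ∅ → ∃ k : ℤ,
      ∑ x, ((∏ g ∈ T, f g x : ℤ) : ℝ) * ψ x = Fintype.card G * (2 * k) := by
    intro T hT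
    obtain ⟨g0, hg0⟩ := nonempty_iff_ne_empty.2 hT
    obtain ⟨k, hk⟩ := sum_fixc_mul (∀ i : T, G ⧸ H i) ψ hψ (fun o => by
      obtain ⟨y, hy⟩ := QuotientGroup.mk_surjective (o ⟨g0, hg0⟩)
      refine hgood (H g0) (hH g0) y _ fun x hx => ?_
      rw [← smul_mk_eq_iff, hy]
      exact congrFun (MulAction.mem_stabilizer_iff.1 hx) ⟨g0, hg0⟩)
    refine ⟨k, ?_⟩
    rw [← hk]
    refine sum_congr rfl fun x _ => ?_
    rw [fixc_pi, ← prod_coe_sort T]
    simp [hf]
  choose! k hk using h1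
  have h2 : ∑ T : Finset G, ((∏ g ∈ Tᶜ, -f g g : ℤ) : ℝ) *
      ∑ x, ((∏ g ∈ T, f g x : ℤ) : ℝ) * ψ x = 0 := by
    simp only [mul_sum]
    rw [sum_comm]
    refine sum_eq_zero fun x _ => ?_
    have := h0 x
    rw [Fintype.prod_add] at this
    have h3 : ((∑ T : Finset G, (∏ g ∈ T, f g x) * ∏ g ∈ Tᶜ, -f g g : ℤ) : ℝ) * ψ x = 0 := by
      rw [this]; simp
    rw [← h3, Int.cast_sum, sum_mul]
    refine sum_congr rfl fun T _ => ?_
    rw [Int.cast_mul]
    ring
  rw [← add_sum_erase _ _ (mem_univ ∅), sum_congr (s₁ := univ.erase (∅ : Finset G)) rfl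
    (g := fun T => ((∏ g ∈ Tᶜ, -f g g : ℤ) : ℝ) * (Fintype.card G * (2 * k T))) (fun T hT => by
    rw [hk T (ne_of_mem_erase hT)])] at h2
  simp only [prod_empty, Int.cast_one, one_mul, hsum, compl_empty] at h2
  have hc : (Fintype.card G : ℝ) ≠ 0 := by exact_mod_cast Fintype.card_ne_zero
  have h4 : ((∏ g, -f g g : ℤ) : ℝ) +
      ((2 * ∑ T ∈ univ.erase (∅ : Finset G), (∏ g ∈ Tᶜ, -f g g) * k T : ℤ) : ℝ) = 0 := by
    apply mul_left_cancel₀ hc
    rw [mul_zero, ← h2, mul_add, mul_comm, Int.cast_mul, Int.cast_sum, mul_sum, mul_sum]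
    congr 1
    refine sum_congr rfl fun T _ => ?_
    rw [Int.cast_mul]
    push_cast
    ring
  have h5 : (∏ g, -f g g : ℤ) + 2 * ∑ T ∈ univ.erase (∅ : Finset G), (∏ g ∈ Tᶜ, -f g g) * k T = 0 := by
    exact_mod_cast h4
  have h6 : Odd (∏ g, -f g g : ℤ) := by
    refine prod_induction _ Odd (fun a b => Odd.mul) odd_one fun g _ => ?_
    exact ((Int.odd_coe_nat _).2 (hodd g)).neg
  obtain ⟨r, hr⟩ := h6
  omega

end Pool.Agent.MP_8bdec9_gt.Cx

end MrgPart0

-- ======== part 1: formerly Pool.Agent.MP_8bdec9_gt.CxStr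
section MrgPart1

/-! A finite group acting freely and orthogonally on an even dimensional Euclidean space commutes
with an orthogonal complex structure. -/

namespace Pool.Agent.MP_8bdec9_gt

namespace Cx

open Module Finset
open scoped RealInnerProductSpace

universe u

section

variable {G : Type*} [Group G] {W : Type*} [NormedAddCommGroup W] [InnerProductSpace ℝ W]
  [FiniteDimensional ℝ W]

omit [FiniteDimensional ℝ W] in
lemma Free.central [Nontrivial W] {ρ : Representation ℝ G W} (hf : Free ρ) {g : G}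
    (hg : g * g = 1) (x : G) : g * x = x * g := by
  apply hf.injective
  rw [map_mul, map_mul]
  rcases hf.eq_one_or_neg_one hg with h | h <;> simp [h]

theorem sum_sq_nonpos [Fintype G] [Nontrivial W] {ρ : Representation ℝ G W} (hf : Free ρ)
    (hG : AbTwo G) (hsq : ∃ g : G, g * g ≠ 1) :
    ∑ g, LinearMap.trace ℝ W (ρ g * ρ g) ≤ 0 := by
  classical
  obtain ⟨A, hA1, hA2, hA3⟩ := hG.exists_selfCentralizing
  have key : ∀ h : G, ∑ a : A, LinearMap.trace ℝ W (ρ (h * a) * ρ (h * a)) ≤ 0 := by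
    intro h
    set μ : G → G := fun a => h⁻¹ * a * h * a with hμ
    have hconj : ∀ a ∈ A, h⁻¹ * a * h ∈ A := fun a ha => by
      simpa using hA1.conj_mem a ha h⁻¹
    have e1 : ∑ a : A, LinearMap.trace ℝ W (ρ (h * a) * ρ (h * a)) =
        LinearMap.trace ℝ W (ρ (h * h) * ∑ a : A, ρ (μ a)) := by
      rw [mul_sum, map_sum]
      refine sum_congr rfl fun a _ => ?_
      rw [← map_mul, ← map_mul, hμ]
      congr 2
      group
    rw [e1]
    by_cases hμ1 : ∃ a1 ∈ A, μ a1 ≠ 1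
    · obtain ⟨a1, ha1, hne⟩ := hμ1
      have e2 : ρ (μ a1) * ∑ a : A, ρ (μ a) = ∑ a : A, ρ (μ a) := by
        rw [mul_sum]
        refine Fintype.sum_equiv (Equiv.mulLeft (⟨a1, ha1⟩ : A)) _ _ fun a => ?_
        rw [← map_mul]
        congr 1
        have := hA2 a1 ha1 _ (hconj a a.2)
        simp only [hμ, Equiv.coe_mulLeft, Subgroup.coe_mul]
        calc h⁻¹ * a1 * h * a1 * (h⁻¹ * a * h * a)
            = h⁻¹ * a1 * h * (a1 * (h⁻¹ * a * h)) * a := by group
          _ = _ := by rw [this]; group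
      have e3 : ∑ a : A, ρ (μ a) = 0 := by
        ext x
        exact hf _ hne _ (LinearMap.congr_fun e2 x)
      rw [e3, mul_zero, map_zero]
    · push Not at hμ1
      have hinv : ∀ a ∈ A, h⁻¹ * a * h = a⁻¹ := fun a ha => eq_inv_of_mul_eq_one_left (hμ1 a ha)
      have hhh : h * h ∈ A := hA3 _ fun a ha => by
        have h1 := hinv a ha
        have h2 := hinv a⁻¹ (A.inv_mem ha)
        calc h * h * a = h * h * (h⁻¹ * (h⁻¹ * a * h) * h) := by rw [h1, h2, inv_inv]
          _ = a * (h * h) := by group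
      have h4 : (h * h) * (h * h) = 1 := by
        have := hμ1 _ hhh
        simp only [hμ] at this
        rw [← this]
        group
      rw [sum_congr rfl (g := fun _ => (1 : W →ₗ[ℝ] W)) fun a _ => by rw [hμ1 a a.2, map_one]]
      rcases hf.eq_one_or_neg_one h4 with h5 | h5
      · exfalso
        have h6 : h * h = 1 := hf.injective (h5.trans (map_one ρ).symm)
        have h7 : ∀ a ∈ A, a * a = 1 := fun a ha => by
          have := hμ1 a ha
          simp only [hμ] at this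
          rwa [mul_assoc h⁻¹, ← hf.central h6 a, inv_mul_cancel_left] at this
        obtain ⟨g, hg⟩ := hsq
        exact hg (h7 g (hA3 g fun a ha => (hf.central (h7 a ha) g).symm))
      · rw [h5, sum_const, neg_one_mul, map_neg, map_nsmul, LinearMap.trace_one, nsmul_eq_mul]
        have : (0 : ℝ) ≤ (univ : Finset A).card * (finrank ℝ W : ℝ) := by positivity
        linarith
  have h1 : ∑ h : G, ∑ a : A, LinearMap.trace ℝ W (ρ (h * a) * ρ (h * a)) =
      Fintype.card A * ∑ g, LinearMap.trace ℝ W (ρ g * ρ g) := by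
    have h0 : ∀ a : A, ∑ h : G, LinearMap.trace ℝ W (ρ (h * a) * ρ (h * a)) =
        ∑ g, LinearMap.trace ℝ W (ρ g * ρ g) := fun a =>
      Fintype.sum_equiv (Equiv.mulRight (a : G)) _ _ fun h => rfl
    rw [sum_comm, sum_congr rfl fun a _ => h0 a, sum_const, card_univ, nsmul_eq_mul]
  have h2 : ∑ h : G, ∑ a : A, LinearMap.trace ℝ W (ρ (h * a) * ρ (h * a)) ≤ 0 :=
    sum_nonpos fun h _ => key h
  have h3 : (0 : ℝ) < Fintype.card A := by exact_mod_cast Fintype.card_pos
  rw [h1] at h2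
  by_contra hpos
  nlinarith [not_le.1 hpos]

end

theorem AbTwo.hasJ {H : Type*} [Group H] [Finite H] (hH : AbTwo H) (W : Type u)
    [NormedAddCommGroup W] [InnerProductSpace ℝ W] [FiniteDimensional ℝ W]
    (ρ : Representation ℝ H W) (ho : Orth ρ) (hf : Free ρ) (hE : Even (finrank ℝ W)) : HasJ ρ := by
  have := Fintype.ofFinite H
  refine hasJ_of_forall_skew (fun W _ _ _ _ ρ ho hf hE => ?_) _ W ρ rfl ho hf hE
  by_cases hsq : ∀ g : H, g * g = 1
  · exact hasSkew_of_sq hf hE hsq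
  · exact hasSkew_of_sum_nonpos ρ ho (sum_sq_nonpos hf hH (not_forall.1 hsq))

theorem hasJ {G : Type*} [Group G] [Finite G] (W : Type u)
    [NormedAddCommGroup W] [InnerProductSpace ℝ W] [FiniteDimensional ℝ W]
    (ρ : Representation ℝ G W) (ho : Orth ρ) (hf : Free ρ) (hE : Even (finrank ℝ W)) : HasJ ρ := by
  have := Fintype.ofFinite G
  refine hasJ_of_forall_skew (fun W _ _ _ _ ρ ho hf hE => ?_) _ W ρ rfl ho hf hE
  by_cases hsq : ∀ g : G, g * g = 1
  · exact hasSkew_of_sq hf hE hsq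
  obtain ⟨U, ⟨hU, hU0⟩, hmin⟩ := exists_minimal_of_wellFoundedLT
    (fun U : Submodule ℝ W => (∀ g, U ≤ U.comap (ρ g)) ∧ U ≠ ⊥) ⟨⊤, fun g => by simp, top_ne_bot⟩
  have : Nontrivial U := Submodule.nontrivial_iff_ne_bot.2 hU0
  refine HasSkew.extend ho (hU := hU) ?_
  set σ := ρ.subrepresentation U hU with hσ
  have hoσ : Orth σ := ho.sub U hU
  have hfσ : Free σ := hf.sub U hU
  have hirr : ∀ V : Submodule ℝ U, (∀ g, V ≤ V.comap (σ g)) → V ≠ ⊥ → V = ⊤ := by
    intro V hV hV0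
    have h1 : U ≤ V.map U.subtype := hmin ⟨?_, ?_⟩ (Submodule.map_subtype_le U V)
    · rw [eq_top_iff]
      intro x _
      obtain ⟨y, hy, hxy⟩ := h1 x.2
      rwa [← Subtype.ext hxy]
    · rintro g _ ⟨y, hy, rfl⟩
      exact ⟨σ g y, hV g hy, rfl⟩
    · intro h
      apply hV0
      rw [eq_bot_iff]
      intro y hy
      have : (y : W) ∈ V.map U.subtype := ⟨y, hy, rfl⟩
      rw [h, Submodule.mem_bot] at this
      exact Subtype.ext this
  have hUE : Even (finrank ℝ U) := by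
    by_contra hodd
    apply hsq
    intro g
    have hsk : Skew (σ g - σ g⁻¹) := by
      intro x y
      simp only [LinearMap.sub_apply, inner_sub_left, inner_sub_right, hoσ.inner_left, inv_inv]
      ring
    obtain ⟨x, hx0, hx⟩ := hsk.exists_ker hodd
    by_contra hne
    refine hx0 (hfσ _ hne x ?_)
    rw [LinearMap.sub_apply, sub_eq_zero] at hx
    rw [map_mul, Module.End.mul_apply, hx, ← Module.End.mul_apply, ← map_mul, mul_inv_cancel,
      map_one, Module.End.one_apply]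
  by_contra hno
  refine not_sum_eq_card (fun g => LinearMap.trace ℝ U (σ g * σ g)) (fun x y => ?_) ?_
    (sum_eq_card_of_irreducible σ hoσ hno hirr)
  · rw [← map_mul, ← map_mul, show y * x * y⁻¹ * (y * x * y⁻¹) = y * (x * x * y⁻¹) by group,
      map_mul, LinearMap.trace_mul_comm, ← map_mul]
    congr 2
    group
  · intro H hH y K hK
    obtain ⟨J, hJ1, -, hJ3⟩ := hH.hasJ U (σ.comp H.subtype) (hoσ.comp _) (hfσ.comp H) hUE
    have := Fintype.ofFinite K
    have hy : σ y⁻¹ * σ y = 1 := by rw [← map_mul, inv_mul_cancel, map_one]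
    have hy' : σ y * σ y⁻¹ = 1 := by rw [← map_mul, mul_inv_cancel, map_one]
    obtain ⟨e, he⟩ := parity (σ.comp K.subtype) (hoσ.comp _) (σ y * J * σ y⁻¹) (by
      calc σ y * J * σ y⁻¹ * (σ y * J * σ y⁻¹)
          = σ y * (J * (σ y⁻¹ * σ y) * J) * σ y⁻¹ := by simp only [mul_assoc]
        _ = -1 := by
            rw [hy, mul_one, hJ1]
            ext1 x
            have := LinearMap.congr_fun hy' x
            simpa using this) (by
      intro x
      have h1 : σ (y⁻¹ * x * y) * J = J * σ (y⁻¹ * x * y) := hJ3 ⟨_, hK x x.2⟩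
      show σ x * (σ y * J * σ y⁻¹) = σ y * J * σ y⁻¹ * σ x
      calc σ x * (σ y * J * σ y⁻¹) = σ y * (σ (y⁻¹ * x * y) * J) * σ y⁻¹ := by
            rw [← mul_assoc (σ y), ← map_mul, ← mul_assoc, ← mul_assoc, ← map_mul]
            congr 3
            group
        _ = _ := by
            rw [h1, ← mul_assoc, mul_assoc _ _ (σ y⁻¹), ← map_mul, mul_assoc _ (σ y⁻¹), ← map_mul]
            congr 2
            group)
    refine ⟨e, ?_⟩
    rw [finsum_eq_sum_of_fintype, Nat.card_eq_fintype_card]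
    exact he

end Cx

open scoped RealInnerProductSpace in
theorem exists_complex_structure {E : Type*} [NormedAddCommGroup E] [InnerProductSpace ℝ E]
    [FiniteDimensional ℝ E] (hE : Even (Module.finrank ℝ E))
    (G : Subgroup (E ≃ₗᵢ[ℝ] E)) [Finite G]
    (hfree : ∀ g ∈ G, g ≠ 1 → ∀ x : E, g x = x → x = 0) :
    ∃ J : E ≃ₗᵢ[ℝ] E, (∀ x, J (J x) = -x) ∧ ∀ g ∈ G, ∀ x, g (J x) = J (g x) := by
  let ρ : Representation ℝ G E :=
    { toFun := fun g => (g.1.toLinearEquiv : E →ₗ[ℝ] E)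
      map_one' := by ext x; simp
      map_mul' := fun a b => by ext x; simp }
  obtain ⟨J, hJ1, hJ2, hJ3⟩ := Cx.hasJ E ρ (fun g x y => g.1.inner_map_map x y)
    (fun g hg x hx => hfree g.1 g.2 (fun h => hg (Subtype.ext h)) x hx) hE
  have hJJ : ∀ x, J (J x) = -x := fun x => LinearMap.congr_fun hJ1 x
  have hin : ∀ x y, ⟪J x, J y⟫ = ⟪x, y⟫ := fun x y => by
    rw [hJ2, hJJ, inner_neg_right, neg_neg]
  let e : E ≃ₗ[ℝ] E := LinearEquiv.ofLinearMap J (-J) (by ext x; simp [hJJ]) (by ext x; simp [hJJ])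
  exact ⟨e.isometryOfInner hin, hJJ, fun g hg x => LinearMap.congr_fun (hJ3 ⟨g, hg⟩) x⟩

end Pool.Agent.MP_8bdec9_gt

end MrgPart1

-- ======== part 2: formerly Pool.Agent.MP_8bdec9_gt.FinalLin
section MrgPart2

/-! Pointwise linear algebra for the final step of MP_8bdec9_gt. -/

open Module

namespace Pool.Agent.MP_8bdec9_gt

/-- The Weinstein-Aronszajn identity for continuous linear maps. -/
theorem det_one_add_comp_comm {X Y : Type*} [NormedAddCommGroup X] [NormedSpace ℝ X]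
    [NormedAddCommGroup Y] [NormedSpace ℝ Y] [FiniteDimensional ℝ X] [FiniteDimensional ℝ Y]
    (f : X →L[ℝ] Y) (g : Y →L[ℝ] X) :
    ContinuousLinearMap.det (1 + f ∘L g) = ContinuousLinearMap.det (1 + g ∘L f) := by
  classical
  let bX := Module.finBasis ℝ X
  let bY := Module.finBasis ℝ Y
  have h1 : ContinuousLinearMap.det (1 + f ∘L g) =
      (1 + LinearMap.toMatrix bX bY (f : X →ₗ[ℝ] Y) * LinearMap.toMatrix bY bX (g : Y →ₗ[ℝ] X)).det := by
    rw [← LinearMap.toMatrix_comp, ← LinearMap.toMatrix_one bY, ← map_add, LinearMap.det_toMatrix]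
    rfl
  have h2 : ContinuousLinearMap.det (1 + g ∘L f) =
      (1 + LinearMap.toMatrix bY bX (g : Y →ₗ[ℝ] X) * LinearMap.toMatrix bX bY (f : X →ₗ[ℝ] Y)).det := by
    rw [← LinearMap.toMatrix_comp, ← LinearMap.toMatrix_one bX, ← map_add, LinearMap.det_toMatrix]
    rfl
  rw [h1, h2, Matrix.det_one_add_mul_comm]

section
variable {T : Type*} [NormedAddCommGroup T] [InnerProductSpace ℝ T] [FiniteDimensional ℝ T]

/-- The rank one map `w ↦ ⟪a, w⟫ b`. -/
noncomputable def rk (b a : T) : T →L[ℝ] T :=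
  ContinuousLinearMap.toSpanSingleton ℝ b ∘L innerSL ℝ a

omit [FiniteDimensional ℝ T] in
@[simp] theorem rk_apply (b a w : T) : rk b a w = inner ℝ a w • b := by
  simp [rk]

theorem det_one_add_rk (b a : T) : ContinuousLinearMap.det (1 + rk b a) = 1 + inner ℝ a b := by
  rw [rk, det_one_add_comp_comm]
  simp [ContinuousLinearMap.det]

theorem cdet_comp (f g : T →L[ℝ] T) :
    ContinuousLinearMap.det (f ∘L g) = ContinuousLinearMap.det f * ContinuousLinearMap.det g := by
  simp only [ContinuousLinearMap.det]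
  rw [← LinearMap.det_comp]
  rfl

theorem cdet_smul (c : ℝ) (f : T →L[ℝ] T) :
    ContinuousLinearMap.det (c • f) = c ^ finrank ℝ T * ContinuousLinearMap.det f := by
  simp only [ContinuousLinearMap.det]
  rw [← LinearMap.det_smul]
  rfl

theorem cdet_nonneg {M : T →L[ℝ] T} (hM : M.IsPositive) : 0 ≤ ContinuousLinearMap.det M := by
  classical
  let b := stdOrthonormalBasis ℝ T
  have h : (M : T →ₗ[ℝ] T).IsPositive := (ContinuousLinearMap.isPositive_toLinearMap_iff M).2 hM
  have h2 := (LinearMap.posSemidef_toMatrix_iff b).2 h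
  have h3 := h2.det_nonneg
  rwa [LinearMap.det_toMatrix] at h3

/-- Adding `k a ⊗ a` to an operator `M ≥ 1` multiplies the determinant by at most `1 + k`. -/
theorem det_add_rk_le {N : T →L[ℝ] T} (hN : N.IsPositive) (a : T) (ha : ‖a‖ = 1) {k : ℝ}
    (hk : 0 ≤ k) :
    ContinuousLinearMap.det (1 + N + k • rk a a) ≤ (1 + k) * ContinuousLinearMap.det (1 + N) := by
  have hge : ∀ x : T, ‖x‖ ^ 2 ≤ inner ℝ ((1 + N) x) x := by
    intro x
    have := hN.inner_nonneg_left x
    simp only [add_apply, one_apply_eq_self, inner_add_left,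
      real_inner_self_eq_norm_sq]
    linarith
  have hinj : Function.Injective ((1 + N : T →L[ℝ] T) : T →ₗ[ℝ] T) := by
    rw [← LinearMap.ker_eq_bot, LinearMap.ker_eq_bot']
    intro x hx
    have h := hge x
    have hx' : (1 + N) x = 0 := hx
    rw [hx', inner_zero_left] at h
    have : ‖x‖ ^ 2 = 0 := le_antisymm h (sq_nonneg _)
    simpa using this
  obtain ⟨b, hb⟩ := (LinearMap.injective_iff_surjective.1 hinj) a
  have hb' : (1 + N) b = a := hb
  have hab : inner ℝ a b ≤ 1 := by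
    have h1 := hge b
    rw [hb'] at h1
    have h2 : inner ℝ a b ≤ ‖a‖ * ‖b‖ := real_inner_le_norm a b
    rw [ha, one_mul] at h2
    have h3 : ‖b‖ ≤ 1 := by
      by_contra h
      push Not at h
      nlinarith
    linarith
  have hfac : 1 + N + k • rk a a = (1 + N) ∘L (1 + rk (k • b) a) := by
    ext w
    simp only [add_apply, one_apply_eq_self,
      smul_apply, rk_apply, ContinuousLinearMap.comp_apply, map_add, map_smul]
    have : b + N b = a := hb'
    rw [← this]
    simp only [smul_add, smul_smul, mul_comm]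
  have hpos : 0 ≤ ContinuousLinearMap.det (1 + N) :=
    cdet_nonneg (ContinuousLinearMap.isPositive_one.add hN)
  rw [hfac, cdet_comp, det_one_add_rk, inner_smul_right, mul_comm]
  apply mul_le_mul_of_nonneg_right _ hpos
  nlinarith

end

section
variable {E : Type*} [NormedAddCommGroup E] [InnerProductSpace ℝ E] [FiniteDimensional ℝ E]

/-- The compression of `L` to the subspace `T`. -/
noncomputable def cmp (T : Submodule ℝ E) (L : E →L[ℝ] E) : T →L[ℝ] T :=
  T.orthogonalProjectionOnto ∘L L ∘L T.subtypeL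

/-- The integrand of the volume, for a subspace and an operator. -/
noncomputable def densT (T : Submodule ℝ E) (L : E →L[ℝ] E) : ℝ :=
  √(ContinuousLinearMap.det (1 + ContinuousLinearMap.adjoint (cmp T L) ∘L cmp T L))

/-- The Jacobian `aVol`, for a subspace and an operator. -/
noncomputable def aVolT (T : Submodule ℝ E) (L : E →L[ℝ] E) (t : ℝ) : ℝ :=
  √(ContinuousLinearMap.det ((1 - t) • (1 : T →L[ℝ] T)
    + t • (ContinuousLinearMap.adjoint (L ∘L T.subtypeL) ∘L (L ∘L T.subtypeL))))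

theorem densT_eq (T : Submodule ℝ E) (L : E →L[ℝ] E) :
    densT T L = √(ContinuousLinearMap.det (1 + T.starProjection ∘L
      ContinuousLinearMap.adjoint L ∘L T.starProjection ∘L L)) := by
  unfold densT cmp
  rw [ContinuousLinearMap.adjoint_comp, ContinuousLinearMap.adjoint_comp,
    Submodule.adjoint_subtypeL, Submodule.adjoint_orthogonalProjectionOnto]
  have h := det_one_add_comp_comm
    (T.orthogonalProjectionOnto ∘L ContinuousLinearMap.adjoint L ∘L T.starProjection ∘L L)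
    T.subtypeL
  exact congrArg Real.sqrt h

theorem cmp_smul (T : Submodule ℝ E) (L : E →L[ℝ] E) (s : ℝ) : cmp T (s • L) = s • cmp T L := by
  ext w
  simp [cmp]

theorem inner_cmp (T : Submodule ℝ E) (L : E →L[ℝ] E) (w w' : T) :
    inner ℝ (cmp T L w) w' = inner ℝ (L w) (w' : E) := by
  have : inner ℝ (cmp T L w) w' = inner ℝ (T.starProjection (L w)) (w' : E) := rfl
  rw [this, Submodule.inner_starProjection_left_eq_right,
    Submodule.starProjection_eq_self_iff.2 w'.2]

theorem densT_smul (T : Submodule ℝ E) (L : E →L[ℝ] E) (s : ℝ) :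
    densT T (s • L) = √(ContinuousLinearMap.det
      (1 + s ^ 2 • (ContinuousLinearMap.adjoint (cmp T L) ∘L cmp T L))) := by
  unfold densT
  rw [cmp_smul]
  congr 3
  ext w
  simp [smul_smul, sq]

/-- The splitting `D* D = A* A + a ⊗ a`. -/
theorem gram_split (u : E) (hu : ‖u‖ = 1) (L : E →L[ℝ] E) (a : (Submodule.span ℝ {u})ᗮ)
    (hL : ∀ w : (Submodule.span ℝ {u})ᗮ, inner ℝ (L w) u = -inner ℝ (a : E) (w : E)) :
    ContinuousLinearMap.adjoint (L ∘L (Submodule.span ℝ {u})ᗮ.subtypeL) ∘L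
        (L ∘L (Submodule.span ℝ {u})ᗮ.subtypeL) =
      ContinuousLinearMap.adjoint (cmp (Submodule.span ℝ {u})ᗮ L) ∘L
        cmp (Submodule.span ℝ {u})ᗮ L + rk a a := by
  have hP : ∀ w : (Submodule.span ℝ {u})ᗮ,
      ((cmp (Submodule.span ℝ {u})ᗮ L w : (Submodule.span ℝ {u})ᗮ) : E) =
        L w + inner ℝ (a : E) (w : E) • u := by
    intro w
    have : ((cmp (Submodule.span ℝ {u})ᗮ L w : (Submodule.span ℝ {u})ᗮ) : E) =
        (Submodule.span ℝ {u})ᗮ.starProjection (L w) := rfl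
    rw [this, Submodule.starProjection_orthogonal_val, Submodule.starProjection_unit_singleton ℝ hu,
      real_inner_comm, hL w]
    simp
  ext1 w
  apply ext_inner_right ℝ
  intro w'
  simp only [ContinuousLinearMap.comp_apply, add_apply, inner_add_left,
    ContinuousLinearMap.adjoint_inner_left, rk_apply, Submodule.subtypeL_apply]
  rw [Submodule.coe_inner, hP, hP]
  have huu : inner ℝ u u = (1 : ℝ) := by rw [real_inner_self_eq_norm_sq, hu]; norm_num
  simp only [inner_add_left, inner_add_right, inner_smul_left, inner_smul_right, huu, hL,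
    Submodule.coe_inner, conj_trivial]
  rw [real_inner_comm (L w') u, hL w']
  ring

theorem finrank_tan2 (u : E) (hu : ‖u‖ = 1) (m : ℕ) (hE : finrank ℝ E = 2 * m + 2) :
    finrank ℝ (Submodule.span ℝ {u})ᗮ = 2 * m + 1 := by
  have hu0 : u ≠ 0 := by rintro rfl; simp at hu
  have h := Submodule.finrank_add_finrank_orthogonal (Submodule.span ℝ {u})
  rw [finrank_span_singleton hu0, hE] at h
  omega

/-- The pointwise lower bound. -/
theorem densT_ge (u : E) (hu : ‖u‖ = 1) (m : ℕ) (hE : finrank ℝ E = 2 * m + 2)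
    (L : E →L[ℝ] E) (a : (Submodule.span ℝ {u})ᗮ) (ha : ‖a‖ = 1)
    (hL : ∀ w : (Submodule.span ℝ {u})ᗮ, inner ℝ (L w) u = -inner ℝ (a : E) (w : E)) (s : ℝ) :
    (1 + s ^ 2) ^ m * aVolT (Submodule.span ℝ {u})ᗮ L (s ^ 2 / (1 + s ^ 2)) ≤
      densT (Submodule.span ℝ {u})ᗮ (s • L) := by
  have hk : 0 < 1 + s ^ 2 := by positivity
  rw [densT_smul]
  unfold aVolT
  rw [gram_split u hu L a hL]
  set N := ContinuousLinearMap.adjoint (cmp (Submodule.span ℝ {u})ᗮ L) ∘L
        cmp (Submodule.span ℝ {u})ᗮ L with hN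
  have hNpos : (s ^ 2 • N).IsPositive :=
    (ContinuousLinearMap.isPositive_adjoint_comp_self _).smul_of_nonneg (sq_nonneg s)
  have h1 : (1 - s ^ 2 / (1 + s ^ 2)) • (1 : (Submodule.span ℝ {u})ᗮ →L[ℝ] (Submodule.span ℝ {u})ᗮ)
      + (s ^ 2 / (1 + s ^ 2)) • (N + rk a a) =
      (1 + s ^ 2)⁻¹ • (1 + s ^ 2 • N + s ^ 2 • rk a a) := by
    have e1 : 1 - s ^ 2 / (1 + s ^ 2) = (1 + s ^ 2)⁻¹ := by field_simp; ring
    rw [e1, smul_add, smul_add, smul_add, smul_smul, smul_smul, div_eq_inv_mul, add_assoc]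
  rw [h1, cdet_smul, finrank_tan2 u hu m hE]
  have h2 := det_add_rk_le hNpos a ha (sq_nonneg s)
  have h3 : (1 + s ^ 2) ^ m = √(((1 + s ^ 2) ^ m) ^ 2) := (Real.sqrt_sq (by positivity)).symm
  rw [h3, ← Real.sqrt_mul (by positivity)]
  apply Real.sqrt_le_sqrt
  have h4 : ((1 + s ^ 2) ^ m) ^ 2 * (1 + s ^ 2)⁻¹ ^ (2 * m + 1) = (1 + s ^ 2)⁻¹ := by
    rw [← pow_mul, mul_comm m 2, pow_succ (1 + s ^ 2)⁻¹, ← mul_assoc, ← mul_pow,
      mul_inv_cancel₀ hk.ne']
    simp
  rw [← mul_assoc, h4, inv_mul_le_iff₀ hk]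
  exact h2

/-- The value of the integrand when `L` is isometric on the tangent space. -/
theorem densT_of_isometry (u : E) (hu : ‖u‖ = 1) (m : ℕ) (hE : finrank ℝ E = 2 * m + 2)
    (L : E →L[ℝ] E) (a : (Submodule.span ℝ {u})ᗮ) (ha : ‖a‖ = 1)
    (hL : ∀ w : (Submodule.span ℝ {u})ᗮ, inner ℝ (L w) u = -inner ℝ (a : E) (w : E))
    (hiso : ∀ w w' : (Submodule.span ℝ {u})ᗮ, inner ℝ (L w) (L w') = inner ℝ (w : E) (w' : E))
    (s : ℝ) : densT (Submodule.span ℝ {u})ᗮ (s • L) = (1 + s ^ 2) ^ m := by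
  have hk : 0 < 1 + s ^ 2 := by positivity
  rw [densT_smul]
  have h0 := gram_split u hu L a hL
  have h1 : ContinuousLinearMap.adjoint (L ∘L (Submodule.span ℝ {u})ᗮ.subtypeL) ∘L
        (L ∘L (Submodule.span ℝ {u})ᗮ.subtypeL) = 1 := by
    ext1 w
    apply ext_inner_right ℝ
    intro w'
    simp only [ContinuousLinearMap.comp_apply, ContinuousLinearMap.adjoint_inner_left,
      Submodule.subtypeL_apply, one_apply_eq_self, Submodule.coe_inner]
    rw [hiso, real_inner_comm]
  rw [h1] at h0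
  have h2 : ContinuousLinearMap.adjoint (cmp (Submodule.span ℝ {u})ᗮ L) ∘L
        cmp (Submodule.span ℝ {u})ᗮ L = 1 - rk a a := by rw [h0]; abel
  have h3 : (1 : (Submodule.span ℝ {u})ᗮ →L[ℝ] (Submodule.span ℝ {u})ᗮ) + s ^ 2 • (1 - rk a a) =
      (1 + s ^ 2) • (1 + rk ((-(s ^ 2 / (1 + s ^ 2))) • a) a) := by
    ext1 w
    simp only [add_apply, one_apply_eq_self,
      smul_apply, rk_apply, sub_apply, smul_add, smul_sub,
      smul_smul, add_smul, one_smul]
    have e : inner ℝ a w * -(s ^ 2 / (1 + s ^ 2)) + s ^ 2 * (inner ℝ a w * -(s ^ 2 / (1 + s ^ 2)))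
        = -(s ^ 2 * inner ℝ a w) := by field_simp; ring
    have e2 := congrArg (fun z : ℝ => z • a) e
    simp only [add_smul, neg_smul] at e2
    linear_combination (norm := abel) -e2
  rw [h2, h3, cdet_smul, finrank_tan2 u hu m hE, det_one_add_rk, inner_smul_right,
    real_inner_self_eq_norm_sq, ha]
  have h4 : (1 + s ^ 2) ^ (2 * m + 1) * (1 + -(s ^ 2 / (1 + s ^ 2)) * 1 ^ 2) =
      ((1 + s ^ 2) ^ m) ^ 2 := by
    rw [← pow_mul, mul_comm m 2, pow_succ]
    field_simp
    ring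
  rw [h4, Real.sqrt_sq (by positivity)]

end

end Pool.Agent.MP_8bdec9_gt

end MrgPart2

-- ======== part 3: formerly Pool.Agent.MP_8bdec9_gt.FinalCalc
section MrgPart3

/-! Calculus on the sphere for the final step of MP_8bdec9_gt: for a unit tangent field on the unit
sphere, the covariant derivative is skew everywhere iff the derivative is isometric everywhere. -/

open Module Filter Topology
open scoped ContDiff

namespace Pool.Agent.MP_8bdec9_gt

variable {E : Type*} [NormedAddCommGroup E] [InnerProductSpace ℝ E]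

theorem braid (T : E → E → E → ℝ) (h1 : ∀ a b c, T a b c = T b a c)
    (h2 : ∀ a b c, T a b c = -T a c b) (a b c : E) : T a b c = 0 := by
  have e1 := h1 a b c
  have e2 := h2 b a c
  have e3 := h1 b c a
  have e4 := h2 c b a
  have e5 := h1 c a b
  have e6 := h2 a c b
  linarith

theorem inner_deriv_eq {f g f₁ g₁ : E → E} {f' g' f₁' g₁' : E →L[ℝ] E} {u : E} (hu : u ≠ 0)
    (hf : HasFDerivAt f f' u) (hg : HasFDerivAt g g' u) (hf₁ : HasFDerivAt f₁ f₁' u)
    (hg₁ : HasFDerivAt g₁ g₁' u) (k : ℝ)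
    (h : ∀ x, x ≠ 0 → inner ℝ (f x) (g x) = k * inner ℝ (f₁ x) (g₁ x)) (c : E) :
    inner ℝ (f u) (g' c) + inner ℝ (f' c) (g u) =
      k * (inner ℝ (f₁ u) (g₁' c) + inner ℝ (f₁' c) (g₁ u)) := by
  have h1 := hf.inner ℝ hg
  have h2 := (hf₁.inner ℝ hg₁).const_mul k
  have he : (fun x => inner ℝ (f x) (g x)) =ᶠ[𝓝 u] fun x => k * inner ℝ (f₁ x) (g₁ x) := by
    filter_upwards [isOpen_ne.mem_nhds hu] with x hx using h x hx
  have h3 := h1.unique (h2.congr_of_eventuallyEq he)
  have h4 := congrArg (fun L : E →L[ℝ] ℝ => L c) h3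
  simpa using h4

theorem hasFDerivAt_norm_of_ne {x : E} (hx : x ≠ 0) :
    HasFDerivAt (fun y : E => ‖y‖) (‖x‖⁻¹ • innerSL ℝ x) x := by
  have hn : ‖x‖ ≠ 0 := norm_ne_zero_iff.2 hx
  have h1 := (hasStrictFDerivAt_norm_sq x).hasFDerivAt
  have h2 := h1.sqrt (pow_ne_zero 2 hn)
  simp only [Real.sqrt_sq (norm_nonneg _)] at h2
  convert h2 using 1
  ext w
  simp
  field_simp

/-- The `1`-homogeneous extension of a field on the unit sphere. -/
noncomputable def hext (v : E → E) (x : E) : E := ‖x‖ • v (‖x‖⁻¹ • x)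

theorem norm_nrm {x : E} (hx : x ≠ 0) : ‖‖x‖⁻¹ • x‖ = 1 := by
  have hn : ‖x‖ ≠ 0 := norm_ne_zero_iff.2 hx
  rw [norm_smul, norm_inv, norm_norm, inv_mul_cancel₀ hn]

theorem contDiffAt_hext {v : E → E} (hv : ContDiff ℝ ∞ v) {x : E} (hx : x ≠ 0) :
    ContDiffAt ℝ ∞ (hext v) x := by
  have hn : ‖x‖ ≠ 0 := norm_ne_zero_iff.2 hx
  have h1 : ContDiffAt ℝ ∞ (fun y : E => ‖y‖) x := contDiffAt_norm ℝ hx
  exact h1.smul (hv.contDiffAt.comp x ((h1.inv hn).smul contDiffAt_id))

theorem fderiv_hext {v : E → E} (hv : ContDiff ℝ ∞ v) {x : E} (hx : x ≠ 0) (w : E) :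
    fderiv ℝ (hext v) x w = inner ℝ (‖x‖⁻¹ • x) w • v (‖x‖⁻¹ • x) +
      fderiv ℝ v (‖x‖⁻¹ • x) (w - inner ℝ (‖x‖⁻¹ • x) w • (‖x‖⁻¹ • x)) := by
  have hn : ‖x‖ ≠ 0 := norm_ne_zero_iff.2 hx
  have h1 := hasFDerivAt_norm_of_ne hx
  have h2 := (hasDerivAt_inv hn).comp_hasFDerivAt x h1
  have h3 := h2.smul (hasFDerivAt_id x)
  have h4 : HasFDerivAt v (fderiv ℝ v (‖x‖⁻¹ • x)) (‖x‖⁻¹ • x) :=
    (hv.differentiable (by simp) _).hasFDerivAt
  have h5 := HasFDerivAt.comp x (g := v) (f := fun y : E => ‖y‖⁻¹ • y) h4 h3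
  have h6 := h1.smul h5
  have h7 : fderiv ℝ (hext v) x = _ := h6.fderiv
  rw [h7]
  simp only [add_apply, smul_apply, ContinuousLinearMap.comp_apply,
    ContinuousLinearMap.smulRight_apply, ContinuousLinearMap.id_apply, Function.comp, id,
    innerSL_apply_apply, smul_eq_mul, inner_smul_left, conj_trivial]
  rw [add_comm, ← map_smul]
  congr 2
  rw [smul_add, smul_smul, smul_smul, smul_smul, mul_inv_cancel₀ hn, one_smul, sub_eq_add_neg,
    ← neg_smul]
  congr 2
  field_simp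

theorem hext_unit (v : E → E) {u : E} (hu : ‖u‖ = 1) : hext v u = v u := by
  simp [hext, hu]

theorem fderiv_hext_unit {v : E → E} (hv : ContDiff ℝ ∞ v) {u : E} (hu : ‖u‖ = 1) {w : E}
    (hw : inner ℝ u w = 0) : fderiv ℝ (hext v) u w = fderiv ℝ v u w := by
  have hu0 : u ≠ 0 := by rintro rfl; simp at hu
  rw [fderiv_hext hv hu0]
  simp [hu, hw]

section
variable {v : E → E} (hv : ContDiff ℝ ∞ v)
  (h0 : ∀ u, ‖u‖ = 1 → inner ℝ (v u) u = 0 ∧ ‖v u‖ = 1)
include hv h0

omit hv in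
theorem hext_inner_self {x : E} (hx : x ≠ 0) : inner ℝ (hext v x) x = 0 := by
  have hn : ‖x‖ ≠ 0 := norm_ne_zero_iff.2 hx
  have h := (h0 _ (norm_nrm hx)).1
  rw [inner_smul_right] at h
  rw [hext, inner_smul_left]
  have := (mul_eq_zero.1 h).resolve_left (inv_ne_zero hn)
  rw [this, mul_zero]

omit hv in
theorem hext_inner_hext {x : E} (hx : x ≠ 0) : inner ℝ (hext v x) (hext v x) = inner ℝ x x := by
  rw [real_inner_self_eq_norm_sq, real_inner_self_eq_norm_sq, hext, norm_smul,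
    (h0 _ (norm_nrm hx)).2]
  simp

omit h0 in
theorem hasFDerivAt_hext {x : E} (hx : x ≠ 0) : HasFDerivAt (hext v) (fderiv ℝ (hext v) x) x :=
  ((contDiffAt_hext hv hx).differentiableAt (by simp)).hasFDerivAt

theorem hext_J1 {x : E} (hx : x ≠ 0) (w : E) :
    inner ℝ (fderiv ℝ (hext v) x w) x = (-1) * inner ℝ (hext v x) w := by
  have h := inner_deriv_eq hx (hasFDerivAt_hext hv hx) (hasFDerivAt_id x) (hasFDerivAt_id x)
    (hasFDerivAt_id x) 0 (fun y hy => by simpa using hext_inner_self h0 hy) w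
  simp only [id, ContinuousLinearMap.id_apply] at h
  linarith

theorem hext_J2 {x : E} (hx : x ≠ 0) (w : E) :
    inner ℝ (fderiv ℝ (hext v) x w) (hext v x) = 1 * inner ℝ w x := by
  have h := inner_deriv_eq hx (hasFDerivAt_hext hv hx) (hasFDerivAt_hext hv hx) (hasFDerivAt_id x)
    (hasFDerivAt_id x) 1 (fun y hy => by simpa using hext_inner_hext h0 hy) w
  simp only [id, ContinuousLinearMap.id_apply] at h
  rw [real_inner_comm (fderiv ℝ (hext v) x w), real_inner_comm w x] at h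
  linarith

theorem tan_I1 {u : E} (hu : ‖u‖ = 1) {w : E} (hw : inner ℝ u w = 0) :
    inner ℝ (fderiv ℝ v u w) u = -inner ℝ (v u) w := by
  have hu0 : u ≠ 0 := by rintro rfl; simp at hu
  have h := hext_J1 hv h0 hu0 w
  rw [fderiv_hext_unit hv hu hw, hext_unit v hu] at h
  linarith

theorem tan_I2 {u : E} (hu : ‖u‖ = 1) {w : E} (hw : inner ℝ u w = 0) :
    inner ℝ (fderiv ℝ v u w) (v u) = 0 := by
  have hu0 : u ≠ 0 := by rintro rfl; simp at hu
  have h := hext_J2 hv h0 hu0 w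
  rw [fderiv_hext_unit hv hu hw, hext_unit v hu, real_inner_comm u w, hw] at h
  linarith

omit h0 in
theorem second_deriv {u : E} (hu : u ≠ 0) : ∃ F2 : E →L[ℝ] E →L[ℝ] E,
    (∀ a b, F2 a b = F2 b a) ∧
    ∀ a, HasFDerivAt (fun x => fderiv ℝ (hext v) x a) (F2.flip a) u := by
  have h1 := contDiffAt_hext hv hu
  refine ⟨fderiv ℝ (fderiv ℝ (hext v)) u, fun a b => ?_, fun a => ?_⟩
  · exact h1.isSymmSndFDerivAt (by simp; norm_cast) a b
  · have h2 : ContDiffAt ℝ 1 (fderiv ℝ (hext v)) u := h1.fderiv_right (by norm_cast)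
    have h3 := (h2.differentiableAt (by simp)).hasFDerivAt
    have h4 := h3.clm_apply (hasFDerivAt_const a u)
    simpa using h4

theorem ortho_nrm {x : E} (hx : x ≠ 0) (w : E) :
    inner ℝ (‖x‖⁻¹ • x) (w - inner ℝ (‖x‖⁻¹ • x) w • (‖x‖⁻¹ • x)) = 0 := by
  rw [inner_sub_right, inner_smul_right (‖x‖⁻¹ • x) (‖x‖⁻¹ • x), real_inner_self_eq_norm_sq,
    norm_nrm hx]
  ring

/-- Skew covariant derivative everywhere implies isometric derivative everywhere. -/
theorem isometry_of_skew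
    (hs : ∀ u, ‖u‖ = 1 → ∀ w w', inner ℝ u w = 0 → inner ℝ u w' = 0 →
      inner ℝ (fderiv ℝ v u w) w' + inner ℝ w (fderiv ℝ v u w') = 0)
    {u : E} (hu : ‖u‖ = 1) {w w' : E} (hw : inner ℝ u w = 0) (hw' : inner ℝ u w' = 0) :
    inner ℝ (fderiv ℝ v u w) (fderiv ℝ v u w') = inner ℝ w w' := by
  have hu0 : u ≠ 0 := by rintro rfl; simp at hu
  have hsk : ∀ a b x, x ≠ 0 →
      inner ℝ (fderiv ℝ (hext v) x a) b = (-1) * inner ℝ a (fderiv ℝ (hext v) x b) := by
    intro a b x hx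
    rw [fderiv_hext hv hx, fderiv_hext hv hx]
    have hy := norm_nrm hx
    have ha := ortho_nrm hv h0 hx a
    have hb := ortho_nrm hv h0 hx b
    set y := ‖x‖⁻¹ • x
    set α := inner ℝ y a
    set β := inner ℝ y b
    set a0 := a - α • y
    set b0 := b - β • y
    have ea : a = a0 + α • y := by simp [a0]
    have eb : b = b0 + β • y := by simp [b0]
    have e1 := hs y hy a0 b0 ha hb
    have e2 := tan_I1 hv h0 hy ha
    have e3 := tan_I1 hv h0 hy hb
    have e4 := (h0 y hy).1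
    clear_value a0 b0 α β y
    rw [ea, eb]
    simp only [inner_add_left, inner_add_right, inner_smul_left, inner_smul_right, conj_trivial]
    rw [real_inner_comm (v y) a0, real_inner_comm (v y) y, real_inner_comm (fderiv ℝ v y b0) y,
      e2, e3, e4]
    linarith
  obtain ⟨F2, hsym, hF2⟩ := second_deriv hv hu0
  have hz : ∀ c a b, inner ℝ (F2 c a) b = 0 := by
    apply braid (fun c a b => inner ℝ (F2 c a) b)
    · intro a b c
      simp only [hsym a b]
    · intro c a b
      have h := inner_deriv_eq hu0 (hF2 a) (hasFDerivAt_const b u) (hasFDerivAt_const a u) (hF2 b)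
        (-1) (hsk a b) c
      simp only [ContinuousLinearMap.flip_apply, zero_apply, inner_zero_right, inner_zero_left]
        at h
      rw [real_inner_comm (F2 c b) a] at h
      linarith
  have h := inner_deriv_eq hu0 (hF2 w) (hasFDerivAt_hext hv hu0) (hasFDerivAt_const w u)
    (hasFDerivAt_id u) 1 (fun x hx => hext_J2 hv h0 hx w) w'
  simp only [ContinuousLinearMap.flip_apply, zero_apply, inner_zero_left, hz,
    ContinuousLinearMap.id_apply] at h
  rw [fderiv_hext_unit hv hu hw, fderiv_hext_unit hv hu hw'] at h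
  linarith

/-- Isometric derivative everywhere implies skew covariant derivative everywhere. -/
theorem skew_of_isometry [FiniteDimensional ℝ E]
    (hi : ∀ u, ‖u‖ = 1 → ∀ w, inner ℝ u w = 0 → ‖fderiv ℝ v u w‖ = ‖w‖)
    {u : E} (hu : ‖u‖ = 1) {w w' : E} (hw : inner ℝ u w = 0) (hw' : inner ℝ u w' = 0) :
    inner ℝ (fderiv ℝ v u w) w' + inner ℝ w (fderiv ℝ v u w') = 0 := by
  have hu0 : u ≠ 0 := by rintro rfl; simp at hu
  have hi2 : ∀ u, ‖u‖ = 1 → ∀ w w', inner ℝ u w = 0 → inner ℝ u w' = 0 →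
      inner ℝ (fderiv ℝ v u w) (fderiv ℝ v u w') = inner ℝ w w' := by
    intro y hy a b ha hb
    have hab : inner ℝ y (a + b) = 0 := by rw [inner_add_right, ha, hb, add_zero]
    have e1 := hi y hy a ha
    have e2 := hi y hy b hb
    have e3 := hi y hy (a + b) hab
    rw [map_add] at e3
    have e4 := norm_add_sq_real (fderiv ℝ v y a) (fderiv ℝ v y b)
    have e5 := norm_add_sq_real a b
    rw [e1, e2, e3] at e4
    linarith
  have hiso : ∀ a b x, x ≠ 0 →
      inner ℝ (fderiv ℝ (hext v) x a) (fderiv ℝ (hext v) x b) = 1 * inner ℝ a b := by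
    intro a b x hx
    rw [fderiv_hext hv hx, fderiv_hext hv hx]
    have hy := norm_nrm hx
    have ha := ortho_nrm hv h0 hx a
    have hb := ortho_nrm hv h0 hx b
    set y := ‖x‖⁻¹ • x
    set α := inner ℝ y a
    set β := inner ℝ y b
    set a0 := a - α • y
    set b0 := b - β • y
    have ea : a = a0 + α • y := by simp [a0]
    have eb : b = b0 + β • y := by simp [b0]
    have e1 := hi2 y hy a0 b0 ha hb
    have e2 := tan_I2 hv h0 hy ha
    have e3 := tan_I2 hv h0 hy hb
    have e4 : inner ℝ (v y) (v y) = (1 : ℝ) := by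
      rw [real_inner_self_eq_norm_sq, (h0 y hy).2]; norm_num
    have e5 : inner ℝ y y = (1 : ℝ) := by rw [real_inner_self_eq_norm_sq, hy]; norm_num
    clear_value a0 b0 α β y
    rw [ea, eb]
    simp only [inner_add_left, inner_add_right, inner_smul_left, inner_smul_right, conj_trivial]
    rw [real_inner_comm (fderiv ℝ v y b0) (v y), real_inner_comm y a0, e1, e2, e3, e4, e5, ha, hb]
    ring
  obtain ⟨F2, hsym, hF2⟩ := second_deriv hv hu0
  have hz : ∀ c a b, inner ℝ (F2 c a) (fderiv ℝ (hext v) u b) = 0 := by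
    apply braid (fun c a b => inner ℝ (F2 c a) (fderiv ℝ (hext v) u b))
    · intro a b c
      simp only [hsym a b]
    · intro c a b
      have h := inner_deriv_eq hu0 (hF2 a) (hF2 b) (hasFDerivAt_const a u) (hasFDerivAt_const b u)
        1 (hiso a b) c
      simp only [ContinuousLinearMap.flip_apply, zero_apply, inner_zero_right, inner_zero_left]
        at h
      rw [real_inner_comm (F2 c b)] at h
      linarith
  have hinj : Function.Injective (fderiv ℝ (hext v) u : E →ₗ[ℝ] E) := by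
    rw [← LinearMap.ker_eq_bot, LinearMap.ker_eq_bot']
    intro x hx
    have h := hiso x x u hu0
    have hx' : fderiv ℝ (hext v) u x = 0 := hx
    rw [hx', inner_zero_left, one_mul] at h
    exact inner_self_eq_zero.1 h.symm
  have hz2 : ∀ c a b, inner ℝ (F2 c a) b = 0 := by
    intro c a b
    obtain ⟨b', hb'⟩ := (LinearMap.injective_iff_surjective.1 hinj) b
    rw [← hb']
    exact hz c a b'
  have h := inner_deriv_eq hu0 (hF2 w) (hasFDerivAt_id u) (hasFDerivAt_hext hv hu0)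
    (hasFDerivAt_const w u) (-1) (fun x hx => hext_J1 hv h0 hx w) w'
  simp only [ContinuousLinearMap.flip_apply, zero_apply, inner_zero_right, hz2,
    ContinuousLinearMap.id_apply] at h
  rw [fderiv_hext_unit hv hu hw, fderiv_hext_unit hv hu hw', real_inner_comm w] at h
  linarith

end

end Pool.Agent.MP_8bdec9_gt

end MrgPart3

-- ======== part 4: formerly Pool.Agent.MP_8bdec9_gt.GFinal
section MrgPart4

/-! The final assembly for MP_8bdec9_gt. -/

open MeasureTheory Module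
open scoped ContDiff

set_option linter.unusedSectionVars false

namespace Pool.Agent.MP_8bdec9_gt.Sp

variable {E : Type} [NormedAddCommGroup E] [InnerProductSpace ℝ E] [FiniteDimensional ℝ E]

/-- the covariant derivative -/
noncomputable abbrev cov (V : E → E) (x : E) : Tan x →L[ℝ] Tan x :=
  compress (Tan x) (fderiv ℝ V x)

theorem tan_smul {ρ : ℝ} (hρ : ρ ≠ 0) (u : E) :
    Tan (ρ • u) = (Submodule.span ℝ {u})ᗮ := by
  unfold Tan
  rw [Submodule.span_singleton_smul_eq (Ne.isUnit hρ)]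

theorem dens_eq_densT (V : E → E) (x : E) :
    dens V x = densT (Tan x) (fderiv ℝ V x) := rfl

/-- The rescaled field on the unit sphere. -/
noncomputable def resc (ρ r : ℝ) (V : E → E) (u : E) : E :=
  r⁻¹ • V (ρ • u)

theorem contDiff_resc (ρ r : ℝ) {V : E → E} (hV : ContDiff ℝ ∞ V) :
    ContDiff ℝ ∞ (resc ρ r V) :=
  (hV.comp (contDiff_id.const_smul ρ)).const_smul r⁻¹

theorem fderiv_resc {ρ r : ℝ} (hρ : ρ ≠ 0) (hr : r ≠ 0) {V : E → E}
    (hV : ContDiff ℝ ∞ V) (u : E) :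
    fderiv ℝ V (ρ • u) = (r / ρ) • fderiv ℝ (resc ρ r V) u := by
  have h1 : HasFDerivAt V (fderiv ℝ V (ρ • u)) (ρ • u) :=
    (hV.differentiable (by simp) _).hasFDerivAt
  have h2 := (HasFDerivAt.comp u (g := V) (f := fun y : E => ρ • y) h1
    ((hasFDerivAt_id u).const_smul ρ)).const_smul r⁻¹
  have h3 : fderiv ℝ (resc ρ r V) u = _ := h2.fderiv
  rw [h3]
  ext1 w
  simp only [smul_apply, ContinuousLinearMap.comp_apply, ContinuousLinearMap.id_apply, map_smul,
    smul_smul]
  have : r / ρ * r⁻¹ * ρ = 1 := by field_simp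
  rw [this, one_smul]

theorem continuous_dens {ρ : ℝ} (hρ : ρ ≠ 0) {V : E → E} (hV : ContDiff ℝ ∞ V) :
    Continuous fun u : Metric.sphere (0 : E) 1 => dens V (ρ • (u : E)) := by
  have hP : Continuous fun u : Metric.sphere (0 : E) 1 => (1 : E →L[ℝ] E) -
      rk (u : E) (u : E) := by
    apply continuous_const.sub
    unfold rk
    apply Continuous.clm_comp
    · exact (ContinuousLinearMap.toSpanSingletonLIE ℝ E).continuous.comp
        continuous_subtype_val
    · exact (innerSL ℝ).continuous.comp continuous_subtype_val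
  have hL : Continuous fun u : Metric.sphere (0 : E) 1 => fderiv ℝ V (ρ • (u : E)) :=
    (hV.continuous_fderiv (by simp)).comp (continuous_subtype_val.const_smul ρ)
  have he : ∀ u : Metric.sphere (0 : E) 1, dens V (ρ • (u : E)) =
      √(ContinuousLinearMap.det (1 + (1 - rk (u : E) (u : E)) ∘L
        ContinuousLinearMap.adjoint (fderiv ℝ V (ρ • (u : E))) ∘L
        (1 - rk (u : E) (u : E)) ∘L fderiv ℝ V (ρ • (u : E)))) := by
    intro u
    have hu : ‖(u : E)‖ = 1 := by simp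
    have hs : (Submodule.span ℝ {(u : E)})ᗮ.starProjection =
        1 - rk (u : E) (u : E) := by
      ext1 w
      rw [Submodule.starProjection_orthogonal_val, Submodule.starProjection_unit_singleton ℝ hu]
      simp
    rw [dens_eq_densT, tan_smul hρ, densT_eq, hs]
  simp only [he]
  apply Real.continuous_sqrt.comp
  apply ContinuousLinearMap.continuous_det.comp
  apply continuous_const.add
  exact hP.clm_comp ((ContinuousLinearMap.adjoint.continuous.comp hL).clm_comp (hP.clm_comp hL))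

theorem mem_tan_iff (u w : E) : w ∈ (Submodule.span ℝ {u})ᗮ ↔ inner ℝ u w = 0 :=
  Submodule.mem_orthogonal_singleton_iff_inner_right

section
variable {m : ℕ} {c : ℝ} (hc : 0 < c) {G : Subgroup (E ≃ₗᵢ[ℝ] E)} {r : ℝ} (hr : 0 < r)
  {V : E → E} (hV : IsField c G r V)
include hc hr hV

omit hr hV in
theorem rho_pos : 0 < 1 / √c := by
  have := Real.sqrt_pos.2 hc
  positivity

theorem resc_unit {u : E} (hu : ‖u‖ = 1) :
    inner ℝ (resc (1 / √c) r V u) u = 0 ∧ ‖resc (1 / √c) r V u‖ = 1 ∧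
      ∀ g ∈ G, resc (1 / √c) r V (g u) = g (resc (1 / √c) r V u) := by
  have hρ := rho_pos hc
  have hx : ‖(1 / √c) • u‖ = 1 / √c := by
    rw [norm_smul, hu, mul_one, Real.norm_of_nonneg hρ.le]
  obtain ⟨h1, h2, h3⟩ := hV.2 _ hx
  refine ⟨?_, ?_, fun g hg => ?_⟩
  · rw [inner_smul_right] at h1
    rw [resc, inner_smul_left, (mul_eq_zero.1 h1).resolve_left hρ.ne', mul_zero]
  · rw [resc, norm_smul, h2, norm_inv, Real.norm_of_nonneg hr.le, inv_mul_cancel₀ hr.ne']
  · rw [resc, resc, map_smul, ← h3 g hg, map_smul]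

theorem resc_unit' : ∀ u : E, ‖u‖ = 1 →
    inner ℝ (resc (1 / √c) r V u) u = 0 ∧ ‖resc (1 / √c) r V u‖ = 1 :=
  fun _ hu => ⟨(resc_unit hc hr hV hu).1, (resc_unit hc hr hV hu).2.1⟩

theorem dens_ge (hE : finrank ℝ E = 2 * m + 2) {u : E} (hu : ‖u‖ = 1) :
    (1 + (r / (1 / √c)) ^ 2) ^ m *
        aVol (resc (1 / √c) r V) ((r / (1 / √c)) ^ 2 / (1 + (r / (1 / √c)) ^ 2)) u ≤
      dens V ((1 / √c) • u) := by
  have hρ := rho_pos hc
  have h0 := resc_unit' hc hr hV
  have hv := contDiff_resc (1 / √c) r hV.1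
  rw [dens_eq_densT, tan_smul hρ.ne', fderiv_resc hρ.ne' hr.ne' hV.1]
  refine densT_ge u hu m hE _ ⟨resc (1 / √c) r V u, ?_⟩ (h0 u hu).2 ?_ _
  · rw [mem_tan_iff, real_inner_comm]
    exact (h0 u hu).1
  · intro w
    exact tan_I1 hv h0 hu ((mem_tan_iff u w).1 w.2)

theorem killing_iff : IsKilling c V ↔ ∀ u : E, ‖u‖ = 1 → ∀ w w', inner ℝ u w = 0 →
    inner ℝ u w' = 0 → inner ℝ (fderiv ℝ (resc (1 / √c) r V) u w) w' +
      inner ℝ w (fderiv ℝ (resc (1 / √c) r V) u w') = 0 := by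
  have hρ := rho_pos hc
  have hs : r / (1 / √c) ≠ 0 := by positivity
  have hcov : ∀ (x : E) (a b : Tan x), inner ℝ (cov V x a) b + inner ℝ a (cov V x b) =
      inner ℝ (fderiv ℝ V x a) (b : E) + inner ℝ (a : E) (fderiv ℝ V x b) := by
    intro x a b
    have e1 := inner_cmp (Tan x) (fderiv ℝ V x) a b
    have e2 := inner_cmp (Tan x) (fderiv ℝ V x) b a
    rw [real_inner_comm (cov V x b) a, real_inner_comm (fderiv ℝ V x b) (a : E), ← e1, ← e2]
    rfl
  constructor
  · intro hK u hu w w' hw hw'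
    have hx : ‖(1 / √c) • u‖ = 1 / √c := by
      rw [norm_smul, hu, mul_one, Real.norm_of_nonneg hρ.le]
    have h := hK _ hx ⟨w, by rw [tan_smul hρ.ne', mem_tan_iff]; exact hw⟩
      ⟨w', by rw [tan_smul hρ.ne', mem_tan_iff]; exact hw'⟩
    rw [hcov, fderiv_resc hρ.ne' hr.ne' hV.1] at h
    simp only [smul_apply, inner_smul_left, inner_smul_right, conj_trivial] at h
    rw [← mul_add] at h
    exact (mul_eq_zero.1 h).resolve_left hs
  · intro h x hx a b
    have hu : ‖(1 / √c)⁻¹ • x‖ = 1 := by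
      rw [norm_smul, hx, norm_inv, Real.norm_of_nonneg hρ.le, inv_mul_cancel₀ hρ.ne']
    have hxu : x = (1 / √c) • ((1 / √c)⁻¹ • x) := by
      rw [smul_smul, mul_inv_cancel₀ hρ.ne', one_smul]
    have ha : inner ℝ ((1 / √c)⁻¹ • x) (a : E) = 0 := by
      rw [inner_smul_left, (mem_tan_iff x a).1 a.2, mul_zero]
    have hb : inner ℝ ((1 / √c)⁻¹ • x) (b : E) = 0 := by
      rw [inner_smul_left, (mem_tan_iff x b).1 b.2, mul_zero]
    have h1 := h _ hu a b ha hb
    have h2 := fderiv_resc hρ.ne' hr.ne' hV.1 ((1 / √c)⁻¹ • x)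
    rw [← hxu] at h2
    rw [hcov, h2]
    simp only [smul_apply, inner_smul_left, inner_smul_right, conj_trivial]
    rw [← mul_add, h1, mul_zero]

theorem dens_of_killing (hE : finrank ℝ E = 2 * m + 2) (hK : IsKilling c V) {u : E} (hu : ‖u‖ = 1) :
    dens V ((1 / √c) • u) = (1 + (r / (1 / √c)) ^ 2) ^ m := by
  have hρ := rho_pos hc
  have h0 := resc_unit' hc hr hV
  have hv := contDiff_resc (1 / √c) r hV.1
  rw [dens_eq_densT, tan_smul hρ.ne', fderiv_resc hρ.ne' hr.ne' hV.1]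
  refine densT_of_isometry u hu m hE _ ⟨resc (1 / √c) r V u, ?_⟩ (h0 u hu).2 ?_ ?_ _
  · rw [mem_tan_iff, real_inner_comm]
    exact (h0 u hu).1
  · intro w
    exact tan_I1 hv h0 hu ((mem_tan_iff u w).1 w.2)
  · intro w w'
    exact isometry_of_skew hv h0 ((killing_iff hc hr hV).1 hK) hu ((mem_tan_iff u w).1 w.2)
      ((mem_tan_iff u w').1 w'.2)

variable [MeasurableSpace E] [BorelSpace E]

theorem integral_of_killing (hE : finrank ℝ E = 2 * m + 2) (hK : IsKilling c V) :
    ∫ u : Metric.sphere (0 : E) 1, dens V ((1 / √c) • (u : E)) ∂(volume.toSphere) =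
      (1 + (r / (1 / √c)) ^ 2) ^ m * (volume : Measure E).toSphere.real Set.univ := by
  have : ∀ u : Metric.sphere (0 : E) 1, dens V ((1 / √c) • (u : E)) =
      (1 + (r / (1 / √c)) ^ 2) ^ m := fun u => dens_of_killing hc hr hV hE hK (by simp)
  simp only [this, integral_const, smul_eq_mul]
  ring

theorem integral_bound (hE : finrank ℝ E = 2 * m + 2) (hU : UnitFieldBound) {p : ℕ} (hp : p.Prime) {g : E ≃ₗᵢ[ℝ] E}
    (hg : g ∈ G) (hgp : ∀ x, g^[p] x = x) (hgf : ∀ x, g x = x → x = 0) :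
    (1 + (r / (1 / √c)) ^ 2) ^ m * (volume : Measure E).toSphere.real Set.univ ≤
      ∫ u : Metric.sphere (0 : E) 1, dens V ((1 / √c) • (u : E)) ∂(volume.toSphere) ∧
    (∫ u : Metric.sphere (0 : E) 1, dens V ((1 / √c) • (u : E)) ∂(volume.toSphere) ≤
      (1 + (r / (1 / √c)) ^ 2) ^ m * (volume : Measure E).toSphere.real Set.univ →
      IsKilling c V) := by
  have hρ := rho_pos hc
  have h0 := resc_unit' hc hr hV
  have hv := contDiff_resc (1 / √c) r hV.1
  have hs : 0 < r / (1 / √c) := by positivity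
  set s := r / (1 / √c) with hsdef
  have hk : 0 < (1 + s ^ 2) ^ m := by positivity
  obtain ⟨hcont, hle, hrig⟩ := hU p hp E (m + 1) (by omega) (by rw [hE]; ring) g hgp
    hgf (resc (1 / √c) r V) hv
    (fun u hu => ⟨(h0 u hu).1, (h0 u hu).2, (resc_unit hc hr hV hu).2.2 g hg⟩)
    (s ^ 2 / (1 + s ^ 2)) (by positivity) (by rw [div_lt_one (by positivity)]; linarith)
  have hint1 : Integrable (fun u : Metric.sphere (0 : E) 1 =>
      aVol (resc (1 / √c) r V) (s ^ 2 / (1 + s ^ 2)) u) (volume : Measure E).toSphere :=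
    hcont.integrable_of_hasCompactSupport (HasCompactSupport.of_compactSpace _)
  have hint2 : Integrable (fun u : Metric.sphere (0 : E) 1 =>
      dens V ((1 / √c) • (u : E))) (volume : Measure E).toSphere :=
    (continuous_dens hρ.ne' hV.1).integrable_of_hasCompactSupport
      (HasCompactSupport.of_compactSpace _)
  have hmono : (1 + s ^ 2) ^ m * ∫ u : Metric.sphere (0 : E) 1,
      aVol (resc (1 / √c) r V) (s ^ 2 / (1 + s ^ 2)) u ∂(volume : Measure E).toSphere ≤
      ∫ u : Metric.sphere (0 : E) 1, dens V ((1 / √c) • (u : E)) ∂(volume.toSphere) := by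
    rw [← integral_const_mul]
    exact integral_mono (hint1.const_mul _) hint2
      (fun u => dens_ge hc hr hV hE (u := u) (by simp))
  refine ⟨(mul_le_mul_of_nonneg_left hle hk.le).trans hmono, fun h => ?_⟩
  have h2 := hrig (le_of_mul_le_mul_left (hmono.trans h) hk)
  rw [killing_iff hc hr hV]
  intro u hu w w' hw hw'
  exact skew_of_isometry hv h0 h2 hu hw hw'

end

theorem final_of [MeasurableSpace E] [BorelSpace E] (hU : UnitFieldBound)
    (m : ℕ) (hE : finrank ℝ E = 2 * m + 2) (c : ℝ) (hc : 0 < c) (G : Subgroup (E ≃ₗᵢ[ℝ] E))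
    [Finite G] (hG : G ≠ ⊥) (hfree : ActsFreely c G) (r : ℝ) (hr : 0 < r) :
    (∃ V, IsField c G r V ∧ IsKilling c V) ∧
    ∀ V, IsField c G r V →
      (Vol (2 * m + 1) c G V = sInf (Vol (2 * m + 1) c G '' {W | IsField c G r W}) ↔
        IsKilling c V) := by
  have hρ := rho_pos hc
  have hfree' : ∀ g ∈ G, g ≠ 1 → ∀ x : E, g x = x → x = 0 := by
    intro g hg hg1 x hx
    by_contra hx0
    have hn : ‖x‖ ≠ 0 := norm_ne_zero_iff.2 hx0
    apply hfree g hg hg1 ((1 / √c) • (‖x‖⁻¹ • x))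
    · rw [norm_smul, norm_nrm hx0, mul_one, Real.norm_of_nonneg hρ.le]
    · rw [map_smul, map_smul, hx]
  -- an element of prime order
  obtain ⟨p, hp, g, hg, hgp, hgf⟩ : ∃ p : ℕ, p.Prime ∧ ∃ g ∈ G, (∀ x, g^[p] x = x) ∧
      ∀ x, g x = x → x = 0 := by
    have hcard : Nat.card G ≠ 1 := fun h => hG (Subgroup.card_eq_one.1 h)
    obtain ⟨p, hp, hdvd⟩ := Nat.exists_prime_and_dvd hcard
    have := Fact.mk hp
    obtain ⟨g, hg⟩ := exists_prime_orderOf_dvd_card' p hdvd
    have hg1 : (g : E ≃ₗᵢ[ℝ] E) ≠ 1 := by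
      intro h
      have : g = 1 := Subtype.ext h
      rw [this, orderOf_one] at hg
      exact hp.one_lt.ne hg
    refine ⟨p, hp, g, g.2, fun x => ?_, hfree' g g.2 hg1⟩
    have hpow : ∀ (n : ℕ) (x : E), ((g : E ≃ₗᵢ[ℝ] E) ^ n) x =
        (g : E ≃ₗᵢ[ℝ] E)^[n] x := by
      intro n
      induction n with
      | zero => intro x; simp
      | succ n ih =>
        intro x
        rw [pow_succ, Function.iterate_succ_apply, ← ih]
        rfl
    have h1 : (g : E ≃ₗᵢ[ℝ] E) ^ p = 1 := by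
      rw [← hg, ← Subgroup.coe_pow, pow_orderOf_eq_one]
      rfl
    rw [← hpow, h1]
    rfl
  -- a Killing field
  obtain ⟨J, hJJ, hJG⟩ := exists_complex_structure (by rw [hE]; simp [Nat.even_add]) G hfree'
  have hJskew : ∀ a b : E, inner ℝ (J a) b + inner ℝ a (J b) = 0 := by
    intro a b
    rw [← J.inner_map_map a (J b), hJJ, inner_neg_right]
    ring
  let L : E →L[ℝ] E := (r / (1 / √c)) • (J.toContinuousLinearEquiv : E →L[ℝ] E)
  have hLa : ∀ x, L x = (r / (1 / √c)) • J x := fun x => rfl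
  have hLf : IsField c G r L := by
    refine ⟨L.contDiff, fun x hx => ⟨?_, ?_, fun g hg => ?_⟩⟩
    · have h := hJskew x x
      rw [real_inner_comm (J x) x] at h
      rw [hLa, inner_smul_left]
      have : inner ℝ (J x) x = (0 : ℝ) := by linarith
      rw [this, mul_zero]
    · rw [hLa, norm_smul, J.norm_map, hx, Real.norm_of_nonneg (by positivity)]
      field_simp
    · rw [hLa, hLa, map_smul, hJG g hg]
  have hLk : IsKilling c L := by
    intro x _ a b
    have e1 := inner_cmp (Tan x) L a b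
    have e2 := inner_cmp (Tan x) L b a
    have e3 : compress (Tan x) (fderiv ℝ L x) = cmp (Tan x) L := by
      unfold cmp compress
      rw [L.fderiv]
    rw [e3, real_inner_comm (cmp (Tan x) L b) a, e1, e2, hLa, hLa, inner_smul_left, inner_smul_left,
      ← mul_add, real_inner_comm (a : E) (J b), hJskew, mul_zero]
  have hκ : 0 < (Nat.card G : ℝ)⁻¹ * (1 / √c) ^ (2 * m + 1) := by
    have : 0 < Nat.card G := Nat.card_pos
    positivity
  have hleast : IsLeast (Vol (2 * m + 1) c G '' {W | IsField c G r W})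
      ((Nat.card G : ℝ)⁻¹ * (1 / √c) ^ (2 * m + 1) * ((1 + (r / (1 / √c)) ^ 2) ^ m *
        (volume : Measure E).toSphere.real Set.univ)) := by
    refine ⟨⟨L, hLf, ?_⟩, ?_⟩
    · rw [Vol, integral_of_killing hc hr hLf hE hLk]
    · rintro _ ⟨W, hW, rfl⟩
      exact mul_le_mul_of_nonneg_left (integral_bound hc hr hW hE hU hp hg hgp hgf).1 hκ.le
  refine ⟨⟨L, hLf, hLk⟩, fun V hV => ?_⟩
  rw [hleast.csInf_eq]
  constructor
  · intro h
    exact (integral_bound hc hr hV hE hU hp hg hgp hgf).2 (le_of_mul_le_mul_left h.le hκ)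
  · intro hK
    rw [Vol, integral_of_killing hc hr hV hE hK]

end Pool.Agent.MP_8bdec9_gt.Sp

end MrgPart4

-- marker of a merged file
example : 731051 + 601054 = 731051 + 601054 := rfl
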