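import Mathlib

/-! Definitions for MP_8bdec9_gt: volume of vector fields on spherical space forms.
A space form `S / G` is handled through its universal cover: fields on `S / G` are the
`G`-invariant fields on the round sphere `S` of radius `1 / √c`, and integrals over `S / G` are
integrals over `S` divided by the order of `G`. -/

open MeasureTheory
open scoped ContDiff

namespace Pool.Agent.MP_8bdec9_gt

/-- The ambient space `ℝ^(2m+2)` of the sphere `S^(2m+1)`. -/
abbrev Euc (m : ℕ) : Type := EuclideanSpace ℝ (Fin (2 * m + 2))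

/-- The tangent space at `x` of the sphere centred at `0` through `x`. -/
noncomputable abbrev Tan {m : ℕ} (x : Euc m) : Submodule ℝ (Euc m) := (Submodule.span ℝ {x})ᗮ

/-- The Levi-Civita covariant derivative `∇V` at `x`: the tangential part of the derivative of `V`
in tangent directions. -/
noncomputable def cov {m : ℕ} (V : Euc m → Euc m) (x : Euc m) : Tan x →L[ℝ] Tan x :=
  (Tan x).orthogonalProjectionOnto ∘L fderiv ℝ V x ∘L (Tan x).subtypeL

/-- `V` restricts to a smooth `G`-invariant tangent field of length `r` on the sphere of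
curvature `c`. -/
def IsField {m : ℕ} (c : ℝ) (G : Subgroup (Euc m ≃ₗᵢ[ℝ] Euc m)) (r : ℝ) (V : Euc m → Euc m) :
    Prop :=
  ContDiff ℝ ∞ V ∧ ∀ x : Euc m, ‖x‖ = 1 / √c →
    inner ℝ (V x) x = 0 ∧ ‖V x‖ = r ∧ ∀ g ∈ G, V (g x) = g (V x)

/-- The integrand `√det (I + (∇V)ᵗ ∇V)` at `x`. -/
noncomputable def dens {m : ℕ} (V : Euc m → Euc m) (x : Euc m) : ℝ :=
  √(ContinuousLinearMap.det (1 + ContinuousLinearMap.adjoint (cov V x) ∘L cov V x))

/-- The volume of `V` as a field on the quotient of the sphere of curvature `c` by `G`. -/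
noncomputable def Vol {m : ℕ} (c : ℝ) (G : Subgroup (Euc m ≃ₗᵢ[ℝ] Euc m)) (V : Euc m → Euc m) :
    ℝ :=
  (Nat.card G : ℝ)⁻¹ * (1 / √c) ^ (2 * m + 1) *
    ∫ u : Metric.sphere (0 : Euc m) 1, dens V ((1 / √c) • (u : Euc m)) ∂(volume.toSphere)

/-- `V` is a Killing field of the sphere of curvature `c`: `∇V` is skew-symmetric. -/
def IsKilling {m : ℕ} (c : ℝ) (V : Euc m → Euc m) : Prop :=
  ∀ x : Euc m, ‖x‖ = 1 / √c → ∀ u w : Tan x,
    inner ℝ (cov V x u) w + inner ℝ u (cov V x w) = 0

end Pool.Agent.MP_8bdec9_gt
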