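import Pool.Agent.MP_8bdec9_gt.Defs
import Pool.Agent.MP_8bdec9_gt.Stmts
import Pool.Agent.MP_8bdec9_gt.FinalLin
import Pool.Agent.MP_8bdec9_gt.FinalCalc

/-! The final assembly for MP_8bdec9_gt. -/

open MeasureTheory Module
open scoped ContDiff

namespace Pool.Agent.MP_8bdec9_gt

theorem finrank_euc (m : ℕ) : finrank ℝ (Euc m) = 2 * m + 2 := by simp

theorem tan_smul {m : ℕ} {ρ : ℝ} (hρ : ρ ≠ 0) (u : Euc m) :
    Tan (ρ • u) = (Submodule.span ℝ {u})ᗮ := by
  unfold Tan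
  rw [Submodule.span_singleton_smul_eq (Ne.isUnit hρ)]

theorem dens_eq_densT {m : ℕ} (V : Euc m → Euc m) (x : Euc m) :
    dens V x = densT (Tan x) (fderiv ℝ V x) := rfl

/-- The rescaled field on the unit sphere. -/
noncomputable def resc {m : ℕ} (ρ r : ℝ) (V : Euc m → Euc m) (u : Euc m) : Euc m :=
  r⁻¹ • V (ρ • u)

theorem contDiff_resc {m : ℕ} (ρ r : ℝ) {V : Euc m → Euc m} (hV : ContDiff ℝ ∞ V) :
    ContDiff ℝ ∞ (resc ρ r V) :=
  (hV.comp (contDiff_id.const_smul ρ)).const_smul r⁻¹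

theorem fderiv_resc {m : ℕ} {ρ r : ℝ} (hρ : ρ ≠ 0) (hr : r ≠ 0) {V : Euc m → Euc m}
    (hV : ContDiff ℝ ∞ V) (u : Euc m) :
    fderiv ℝ V (ρ • u) = (r / ρ) • fderiv ℝ (resc ρ r V) u := by
  have h1 : HasFDerivAt V (fderiv ℝ V (ρ • u)) (ρ • u) :=
    (hV.differentiable (by simp) _).hasFDerivAt
  have h2 := (HasFDerivAt.comp u (g := V) (f := fun y : Euc m => ρ • y) h1
    ((hasFDerivAt_id u).const_smul ρ)).const_smul r⁻¹
  have h3 : fderiv ℝ (resc ρ r V) u = _ := h2.fderiv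
  rw [h3]
  ext1 w
  simp only [smul_apply, ContinuousLinearMap.comp_apply, ContinuousLinearMap.id_apply, map_smul,
    smul_smul]
  have : r / ρ * r⁻¹ * ρ = 1 := by field_simp
  rw [this, one_smul]

theorem continuous_dens {m : ℕ} {ρ : ℝ} (hρ : ρ ≠ 0) {V : Euc m → Euc m} (hV : ContDiff ℝ ∞ V) :
    Continuous fun u : Metric.sphere (0 : Euc m) 1 => dens V (ρ • (u : Euc m)) := by
  have hP : Continuous fun u : Metric.sphere (0 : Euc m) 1 => (1 : Euc m →L[ℝ] Euc m) -
      rk (u : Euc m) (u : Euc m) := by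
    apply continuous_const.sub
    unfold rk
    apply Continuous.clm_comp
    · exact (ContinuousLinearMap.toSpanSingletonLIE ℝ (Euc m)).continuous.comp
        continuous_subtype_val
    · exact (innerSL ℝ).continuous.comp continuous_subtype_val
  have hL : Continuous fun u : Metric.sphere (0 : Euc m) 1 => fderiv ℝ V (ρ • (u : Euc m)) :=
    (hV.continuous_fderiv (by simp)).comp (continuous_subtype_val.const_smul ρ)
  have he : ∀ u : Metric.sphere (0 : Euc m) 1, dens V (ρ • (u : Euc m)) =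
      √(ContinuousLinearMap.det (1 + (1 - rk (u : Euc m) (u : Euc m)) ∘L
        ContinuousLinearMap.adjoint (fderiv ℝ V (ρ • (u : Euc m))) ∘L
        (1 - rk (u : Euc m) (u : Euc m)) ∘L fderiv ℝ V (ρ • (u : Euc m)))) := by
    intro u
    have hu : ‖(u : Euc m)‖ = 1 := by simp
    have hs : (Submodule.span ℝ {(u : Euc m)})ᗮ.starProjection =
        1 - rk (u : Euc m) (u : Euc m) := by
      ext1 w
      rw [Submodule.starProjection_orthogonal_val, Submodule.starProjection_unit_singleton ℝ hu]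
      simp
    rw [dens_eq_densT, tan_smul hρ, densT_eq, hs]
  simp only [he]
  apply Real.continuous_sqrt.comp
  apply ContinuousLinearMap.continuous_det.comp
  apply continuous_const.add
  exact hP.clm_comp ((ContinuousLinearMap.adjoint.continuous.comp hL).clm_comp (hP.clm_comp hL))

theorem mem_tan_iff {m : ℕ} (u w : Euc m) : w ∈ (Submodule.span ℝ {u})ᗮ ↔ inner ℝ u w = 0 :=
  Submodule.mem_orthogonal_singleton_iff_inner_right

section
variable {m : ℕ} {c : ℝ} (hc : 0 < c) {G : Subgroup (Euc m ≃ₗᵢ[ℝ] Euc m)} {r : ℝ} (hr : 0 < r)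
  {V : Euc m → Euc m} (hV : IsField c G r V)
include hc hr hV

omit hr hV in
theorem rho_pos : 0 < 1 / √c := by
  have := Real.sqrt_pos.2 hc
  positivity

theorem resc_unit {u : Euc m} (hu : ‖u‖ = 1) :
    inner ℝ (resc (1 / √c) r V u) u = 0 ∧ ‖resc (1 / √c) r V u‖ = 1 ∧
      ∀ g ∈ G, resc (1 / √c) r V (g u) = g (resc (1 / √c) r V u) := by
  have hρ := rho_pos hc
  have hx : ‖(1 / √c) • u‖ = 1 / √c := by
    rw [norm_smul, hu, mul_one, Real.norm_of_nonneg hρ.le]
  obtain ⟨h1, h2, h3⟩ := hV.2 _ hx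
  refine ⟨?_, ?_, fun g hg => ?_⟩
  · rw [inner_smul_right] at h1
    rw [resc, inner_smul_left, (mul_eq_zero.1 h1).resolve_left hρ.ne', mul_zero]
  · rw [resc, norm_smul, h2, norm_inv, Real.norm_of_nonneg hr.le, inv_mul_cancel₀ hr.ne']
  · rw [resc, resc, map_smul, ← h3 g hg, map_smul]

theorem resc_unit' : ∀ u : Euc m, ‖u‖ = 1 →
    inner ℝ (resc (1 / √c) r V u) u = 0 ∧ ‖resc (1 / √c) r V u‖ = 1 :=
  fun _ hu => ⟨(resc_unit hc hr hV hu).1, (resc_unit hc hr hV hu).2.1⟩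

theorem dens_ge {u : Euc m} (hu : ‖u‖ = 1) :
    (1 + (r / (1 / √c)) ^ 2) ^ m *
        aVol (resc (1 / √c) r V) ((r / (1 / √c)) ^ 2 / (1 + (r / (1 / √c)) ^ 2)) u ≤
      dens V ((1 / √c) • u) := by
  have hρ := rho_pos hc
  have h0 := resc_unit' hc hr hV
  have hv := contDiff_resc (1 / √c) r hV.1
  rw [dens_eq_densT, tan_smul hρ.ne', fderiv_resc hρ.ne' hr.ne' hV.1]
  refine densT_ge u hu m (finrank_euc m) _ ⟨resc (1 / √c) r V u, ?_⟩ (h0 u hu).2 ?_ _
  · rw [mem_tan_iff, real_inner_comm]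
    exact (h0 u hu).1
  · intro w
    exact tan_I1 hv h0 hu ((mem_tan_iff u w).1 w.2)

theorem killing_iff : IsKilling c V ↔ ∀ u : Euc m, ‖u‖ = 1 → ∀ w w', inner ℝ u w = 0 →
    inner ℝ u w' = 0 → inner ℝ (fderiv ℝ (resc (1 / √c) r V) u w) w' +
      inner ℝ w (fderiv ℝ (resc (1 / √c) r V) u w') = 0 := by
  have hρ := rho_pos hc
  have hs : r / (1 / √c) ≠ 0 := by positivity
  have hcov : ∀ (x : Euc m) (a b : Tan x), inner ℝ (cov V x a) b + inner ℝ a (cov V x b) =
      inner ℝ (fderiv ℝ V x a) (b : Euc m) + inner ℝ (a : Euc m) (fderiv ℝ V x b) := by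
    intro x a b
    have e1 := inner_cmp (Tan x) (fderiv ℝ V x) a b
    have e2 := inner_cmp (Tan x) (fderiv ℝ V x) b a
    rw [real_inner_comm (cov V x b) a, real_inner_comm (fderiv ℝ V x b) (a : Euc m), ← e1, ← e2]
    rfl
  constructor
  · intro hK u hu w w' hw hw'
    have hx : ‖(1 / √c) • u‖ = 1 / √c := by
      rw [norm_smul, hu, mul_one, Real.norm_of_nonneg hρ.le]
    have h := hK _ hx ⟨w, by rw [tan_smul hρ.ne', mem_tan_iff]; exact hw⟩
      ⟨w', by rw [tan_smul hρ.ne', mem_tan_iff]; exact hw'⟩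
    rw [hcov, fderiv_resc hρ.ne' hr.ne' hV.1] at h
    simp only [smul_apply, inner_smul_left, inner_smul_right, conj_trivial] at h
    rw [← mul_add] at h
    exact (mul_eq_zero.1 h).resolve_left hs
  · intro h x hx a b
    have hu : ‖(1 / √c)⁻¹ • x‖ = 1 := by
      rw [norm_smul, hx, norm_inv, Real.norm_of_nonneg hρ.le, inv_mul_cancel₀ hρ.ne']
    have hxu : x = (1 / √c) • ((1 / √c)⁻¹ • x) := by
      rw [smul_smul, mul_inv_cancel₀ hρ.ne', one_smul]
    have ha : inner ℝ ((1 / √c)⁻¹ • x) (a : Euc m) = 0 := by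
      rw [inner_smul_left, (mem_tan_iff x a).1 a.2, mul_zero]
    have hb : inner ℝ ((1 / √c)⁻¹ • x) (b : Euc m) = 0 := by
      rw [inner_smul_left, (mem_tan_iff x b).1 b.2, mul_zero]
    have h1 := h _ hu a b ha hb
    have h2 := fderiv_resc hρ.ne' hr.ne' hV.1 ((1 / √c)⁻¹ • x)
    rw [← hxu] at h2
    rw [hcov, h2]
    simp only [smul_apply, inner_smul_left, inner_smul_right, conj_trivial]
    rw [← mul_add, h1, mul_zero]

theorem dens_of_killing (hK : IsKilling c V) {u : Euc m} (hu : ‖u‖ = 1) :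
    dens V ((1 / √c) • u) = (1 + (r / (1 / √c)) ^ 2) ^ m := by
  have hρ := rho_pos hc
  have h0 := resc_unit' hc hr hV
  have hv := contDiff_resc (1 / √c) r hV.1
  rw [dens_eq_densT, tan_smul hρ.ne', fderiv_resc hρ.ne' hr.ne' hV.1]
  refine densT_of_isometry u hu m (finrank_euc m) _ ⟨resc (1 / √c) r V u, ?_⟩ (h0 u hu).2 ?_ ?_ _
  · rw [mem_tan_iff, real_inner_comm]
    exact (h0 u hu).1
  · intro w
    exact tan_I1 hv h0 hu ((mem_tan_iff u w).1 w.2)
  · intro w w'
    exact isometry_of_skew hv h0 ((killing_iff hc hr hV).1 hK) hu ((mem_tan_iff u w).1 w.2)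
      ((mem_tan_iff u w').1 w'.2)

theorem integral_of_killing (hK : IsKilling c V) :
    ∫ u : Metric.sphere (0 : Euc m) 1, dens V ((1 / √c) • (u : Euc m)) ∂(volume.toSphere) =
      (1 + (r / (1 / √c)) ^ 2) ^ m * (volume : Measure (Euc m)).toSphere.real Set.univ := by
  have : ∀ u : Metric.sphere (0 : Euc m) 1, dens V ((1 / √c) • (u : Euc m)) =
      (1 + (r / (1 / √c)) ^ 2) ^ m := fun u => dens_of_killing hc hr hV hK (by simp)
  simp only [this, integral_const, smul_eq_mul]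
  ring

theorem integral_bound (hU : UnitFieldBound) {p : ℕ} (hp : p.Prime) {g : Euc m ≃ₗᵢ[ℝ] Euc m}
    (hg : g ∈ G) (hgp : ∀ x, g^[p] x = x) (hgf : ∀ x, g x = x → x = 0) :
    (1 + (r / (1 / √c)) ^ 2) ^ m * (volume : Measure (Euc m)).toSphere.real Set.univ ≤
      ∫ u : Metric.sphere (0 : Euc m) 1, dens V ((1 / √c) • (u : Euc m)) ∂(volume.toSphere) ∧
    (∫ u : Metric.sphere (0 : Euc m) 1, dens V ((1 / √c) • (u : Euc m)) ∂(volume.toSphere) ≤
      (1 + (r / (1 / √c)) ^ 2) ^ m * (volume : Measure (Euc m)).toSphere.real Set.univ →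
      IsKilling c V) := by
  have hρ := rho_pos hc
  have h0 := resc_unit' hc hr hV
  have hv := contDiff_resc (1 / √c) r hV.1
  have hs : 0 < r / (1 / √c) := by positivity
  set s := r / (1 / √c) with hsdef
  have hk : 0 < (1 + s ^ 2) ^ m := by positivity
  obtain ⟨hcont, hle, hrig⟩ := hU p hp (Euc m) (m + 1) (by omega) (by rw [finrank_euc]; ring) g hgp
    hgf (resc (1 / √c) r V) hv
    (fun u hu => ⟨(h0 u hu).1, (h0 u hu).2, (resc_unit hc hr hV hu).2.2 g hg⟩)
    (s ^ 2 / (1 + s ^ 2)) (by positivity) (by rw [div_lt_one (by positivity)]; linarith)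
  have hint1 : Integrable (fun u : Metric.sphere (0 : Euc m) 1 =>
      aVol (resc (1 / √c) r V) (s ^ 2 / (1 + s ^ 2)) u) (volume : Measure (Euc m)).toSphere :=
    hcont.integrable_of_hasCompactSupport (HasCompactSupport.of_compactSpace _)
  have hint2 : Integrable (fun u : Metric.sphere (0 : Euc m) 1 =>
      dens V ((1 / √c) • (u : Euc m))) (volume : Measure (Euc m)).toSphere :=
    (continuous_dens hρ.ne' hV.1).integrable_of_hasCompactSupport
      (HasCompactSupport.of_compactSpace _)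
  have hmono : (1 + s ^ 2) ^ m * ∫ u : Metric.sphere (0 : Euc m) 1,
      aVol (resc (1 / √c) r V) (s ^ 2 / (1 + s ^ 2)) u ∂(volume : Measure (Euc m)).toSphere ≤
      ∫ u : Metric.sphere (0 : Euc m) 1, dens V ((1 / √c) • (u : Euc m)) ∂(volume.toSphere) := by
    rw [← integral_const_mul]
    exact integral_mono (hint1.const_mul _) hint2
      (fun u => dens_ge hc hr hV (u := u) (by simp))
  refine ⟨(mul_le_mul_of_nonneg_left hle hk.le).trans hmono, fun h => ?_⟩
  have h2 := hrig (le_of_mul_le_mul_left (hmono.trans h) hk)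
  rw [killing_iff hc hr hV]
  intro u hu w w' hw hw'
  exact skew_of_isometry hv h0 h2 hu hw hw'

end

theorem final_of (hU : UnitFieldBound)
    (hJ : ∀ (m : ℕ) (G : Subgroup (Euc m ≃ₗᵢ[ℝ] Euc m)) [Finite G],
      (∀ g ∈ G, g ≠ 1 → ∀ x : Euc m, g x = x → x = 0) →
      ∃ J : Euc m ≃ₗᵢ[ℝ] Euc m, (∀ x, J (J x) = -x) ∧ ∀ g ∈ G, ∀ x, g (J x) = J (g x))
    (m : ℕ) (c : ℝ) (hc : 0 < c) (G : Subgroup (Euc m ≃ₗᵢ[ℝ] Euc m)) [Finite G] (hG : G ≠ ⊥)
    (hfree : ∀ g ∈ G, g ≠ 1 → ∀ x : Euc m, ‖x‖ = 1 / √c → g x ≠ x) (r : ℝ) (hr : 0 < r) :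
    (∃ V, IsField c G r V ∧ IsKilling c V) ∧
    ∀ V, IsField c G r V →
      (Vol c G V = sInf (Vol c G '' {W | IsField c G r W}) ↔ IsKilling c V) := by
  have hρ := rho_pos hc
  have hfree' : ∀ g ∈ G, g ≠ 1 → ∀ x : Euc m, g x = x → x = 0 := by
    intro g hg hg1 x hx
    by_contra hx0
    have hn : ‖x‖ ≠ 0 := norm_ne_zero_iff.2 hx0
    apply hfree g hg hg1 ((1 / √c) • (‖x‖⁻¹ • x))
    · rw [norm_smul, norm_nrm hx0, mul_one, Real.norm_of_nonneg hρ.le]
    · rw [map_smul, map_smul, hx]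
  -- an element of prime order
  obtain ⟨p, hp, g, hg, hgp, hgf⟩ : ∃ p : ℕ, p.Prime ∧ ∃ g ∈ G, (∀ x, g^[p] x = x) ∧
      ∀ x, g x = x → x = 0 := by
    have hcard : Nat.card G ≠ 1 := fun h => hG (Subgroup.card_eq_one.1 h)
    obtain ⟨p, hp, hdvd⟩ := Nat.exists_prime_and_dvd hcard
    have := Fact.mk hp
    obtain ⟨g, hg⟩ := exists_prime_orderOf_dvd_card' p hdvd
    have hg1 : (g : Euc m ≃ₗᵢ[ℝ] Euc m) ≠ 1 := by
      intro h
      have : g = 1 := Subtype.ext h
      rw [this, orderOf_one] at hg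
      exact hp.one_lt.ne hg
    refine ⟨p, hp, g, g.2, fun x => ?_, hfree' g g.2 hg1⟩
    have hpow : ∀ (n : ℕ) (x : Euc m), ((g : Euc m ≃ₗᵢ[ℝ] Euc m) ^ n) x =
        (g : Euc m ≃ₗᵢ[ℝ] Euc m)^[n] x := by
      intro n
      induction n with
      | zero => intro x; simp
      | succ n ih =>
        intro x
        rw [pow_succ, Function.iterate_succ_apply, ← ih]
        rfl
    have h1 : (g : Euc m ≃ₗᵢ[ℝ] Euc m) ^ p = 1 := by
      rw [← hg, ← Subgroup.coe_pow, pow_orderOf_eq_one]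
      rfl
    rw [← hpow, h1]
    rfl
  -- a Killing field
  obtain ⟨J, hJJ, hJG⟩ := hJ m G hfree'
  have hJskew : ∀ a b : Euc m, inner ℝ (J a) b + inner ℝ a (J b) = 0 := by
    intro a b
    rw [← J.inner_map_map a (J b), hJJ, inner_neg_right]
    ring
  let L : Euc m →L[ℝ] Euc m := (r / (1 / √c)) • (J.toContinuousLinearEquiv : Euc m →L[ℝ] Euc m)
  have hLa : ∀ x, L x = (r / (1 / √c)) • J x := fun x => rfl
  have hLf : IsField c G r L := by
    refine ⟨L.contDiff, fun x hx => ⟨?_, ?_, fun g hg => ?_⟩⟩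
    · have h := hJskew x x
      rw [real_inner_comm (J x) x] at h
      rw [hLa, inner_smul_left]
      have : inner ℝ (J x) x = (0 : ℝ) := by linarith
      rw [this, mul_zero]
    · rw [hLa, norm_smul, J.norm_map, hx, Real.norm_of_nonneg (by positivity)]
      field_simp
    · rw [hLa, hLa, map_smul, hJG g hg]
  have hLk : IsKilling c L := by
    intro x _ a b
    have e1 := inner_cmp (Tan x) L a b
    have e2 := inner_cmp (Tan x) L b a
    have e3 : cov L x = cmp (Tan x) L := by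
      unfold cov cmp
      rw [L.fderiv]
    rw [e3, real_inner_comm (cmp (Tan x) L b) a, e1, e2, hLa, hLa, inner_smul_left, inner_smul_left,
      ← mul_add, real_inner_comm (a : Euc m) (J b), hJskew, mul_zero]
  have hκ : 0 < (Nat.card G : ℝ)⁻¹ * (1 / √c) ^ (2 * m + 1) := by
    have : 0 < Nat.card G := Nat.card_pos
    positivity
  have hleast : IsLeast (Vol c G '' {W | IsField c G r W})
      ((Nat.card G : ℝ)⁻¹ * (1 / √c) ^ (2 * m + 1) * ((1 + (r / (1 / √c)) ^ 2) ^ m *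
        (volume : Measure (Euc m)).toSphere.real Set.univ)) := by
    refine ⟨⟨L, hLf, ?_⟩, ?_⟩
    · rw [Vol, integral_of_killing hc hr hLf hLk]
    · rintro _ ⟨W, hW, rfl⟩
      exact mul_le_mul_of_nonneg_left (integral_bound hc hr hW hU hp hg hgp hgf).1 hκ.le
  refine ⟨⟨L, hLf, hLk⟩, fun V hV => ?_⟩
  rw [hleast.csInf_eq]
  constructor
  · intro h
    exact (integral_bound hc hr hV hU hp hg hgp hgf).2 (le_of_mul_le_mul_left h.le hκ)
  · intro hK
    rw [Vol, integral_of_killing hc hr hV hK]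

end Pool.Agent.MP_8bdec9_gt
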