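import Mathlib.Algebra.Ring.IsFormallyReal
import Mathlib.Analysis.SpecialFunctions.SmoothTransition
import Mathlib.Analysis.Real.Pi.Bounds
import Mathlib.MeasureTheory.Measure.Lebesgue.VolumeOfBalls
import Pool.Agent.MP_8bdec9_gt.Sector
import Pool.Agent.MP_8bdec9_gt.Units
import Pool.Agent.MP_8bdec9_gt.Cover

-- ======== part 0: formerly Pool.Agent.MP_8bdec9_gt.UnitFieldLin
section MrgPart0

/-! Linear algebra for the lower bound and rigidity of unit equivariant fields. -/

open Module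
open scoped ContDiff

namespace Pool.Agent.MP_8bdec9_gt

/-- Hadamard's inequality. -/
theorem normDet_le_prod {U V : Type*} [NormedAddCommGroup U] [InnerProductSpace ℝ U]
    [FiniteDimensional ℝ U] [NormedAddCommGroup V] [InnerProductSpace ℝ V] {n : ℕ}
    (f : U →ₗ[ℝ] V) (e : OrthonormalBasis (Fin n) ℝ U) :
    f.normDet ≤ ∏ i, ‖f (e i)‖ := by
  by_cases h0 : f.normDet = 0
  · rw [h0]; positivity
  have hn : finrank ℝ U = n := by simpa using finrank_eq_card_basis e.toBasis
  have hr : finrank ℝ f.range = n := by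
    rw [← hn]; exact (f.normDet_ne_zero_tfae.out 0 2).mp h0
  have : Fact (finrank ℝ f.range = n) := ⟨hr⟩
  let bv : OrthonormalBasis (Fin n) ℝ f.range :=
    (stdOrthonormalBasis ℝ f.range).reindex (finCongr hr)
  rw [f.normDet_eq_norm_det_toMatrix_rangeRestrict e bv]
  have h1 : (f.rangeRestrict.toMatrix e.toBasis bv.toBasis).det
      = bv.toBasis.det (fun i => f.rangeRestrict (e i)) := by
    rw [Basis.det_apply]
    congr 1
    ext i j
    simp [LinearMap.toMatrix_apply, Basis.toMatrix_apply]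
  rw [h1, Real.norm_eq_abs, ← bv.toBasis.orientation.volumeForm_robust' bv]
  refine (bv.toBasis.orientation.abs_volumeForm_apply_le _).trans (le_of_eq ?_)
  rfl

theorem det_eq_det_gram {U : Type*} [NormedAddCommGroup U] [InnerProductSpace ℝ U]
    [FiniteDimensional ℝ U] {ι : Type*} [Fintype ι] [DecidableEq ι]
    (Q : U →ₗ[ℝ] U) (b : OrthonormalBasis ι ℝ U) :
    LinearMap.det Q = (Matrix.of fun i j => inner ℝ (b i) (Q (b j))).det := by
  rw [← LinearMap.det_toMatrix b.toBasis]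
  congr 1
  ext i j
  exact LinearMap.toMatrixOrthonormal_apply_apply b Q i j

theorem det_eq_prod_of_diag {U : Type*} [NormedAddCommGroup U] [InnerProductSpace ℝ U]
    [FiniteDimensional ℝ U] {ι : Type*} [Fintype ι] [DecidableEq ι]
    (Q : U →ₗ[ℝ] U) (b : OrthonormalBasis ι ℝ U)
    (h : ∀ i j, i ≠ j → inner ℝ (b i) (Q (b j)) = 0) :
    LinearMap.det Q = ∏ i, inner ℝ (b i) (Q (b i)) := by
  rw [det_eq_det_gram Q b]
  have : (Matrix.of fun i j => inner ℝ (b i) (Q (b j)))
      = Matrix.diagonal fun i => inner ℝ (b i) (Q (b i)) := by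
    ext i j
    by_cases hij : i = j
    · subst hij; simp
    · simp [Matrix.diagonal_apply_ne _ hij, h i j hij]
  rw [this, Matrix.det_diagonal]

/-- Singular vectors. -/
theorem exists_orth_basis {U V : Type*} [NormedAddCommGroup U] [InnerProductSpace ℝ U]
    [FiniteDimensional ℝ U] [NormedAddCommGroup V] [InnerProductSpace ℝ V]
    [FiniteDimensional ℝ V] {n : ℕ} (hn : finrank ℝ U = n) (D : U →ₗ[ℝ] V) :
    ∃ e : OrthonormalBasis (Fin n) ℝ U, ∀ i j, i ≠ j → inner ℝ (D (e i)) (D (e j)) = 0 := by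
  have hS : (D.adjoint ∘ₗ D).IsSymmetric := by
    intro x y
    simp only [LinearMap.comp_apply]
    rw [LinearMap.adjoint_inner_left, LinearMap.adjoint_inner_right]
  refine ⟨hS.eigenvectorBasis hn, fun i j hij => ?_⟩
  rw [← LinearMap.adjoint_inner_right]
  have := hS.apply_eigenvectorBasis hn j
  simp only [LinearMap.comp_apply] at this
  rw [this, inner_smul_right, (hS.eigenvectorBasis hn).orthonormal.2 hij, mul_zero]

theorem norm_eq_of_orth_basis {U V : Type*} [NormedAddCommGroup U] [InnerProductSpace ℝ U]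
    [NormedAddCommGroup V] [InnerProductSpace ℝ V] {n : ℕ} (D : U →ₗ[ℝ] V)
    (e : OrthonormalBasis (Fin n) ℝ U) (h : ∀ i j, i ≠ j → inner ℝ (D (e i)) (D (e j)) = 0)
    (h1 : ∀ i, ‖D (e i)‖ ^ 2 = 1) (w : U) : ‖D w‖ = ‖w‖ := by
  have hon : Orthonormal ℝ (fun i => D (e i)) := by
    refine ⟨fun i => ?_, fun i j hij => h i j hij⟩
    have := h1 i
    have h2 := norm_nonneg (D (e i))
    nlinarith
  have key := (LinearMap.isometryOfOrthonormal D (v := e.toBasis) (by simp)
    (by simpa [Function.comp_def] using hon)).norm_map w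
  simpa using key

variable {E : Type} [NormedAddCommGroup E] [InnerProductSpace ℝ E] [FiniteDimensional ℝ E]

/-- The tangential derivative, extended by zero on the normal line. -/
noncomputable def tanD (v : E → E) (x : E) : E →ₗ[ℝ] E :=
  (fderiv ℝ v x : E →ₗ[ℝ] E) ∘ₗ (LinearMap.id - (innerₛₗ ℝ x).smulRight x)

omit [FiniteDimensional ℝ E] in
theorem tanD_apply (v : E → E) (x y : E) :
    tanD v x y = fderiv ℝ v x (y - inner ℝ x y • x) := by
  simp [tanD]

/-- The Gram operator on the ambient space. -/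
noncomputable def gramE (v : E → E) (s : ℝ) (x : E) : E →ₗ[ℝ] E :=
  (1 - s) • LinearMap.id +
    s • ((tanD v x).adjoint ∘ₗ tanD v x + (innerₛₗ ℝ x).smulRight x)

theorem inner_gramE (v : E → E) (s : ℝ) (x y z : E) :
    inner ℝ y (gramE v s x z) = (1 - s) * inner ℝ y z +
      s * (inner ℝ (tanD v x y) (tanD v x z) + inner ℝ x y * inner ℝ x z) := by
  simp only [gramE, LinearMap.add_apply, LinearMap.smul_apply, LinearMap.id_apply,
    LinearMap.comp_apply, LinearMap.smulRight_apply, innerₛₗ_apply_apply, inner_add_right,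
    inner_smul_right, LinearMap.adjoint_inner_right]
  rw [real_inner_comm x y]; ring

/-- The squared Jacobian as a function on the ambient space. -/
noncomputable def sqJac (v : E → E) (s : ℝ) (x : E) : ℝ := LinearMap.det (gramE v s x)

omit [FiniteDimensional ℝ E] in
theorem contDiff_tanD {v : E → E} (hv : ContDiff ℝ ∞ v) (y : E) :
    ContDiff ℝ 1 fun x => tanD v x y := by
  simp only [tanD_apply]
  have h1 : ContDiff ℝ 1 (fderiv ℝ v) := hv.fderiv_right (m := 1) (by norm_cast)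
  exact h1.clm_apply (contDiff_const.sub ((contDiff_id.inner ℝ contDiff_const).smul contDiff_id))

theorem contDiff_sqJac {v : E → E} (hv : ContDiff ℝ ∞ v) (s : ℝ) :
    ContDiff ℝ 1 (sqJac v s) := by
  classical
  let b := stdOrthonormalBasis ℝ E
  have : sqJac v s = fun x => ∑ σ : Equiv.Perm (Fin (finrank ℝ E)),
      ((Equiv.Perm.sign σ : ℤ) : ℝ) * ∏ i, inner ℝ (b (σ i)) (gramE v s x (b i)) := by
    funext x
    rw [sqJac, det_eq_det_gram _ b, Matrix.det_apply']
    rfl
  rw [this]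
  refine ContDiff.sum fun σ _ => contDiff_const.mul (contDiff_prod fun i _ => ?_)
  simp only [inner_gramE]
  refine contDiff_const.add (contDiff_const.mul (ContDiff.add ?_ ?_))
  · exact (contDiff_tanD hv _).inner ℝ (contDiff_tanD hv _)
  · exact (contDiff_id.inner ℝ contDiff_const).mul (contDiff_id.inner ℝ contDiff_const)

theorem finrank_tan {u : E} (hu : ‖u‖ = 1) :
    finrank ℝ (Submodule.span ℝ {u})ᗮ + 1 = finrank ℝ E := by
  have hu0 : u ≠ 0 := by rintro rfl; simp at hu
  have := Submodule.finrank_add_finrank_orthogonal (Submodule.span ℝ {u})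
  rw [finrank_span_singleton hu0] at this
  omega

omit [FiniteDimensional ℝ E] in
theorem inner_tan {u : E} (w : (Submodule.span ℝ {u})ᗮ) : inner ℝ u (w : E) = 0 :=
  Submodule.mem_orthogonal_singleton_iff_inner_right.mp w.2

theorem sqJac_eq_prod (v : E → E) (s : ℝ) {u : E} (hu : ‖u‖ = 1) {n : ℕ}
    (e : OrthonormalBasis (Fin n) ℝ (Submodule.span ℝ {u})ᗮ)
    (he : ∀ i j, i ≠ j → inner ℝ (fderiv ℝ v u (e i)) (fderiv ℝ v u (e j)) = 0) :
    sqJac v s u = ∏ i, (1 - s + s * ‖fderiv ℝ v u (e i)‖ ^ 2) := by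
  classical
  let f : Option (Fin n) → E := fun o => o.elim u fun i => (e i : E)
  have hee : ∀ i j, inner ℝ (e i : E) (e j : E) = if i = j then 1 else 0 := fun i j => by
    have := orthonormal_iff_ite.mp e.orthonormal i j
    simpa using this
  have huu : inner ℝ u u = 1 := by rw [real_inner_self_eq_norm_sq, hu]; norm_num
  have hon : Orthonormal ℝ f := by
    rw [orthonormal_iff_ite]
    rintro (_ | i) (_ | j)
    · simpa [f] using huu
    · simpa [f] using inner_tan (e j)
    · have := inner_tan (e i)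
      rw [real_inner_comm] at this
      simpa [f] using this
    · simpa [f] using hee i j
  have hcard : Fintype.card (Option (Fin n)) = finrank ℝ E := by
    have h1 := finrank_eq_card_basis e.toBasis
    have h2 := finrank_tan hu
    simp only [Fintype.card_fin] at h1
    simp only [Fintype.card_option, Fintype.card_fin]
    omega
  let b : OrthonormalBasis (Option (Fin n)) ℝ E :=
    (basisOfOrthonormalOfCardEqFinrank hon hcard).toOrthonormalBasis (by simpa using hon)
  have hb : ∀ o, b o = f o := fun o => by simp [b]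
  have ht0 : tanD v u u = 0 := by rw [tanD_apply, huu]; simp
  have ht1 : ∀ i, tanD v u (e i) = fderiv ℝ v u (e i) := fun i => by
    rw [tanD_apply, inner_tan (e i)]; simp
  rw [sqJac, det_eq_prod_of_diag _ b, Fintype.prod_option]
  · simp only [hb, f, Option.elim, inner_gramE, ht0, ht1, huu, hee, inner_tan,
      real_inner_self_eq_norm_sq]
    simp
  · rintro (_ | i) (_ | j) hij
    · exact absurd rfl hij
    · simp [hb, f, inner_gramE, ht0, inner_tan]
    · have := inner_tan (e i)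
      rw [real_inner_comm] at this
      simp [hb, f, inner_gramE, ht0, inner_tan, this]
    · have hij' : i ≠ j := fun h => hij (by rw [h])
      simp [hb, f, inner_gramE, ht1, inner_tan, hee, hij', he i j hij']

theorem aVol_eq_prod (v : E → E) (s : ℝ) {u : E} {n : ℕ}
    (e : OrthonormalBasis (Fin n) ℝ (Submodule.span ℝ {u})ᗮ)
    (he : ∀ i j, i ≠ j → inner ℝ (fderiv ℝ v u (e i)) (fderiv ℝ v u (e j)) = 0) :
    aVol v s u = √(∏ i, (1 - s + s * ‖fderiv ℝ v u (e i)‖ ^ 2)) := by
  classical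
  unfold aVol
  congr 1
  have key : ∀ y z : (Submodule.span ℝ {u})ᗮ, inner ℝ y
      (((1 - s) • (1 : (Submodule.span ℝ {u})ᗮ →L[ℝ] (Submodule.span ℝ {u})ᗮ)
      + s • (ContinuousLinearMap.adjoint (fderiv ℝ v u ∘L (Submodule.span ℝ {u})ᗮ.subtypeL) ∘L
        (fderiv ℝ v u ∘L (Submodule.span ℝ {u})ᗮ.subtypeL))) z)
      = (1 - s) * inner ℝ y z + s * inner ℝ (fderiv ℝ v u y) (fderiv ℝ v u z) := by
    intro y z
    simp only [add_apply, smul_apply,
      one_apply_eq_self, ContinuousLinearMap.comp_apply, inner_add_right,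
      inner_smul_right, ContinuousLinearMap.adjoint_inner_right]
    rfl
  rw [ContinuousLinearMap.det, det_eq_prod_of_diag _ e]
  · refine Finset.prod_congr rfl fun i _ => ?_
    rw [ContinuousLinearMap.coe_coe, key, real_inner_self_eq_norm_sq, real_inner_self_eq_norm_sq,
      e.orthonormal.1 i]
    ring
  · intro i j hij
    rw [ContinuousLinearMap.coe_coe, key, e.orthonormal.2 hij, he i j hij]
    ring

theorem exists_tan_basis (v : E → E) (u : E) :
    ∃ e : OrthonormalBasis (Fin (finrank ℝ (Submodule.span ℝ {u})ᗮ)) ℝ (Submodule.span ℝ {u})ᗮ,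
      ∀ i j, i ≠ j → inner ℝ (fderiv ℝ v u (e i)) (fderiv ℝ v u (e j)) = 0 :=
  exists_orth_basis rfl ((fderiv ℝ v u : E →ₗ[ℝ] E) ∘ₗ (Submodule.span ℝ {u})ᗮ.subtype)

theorem aVol_eq_sqrt (v : E → E) (s : ℝ) {u : E} (hu : ‖u‖ = 1) :
    aVol v s u = √(sqJac v s u) := by
  obtain ⟨e, he⟩ := exists_tan_basis v u
  rw [aVol_eq_prod v s e he, sqJac_eq_prod v s hu e he]

end Pool.Agent.MP_8bdec9_gt

end MrgPart0

-- ======== part 1: formerly Pool.Agent.MP_8bdec9_gt.UnitFieldJac
section MrgPart1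

/-! The Jacobian of `u ↦ (√(1 - τ u) u, √(τ u) v u)` and the resulting integral inequality. -/

open MeasureTheory Module
open scoped ContDiff

namespace Pool.Agent.MP_8bdec9_gt

variable {E : Type} [NormedAddCommGroup E] [InnerProductSpace ℝ E]

/-- A function constant on the unit sphere has zero tangential derivative. -/
theorem fderiv_tan_eq_zero {F : Type*} [NormedAddCommGroup F] [NormedSpace ℝ F] {H : E → F}
    {u w : E} (hu : ‖u‖ = 1) (hw : inner ℝ u w = 0) (hH : DifferentiableAt ℝ H u) {c : F}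
    (hc : ∀ x, ‖x‖ = 1 → H x = c) : fderiv ℝ H u w = 0 := by
  set k := ‖w‖ ^ 2 with hk
  have hk0 : 0 ≤ k := sq_nonneg _
  let γ : ℝ → E := fun s => (1 + s ^ 2 * k)⁻¹ • ((1 - s ^ 2 * k) • u + (2 * s) • w)
  have hγ0 : γ 0 = u := by simp [γ]
  have hγn : ∀ s, ‖γ s‖ = 1 := fun s => by
    have hpos : 0 < 1 + s ^ 2 * k := by positivity
    have h1 : ‖(1 - s ^ 2 * k) • u + (2 * s) • w‖ ^ 2 = (1 + s ^ 2 * k) ^ 2 := by
      rw [norm_add_sq_real, inner_smul_left, inner_smul_right, hw, norm_smul, norm_smul, hu,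
        mul_pow, mul_pow, Real.norm_eq_abs, Real.norm_eq_abs, sq_abs, sq_abs, ← hk]
      simp only [mul_zero]
      ring
    have h2 : ‖(1 - s ^ 2 * k) • u + (2 * s) • w‖ = 1 + s ^ 2 * k :=
      (pow_left_inj₀ (norm_nonneg _) hpos.le two_ne_zero).mp h1
    simp only [γ]
    rw [norm_smul, h2, Real.norm_eq_abs, abs_of_pos (inv_pos.mpr hpos), inv_mul_cancel₀ hpos.ne']
  have hd : HasDerivAt γ ((2 : ℝ) • w) 0 := by
    have ha : HasDerivAt (fun s : ℝ => s ^ 2 * k) 0 0 := by
      simpa using (hasDerivAt_pow 2 (0 : ℝ)).mul_const k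
    have hb : HasDerivAt (fun s : ℝ => (1 + s ^ 2 * k)⁻¹) 0 0 := by
      have := (ha.const_add 1).fun_inv (by simp)
      simpa using this
    have hc' : HasDerivAt (fun s : ℝ => (1 - s ^ 2 * k) • u + (2 * s) • w) ((2 : ℝ) • w) 0 := by
      have h1 := (ha.const_sub 1).smul_const u
      have h2 := ((hasDerivAt_id (0 : ℝ)).const_mul 2).smul_const w
      simpa using h1.fun_add h2
    refine (hb.fun_smul hc').congr_deriv ?_
    simp
  have h1 : HasDerivAt (fun s => H (γ s)) (fderiv ℝ H u ((2 : ℝ) • w)) 0 := by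
    have hH' : HasFDerivAt H (fderiv ℝ H u) (γ 0) := by rw [hγ0]; exact hH.hasFDerivAt
    exact hH'.comp_hasDerivAt (0 : ℝ) hd
  have h2 : (fun s => H (γ s)) = fun _ => c := funext fun s => hc _ (hγn s)
  rw [h2] at h1
  have h3 := h1.unique (hasDerivAt_const (0 : ℝ) c)
  rw [map_smul] at h3
  exact (smul_eq_zero.mp h3).resolve_left two_ne_zero

theorem inner_fderiv_self {v : E → E} {u w : E} (hu : ‖u‖ = 1) (hw : inner ℝ u w = 0)
    (hv : DifferentiableAt ℝ v u) (h1 : ∀ x, ‖x‖ = 1 → ‖v x‖ = 1) :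
    inner ℝ (v u) (fderiv ℝ v u w) = 0 := by
  have h := fderiv_tan_eq_zero (H := fun x => inner ℝ (v x) (v x)) (c := 1) hu hw
    (hv.inner ℝ hv) (fun x hx => by rw [real_inner_self_eq_norm_sq, h1 x hx]; norm_num)
  rw [fderiv_inner_apply ℝ hv hv, real_inner_comm (v u)] at h
  linarith

theorem fderiv_equi {v : E → E} (hv : Differentiable ℝ v) (g : E ≃ₗᵢ[ℝ] E)
    (hg : ∀ x, ‖x‖ = 1 → v (g x) = g (v x)) {u w : E} (hu : ‖u‖ = 1) (hw : inner ℝ u w = 0) :
    fderiv ℝ v (g u) (g w) = g (fderiv ℝ v u w) := by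
  let G : E →L[ℝ] E := g.toContinuousLinearEquiv
  have h1 : HasFDerivAt (fun x => v (g x) - g (v x))
      ((fderiv ℝ v (g u)) ∘L G - G ∘L fderiv ℝ v u) u :=
    ((hv (g u)).hasFDerivAt.comp u G.hasFDerivAt).sub (G.hasFDerivAt.comp u (hv u).hasFDerivAt)
  have h := fderiv_tan_eq_zero (c := 0) hu hw h1.differentiableAt
    (fun x hx => by rw [hg x hx, sub_self])
  rw [h1.fderiv] at h
  exact sub_eq_zero.mp h

theorem sqJac_equi [FiniteDimensional ℝ E] {v : E → E} (hv : Differentiable ℝ v)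
    (g : E ≃ₗᵢ[ℝ] E) (hg : ∀ x, ‖x‖ = 1 → v (g x) = g (v x)) (s : ℝ) {u : E} (hu : ‖u‖ = 1) :
    sqJac v s (g u) = sqJac v s u := by
  classical
  let b := stdOrthonormalBasis ℝ E
  have huu : inner ℝ u u = 1 := by rw [real_inner_self_eq_norm_sq, hu]; norm_num
  have ht : ∀ y, tanD v (g u) (g y) = g (tanD v u y) := fun y => by
    rw [tanD_apply, tanD_apply, g.inner_map_map, ← map_smul, ← map_sub]
    refine fderiv_equi hv g hg hu ?_
    rw [inner_sub_right, inner_smul_right, huu]; ring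
  rw [sqJac, sqJac, det_eq_det_gram _ (b.map g), det_eq_det_gram _ b]
  congr 1
  ext i j
  simp only [Matrix.of_apply, OrthonormalBasis.map_apply, inner_gramE, ht, g.inner_map_map]

/-- The test map. -/
noncomputable def testMap (v : E → E) (τ : E → ℝ) (x : E) : WithLp 2 (E × E) :=
  WithLp.toLp 2 (√(1 - τ x) • x, √(τ x) • v x)

theorem testMap_deriv {v : E → E} {τ : E → ℝ} {u : E} (hu : ‖u‖ = 1)
    (hv : DifferentiableAt ℝ v u) (h1 : ∀ x, ‖x‖ = 1 → ‖v x‖ = 1)
    (hτ : DifferentiableAt ℝ τ u) (h0 : 0 < τ u) (h2 : τ u < 1) :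
    DifferentiableAt ℝ (testMap v τ) u ∧ ∀ w, inner ℝ u w = 0 →
      ‖fderiv ℝ (testMap v τ) u w‖ ^ 2 = (1 - τ u) * ‖w‖ ^ 2 + τ u * ‖fderiv ℝ v u w‖ ^ 2 +
        (fderiv ℝ τ u w) ^ 2 / (4 * τ u * (1 - τ u)) := by
  have h3 : 0 < 1 - τ u := by linarith
  have ha := ((hτ.hasFDerivAt.const_sub 1).sqrt h3.ne').smul (hasFDerivAt_id u)
  have hb := (hτ.hasFDerivAt.sqrt h0.ne').smul hv.hasFDerivAt
  let L := (WithLp.prodContinuousLinearEquiv 2 ℝ E E).symm
  have hc := (L : E × E →L[ℝ] WithLp 2 (E × E)).hasFDerivAt.comp u (ha.prodMk hb)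
  have hd : HasFDerivAt (testMap v τ) _ u := hc
  refine ⟨hd.differentiableAt, fun w hw => ?_⟩
  rw [hd.fderiv, WithLp.prod_norm_sq_eq_of_L2]
  have hvD := inner_fderiv_self hu hw hv h1
  have hs1 : √(1 - τ u) ^ 2 = 1 - τ u := Real.sq_sqrt h3.le
  have hs2 : √(τ u) ^ 2 = τ u := Real.sq_sqrt h0.le
  have hp1 : 0 < √(1 - τ u) := Real.sqrt_pos.mpr h3
  have hp2 : 0 < √(τ u) := Real.sqrt_pos.mpr h0
  have e1 : ‖√(1 - τ u) • w + (1 / (2 * √(1 - τ u)) * -fderiv ℝ τ u w) • u‖ ^ 2
      = (1 - τ u) * ‖w‖ ^ 2 + (fderiv ℝ τ u w) ^ 2 / (4 * (1 - τ u)) := by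
    rw [norm_add_sq_real, inner_smul_left, inner_smul_right, real_inner_comm, hw, norm_smul,
      norm_smul, hu, mul_pow, mul_pow, Real.norm_eq_abs, Real.norm_eq_abs, sq_abs, sq_abs, hs1,
      mul_pow, div_pow, mul_pow, hs1]
    simp only [mul_zero]
    field_simp
    ring
  have e2 : ‖√(τ u) • fderiv ℝ v u w + (1 / (2 * √(τ u)) * fderiv ℝ τ u w) • v u‖ ^ 2
      = τ u * ‖fderiv ℝ v u w‖ ^ 2 + (fderiv ℝ τ u w) ^ 2 / (4 * τ u) := by
    rw [norm_add_sq_real, inner_smul_left, inner_smul_right, real_inner_comm, hvD, norm_smul,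
      norm_smul, h1 u hu, mul_pow, mul_pow, Real.norm_eq_abs, Real.norm_eq_abs, sq_abs, sq_abs,
      hs2, mul_pow, div_pow, mul_pow, hs2]
    simp only [mul_zero]
    field_simp
    ring
  refine Eq.trans (b := ‖√(1 - τ u) • w + (1 / (2 * √(1 - τ u)) * -fderiv ℝ τ u w) • u‖ ^ 2 +
    ‖√(τ u) • fderiv ℝ v u w + (1 / (2 * √(τ u)) * fderiv ℝ τ u w) • v u‖ ^ 2) ?_ ?_
  · simp [L]
  · rw [e1, e2]
    field_simp
    ring

theorem jac_le [FiniteDimensional ℝ E] {v : E → E} {τ : E → ℝ} {u : E} (hu : ‖u‖ = 1)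
    (hv : DifferentiableAt ℝ v u) (h1 : ∀ x, ‖x‖ = 1 → ‖v x‖ = 1)
    (hτ : DifferentiableAt ℝ τ u) (h0 : 0 < τ u) (h2 : τ u < 1) {n : ℕ}
    (e : OrthonormalBasis (Fin n) ℝ (Submodule.span ℝ {u})ᗮ) :
    ((fderiv ℝ (testMap v τ) u : E →ₗ[ℝ] WithLp 2 (E × E)).domRestrict
      (Submodule.span ℝ {u})ᗮ).normDet ≤
      √(∏ i, (1 - τ u + τ u * ‖fderiv ℝ v u (e i)‖ ^ 2 +
        ‖fderiv ℝ τ u‖ ^ 2 / (4 * τ u * (1 - τ u)))) := by
  have h3 : 0 < 1 - τ u := by linarith
  refine (normDet_le_prod _ e).trans (Real.le_sqrt_of_sq_le ?_)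
  rw [← Finset.prod_pow]
  refine Finset.prod_le_prod (fun i _ => sq_nonneg _) fun i _ => ?_
  have key := (testMap_deriv hu hv h1 hτ h0 h2).2 (e i) (inner_tan (e i))
  have hn : ‖(e i : E)‖ = 1 := e.orthonormal.1 i
  have hle : (fderiv ℝ τ u (e i)) ^ 2 ≤ ‖fderiv ℝ τ u‖ ^ 2 := by
    have := (fderiv ℝ τ u).le_opNorm (e i)
    rw [hn, mul_one, Real.norm_eq_abs] at this
    rw [← sq_abs]
    exact pow_le_pow_left₀ (abs_nonneg _) this 2
  refine le_trans (le_of_eq key) ?_
  rw [hn]
  gcongr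
  norm_num

theorem sphere_ineq (h : SphereBound) {p : ℕ} (hp : p.Prime) [FiniteDimensional ℝ E]
    [MeasurableSpace E] [BorelSpace E] {a : ℕ} (ha : 1 ≤ a) (hE : finrank ℝ E = 2 * a)
    (g : E ≃ₗᵢ[ℝ] E) (hgp : ∀ x, g^[p] x = x) (hfree : ∀ x, g x = x → x = 0)
    {v : E → E} (hv : Differentiable ℝ v)
    (hv1 : ∀ u, ‖u‖ = 1 → ‖v u‖ = 1) (hvg : ∀ u, ‖u‖ = 1 → v (g u) = g (v u))
    (τ : E → ℝ) (hτ : Differentiable ℝ τ) (h0 : ∀ u, ‖u‖ = 1 → 0 < τ u)
    (h2 : ∀ u, ‖u‖ = 1 → τ u < 1) (hτg : ∀ u, ‖u‖ = 1 → τ (g u) = τ u)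
    (H : Metric.sphere (0 : E) 1 → ℝ) (hH : Continuous H)
    (hb : ∀ u : Metric.sphere (0 : E) 1, ∃ (n : ℕ)
      (e : OrthonormalBasis (Fin n) ℝ (Submodule.span ℝ {(u : E)})ᗮ),
      √(∏ i, (1 - τ u + τ u * ‖fderiv ℝ v u (e i)‖ ^ 2 +
        ‖fderiv ℝ τ u‖ ^ 2 / (4 * τ u * (1 - τ u)))) ≤ H u) :
    (volume : Measure E).toSphere.real Set.univ ≤ ∫ u, H u ∂(volume : Measure E).toSphere := by
  let J : WithLp 2 (E × E) ≃ₗᵢ[ℝ] WithLp 2 (E × E) :=
    (LinearIsometryEquiv.withLpProdComm 2 ℝ E E).trans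
      (LinearIsometryEquiv.withLpProdCongr 2 (LinearIsometryEquiv.neg ℝ)
        (LinearIsometryEquiv.refl ℝ E))
  let U : WithLp 2 (E × E) ≃ₗᵢ[ℝ] WithLp 2 (E × E) := LinearIsometryEquiv.withLpProdCongr 2 g g
  have hJ : ∀ w, J w = WithLp.toLp 2 (-w.snd, w.fst) := fun w => rfl
  have hU : ∀ w, U w = WithLp.toLp 2 (g w.fst, g w.snd) := fun w => rfl
  have hUk : ∀ (k : ℕ) w, U^[k] w = WithLp.toLp 2 (g^[k] w.fst, g^[k] w.snd) := by
    intro k
    induction k with
    | zero => intro w; rfl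
    | succ k ih =>
      intro w
      rw [Function.iterate_succ_apply', ih, hU, Function.iterate_succ_apply',
        Function.iterate_succ_apply']
      rfl
  have key := h p hp E (WithLp 2 (E × E)) a ha hE g J U hgp
    (fun w => by rw [hJ, hJ]; rfl)
    (fun w => by rw [hJ, hU, hU, hJ]; simp)
    (fun w => by rw [hUk, hgp, hgp]; rfl)
    (fun w hw => by
      rw [hU] at hw
      have h1 : g w.fst = w.fst := congrArg WithLp.fst hw
      have h2 : g w.snd = w.snd := congrArg WithLp.snd hw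
      have h3 : w = WithLp.toLp 2 (w.fst, w.snd) := rfl
      rw [h3, hfree _ h1, hfree _ h2]; rfl)
    (testMap v τ)
    (fun u hu => (testMap_deriv hu (hv u) hv1 (hτ u) (h0 u hu) (h2 u hu)).1)
    (fun u hu => by
      have h3 : 0 < 1 - τ u := by linarith [h2 u hu]
      have : ‖testMap v τ u‖ ^ 2 = 1 := by
        rw [WithLp.prod_norm_sq_eq_of_L2]
        simp only [testMap, WithLp.toLp_fst, WithLp.toLp_snd, norm_smul, hu, hv1 u hu, mul_one,
          Real.norm_eq_abs, sq_abs]
        rw [Real.sq_sqrt h3.le, Real.sq_sqrt (h0 u hu).le]; ring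
      have h4 := norm_nonneg (testMap v τ u)
      nlinarith)
    (fun u hu => by
      rw [hU]
      simp only [testMap, WithLp.toLp_fst, WithLp.toLp_snd, map_smul, hτg u hu, hvg u hu])
  have hH0 : ∀ u, 0 ≤ H u := fun u => by
    obtain ⟨n, e, he⟩ := hb u
    exact (Real.sqrt_nonneg _).trans he
  have hint : Integrable H (volume : Measure E).toSphere :=
    hH.integrable_of_hasCompactSupport (HasCompactSupport.of_compactSpace H)
  have key2 : (volume : Measure E).toSphere Set.univ ≤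
      ENNReal.ofReal (∫ u, H u ∂(volume : Measure E).toSphere) := by
    rw [ofReal_integral_eq_lintegral_ofReal hint (Filter.Eventually.of_forall hH0)]
    refine key.trans (lintegral_mono fun u => ENNReal.ofReal_le_ofReal ?_)
    obtain ⟨n, e, he⟩ := hb u
    have hu : ‖(u : E)‖ = 1 := by simp
    exact (jac_le hu (hv u) hv1 (hτ u) (h0 u hu) (h2 u hu) e).trans he
  exact ENNReal.toReal_le_of_le_ofReal (integral_nonneg hH0) key2

end Pool.Agent.MP_8bdec9_gt

end MrgPart1

-- ======== part 2: formerly Pool.Agent.MP_8bdec9_gt.UnitField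
section MrgPart2

/-! Lower bound and rigidity for unit equivariant fields, from the bound for maps of spheres. -/

open MeasureTheory Module
open scoped ContDiff

namespace Pool.Agent.MP_8bdec9_gt

theorem one_add_mul_pow_le {C d : ℝ} (hC : 0 ≤ C) (h0 : 0 ≤ d) (h1 : d ≤ 1) (N : ℕ) :
    (1 + C * d) ^ N ≤ 1 + d * ((1 + C) ^ N - 1) := by
  induction N with
  | zero => simp
  | succ N ih =>
    have hB : 1 ≤ (1 + C) ^ N := one_le_pow₀ (by linarith)
    rw [pow_succ, pow_succ]
    have h2 : (1 + C * d) ^ N * (1 + C * d) ≤ (1 + d * ((1 + C) ^ N - 1)) * (1 + C * d) :=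
      mul_le_mul_of_nonneg_right ih (by positivity)
    refine h2.trans ?_
    have h3 : 0 ≤ C * d * (1 - d) * ((1 + C) ^ N - 1) :=
      mul_nonneg (mul_nonneg (mul_nonneg hC h0) (by linarith)) (by linarith)
    nlinarith

theorem prod_pos_of {n : ℕ} {x : Fin n → ℝ} (hx : ∀ i, 0 ≤ x i) {t : ℝ} (h0 : 0 ≤ t)
    (h1 : t < 1) : 0 < ∏ i, (1 - t + t * x i) :=
  Finset.prod_pos fun i _ => by have := mul_nonneg h0 (hx i); linarith

theorem factor_le {x t r : ℝ} (hx : 0 ≤ x) (h0 : 0 ≤ t) (h1 : t < 1) (hr : 1 ≤ r) :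
    1 - t * r + t * r * x ≤ (1 - t + t * x) ^ r := by
  have h := one_add_mul_self_le_rpow_one_add (s := t * (x - 1)) (by nlinarith [mul_nonneg h0 hx]) hr
  rw [show 1 + t * (x - 1) = 1 - t + t * x by ring] at h
  linarith

theorem factor_lt {x t r : ℝ} (hx : 0 ≤ x) (hx1 : x ≠ 1) (h0 : 0 < t) (h1 : t < 1) (hr : 1 < r) :
    1 - t * r + t * r * x < (1 - t + t * x) ^ r := by
  have h := one_add_mul_self_lt_rpow_one_add (s := t * (x - 1))
    (by nlinarith [mul_nonneg h0.le hx]) (mul_ne_zero h0.ne' (sub_ne_zero.mpr hx1)) hr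
  rw [show 1 + t * (x - 1) = 1 - t + t * x by ring] at h
  linarith

theorem perturb_le {n N : ℕ} (hn : n ≤ N) {x : Fin n → ℝ} (hx : ∀ i, 0 ≤ x i) {t d k η : ℝ}
    (h0 : 0 ≤ t) (h1 : t < 1) (hd0 : 0 ≤ d) (hd1 : d ≤ 1) (hτ : t * (1 + d) < 1) (hk : 0 ≤ k)
    (hη0 : 0 ≤ η) (hη : η ≤ k * (1 - t * (1 + d))) :
    √(∏ i, (1 - t * (1 + d) + t * (1 + d) * x i + η)) ≤
      (1 + k) ^ N * (√(∏ i, (1 - t + t * x i)) - d * (√(∏ i, (1 - t + t * x i)) *
        (1 - √(∏ i, (1 - t + t * x i))))) := by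
  have hP := prod_pos_of hx h0 h1
  set P := ∏ i, (1 - t + t * x i) with hPdef
  have hA : 0 < √P := Real.sqrt_pos.mpr hP
  have hτ0 : 0 ≤ t * (1 + d) := by positivity
  have e1 : ∏ i, (1 - t * (1 + d) + t * (1 + d) * x i + η) ≤ (1 + k) ^ n * P ^ (1 + d) := by
    rw [hPdef, ← Real.finsetProd_rpow _ _
      (fun i _ => by have := mul_nonneg h0 (hx i); linarith)]
    have : (1 + k) ^ n = ∏ _i : Fin n, (1 + k) := by simp
    rw [this, ← Finset.prod_mul_distrib]
    refine Finset.prod_le_prod (fun i _ => ?_) fun i _ => ?_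
    · have := mul_nonneg hτ0 (hx i); linarith
    · have h2 := factor_le (hx i) h0 h1 (r := 1 + d) (by linarith)
      have h3 := mul_nonneg hτ0 (hx i)
      have h4 : 1 - t * (1 + d) + t * (1 + d) * x i + η ≤
          (1 + k) * (1 - t * (1 + d) + t * (1 + d) * x i) := by nlinarith [mul_nonneg hk h3]
      exact h4.trans (mul_le_mul_of_nonneg_left h2 (by linarith))
  have e2 : √(∏ i, (1 - t * (1 + d) + t * (1 + d) * x i + η)) ≤ (1 + k) ^ N * √P ^ (1 + d) := by
    refine Real.sqrt_le_iff.mpr ⟨by positivity, e1.trans ?_⟩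
    have h2 : (√P ^ (1 + d)) ^ 2 = P ^ (1 + d) := by
      rw [sq, ← Real.mul_rpow hA.le hA.le, Real.mul_self_sqrt hP.le]
    rw [mul_pow, h2, ← pow_mul]
    exact mul_le_mul_of_nonneg_right (pow_le_pow_right₀ (by linarith) (by omega)) (by positivity)
  refine e2.trans (mul_le_mul_of_nonneg_left ?_ (by positivity))
  rw [Real.rpow_add hA, Real.rpow_one]
  have h3 := rpow_one_add_le_one_add_mul_self (s := √P - 1) (by linarith) hd0 hd1
  rw [add_sub_cancel] at h3
  nlinarith [mul_le_mul_of_nonneg_left h3 hA.le]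

theorem eq_zero_of_integral_nonpos {X : Type*} [TopologicalSpace X] [CompactSpace X]
    [MeasurableSpace X] [OpensMeasurableSpace X] (μ : Measure X) [IsFiniteMeasure μ]
    [μ.IsOpenPosMeasure] {f : X → ℝ} (hf : Continuous f) (h0 : ∀ x, 0 ≤ f x)
    (h : ∫ x, f x ∂μ ≤ 0) (x : X) : f x = 0 := by
  have hint : Integrable f μ :=
    hf.integrable_of_hasCompactSupport (HasCompactSupport.of_compactSpace f)
  have h1 : ∫ x, f x ∂μ = 0 := le_antisymm h (integral_nonneg h0)
  rw [integral_eq_zero_iff_of_nonneg h0 hint] at h1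
  exact congrFun ((hf.ae_eq_iff_eq μ continuous_const).mp h1) x

theorem unitFieldBound_of (h : SphereBound) : UnitFieldBound := by
  intro p hp E _ _ _ _ _ a ha hE g hgp hfree v hv hvv
  have hvd : Differentiable ℝ v := hv.differentiable (by simp)
  have hv1 : ∀ u, ‖u‖ = 1 → ‖v u‖ = 1 := fun u hu => (hvv u hu).2.1
  have hvg : ∀ u, ‖u‖ = 1 → v (g u) = g (v u) := fun u hu => (hvv u hu).2.2
  set σ := (volume : Measure E).toSphere with hσ
  have hn1 : ∀ u : Metric.sphere (0 : E) 1, ‖(u : E)‖ = 1 := fun u => by simp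
  have hcont : ∀ s, Continuous fun u : Metric.sphere (0 : E) 1 => aVol v s u := fun s => by
    have : (fun u : Metric.sphere (0 : E) 1 => aVol v s u) =
        fun u : Metric.sphere (0 : E) 1 => √(sqJac v s (u : E)) :=
      funext fun u => aVol_eq_sqrt v s (hn1 u)
    rw [this]
    exact ((contDiff_sqJac hv s).continuous.comp continuous_subtype_val).sqrt
  have hint : ∀ f : Metric.sphere (0 : E) 1 → ℝ, Continuous f → Integrable f σ := fun f hf =>
    hf.integrable_of_hasCompactSupport (HasCompactSupport.of_compactSpace f)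
  have hlow : ∀ s, 0 < s → s < 1 → σ.real Set.univ ≤ ∫ u, aVol v s u ∂σ := fun s h0 h1 => by
    refine sphere_ineq h hp ha hE g hgp hfree hvd hv1 hvg (fun _ => s) (differentiable_const s)
      (fun _ _ => h0) (fun _ _ => h1) (fun _ _ => rfl) _ (hcont s) fun u => ?_
    obtain ⟨e, he⟩ := exists_tan_basis v (u : E)
    refine ⟨_, e, le_of_eq ?_⟩
    rw [aVol_eq_prod v s e he]
    simp
  intro t ht0 ht1
  refine ⟨hcont t, hlow t ht0 ht1, fun hle => ?_⟩
  -- the cut-off
  let χ : E → ℝ := fun x => Real.smoothTransition (1 - sqJac v t x)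
  have hχ : ContDiff ℝ 1 χ :=
    Real.smoothTransition.contDiff.comp (contDiff_const.sub (contDiff_sqJac hv t))
  have hχ0 : ∀ x, 0 ≤ χ x := fun x => Real.smoothTransition.nonneg _
  have hχ1 : ∀ x, χ x ≤ 1 := fun x => Real.smoothTransition.le_one _
  have hχd : Differentiable ℝ χ := hχ.differentiable one_ne_zero
  obtain ⟨B, hB⟩ : ∃ B, ∀ x ∈ Metric.sphere (0 : E) 1, ‖fderiv ℝ χ x‖ ≤ B :=
    (isCompact_sphere 0 1).exists_bound_of_continuousOn
      (hχ.continuous_fderiv one_ne_zero).continuousOn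
  have hapos : ∀ u : Metric.sphere (0 : E) 1, 0 < sqJac v t u := fun u => by
    obtain ⟨e, he⟩ := exists_tan_basis v (u : E)
    rw [sqJac_eq_prod v t (hn1 u) e he]
    exact prod_pos_of (fun i => sq_nonneg _) ht0.le ht1
  let q : Metric.sphere (0 : E) 1 → ℝ := fun u => χ u * (aVol v t u * (1 - aVol v t u))
  have hqc : Continuous q := (hχ.continuous.comp continuous_subtype_val).mul
    ((hcont t).mul (continuous_const.sub (hcont t)))
  have hq0 : ∀ u, 0 ≤ q u := fun u => by
    simp only [q, aVol_eq_sqrt v t (hn1 u)]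
    rcases le_total (sqJac v t u) 1 with h1 | h1
    · exact mul_nonneg (hχ0 _) (mul_nonneg (Real.sqrt_nonneg _)
        (sub_nonneg.mpr (Real.sqrt_le_one.mpr h1)))
    · have : χ u = 0 := Real.smoothTransition.zero_of_nonpos (by linarith)
      rw [this, zero_mul]
  set S := σ.real Set.univ with hS
  have hS0 : 0 ≤ S := measureReal_nonneg
  have hI0 : 0 ≤ ∫ u, q u ∂σ := integral_nonneg hq0
  let C : ℝ := t * B ^ 2 / (1 - t) ^ 2
  have hC : 0 ≤ C := by positivity
  have h1t : 0 < 1 - t := by linarith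
  have hpert : ∀ ε, 0 < ε → ε ≤ (1 - t) / 2 →
      ∫ u, q u ∂σ ≤ ε * (((1 + C) ^ finrank ℝ E - 1) * S) := by
    intro ε hε0 hε1
    have hε2 : ε ≤ 1 := by linarith
    have hd0 : ∀ x, 0 ≤ ε * χ x := fun x => mul_nonneg hε0.le (hχ0 x)
    have hd1 : ∀ x, ε * χ x ≤ ε := fun x => mul_le_of_le_one_right hε0.le (hχ1 x)
    have hτ1 : ∀ x, (1 - t) / 2 ≤ 1 - t * (1 + ε * χ x) := fun x => by
      nlinarith [hd0 x, hd1 x]
    have hτ0 : ∀ x, t ≤ t * (1 + ε * χ x) := fun x => by nlinarith [hd0 x]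
    have hτd : ∀ x, HasFDerivAt (fun x => t * (1 + ε * χ x)) (t • ε • fderiv ℝ χ x) x := fun x =>
      (((hχd x).hasFDerivAt.const_mul ε).const_add 1).const_mul t
    set K := (1 + C * ε ^ 2) ^ finrank ℝ E with hK
    have hK1 : 1 ≤ K := one_le_pow₀ (by nlinarith [mul_nonneg hC (sq_nonneg ε)])
    have hK2 : K ≤ 1 + ε ^ 2 * ((1 + C) ^ finrank ℝ E - 1) :=
      one_add_mul_pow_le hC (sq_nonneg _) (by nlinarith) _
    have key := sphere_ineq h hp ha hE g hgp hfree hvd hv1 hvg (fun x => t * (1 + ε * χ x))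
      (fun x => (hτd x).differentiableAt) (fun x _ => ht0.trans_le (hτ0 x))
      (fun x _ => by linarith [hτ1 x])
      (fun x hx => by simp only [χ, sqJac_equi hvd g hvg t hx])
      (fun u => K * (aVol v t u - ε * q u))
      (continuous_const.mul ((hcont t).sub (continuous_const.mul hqc))) (fun u => by
        obtain ⟨e, he⟩ := exists_tan_basis v (u : E)
        refine ⟨_, e, ?_⟩
        have hfin := finrank_tan (hn1 u)
        have hη : ‖fderiv ℝ (fun x => t * (1 + ε * χ x)) u‖ ^ 2 /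
            (4 * (t * (1 + ε * χ u)) * (1 - t * (1 + ε * χ u))) ≤
            C * ε ^ 2 * (1 - t * (1 + ε * χ u)) := by
          have h2 := hτ1 u
          have h3 := hτ0 u
          have h4 : ‖fderiv ℝ χ u‖ ^ 2 ≤ B ^ 2 :=
            pow_le_pow_left₀ (norm_nonneg _) (hB u u.2) 2
          rw [(hτd u).fderiv, norm_smul, norm_smul, Real.norm_eq_abs, Real.norm_eq_abs,
            abs_of_pos ht0, abs_of_pos hε0, div_le_iff₀ (by
              have : 0 < 1 - t * (1 + ε * χ u) := by linarith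
              have : 0 < t * (1 + ε * χ u) := by linarith
              positivity)]
          set y := 1 - t * (1 + ε * χ u)
          set z := t * (1 + ε * χ u)
          have h5 : (1 - t) ^ 2 ≤ 4 * y ^ 2 := by nlinarith
          have h6 : t * (1 - t) ^ 2 ≤ z * (4 * y ^ 2) :=
            mul_le_mul h3 h5 (sq_nonneg _) (by linarith)
          calc (t * (ε * ‖fderiv ℝ χ u‖)) ^ 2 = t ^ 2 * ε ^ 2 * ‖fderiv ℝ χ u‖ ^ 2 := by ring
            _ ≤ t ^ 2 * ε ^ 2 * B ^ 2 := by gcongr
            _ = C * ε ^ 2 * (t * (1 - t) ^ 2) := by simp only [C]; field_simp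
            _ ≤ C * ε ^ 2 * (z * (4 * y ^ 2)) := by gcongr
            _ = C * ε ^ 2 * y * (4 * z * y) := by ring
        have key := perturb_le (N := finrank ℝ E) (by omega)
          (x := fun i => ‖fderiv ℝ v u (e i)‖ ^ 2) (fun i => sq_nonneg _) ht0.le ht1 (hd0 u)
          ((hd1 u).trans hε2) (by linarith [hτ1 u]) (mul_nonneg hC (sq_nonneg ε))
          (div_nonneg (sq_nonneg _) (by
            have : 0 < 1 - t * (1 + ε * χ u) := by linarith [hτ1 u]
            have : 0 < t * (1 + ε * χ u) := by linarith [hτ0 u]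
            positivity)) hη
        refine key.trans (le_of_eq ?_)
        simp only [q, aVol_eq_prod v t e he, hK]
        ring)
    rw [integral_const_mul, integral_sub (hint _ (hcont t)) ((hint _ hqc).const_mul ε),
      integral_const_mul] at key
    set I := ∫ u, q u ∂σ
    have h5 : S ≤ K * (S - ε * I) :=
      key.trans (mul_le_mul_of_nonneg_left (by linarith) (by linarith))
    have h6 : ε * I ≤ K * (ε * I) := le_mul_of_one_le_left (by positivity) hK1
    have h7 : (K - 1) * S ≤ ε ^ 2 * ((1 + C) ^ finrank ℝ E - 1) * S :=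
      mul_le_mul_of_nonneg_right (by linarith) hS0
    have h8 : ε * I ≤ ε * (ε * (((1 + C) ^ finrank ℝ E - 1) * S)) := by nlinarith
    exact le_of_mul_le_mul_left h8 hε0
  have hI : ∫ u, q u ∂σ ≤ 0 := by
    set M := ((1 + C) ^ finrank ℝ E - 1) * S
    have hM : 0 ≤ M := mul_nonneg (sub_nonneg.mpr (one_le_pow₀ (by linarith))) hS0
    refine le_of_forall_pos_le_add fun δ hδ => ?_
    have h1 := hpert (min ((1 - t) / 2) (δ / (M + 1))) (lt_min (by linarith) (by positivity))
      (min_le_left _ _)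
    have h2 : min ((1 - t) / 2) (δ / (M + 1)) * M ≤ δ / (M + 1) * (M + 1) :=
      mul_le_mul (min_le_right _ _) (by linarith) hM (by positivity)
    rw [div_mul_cancel₀ _ (by positivity)] at h2
    linarith
  have hge : ∀ u : Metric.sphere (0 : E) 1, 1 ≤ aVol v t u := fun u => by
    by_contra hlt
    have h1 := eq_zero_of_integral_nonpos σ hqc hq0 hI u
    have h2 : 0 < aVol v t u := by
      rw [aVol_eq_sqrt v t (hn1 u)]; exact Real.sqrt_pos.mpr (hapos u)
    have h3 : sqJac v t u < 1 := by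
      by_contra h4
      exact hlt (by rw [aVol_eq_sqrt v t (hn1 u)]; exact Real.one_le_sqrt.mpr (not_lt.mp h4))
    have h4 : 0 < χ u := Real.smoothTransition.pos_of_pos (by linarith)
    have h5 : 0 < q u := mul_pos h4 (mul_pos h2 (by linarith [not_le.mp hlt]))
    linarith
  have hone : ∀ u : Metric.sphere (0 : E) 1, aVol v t u = 1 := fun u => by
    have := eq_zero_of_integral_nonpos σ (f := fun u => aVol v t u - 1)
      ((hcont t).sub continuous_const) (fun u => sub_nonneg.mpr (hge u)) (by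
        rw [integral_sub (hint _ (hcont t)) (hint _ continuous_const), integral_const]
        simp only [smul_eq_mul, mul_one]
        linarith) u
    linarith
  -- a larger parameter
  let r : ℝ := (1 + t) / (2 * t)
  have hr : 1 < r := by simp only [r]; rw [one_lt_div (by positivity)]; linarith
  have htr : t * r = (1 + t) / 2 := by simp only [r]; field_simp
  have hP1 : ∀ (u : Metric.sphere (0 : E) 1) (n : ℕ)
      (e : OrthonormalBasis (Fin n) ℝ (Submodule.span ℝ {(u : E)})ᗮ),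
      (∀ i j, i ≠ j → inner ℝ (fderiv ℝ v u (e i)) (fderiv ℝ v u (e j)) = 0) →
      ∏ i, (1 - t + t * ‖fderiv ℝ v u (e i)‖ ^ 2) ^ r = 1 := fun u n e he => by
    rw [Real.finsetProd_rpow _ _ (fun i _ => by positivity)]
    have h1 := hone u
    rw [aVol_eq_prod v t e he, Real.sqrt_eq_one] at h1
    rw [h1, Real.one_rpow]
  have hfac : ∀ y : ℝ, 0 ≤ y → 0 < 1 - t * r + t * r * y := fun y hy => by
    rw [htr]; nlinarith
  have hle2 : ∀ u : Metric.sphere (0 : E) 1, aVol v (t * r) u ≤ 1 := fun u => by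
    obtain ⟨e, he⟩ := exists_tan_basis v (u : E)
    rw [aVol_eq_prod v _ e he]
    refine Real.sqrt_le_one.mpr ?_
    refine le_trans ?_ (hP1 u _ e he).le
    exact Finset.prod_le_prod (fun i _ => (hfac _ (sq_nonneg _)).le)
      fun i _ => factor_le (sq_nonneg _) ht0.le ht1 hr.le
  have hone2 : ∀ u : Metric.sphere (0 : E) 1, aVol v (t * r) u = 1 := fun u => by
    have := eq_zero_of_integral_nonpos σ (f := fun u => 1 - aVol v (t * r) u)
      (continuous_const.sub (hcont _)) (fun u => sub_nonneg.mpr (hle2 u)) (by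
        rw [integral_sub (hint _ continuous_const) (hint _ (hcont _)), integral_const]
        simp only [smul_eq_mul, mul_one]
        have := hlow (t * r) (by rw [htr]; linarith) (by rw [htr]; linarith)
        linarith) u
    linarith
  intro u hu w hw
  obtain ⟨e, he⟩ := exists_tan_basis v u
  have hx : ∀ i, ‖fderiv ℝ v u (e i)‖ ^ 2 = 1 := fun i => by
    by_contra hne
    have h1 := hone2 ⟨u, by simpa using hu⟩
    have h2 := hP1 ⟨u, by simpa using hu⟩ _ e he
    rw [aVol_eq_prod v _ e he, Real.sqrt_eq_one] at h1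
    have h3 := Finset.prod_lt_prod (s := Finset.univ)
      (f := fun i => 1 - t * r + t * r * ‖fderiv ℝ v u (e i)‖ ^ 2)
      (g := fun i => (1 - t + t * ‖fderiv ℝ v u (e i)‖ ^ 2) ^ r)
      (fun i _ => hfac _ (sq_nonneg _)) (fun i _ => factor_le (sq_nonneg _) ht0.le ht1 hr.le)
      ⟨i, Finset.mem_univ _, factor_lt (sq_nonneg _) hne ht0 ht1 hr⟩
    exact absurd (h1.symm.trans_lt (h3.trans_eq h2)) (lt_irrefl _)
  exact norm_eq_of_orth_basis ((fderiv ℝ v u : E →ₗ[ℝ] E) ∘ₗ (Submodule.span ℝ {u})ᗮ.subtype) e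
    he hx ⟨w, Submodule.mem_orthogonal_singleton_iff_inner_right.mpr hw⟩

end Pool.Agent.MP_8bdec9_gt

end MrgPart2

-- ======== part 3: formerly Pool.Agent.MP_8bdec9_gt.NormDetBlock
section MrgPart3

/-! Block formulas and measurability for the norm determinant. -/

open MeasureTheory Module

namespace Pool.Agent.MP_8bdec9_gt.H33

section
variable {X X' W W' : Type} [NormedAddCommGroup X] [InnerProductSpace ℝ X] [FiniteDimensional ℝ X]
  [NormedAddCommGroup X'] [InnerProductSpace ℝ X'] [FiniteDimensional ℝ X']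
  [NormedAddCommGroup W] [InnerProductSpace ℝ W] [NormedAddCommGroup W'] [InnerProductSpace ℝ W']

theorem normDet_eq_sqrt {ι : Type} [Fintype ι] [DecidableEq ι] (f : X →ₗ[ℝ] W)
    (b : OrthonormalBasis ι ℝ X) :
    f.normDet = √((Matrix.gram ℝ (fun i => f (b i))).det) := by
  have h := f.normDet_sq_eq_det_gram b
  simp only [RCLike.ofReal_real_eq_id, id_eq] at h
  rw [← h, Real.sqrt_sq f.normDet_nonneg]

/-- Block formula: the two summands have orthogonal images, described by `A` and `B`. -/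
theorem normDet_block {Z Z' : Type} [NormedAddCommGroup Z] [InnerProductSpace ℝ Z]
    [NormedAddCommGroup Z'] [InnerProductSpace ℝ Z']
    (T : WithLp 2 (X × X') →ₗ[ℝ] W) (A : X →ₗ[ℝ] Z) (B : X' →ₗ[ℝ] Z')
    (hA : ∀ x y, inner ℝ (T (WithLp.toLp 2 (x, 0))) (T (WithLp.toLp 2 (y, 0))) = inner ℝ (A x) (A y))
    (hB : ∀ x y, inner ℝ (T (WithLp.toLp 2 (0, x))) (T (WithLp.toLp 2 (0, y))) = inner ℝ (B x) (B y))
    (hAB : ∀ x y, inner ℝ (T (WithLp.toLp 2 (x, 0))) (T (WithLp.toLp 2 (0, y))) = 0) :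
    T.normDet = A.normDet * B.normDet := by
  let b := stdOrthonormalBasis ℝ X
  let b' := stdOrthonormalBasis ℝ X'
  have h1 := T.normDet_sq_eq_det_gram (b.prod b')
  have h2 := A.normDet_sq_eq_det_gram b
  have h3 := B.normDet_sq_eq_det_gram b'
  simp only [RCLike.ofReal_real_eq_id, id_eq] at h1 h2 h3
  have hg : Matrix.gram ℝ (fun i => T ((b.prod b') i)) =
      Matrix.fromBlocks (Matrix.gram ℝ (fun i => A (b i))) 0 0 (Matrix.gram ℝ (fun i => B (b' i))) := by
    ext i j
    rcases i with i | i <;> rcases j with j | j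
    · simpa [Matrix.gram_apply] using hA (b i) (b j)
    · simpa [Matrix.gram_apply] using hAB (b i) (b' j)
    · have := hAB (b j) (b' i)
      rw [real_inner_comm] at this
      simpa [Matrix.gram_apply] using this
    · simpa [Matrix.gram_apply] using hB (b' i) (b' j)
  rw [hg, Matrix.det_fromBlocks_zero₁₂, ← h2, ← h3, ← mul_pow] at h1
  exact (sq_eq_sq₀ T.normDet_nonneg (mul_nonneg A.normDet_nonneg B.normDet_nonneg)).1 h1

theorem normDet_split (T : X →ₗ[ℝ] W) (K : Submodule ℝ X)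
    (h : ∀ x ∈ K, ∀ y ∈ Kᗮ, inner ℝ (T x) (T y) = 0) :
    T.normDet = (T.domRestrict K).normDet * (T.domRestrict Kᗮ).normDet := by
  let e := K.orthogonalDecomposition.symm
  have h1 : (T ∘ₗ e.toLinearIsometry.toLinearMap).normDet = T.normDet := by
    rw [LinearMap.normDet_comp_of_finrank_eq _ _ e.toLinearEquiv.finrank_eq,
      LinearIsometry.normDet_eq_one, mul_one]
  rw [← h1]
  apply normDet_block
  · intro x y
    simp [e]
  · intro x y
    simp [e]
  · intro x y
    simpa [e] using h x x.2 y y.2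

theorem continuous_normDet : Continuous (fun T : X →L[ℝ] W => (T : X →ₗ[ℝ] W).normDet) := by
  let b := stdOrthonormalBasis ℝ X
  have : (fun T : X →L[ℝ] W => (T : X →ₗ[ℝ] W).normDet) =
      fun T : X →L[ℝ] W => √((Matrix.gram ℝ (fun i => T (b i))).det) := by
    funext T
    exact normDet_eq_sqrt (T : X →ₗ[ℝ] W) b
  rw [this]
  refine Real.continuous_sqrt.comp (Continuous.matrix_det ?_)
  refine continuous_matrix fun i j => ?_
  simp only [Matrix.gram_apply]
  fun_prop

theorem measurable_normDet_fderiv [MeasurableSpace X] [BorelSpace X] [FiniteDimensional ℝ W]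
    (Φ : X → W) : Measurable (fun x => (fderiv ℝ Φ x : X →ₗ[ℝ] W).normDet) := by
  have : CompleteSpace W := FiniteDimensional.complete ℝ W
  exact (continuous_normDet (X := X) (W := W)).measurable.comp (measurable_fderiv ℝ Φ)

omit [FiniteDimensional ℝ X] in
theorem normDet_line (T : X →ₗ[ℝ] W) (u : X) (hu : ‖u‖ = 1) :
    (T.domRestrict (Submodule.span ℝ {u})).normDet = ‖T u‖ := by
  have hu0 : u ≠ 0 := by
    rintro rfl
    simp at hu
  have hfin : finrank ℝ (Submodule.span ℝ ({u} : Set X)) = 1 := finrank_span_singleton hu0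
  let v : Submodule.span ℝ ({u} : Set X) := ⟨u, Submodule.mem_span_singleton_self u⟩
  have hv : ‖v‖ = 1 := hu
  let b : OrthonormalBasis Unit ℝ (Submodule.span ℝ ({u} : Set X)) :=
    FiniteDimensional.orthonormalBasisSingleton Unit ℝ hfin v hv
  rw [normDet_eq_sqrt _ b]
  have hb : b () = v := by simp [b]
  simp [Matrix.gram_apply, hb, v]

end

end Pool.Agent.MP_8bdec9_gt.H33

end MrgPart3

-- ======== part 4: formerly Pool.Agent.MP_8bdec9_gt.SphereOfCone
section MrgPart4

/-! Polar coordinates: the sharp bound for cones implies the sharp bound for spheres. -/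

open MeasureTheory Module Filter Topology

namespace Pool.Agent.MP_8bdec9_gt

namespace H33

section
variable {E W : Type} [NormedAddCommGroup E] [InnerProductSpace ℝ E]
  [NormedAddCommGroup W] [InnerProductSpace ℝ W]

/-- The `2`-homogeneous extension of a map on the unit sphere. -/
noncomputable def cone (f : E → W) (x : E) : W := ‖x‖ ^ 2 • f (‖x‖⁻¹ • x)

theorem norm_unit {x : E} (hx : x ≠ 0) : ‖‖x‖⁻¹ • x‖ = 1 := by
  rw [norm_smul, norm_inv, norm_norm, inv_mul_cancel₀ (norm_ne_zero_iff.2 hx)]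

theorem cone_smul (f : E → W) {t : ℝ} (ht : 0 < t) (x : E) : cone f (t • x) = t ^ 2 • cone f x := by
  unfold cone
  rw [norm_smul, Real.norm_of_nonneg ht.le, mul_pow, smul_smul, smul_smul, mul_inv,
    mul_comm t⁻¹, mul_assoc, inv_mul_cancel₀ ht.ne', mul_one]

theorem norm_cone {f : E → W} (hn : ∀ u, ‖u‖ = 1 → ‖f u‖ = 1) (x : E) :
    ‖cone f x‖ = ‖x‖ ^ 2 := by
  by_cases hx : x = 0
  · simp [cone, hx]
  · rw [cone, norm_smul, hn _ (norm_unit hx), mul_one, norm_pow, norm_norm]

theorem differentiable_cone {f : E → W} (hd : ∀ u, ‖u‖ = 1 → DifferentiableAt ℝ f u)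
    (hn : ∀ u, ‖u‖ = 1 → ‖f u‖ = 1) : Differentiable ℝ (cone f) := by
  intro x
  by_cases hx : x = 0
  · subst hx
    have : (cone f) =O[𝓝 0] fun x : E => ‖x - 0‖ ^ 2 :=
      Asymptotics.IsBigO.of_bound 1 (Eventually.of_forall fun x => by simp [norm_cone hn])
    exact (this.hasFDerivAt (𝕜 := ℝ) one_lt_two).differentiableAt
  · have h1 : DifferentiableAt ℝ (fun y : E => ‖y‖) x := differentiableAt_id.norm ℝ hx
    have h2 : DifferentiableAt ℝ (fun y : E => ‖y‖⁻¹ • y) x :=
      (h1.inv (norm_ne_zero_iff.2 hx)).smul differentiableAt_id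
    exact (h1.pow 2).smul (DifferentiableAt.comp x (f := fun y : E => ‖y‖⁻¹ • y)
      (hd _ (norm_unit hx)) h2)

theorem fderiv_cone_unit {f : E → W} {u : E} (hu : ‖u‖ = 1) (hd : DifferentiableAt ℝ f u) (w : E) :
    fderiv ℝ (cone f) u w = (2 * inner ℝ u w) • f u + fderiv ℝ f u (w - inner ℝ u w • u) := by
  have hsq := (hasStrictFDerivAt_norm_sq u).hasFDerivAt
  have h1 : HasFDerivAt (fun y : E => ‖y‖) (innerSL ℝ u) u := by
    have := hsq.sqrt (by simp [hu])
    simp only [Real.sqrt_sq (norm_nonneg _), hu] at this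
    convert this using 1
    ext v
    simp
  have h2 : HasFDerivAt (fun y : E => ‖y‖⁻¹) (-(innerSL ℝ u)) u := by
    have := (hasDerivAt_inv (x := ‖u‖) (by simp [hu])).comp_hasFDerivAt u h1
    rw [hu, one_pow, inv_one, neg_smul, one_smul] at this
    exact this
  have h3 := h2.smul (hasFDerivAt_id u)
  have hd' : HasFDerivAt f (fderiv ℝ f u) (‖u‖⁻¹ • u) := by
    rw [hu, inv_one, one_smul]; exact hd.hasFDerivAt
  have h4 := hsq.smul (HasFDerivAt.comp u (f := fun y : E => ‖y‖⁻¹ • y) hd' h3)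
  have h5 : fderiv ℝ (cone f) u = _ := h4.fderiv
  rw [h5]
  simp [hu, sub_eq_add_neg, add_comm]

theorem fderiv_cone_smul {f : E → W} (hd : Differentiable ℝ (cone f)) {t : ℝ} (ht : 0 < t) (u : E) :
    fderiv ℝ (cone f) (t • u) = t • fderiv ℝ (cone f) u := by
  have h1 : HasFDerivAt (fun x : E => cone f (t • x))
      ((fderiv ℝ (cone f) (t • u)).comp (t • ContinuousLinearMap.id ℝ E)) u :=
    (hd (t • u)).hasFDerivAt.comp u ((hasFDerivAt_id u).const_smul t)
  have h2 : HasFDerivAt (fun x : E => cone f (t • x)) (t ^ 2 • fderiv ℝ (cone f) u) u := by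
    simp only [cone_smul f ht]
    exact (hd u).hasFDerivAt.const_smul (t ^ 2)
  have h3 := h1.unique h2
  ext w
  have h4 := congrArg (fun L : E →L[ℝ] W => L w) h3
  simp only [ContinuousLinearMap.comp_apply, smul_apply,
    ContinuousLinearMap.id_apply, map_smul] at h4
  apply smul_right_injective W ht.ne'
  simp only [smul_apply]
  rw [h4, smul_smul, sq]

theorem inner_fderiv_cone {f : E → W} (hd : Differentiable ℝ (cone f))
    (hn : ∀ u, ‖u‖ = 1 → ‖f u‖ = 1) (u w : E) (huw : inner ℝ u w = 0) :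
    inner ℝ (cone f u) (fderiv ℝ (cone f) u w) = 0 := by
  have h1 := (hd u).hasFDerivAt.norm_sq
  have h2 := (hasStrictFDerivAt_norm_sq u).hasFDerivAt.pow 2
  simp only [norm_cone hn] at h1
  have h3 := congrArg (fun L : E →L[ℝ] ℝ => L w) (h1.unique h2)
  simpa [huw] using h3

variable [FiniteDimensional ℝ E]

theorem normDet_cone_unit {f : E → W} (hd : ∀ u, ‖u‖ = 1 → DifferentiableAt ℝ f u)
    (hn : ∀ u, ‖u‖ = 1 → ‖f u‖ = 1) {u : E} (hu : ‖u‖ = 1) :
    (fderiv ℝ (cone f) u : E →ₗ[ℝ] W).normDet =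
      2 * ((fderiv ℝ f u : E →ₗ[ℝ] W).domRestrict (Submodule.span ℝ {u})ᗮ).normDet := by
  have huu : inner ℝ u u = (1 : ℝ) := by rw [real_inner_self_eq_norm_sq, hu, one_pow]
  have hcu : cone f u = f u := by simp [cone, hu]
  have hu2 : fderiv ℝ (cone f) u u = (2 : ℝ) • f u := by
    rw [fderiv_cone_unit hu (hd u hu), huu]
    simp
  rw [normDet_split _ (Submodule.span ℝ {u}), normDet_line _ u hu]
  · congr 1
    · simp [hu2, norm_smul, hn u hu]
    · congr 1
      ext w
      have hw : inner ℝ u w = (0 : ℝ) := Submodule.mem_orthogonal_singleton_iff_inner_right.1 w.2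
      simp [fderiv_cone_unit hu (hd u hu), hw]
  · intro x hx y hy
    obtain ⟨c, rfl⟩ := Submodule.mem_span_singleton.1 hx
    have hw : inner ℝ u y = (0 : ℝ) := Submodule.mem_orthogonal_singleton_iff_inner_right.1 hy
    have := inner_fderiv_cone (differentiable_cone hd hn) hn u y hw
    rw [hcu] at this
    simp [hu2, inner_smul_left, this]

theorem lintegral_polar [MeasurableSpace E] [BorelSpace E] [Nontrivial E] (F : E → ENNReal)
    (G : Metric.sphere (0 : E) 1 → ENNReal) (h : ℝ → ENNReal) (hG : Measurable G)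
    (hh : Measurable h)
    (hF : ∀ (u : Metric.sphere (0 : E) 1) (r : ℝ), 0 < r → F (r • (u : E)) = G u * h r) :
    ∫⁻ x, F x = (∫⁻ u, G u ∂(volume : Measure E).toSphere) *
      ∫⁻ r in Set.Ioi (0 : ℝ), ENNReal.ofReal (r ^ (finrank ℝ E - 1)) * h r := by
  have h1 := (volume : Measure E).measurePreserving_homeomorphUnitSphereProd.symm
    (homeomorphUnitSphereProd E).toMeasurableEquiv
  have h2 : ∫⁻ x, F x = ∫⁻ x : ({(0)}ᶜ : Set E), F x ∂((volume : Measure E).comap (↑)) := by
    rw [lintegral_subtype_comap (measurableSet_singleton _).compl, restrict_compl_singleton]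
  rw [h2, ← h1.lintegral_comp_emb (MeasurableEquiv.measurableEmbedding _)]
  have h3 : ∀ z : Metric.sphere (0 : E) 1 × Set.Ioi (0 : ℝ),
      F ((homeomorphUnitSphereProd E).toMeasurableEquiv.symm z) = G z.1 * h z.2 := by
    intro z
    rw [← hF z.1 z.2 z.2.2]
    rfl
  simp only [h3]
  rw [lintegral_prod_mul hG.aemeasurable (g := fun r : Set.Ioi (0 : ℝ) => h r)
    (hh.comp measurable_subtype_coe).aemeasurable]
  congr 1
  rw [Measure.volumeIoiPow, lintegral_withDensity_eq_lintegral_mul _ (by fun_prop)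
    (g := fun r : Set.Ioi (0 : ℝ) => h r) (hh.comp measurable_subtype_coe)]
  exact lintegral_subtype_comap measurableSet_Ioi
    (fun r : ℝ => ENNReal.ofReal (r ^ (finrank ℝ E - 1)) * h r)

end

theorem radial_integral (a : ℕ) (ha : 1 ≤ a) :
    ∫⁻ r in Set.Ioi (0 : ℝ), ENNReal.ofReal (r ^ (2 * a - 1)) *
      ENNReal.ofReal (Real.exp (-(r ^ 2) ^ 2) * (2 * r ^ (2 * a))) =
      ENNReal.ofReal ((a - 1).factorial / 2) := by
  have hq : (-1 : ℝ) < 4 * a - 1 := by
    have : (1 : ℝ) ≤ a := by exact_mod_cast ha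
    linarith
  have h1 := integral_rpow_mul_exp_neg_rpow (p := 4) (q := 4 * a - 1) (by norm_num) hq
  have h2 := integrableOn_rpow_mul_exp_neg_rpow (p := 4) (s := 4 * a - 1) hq (by norm_num)
  have h3 : ((4 * a - 1 + 1) / 4 : ℝ) = ((a - 1 : ℕ) : ℝ) + 1 := by
    rw [Nat.cast_sub ha]; push_cast; ring
  rw [h3, Real.Gamma_nat_eq_factorial] at h1
  have h4 : ∫ x in Set.Ioi (0 : ℝ), 2 * (x ^ (4 * a - 1 : ℝ) * Real.exp (-x ^ (4 : ℝ))) =
      (a - 1).factorial / 2 := by
    rw [integral_const_mul, h1]; ring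
  rw [← h4, ofReal_integral_eq_lintegral_ofReal (h2.const_mul 2)]
  · refine setLIntegral_congr_fun measurableSet_Ioi fun r hr => ?_
    have hr : 0 < r := hr
    rw [← ENNReal.ofReal_mul (by positivity)]
    congr 1
    have e1 : r ^ (4 * a - 1 : ℝ) = r ^ (2 * a - 1) * r ^ (2 * a) := by
      rw [← pow_add, ← Real.rpow_natCast]
      congr 1
      rw [Nat.cast_add, Nat.cast_sub (by omega)]
      push_cast
      ring
    have e2 : r ^ (4 : ℝ) = (r ^ 2) ^ 2 := by
      rw [← pow_mul, ← Real.rpow_natCast]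
      norm_num
    rw [e1, e2]
    ring
  · filter_upwards [ae_restrict_mem measurableSet_Ioi] with r hr
    have hr : 0 < r := hr
    positivity

end H33

theorem sphereBound_of (h : ConeBound) : SphereBound := by
  intro p hp E W _ _ _ _ _ _ _ _ a ha hE g J U hg hJ hUJ hU hUf f hd hn he
  have : Nontrivial E := Module.nontrivial_of_finrank_pos (R := ℝ) (by omega)
  have hdiff := H33.differentiable_cone hd hn
  have hdata : ConeData p (g : E →L[ℝ] E) J U (H33.cone f) :=
    { hg := hg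
      hJ := hJ
      hUJ := hUJ
      hU := hU
      hUfree := hUf
      diff := hdiff
      equi := fun x => by
        by_cases hx : x = 0
        · simp [H33.cone, hx]
        · have := he _ (H33.norm_unit hx)
          rw [map_smul] at this
          simp [H33.cone, this]
      hom := fun t ht x => H33.cone_smul f ht x
      ne := fun x hx h0 => by
        have := H33.norm_cone hn x
        rw [h0, norm_zero] at this
        exact hx (norm_eq_zero.1 (pow_eq_zero_iff two_ne_zero |>.1 this.symm)) }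
  have h1 := h p hp E W a ha hE _ J U _ hdata
  let G : Metric.sphere (0 : E) 1 → ENNReal := fun u => ENNReal.ofReal
    (((fderiv ℝ f u : E →ₗ[ℝ] W).domRestrict (Submodule.span ℝ {(u : E)})ᗮ).normDet)
  have hu1 : ∀ u : Metric.sphere (0 : E) 1, ‖(u : E)‖ = 1 := fun u => by simp
  have hG : Measurable G := by
    have : G = fun u : Metric.sphere (0 : E) 1 =>
        ENNReal.ofReal ((fderiv ℝ (H33.cone f) u : E →ₗ[ℝ] W).normDet / 2) := by
      funext u
      rw [H33.normDet_cone_unit hd hn (hu1 u), mul_div_cancel_left₀ _ two_ne_zero]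
    rw [this]
    exact ENNReal.measurable_ofReal.comp
      (((H33.measurable_normDet_fderiv (H33.cone f)).comp measurable_subtype_coe).div_const 2)
  have h2 : gaussArea (H33.cone f) = (∫⁻ u, G u ∂(volume : Measure E).toSphere) *
      ENNReal.ofReal ((a - 1).factorial / 2) := by
    rw [← H33.radial_integral a ha, ← hE]
    refine H33.lintegral_polar _ G
      (fun r => ENNReal.ofReal (Real.exp (-(r ^ 2) ^ 2) * (2 * r ^ (finrank ℝ E)))) hG
      (by fun_prop) fun u r hr => ?_
    rw [H33.norm_cone hn, H33.fderiv_cone_smul hdiff hr, ContinuousLinearMap.toLinearMap_smul,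
      LinearMap.normDet_smul, H33.normDet_cone_unit hd hn (hu1 u), norm_smul, hu1,
      Real.norm_of_nonneg hr.le, mul_one, ← ENNReal.ofReal_mul (LinearMap.normDet_nonneg _)]
    congr 1
    ring
  have h3 : ENNReal.ofReal (Real.pi ^ a) = (volume : Measure E).toSphere Set.univ *
      ENNReal.ofReal ((a - 1).factorial / 2) := by
    rw [Measure.toSphere_apply_univ, InnerProductSpace.volume_ball_of_dim_even hE, hE,
      ENNReal.ofReal_one, one_pow, one_mul, ← ENNReal.ofReal_natCast,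
      ← ENNReal.ofReal_mul (by positivity), ← ENNReal.ofReal_mul (by positivity)]
    congr 1
    obtain ⟨b, rfl⟩ : ∃ b, a = b + 1 := ⟨a - 1, by omega⟩
    rw [Nat.add_sub_cancel, Nat.factorial_succ]
    push_cast
    field_simp
  rw [h2, h3] at h1
  exact (ENNReal.mul_le_mul_iff_left (by simp [Nat.factorial_pos]) ENNReal.ofReal_ne_top).1 h1

end Pool.Agent.MP_8bdec9_gt

end MrgPart4

-- ======== part 5: formerly Pool.Agent.MP_8bdec9_gt.TensorPower
section MrgPart5

/-! The tensor power trick: the bound with losses implies the sharp bound for cones. -/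

open MeasureTheory Module Filter Topology

namespace Pool.Agent.MP_8bdec9_gt

namespace H33

section
variable {X W : Type} [NormedAddCommGroup X] [InnerProductSpace ℝ X]
  [NormedAddCommGroup W] [InnerProductSpace ℝ W]

/-- The square of a continuous linear map, on `L²` products. -/
noncomputable def sqL (A B : X →L[ℝ] W) : WithLp 2 (X × X) →L[ℝ] WithLp 2 (W × W) :=
  (WithLp.prodContinuousLinearEquiv 2 ℝ W W).symm.toContinuousLinearMap ∘L (A.prodMap B) ∘L
    (WithLp.prodContinuousLinearEquiv 2 ℝ X X).toContinuousLinearMap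

theorem sqL_apply (A B : X →L[ℝ] W) (z : WithLp 2 (X × X)) :
    sqL A B z = WithLp.toLp 2 (A z.fst, B z.snd) := rfl

/-- The square of a map. -/
def sqMap (Φ : X → W) (z : WithLp 2 (X × X)) : WithLp 2 (W × W) :=
  WithLp.toLp 2 (Φ z.fst, Φ z.snd)

theorem hasFDerivAt_sqMap {Φ : X → W} (h : Differentiable ℝ Φ) (z : WithLp 2 (X × X)) :
    HasFDerivAt (sqMap Φ) (sqL (fderiv ℝ Φ z.fst) (fderiv ℝ Φ z.snd)) z := by
  have h1 : HasFDerivAt (Prod.map Φ Φ) ((fderiv ℝ Φ z.fst).prodMap (fderiv ℝ Φ z.snd))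
      (WithLp.prodContinuousLinearEquiv 2 ℝ X X z) :=
    HasFDerivAt.prodMap _ (h _).hasFDerivAt (h _).hasFDerivAt
  have h2 := h1.comp z (WithLp.prodContinuousLinearEquiv 2 ℝ X X).hasFDerivAt
  exact (WithLp.prodContinuousLinearEquiv 2 ℝ W W).symm.hasFDerivAt.comp z h2

theorem iterate_sqL (g : X →L[ℝ] X) (n : ℕ) (z : WithLp 2 (X × X)) :
    (sqL g g)^[n] z = WithLp.toLp 2 (g^[n] z.fst, g^[n] z.snd) := by
  induction n with
  | zero => rfl
  | succ n ih => rw [Function.iterate_succ_apply', ih, sqL_apply, Function.iterate_succ_apply',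
      Function.iterate_succ_apply']; rfl

theorem congr_apply (U : W ≃ₗᵢ[ℝ] W) (z : WithLp 2 (W × W)) :
    LinearIsometryEquiv.withLpProdCongr 2 U U z = WithLp.toLp 2 (U z.fst, U z.snd) := rfl

theorem iterate_congr (U : W ≃ₗᵢ[ℝ] W) (n : ℕ) (z : WithLp 2 (W × W)) :
    (LinearIsometryEquiv.withLpProdCongr 2 U U)^[n] z =
      WithLp.toLp 2 (U^[n] z.fst, U^[n] z.snd) := by
  induction n with
  | zero => rfl
  | succ n ih => rw [Function.iterate_succ_apply', ih, congr_apply, Function.iterate_succ_apply',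
      Function.iterate_succ_apply']; rfl

omit [NormedAddCommGroup W] [InnerProductSpace ℝ W] in
theorem ext2 {z w : WithLp 2 (W × W)} (h1 : z.fst = w.fst) (h2 : z.snd = w.snd) : z = w := by
  obtain ⟨z1, z2⟩ := z
  obtain ⟨w1, w2⟩ := w
  simp only [WithLp.toLp_fst, WithLp.toLp_snd] at h1 h2
  rw [h1, h2]

theorem coneData_sq {p : ℕ} {g : X →L[ℝ] X} {J U : W ≃ₗᵢ[ℝ] W} {Φ : X → W}
    (h : ConeData p g J U Φ) :
    ConeData p (sqL g g) (LinearIsometryEquiv.withLpProdCongr 2 J J)
      (LinearIsometryEquiv.withLpProdCongr 2 U U) (sqMap Φ) where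
  hg x := by rw [iterate_sqL, h.hg, h.hg]; rfl
  hJ w := by
    apply ext2
    · exact h.hJ _
    · exact h.hJ _
  hUJ w := by
    apply ext2
    · exact h.hUJ _
    · exact h.hUJ _
  hU w := by rw [iterate_congr, h.hU, h.hU]; rfl
  hUfree w hw := by
    apply ext2
    · exact h.hUfree _ (congrArg WithLp.fst hw)
    · exact h.hUfree _ (congrArg WithLp.snd hw)
  diff z := (hasFDerivAt_sqMap h.diff z).differentiableAt
  equi x := by
    apply ext2
    · exact h.equi _
    · exact h.equi _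
  hom t ht x := by
    apply ext2
    · exact h.hom t ht _
    · exact h.hom t ht _
  ne x hx h0 := by
    apply hx
    apply ext2
    · by_contra h1
      exact h.ne _ h1 (congrArg WithLp.fst h0)
    · by_contra h1
      exact h.ne _ h1 (congrArg WithLp.snd h0)

variable [FiniteDimensional ℝ X]

theorem normDet_sqL (A B : X →L[ℝ] W) :
    (sqL A B : WithLp 2 (X × X) →ₗ[ℝ] WithLp 2 (W × W)).normDet =
      (A : X →ₗ[ℝ] W).normDet * (B : X →ₗ[ℝ] W).normDet := by
  apply normDet_block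
  · intro x y
    simp [sqL_apply]
  · intro x y
    simp [sqL_apply]
  · intro x y
    simp [sqL_apply]

theorem gaussArea_sq [MeasurableSpace X] [BorelSpace X] [FiniteDimensional ℝ W] {Φ : X → W}
    (h : Differentiable ℝ Φ) : gaussArea (sqMap Φ) = gaussArea Φ ^ 2 := by
  let F : X → ENNReal := fun x =>
    ENNReal.ofReal (Real.exp (-‖Φ x‖ ^ 2) * (fderiv ℝ Φ x : X →ₗ[ℝ] W).normDet)
  have hF : Measurable F := by
    refine ENNReal.measurable_ofReal.comp (Measurable.mul ?_ (measurable_normDet_fderiv Φ))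
    have := h.continuous
    exact Continuous.measurable (by fun_prop)
  have h1 : gaussArea (sqMap Φ) =
      ∫⁻ z : WithLp 2 (X × X), (fun y : X × X => F y.1 * F y.2) (WithLp.ofLp z) := by
    unfold gaussArea
    refine lintegral_congr fun z => ?_
    rw [(hasFDerivAt_sqMap h z).fderiv, normDet_sqL]
    simp only [F]
    rw [← ENNReal.ofReal_mul (mul_nonneg (Real.exp_pos _).le (LinearMap.normDet_nonneg _)),
      WithLp.prod_norm_sq_eq_of_L2, neg_add, Real.exp_add]
    congr 1
    change _ = Real.exp (-‖Φ z.fst‖ ^ 2) * (fderiv ℝ Φ z.fst : X →ₗ[ℝ] W).normDet *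
      (Real.exp (-‖Φ z.snd‖ ^ 2) * (fderiv ℝ Φ z.snd : X →ₗ[ℝ] W).normDet)
    simp only [sqMap, WithLp.toLp_fst, WithLp.toLp_snd]
    ring
  have hm : Measurable (fun y : X × X => F y.1 * F y.2) :=
    (hF.comp measurable_fst).mul (hF.comp measurable_snd)
  rw [h1, (WithLp.volume_preserving_ofLp X X).lintegral_comp hm, Measure.volume_eq_prod,
    lintegral_prod_mul hF.aemeasurable hF.aemeasurable, sq]
  rfl

end

theorem finrank_sq (X : Type) [NormedAddCommGroup X] [InnerProductSpace ℝ X]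
    [FiniteDimensional ℝ X] : finrank ℝ (WithLp 2 (X × X)) = 2 * finrank ℝ X := by
  rw [(WithLp.linearEquiv 2 ℝ (X × X)).finrank_eq, Module.finrank_prod, two_mul]

theorem iterate_bound {p : ℕ} {C Λ : ℝ} {N : ℕ}
    (H : ∀ (X W : Type) [NormedAddCommGroup X] [InnerProductSpace ℝ X] [FiniteDimensional ℝ X]
      [MeasurableSpace X] [BorelSpace X]
      [NormedAddCommGroup W] [InnerProductSpace ℝ W] [FiniteDimensional ℝ W]
      (K : ℕ), 1 ≤ K → finrank ℝ X = 2 * K →
      ∀ (g : X →L[ℝ] X) (J U : W ≃ₗᵢ[ℝ] W) (Φ : X → W), ConeData p g J U Φ →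
      ENNReal.ofReal (Real.pi ^ K) ≤
        ENNReal.ofReal (C * ((K : ℝ) + finrank ℝ W + 1) ^ N * Λ ^ K) * gaussArea Φ) (j : ℕ) :
    ∀ (X W : Type) [NormedAddCommGroup X] [InnerProductSpace ℝ X] [FiniteDimensional ℝ X]
      [MeasurableSpace X] [BorelSpace X]
      [NormedAddCommGroup W] [InnerProductSpace ℝ W] [FiniteDimensional ℝ W]
      (K : ℕ), 1 ≤ K → finrank ℝ X = 2 * K →
      ∀ (g : X →L[ℝ] X) (J U : W ≃ₗᵢ[ℝ] W) (Φ : X → W), ConeData p g J U Φ →
      ENNReal.ofReal (Real.pi ^ (K * 2 ^ j)) ≤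
        ENNReal.ofReal (C * (((2 ^ j : ℕ) : ℝ) * ((K : ℝ) + finrank ℝ W) + 1) ^ N *
          Λ ^ (K * 2 ^ j)) * gaussArea Φ ^ (2 ^ j) := by
  induction j with
  | zero =>
    intro X W _ _ _ _ _ _ _ _ K hK hX g J U Φ hd
    simpa using H X W K hK hX g J U Φ hd
  | succ j ih =>
    intro X W _ _ _ _ _ _ _ _ K hK hX g J U Φ hd
    have := ih (WithLp 2 (X × X)) (WithLp 2 (W × W)) (2 * K) (by omega)
      (by rw [finrank_sq, hX]) _ _ _ _ (coneData_sq hd)
    rw [gaussArea_sq hd.diff, finrank_sq, ← pow_mul] at this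
    have e1 : K * 2 ^ (j + 1) = 2 * K * 2 ^ j := by ring
    have e2 : 2 ^ (j + 1) = 2 * 2 ^ j := by ring
    rw [e1, e2]
    convert this using 5
    push_cast
    ring

theorem one_le_of_bound {C B θ : ℝ} {N : ℕ} (hθ : 0 ≤ θ)
    (h : ∀ j : ℕ, 1 ≤ C * (((2 ^ j : ℕ) : ℝ) * B + 1) ^ N * θ ^ (2 ^ j)) : 1 ≤ θ := by
  by_contra hlt
  push Not at hlt
  have h1 : Tendsto (fun n : ℕ => C * (|B| + 1) ^ N * ((n : ℝ) ^ N * θ ^ n)) atTop
      (𝓝 (C * (|B| + 1) ^ N * 0)) :=
    (tendsto_pow_const_mul_const_pow_of_abs_lt_one N (by rwa [abs_of_nonneg hθ])).const_mul _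
  have h2 : Tendsto (fun j : ℕ => 2 ^ j) atTop atTop := tendsto_pow_atTop_atTop_of_one_lt one_lt_two
  have h3 := (h1.comp h2).abs
  rw [mul_zero, abs_zero] at h3
  obtain ⟨j, hj⟩ := (h3.eventually (gt_mem_nhds (show (0 : ℝ) < 1 by norm_num))).exists
  have h4 := (h j).trans (le_abs_self _)
  refine absurd (h4.trans_lt (lt_of_le_of_lt ?_ hj)) (lt_irrefl _)
  simp only [Function.comp, abs_mul, abs_pow]
  have hn : (1 : ℝ) ≤ ((2 ^ j : ℕ) : ℝ) := by exact_mod_cast Nat.one_le_two_pow
  have h5 : |((2 ^ j : ℕ) : ℝ) * B + 1| ≤ abs (|B| + 1) * |((2 ^ j : ℕ) : ℝ)| := by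
    rw [abs_of_nonneg (by positivity : (0 : ℝ) ≤ |B| + 1), abs_of_nonneg (by linarith : (0 : ℝ) ≤ ((2 ^ j : ℕ) : ℝ))]
    refine (abs_add_le _ _).trans ?_
    rw [abs_mul, abs_of_nonneg (by linarith : (0 : ℝ) ≤ ((2 ^ j : ℕ) : ℝ)), abs_one]
    nlinarith [abs_nonneg B]
  have h6 := pow_le_pow_left₀ (abs_nonneg _) h5 N
  rw [mul_pow] at h6
  calc |C| * |((2 ^ j : ℕ) : ℝ) * B + 1| ^ N * |θ| ^ 2 ^ j
      ≤ |C| * (abs (|B| + 1) ^ N * |((2 ^ j : ℕ) : ℝ)| ^ N) * |θ| ^ 2 ^ j := by gcongr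
    _ = _ := by ring

end H33

theorem coneBound_of (h : OneShot) : ConeBound := by
  intro p hp X W _ _ _ _ _ _ _ _ a ha hX g J U Φ hd
  by_cases htop : gaussArea Φ = ⊤
  · rw [htop]; exact le_top
  set A : ℝ := (gaussArea Φ).toReal with hA
  have hA0 : 0 ≤ A := ENNReal.toReal_nonneg
  have hGA : gaussArea Φ = ENNReal.ofReal A := (ENNReal.ofReal_toReal htop).symm
  have hp0 : (0 : ℝ) < p := by exact_mod_cast hp.pos
  have hpi : 0 < Real.pi ^ a := by positivity
  have key : ∀ δ : ℝ, 0 < δ → 4 * p * δ ≤ 1 →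
      1 ≤ ((1 + 2 * δ) / (1 - 2 * p * δ)) ^ a * A / Real.pi ^ a := by
    intro δ hδ hδ'
    obtain ⟨C, N, hC, H⟩ := h p hp δ hδ hδ'
    have hΛ : 0 ≤ (1 + 2 * δ) / (1 - 2 * p * δ) := div_nonneg (by linarith) (by linarith)
    refine H33.one_le_of_bound (C := C) (B := (a : ℝ) + finrank ℝ W) (N := N) (by positivity)
      fun j => ?_
    have h1 := H33.iterate_bound H j X W a ha hX g J U Φ hd
    rw [hGA, ← ENNReal.ofReal_pow hA0, ← ENNReal.ofReal_mul (by positivity),
      ENNReal.ofReal_le_ofReal_iff (by positivity)] at h1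
    rw [div_pow, mul_pow, ← pow_mul, ← pow_mul, ← mul_div_assoc, le_div_iff₀ (by positivity),
      one_mul, ← mul_assoc]
    exact h1
  have hc : Tendsto (fun δ : ℝ => ((1 + 2 * δ) / (1 - 2 * p * δ)) ^ a * A / Real.pi ^ a)
      (𝓝[>] 0) (𝓝 (((1 + 2 * 0) / (1 - 2 * p * 0)) ^ a * A / Real.pi ^ a)) := by
    refine tendsto_nhdsWithin_of_tendsto_nhds (ContinuousAt.tendsto (f := fun δ : ℝ =>
      ((1 + 2 * δ) / (1 - 2 * p * δ)) ^ a * A / Real.pi ^ a) ?_)
    refine ContinuousAt.div_const (ContinuousAt.mul (ContinuousAt.pow ?_ _) continuousAt_const) _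
    exact ContinuousAt.div (by fun_prop) (by fun_prop) (by simp)
  have hev : ∀ᶠ δ : ℝ in 𝓝[>] 0,
      1 ≤ ((1 + 2 * δ) / (1 - 2 * p * δ)) ^ a * A / Real.pi ^ a := by
    have h1 : Set.Ioo (0 : ℝ) (1 / (4 * p)) ∈ 𝓝[>] (0 : ℝ) := Ioo_mem_nhdsGT (by positivity)
    filter_upwards [h1] with δ hδ
    refine key δ hδ.1 ?_
    have := hδ.2
    rw [lt_div_iff₀ (by positivity)] at this
    linarith
  have h2 := ge_of_tendsto hc hev
  simp only [mul_zero, add_zero, sub_zero, div_one, one_pow, one_mul] at h2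
  rw [le_div_iff₀ hpi, one_mul] at h2
  rw [hGA]
  exact ENNReal.ofReal_le_ofReal h2

end Pool.Agent.MP_8bdec9_gt

end MrgPart5

-- ======== part 6: formerly Pool.Agent.MP_8bdec9_gt.Units2
section MrgPart6

/-! Measurability and moment bounds for the pairs of equations. -/

open MeasureTheory Module Set ProbabilityTheory
open scoped ENNReal ComplexConjugate

namespace Pool.Agent.MP_8bdec9_gt

namespace Dat

variable {W B N M : Type} [NormedAddCommGroup W] [InnerProductSpace ℝ W]
  [Fintype B] [Fintype M] [DecidableEq B] [DecidableEq M] {D : Dat W B N M}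
  {l : B × N × Bool → M} {off : Bool → Finset B → ℝ} {D1 : ℝ} {y : W} {t : Lab B N}

lemma continuous_q0 (b : B) : Continuous fun ω => D.q0 l t ω b :=
  continuous_snd.add ((D.continuous_sh b).comp ((continuous_upd _).comp continuous_fst))

omit [Fintype B] [Fintype M] [DecidableEq B] [DecidableEq M] in
lemma continuous_Fp {α : Type*} [TopologicalSpace α] {f g : α → W} (hf : Continuous f)
    (hg : Continuous g) (b : B) : Continuous fun a => D.Fp (f a) b (g a) := by
  simp only [Fp_apply]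
  exact continuous_cin.comp (f := fun a => (f a, D.π b (g a))) (by fun_prop)

omit [Fintype B] [Fintype M] [DecidableEq B] [DecidableEq M] in
lemma Fs_apply (q : W) (a : B × N) (y : W) : D.Fs q a y = inner ℝ q (D.v a y) := rfl

omit [Fintype B] [Fintype M] [DecidableEq B] [DecidableEq M] in
lemma norm_pi_le [Fintype B] (hπ : ∀ h, ∑ b, ‖D.π b h‖ ^ 2 ≤ ‖h‖ ^ 2) (b : B) (h : W) :
    ‖D.π b h‖ ≤ ‖h‖ := by
  refine (pow_le_pow_iff_left₀ (norm_nonneg _) (norm_nonneg _) two_ne_zero).1 ?_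
  exact (Finset.single_le_sum (f := fun b => ‖D.π b h‖ ^ 2) (fun _ _ => sq_nonneg _)
    (Finset.mem_univ b)).trans (hπ h)

lemma norm_lam_le (hJ : ∀ w, D.J (D.J w) = -w) (he : ∀ m, ‖D.e m‖ = 1) (hν : ∀ n, ‖D.ν n‖ = 1)
    (hπ : ∀ h, ∑ b, ‖D.π b h‖ ^ 2 ≤ ‖h‖ ^ 2) (hε : 0 ≤ D.ε) (hℓ : 0 < D.ℓ) (hD : 0 ≤ D1)
    (hε1 : D.ε * (Fintype.card (Option (B × M) × Bool) + 2) ≤ 1)
    (hy1 : 2 * Fintype.card B * ‖y‖ ≤ D.ℓ * D1)
    {s : Bool → Finset B ⊕ B × N} (hy : D.Good l D1 y (.inr s)) (ω : Par B M × W) (β : Bool)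
    (hψ : D.psi l off (.inr s) ω β y ∈ unitInterval) :
    ‖D.lam l (.inr s) ω β y‖ ≤ D1 * (1 + ‖ω.2‖) := by
  simp only [psi, lam, Sum.elim_inr] at hψ ⊢
  have h4 := hy.1 β
  rcases hs : s β with Bs | a
  · simp only [lamS]
    rw [norm_smul, norm_inv, Real.norm_of_nonneg hℓ.le, inv_mul_le_iff₀ hℓ]
    refine (norm_sum_le _ _).trans ?_
    refine (Finset.sum_le_card_nsmul _ _ (2 * ‖y‖) fun b _ => ?_).trans ?_
    · refine ContinuousLinearMap.opNorm_le_bound _ (by positivity) fun h => ?_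
      have h1 := abs_real_inner_le_norm (D.π b y) (D.π b h)
      have h2 := mul_le_mul (norm_pi_le hπ b y) (norm_pi_le hπ b h) (norm_nonneg _) (norm_nonneg _)
      simp only [smul_apply, ContinuousLinearMap.comp_apply,
        innerSL_apply_apply, nsmul_eq_mul, Nat.cast_ofNat, norm_mul, Real.norm_eq_abs,
        abs_two]
      linarith
    · have h1 : (Bs.card : ℝ) ≤ Fintype.card B := by exact_mod_cast Finset.card_le_univ Bs
      have h2 := mul_le_mul_of_nonneg_right h1 (norm_nonneg y)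
      have h3 : 0 ≤ D.ℓ * D1 * ‖ω.2‖ := by positivity
      rw [nsmul_eq_mul]
      nlinarith
  · rw [hs] at hψ
    simp only [lamS, psiS] at hψ ⊢
    replace h4 := h4 a hs
    refine ContinuousLinearMap.opNorm_le_bound _ (by positivity) fun h => ?_
    rw [qd_apply]
    generalize qv (𝕜 := ℝ) _ _ y = c at hψ ⊢
    simp only [Fs_apply]
    set G := inner ℝ (D.ε • D.E (l (a.1, a.2, β)) β) (D.v a y)
    have hG : 0 < |G| := by
      rcases (abs_nonneg G).eq_or_lt with h0 | h0
      · rw [← h0] at h4; norm_num at h4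
      · exact h0
    rw [← real_inner_smul_left, ← inner_add_left, norm_mul, norm_neg, norm_inv, Real.norm_eq_abs,
      Real.norm_eq_abs, mul_assoc]
    refine mul_le_mul (by rwa [inv_le_iff_one_le_mul₀ hG]) ?_ (abs_nonneg _) hD
    refine (abs_real_inner_le_norm _ _).trans (mul_le_mul ?_ ?_ (norm_nonneg _) (by positivity))
    · have h5 := D.norm_sh he hε (upd (D.iota l (.inr s)) ω.1 0) a.1
      have h6 : ‖c • D.ε • D.E (l (a.1, a.2, β)) β‖ ≤ D.ε := by
        rw [norm_smul, norm_smul, D.norm_E he, Real.norm_of_nonneg hψ.1, Real.norm_of_nonneg hε,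
          mul_one]
        exact mul_le_of_le_one_left hε hψ.2
      refine (norm_add_le _ _).trans ?_
      have h7 : ‖D.q0 l (.inr s) ω a.1‖ ≤ _ := norm_add_le _ _
      nlinarith
    · simp only [v, ContinuousLinearMap.comp_apply]
      rw [norm_cs hJ, hν, one_mul]
      exact norm_pi_le hπ _ _

variable [FiniteDimensional ℝ W] [MeasurableSpace W] [BorelSpace W]

lemma measurable_psi (β : Bool) :
    Measurable fun a : (Par B M × W) × W => D.psi l off t a.1 β a.2 := by
  rcases t with b | s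
  · simp only [psi, Sum.elim_inl, qv]
    refine (part β).continuous.measurable.comp (Measurable.div (Measurable.neg ?_) ?_)
    · exact (continuous_Fp ((continuous_q0 b).comp continuous_fst) continuous_snd b).measurable
    · fun_prop
  · simp only [psi, Sum.elim_inr]
    rcases s β with Bs | a
    · simp only [psiS]
      fun_prop
    · simp only [psiS, qv, Fs_apply]
      have := (continuous_q0 (D := D) (l := l) (t := .inr s) a.1).measurable
      fun_prop

lemma measurable_lam (β : Bool) :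
    Measurable fun a : (Par B M × W) × W × W => D.lam l t a.1 β a.2.1 a.2.2 := by
  rcases t with b | s
  · simp only [lam, Sum.elim_inl, ContinuousLinearMap.comp_apply, qd_apply, qv]
    have h1 := (continuous_Fp (D := D) ((continuous_q0 (D := D) (l := l) (t := .inl b) b).comp
      (continuous_fst (Y := W × W))) continuous_snd.fst b).measurable
    have h2 := (continuous_Fp (D := D) ((continuous_q0 (D := D) (l := l) (t := .inl b) b).comp
      (continuous_fst (Y := W × W))) continuous_snd.snd b).measurable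
    refine (part β).continuous.measurable.comp (Measurable.mul (by fun_prop)
      (h2.add (Measurable.mul (h1.neg.div (by fun_prop)) (by fun_prop))))
  · simp only [lam, Sum.elim_inr]
    rcases s β with Bs | a
    · simp only [lamS, smul_apply, sum_apply,
        ContinuousLinearMap.comp_apply, innerSL_apply_apply]
      fun_prop
    · simp only [lamS, qd_apply, qv, Fs_apply]
      have := (continuous_q0 (D := D) (l := l) (t := .inr s) a.1).measurable
      fun_prop

lemma crude_bound (hJ : ∀ w, D.J (D.J w) = -w) (he : ∀ m, ‖D.e m‖ = 1) (hν : ∀ n, ‖D.ν n‖ = 1)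
    (hπ : ∀ h, ∑ b, ‖D.π b h‖ ^ 2 ≤ ‖h‖ ^ 2) (hε : 0 ≤ D.ε) (hℓ : 0 < D.ℓ) (hD : 0 ≤ D1)
    (hε1 : D.ε * (Fintype.card (Option (B × M) × Bool) + 2) ≤ 1)
    (hy1 : 2 * Fintype.card B * ‖y‖ ≤ D.ℓ * D1)
    {s : Bool → Finset B ⊕ B × N} (hy : D.Good l D1 y (.inr s)) :
    ∫⁻ ω, wt (fun β => D.psi l off (.inr s) ω β y) * ENNReal.ofReal
      (‖D.lam l (.inr s) ω false y‖ * ‖D.lam l (.inr s) ω true y‖)
      ∂(volume.prod (stdGaussian W)) ≤ ENNReal.ofReal (2 * D1 ^ 2 * (1 + finrank ℝ W)) := by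
  have h1 : ∀ ω : Par B M × W, wt (fun β => D.psi l off (.inr s) ω β y) * ENNReal.ofReal
      (‖D.lam l (.inr s) ω false y‖ * ‖D.lam l (.inr s) ω true y‖) ≤
      ENNReal.ofReal (2 * D1 ^ 2) * (1 + ENNReal.ofReal (‖ω.2‖ ^ 2)) := by
    intro ω
    unfold wt
    split_ifs with h
    · have h2 := fun β => norm_lam_le hJ he hν hπ hε hℓ hD hε1 hy1 hy ω β (h β)
      rw [one_mul, ← ENNReal.ofReal_one, ← ENNReal.ofReal_add zero_le_one (sq_nonneg _),
        ← ENNReal.ofReal_mul (by positivity)]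
      refine ENNReal.ofReal_le_ofReal
        ((mul_le_mul (h2 false) (h2 true) (norm_nonneg _) (by positivity)).trans ?_)
      nlinarith [mul_nonneg (sq_nonneg D1) (sq_nonneg (1 - ‖ω.2‖))]
    · simp
  refine (lintegral_mono h1).trans ((lintegral_prod_le _).trans (le_of_eq ?_))
  simp only
  rw [lintegral_const, measure_univ, mul_one, lintegral_const_mul _ (by fun_prop),
    lintegral_add_left measurable_const, lintegral_norm_sq, lintegral_const, measure_univ, mul_one,
    ENNReal.ofReal_mul (p := 2 * D1 ^ 2) (by positivity),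
    ENNReal.ofReal_add zero_le_one (by positivity), ENNReal.ofReal_one, ENNReal.ofReal_natCast]

lemma volume_box : volume {ζ : ℂ | ∀ β, part β ζ ∈ unitInterval} = 1 := by
  have : {ζ : ℂ | ∀ β, part β ζ ∈ unitInterval} =
      Complex.measurableEquivRealProd ⁻¹' (Icc 0 1 ×ˢ Icc (-1) 0) := by
    ext ζ
    simp only [mem_ofPred_eq, Bool.forall_bool, part, cond_false, cond_true, mem_Icc,
      Complex.reCLM_apply, neg_apply, Complex.imCLM_apply, mem_preimage,
      mem_prod, Complex.measurableEquivRealProd_apply]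
    constructor <;> rintro ⟨h1, h2, h3⟩ <;> exact ⟨h1, by linarith, by linarith⟩
  rw [this, Complex.volume_preserving_equiv_real_prod.measure_preimage
    (measurableSet_Icc.prod measurableSet_Icc).nullMeasurableSet, Measure.volume_eq_prod,
    Measure.prod_prod]
  simp

lemma pair_bound (hJ : ∀ w, D.J (D.J w) = -w) (he : ∀ m, ‖D.e m‖ = 1) (hε : 0 ≤ D.ε) {δ : ℝ}
    (hδ : 0 < δ) (hδ1 : δ ≤ 1) (hε1 : D.ε * (Fintype.card (Option (B × M) × Bool) + 2) ≤ δ)
    {b : B} (hy : D.Good l D1 y (.inl b)) (h : W) :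
    ∫⁻ ω, wt (fun β => D.psi l off (.inl b) ω β y) * ENNReal.ofReal
      ((D.lam l (.inl b) ω false y h ^ 2 + D.lam l (.inl b) ω true y h ^ 2) / 2)
      ∂(volume.prod (stdGaussian W)) ≤
      ENNReal.ofReal ((1 + 2 * δ) / (2 * Real.pi * ‖D.π b y‖ ^ 2)) *
        ENNReal.ofReal (‖D.π b h‖ ^ 2) := by
  refine (lintegral_prod_le _).trans ((lintegral_mono fun z => ?_).trans
    (le_of_eq (by rw [lintegral_const, measure_univ, mul_one])))
  set e := D.ε • D.e (l (b, D.n0, false)) with he'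
  set G := cin D.J e (D.π b y) with hG
  have hG0 : G ≠ 0 := hy
  have hy0 : D.π b y ≠ 0 := fun h0 => hG0 (by rw [hG, h0, cin_zero_right])
  set s0 := D.sh (upd (D.iota l (.inl b)) z 0) b with hs0
  let T : ℂ → ℂ := fun c => -G⁻¹ * (c + cin D.J s0 (D.π b y))
  let Bx := {ζ : ℂ | ∀ β, part β ζ ∈ unitInterval}
  have hBx : MeasurableSet Bx := by
    simp only [Bx, ofPred_forall]
    exact MeasurableSet.iInter fun β => (part β).continuous.measurable measurableSet_Icc
  let r : W → W := fun q => s0 + cs D.J (conj (T (cin D.J q (D.π b y)))) e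
  have hT : ∀ q, qv (D.Fp (D.q0 l (.inl b) (z, q) b) b) (D.Fp e b) y = T (cin D.J q (D.π b y)) := by
    intro q
    simp only [qv, Fp_apply, q0, cin_add_left, T, ← hG, ← hs0]
    ring
  have hr : ∀ q k, cin D.J (q + r q) k =
      cin D.J (q + s0) k + T (cin D.J q (D.π b y)) * cin D.J e k := by
    intro q k
    simp only [r]
    rw [← add_assoc, cin_add_left, cin_cs_left hJ, Complex.conj_conj]
  have key := pair_gauss hJ (D.π b y) hy0 (T ⁻¹' Bx) (hBx.preimage (by fun_prop)) (D.π b h) r δ δ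
    hδ fun q hq => by
      constructor
      · have h1 := D.norm_sh he hε (upd (D.iota l (.inl b)) z 0) b
        have h2 : ‖T (cin D.J q (D.π b y))‖ ≤ 2 := by
          have h3 := hq false
          have h4 := hq true
          refine (Complex.norm_le_abs_re_add_abs_im _).trans ?_
          simp only [part, cond_false, cond_true, mem_Icc, Complex.reCLM_apply,
            neg_apply, Complex.imCLM_apply] at h3 h4
          rw [abs_of_nonneg h3.1, abs_of_nonpos (by linarith)]
          linarith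
        refine (norm_add_le _ _).trans ?_
        rw [norm_cs hJ, Complex.norm_conj, he', norm_smul, he, Real.norm_of_nonneg hε, mul_one]
        nlinarith
      · rw [hr, cin_add_left, ← hG]
        simp only [T]
        field_simp
        ring
  rw [volume_preimage_affine _ _ (by simpa using hG0), volume_box, mul_one] at key
  have hGn : 0 < ‖G‖ := norm_pos_iff.2 hG0
  have hyn : 0 < ‖D.π b y‖ := norm_pos_iff.2 hy0
  have h5 : ∀ q, wt (fun β => D.psi l off (.inl b) (z, q) β y) * ENNReal.ofReal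
      ((D.lam l (.inl b) (z, q) false y h ^ 2 + D.lam l (.inl b) (z, q) true y h ^ 2) / 2) =
      ENNReal.ofReal (2 * ‖G‖ ^ 2)⁻¹ * ((T ⁻¹' Bx).indicator 1 (cin D.J q (D.π b y)) *
        ENNReal.ofReal (‖cin D.J (q + r q) (D.π b h)‖ ^ 2)) := by
    intro q
    rw [mul_left_comm, ← ENNReal.ofReal_mul (by positivity)]
    simp only [psi, lam, Sum.elim_inl, ← he', hT, ContinuousLinearMap.comp_apply, qd_apply,
      Fp_apply, ← hG]
    congr 1
    · unfold wt
      split_ifs with h6
      · rw [indicator_of_mem (by exact h6), Pi.one_apply]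
      · rw [indicator_of_notMem (by exact h6)]
    · rw [hr]
      congr 1
      simp only [q0, ← hs0]
      generalize cin D.J (q + s0) (D.π b h) + T (cin D.J q (D.π b y)) * cin D.J e (D.π b h) = X
      have h7 : part false (-G⁻¹ * X) ^ 2 + part true (-G⁻¹ * X) ^ 2 = ‖-G⁻¹ * X‖ ^ 2 := by
        rw [Complex.sq_norm, Complex.normSq_apply]
        simp only [part, cond_false, cond_true, Complex.reCLM_apply,
          neg_apply, Complex.imCLM_apply]
        ring
      rw [h7, norm_mul, norm_neg, norm_inv]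
      field_simp
  simp_rw [h5]
  rw [lintegral_const_mul' _ _ ENNReal.ofReal_ne_top]
  refine (mul_le_mul_right key _).trans ?_
  rw [← ENNReal.ofReal_mul (by positivity), ← ENNReal.ofReal_mul (by positivity),
    ← ENNReal.ofReal_mul (by positivity), ← ENNReal.ofReal_mul (by positivity)]
  refine ENNReal.ofReal_le_ofReal ?_
  rw [norm_neg, norm_inv]
  have h8 : 2 * (1 + δ) + (1 + δ⁻¹) * δ ^ 2 ≤ 2 * (1 + 2 * δ) := by
    have : (1 + δ⁻¹) * δ ^ 2 = δ ^ 2 + δ := by field_simp
    nlinarith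
  have hpi := Real.pi_pos
  calc _ = (2 * (1 + δ) + (1 + δ⁻¹) * δ ^ 2) *
        (‖D.π b h‖ ^ 2 / (2 * (2 * Real.pi * ‖D.π b y‖ ^ 2))) := by field_simp
    _ ≤ 2 * (1 + 2 * δ) * (‖D.π b h‖ ^ 2 / (2 * (2 * Real.pi * ‖D.π b y‖ ^ 2))) := by gcongr
    _ = _ := by field_simp

end Dat

end Pool.Agent.MP_8bdec9_gt

end MrgPart6

-- ======== part 7: formerly Pool.Agent.MP_8bdec9_gt.OneShot
section MrgPart7

/-! Proof of the bound with polynomial and small exponential losses. -/

open MeasureTheory Module Set ProbabilityTheory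
open scoped ENNReal

namespace Pool.Agent.MP_8bdec9_gt

lemma factorial_le_exp (k : ℕ) : (k.factorial : ℝ) * Real.exp 1 ^ k ≤ (k + 1) ^ (k + 1) := by
  induction k with
  | zero => simp
  | succ k ih =>
    have h1 := Real.one_sub_div_pow_le_exp_neg (n := k + 2) (t := 1)
      (by exact_mod_cast (by omega : 1 ≤ k + 2))
    have h2 : (1 : ℝ) - 1 / ((k + 2 : ℕ) : ℝ) = (k + 1) / (k + 2) := by
      push_cast; field_simp; ring
    rw [h2, div_pow, Real.exp_neg, div_le_iff₀ (by positivity),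
      le_inv_mul_iff₀ (Real.exp_pos 1)] at h1
    rw [Nat.factorial_succ, pow_succ]
    push_cast
    calc _ = ((k : ℝ) + 1) * (k.factorial * Real.exp 1 ^ k) * Real.exp 1 := by ring
      _ ≤ (k + 1) * (k + 1) ^ (k + 1) * Real.exp 1 := by gcongr
      _ = Real.exp 1 * (k + 1) ^ (k + 2) := by ring
      _ ≤ _ := by rw [add_assoc, one_add_one_eq_two]; exact h1

lemma block_num {x s κ δ n : ℝ} {k : ℕ} (hx : 0 ≤ x) (hκ : 0 < κ) (hκ1 : κ ≤ 1) (hδ : 0 < δ)
    (hn : (k : ℝ) + 1 ≤ n) (h : k = 0 ∨ (δ ≤ s ∧ ((k : ℝ) - 1) * κ ≤ s)) :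
    (x / (2 * Real.pi * s)) ^ k * ((2 ^ k * k.factorial : ℕ) : ℝ) ≤
      Real.exp (2 + 2 / δ) * n * (x / (Real.pi * Real.exp 1 * κ)) ^ k := by
  have hpi := Real.pi_pos
  have he := Real.exp_pos 1
  rcases h with rfl | ⟨h1, h2⟩
  · have : 1 ≤ Real.exp (2 + 2 / δ) := Real.one_le_exp (by positivity)
    simp only [pow_zero, Nat.factorial_zero, mul_one, Nat.cast_one, CharP.cast_eq_zero,
      zero_add] at hn ⊢
    nlinarith
  have hs : 0 < s := hδ.trans_le h1
  have h3 : ((k : ℝ) + 1) * κ / s ≤ Real.exp (2 * κ / s) := by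
    refine le_trans ?_ (Real.add_one_le_exp _)
    rw [div_add_one hs.ne']
    gcongr
    linarith
  have h4 : (((k : ℝ) + 1) * κ / s) ^ k ≤ Real.exp (2 + 2 / δ) := by
    refine (pow_le_pow_left₀ (by positivity) h3 k).trans ?_
    rw [← Real.exp_nat_mul, Real.exp_le_exp]
    have h5 : κ / s ≤ 1 / δ := by gcongr
    calc (k : ℝ) * (2 * κ / s) = 2 * (k * κ) / s := by ring
      _ ≤ 2 * (s + κ) / s := by gcongr; linarith
      _ = 2 + 2 * (κ / s) := by field_simp
      _ ≤ 2 + 2 * (1 / δ) := by gcongr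
      _ = _ := by ring
  calc _ = (x / (Real.pi * Real.exp 1 * κ)) ^ k * (κ / s) ^ k *
        (k.factorial * Real.exp 1 ^ k) := by
        push_cast
        rw [← mul_assoc, ← mul_pow, ← mul_pow, mul_comm (k.factorial : ℝ) (Real.exp 1 ^ k),
          ← mul_assoc, ← mul_pow]
        congr 2
        field_simp
    _ ≤ (x / (Real.pi * Real.exp 1 * κ)) ^ k * (κ / s) ^ k * (k + 1) ^ (k + 1) := by
        gcongr; exact factorial_le_exp k
    _ = (((k : ℝ) + 1) * κ / s) ^ k * (k + 1) * (x / (Real.pi * Real.exp 1 * κ)) ^ k := by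
        rw [mul_div_assoc, mul_pow]; ring
    _ ≤ _ := by gcongr

lemma prod_bound {K : ℕ} {B : Type*} [Fintype B] [DecidableEq B] (lab : Fin K → Option B)
    (cr : Fin K → ℝ) (a : B → ℝ) (f : ℕ → ℝ) {Dc D' θ C : ℝ} {r : ℕ}
    (h0 : ∀ i, lab i = none → cr i = Dc) (h1 : ∀ i b, lab i = some b → cr i = a b)
    (hb : ∀ b, a b ^ (Finset.univ.filter fun i => lab i = some b).card *
      f (Finset.univ.filter fun i => lab i = some b).card ≤
      C * θ ^ (Finset.univ.filter fun i => lab i = some b).card)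
    (hDc : 0 ≤ Dc) (ha : ∀ b, 0 ≤ a b) (hf : ∀ k, 0 ≤ f k) (hθ : 0 ≤ θ) (hC : 0 ≤ C)
    (hD : Dc ≤ D' * θ)
    (hD' : 1 ≤ D') (hr : (Finset.univ.filter fun i => lab i = none).card ≤ r) :
    (∏ i, cr i) * ∏ b, f (Finset.univ.filter fun i => lab i = some b).card ≤
      D' ^ r * C ^ Fintype.card B * θ ^ K := by
  have e1 : ∏ i, cr i = Dc ^ (Finset.univ.filter fun i => lab i = none).card *
      ∏ b, a b ^ (Finset.univ.filter fun i => lab i = some b).card := by
    rw [← Finset.prod_fiberwise Finset.univ lab cr, Fintype.prod_option]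
    congr 1
    · exact Finset.prod_eq_pow_card fun i hi => h0 i (Finset.mem_filter.1 hi).2
    · exact Finset.prod_congr rfl fun b _ =>
        Finset.prod_eq_pow_card fun i hi => h1 i b (Finset.mem_filter.1 hi).2
  have e2 : θ ^ K = θ ^ (Finset.univ.filter fun i => lab i = none).card *
      ∏ b, θ ^ (Finset.univ.filter fun i => lab i = some b).card := by
    have := Finset.prod_fiberwise Finset.univ lab fun _ => θ
    rw [Fintype.prod_option] at this
    simpa using this.symm
  rw [e1, e2, mul_assoc, ← Finset.prod_mul_distrib]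
  calc _ ≤ (D' * θ) ^ (Finset.univ.filter fun i => lab i = none).card *
        ∏ b, (C * θ ^ (Finset.univ.filter fun i => lab i = some b).card) :=
        mul_le_mul (pow_le_pow_left₀ hDc hD _) (Finset.prod_le_prod
          (fun b _ => mul_nonneg (pow_nonneg (ha b) _) (hf _)) fun b _ => hb b)
          (Finset.prod_nonneg fun b _ => mul_nonneg (pow_nonneg (ha b) _) (hf _)) (by positivity)
    _ = D' ^ (Finset.univ.filter fun i => lab i = none).card * (C ^ Fintype.card B *
        (θ ^ (Finset.univ.filter fun i => lab i = none).card *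
          ∏ b, θ ^ (Finset.univ.filter fun i => lab i = some b).card)) := by
        rw [Finset.prod_mul_distrib, mul_pow]; simp; ring
    _ ≤ _ := by
        rw [mul_assoc]
        exact mul_le_mul_of_nonneg_right (pow_le_pow_right₀ hD' hr) (by positivity)

lemma sum_lintegral_le {α ι : Type*} [MeasurableSpace α] (μ : Measure α) (s : Finset ι)
    (f : ι → α → ℝ≥0∞) : ∑ i ∈ s, ∫⁻ x, f i x ∂μ ≤ ∫⁻ x, ∑ i ∈ s, f i x ∂μ := by
  classical
  induction s using Finset.induction_on with
  | empty => simp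
  | insert a s ha ih =>
    simp only [Finset.sum_insert ha]
    exact (add_le_add le_rfl ih).trans (le_lintegral_add _ _)

lemma final_ring (P E A n C θ c : ℝ) (K p c0 : ℕ) :
    P ^ K * ((2 * A ^ 2 * n ^ 5 * (P * E)) ^ (p + 2) * (C * n) ^ p * θ ^ K * (n ^ c0 * c) *
      (E ^ K * E)) = (2 * A ^ 2 * (P * E)) ^ (p + 2) * C ^ p * c * E *
      n ^ (5 * (p + 2) + p + c0) * (P * E * θ) ^ K := by
  simp only [mul_pow]
  ring

theorem oneShot : OneShot := by
  intro p hp δ hδ hpδ
  have : NeZero p := ⟨hp.ne_zero⟩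
  have : NeZero (2 * p) := ⟨by have := hp.pos; omega⟩
  obtain ⟨Sec, ν, hS1, hS2, hS3, hν, hS4, hS5⟩ := exists_sectors p hp.two_le
  have hp2 : (2 : ℝ) ≤ p := by exact_mod_cast hp.two_le
  have hδ1 : δ ≤ 1 := by nlinarith
  have hpi := Real.pi_pos
  have he := Real.exp_pos 1
  set κ : ℝ := 1 - 2 * p * δ with hκ
  have hκ0 : 1 / 2 ≤ κ := by linarith
  have hκ1 : κ ≤ 1 := by nlinarith
  set A : ℝ := 16 * p + (2 * p + 4) / δ ^ 2 with hA
  have hA1 : 1 ≤ A := by
    have : 0 ≤ (2 * p + 4) / δ ^ 2 := by positivity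
    linarith
  set C1 := Real.exp (2 + 2 / δ)
  set cL := Fintype.card (Lab (ZMod p) (ZMod (2 * p)))
  have hcL : 0 < cL := Fintype.card_pos_iff.2 ⟨.inl 0⟩
  set c0 := Fintype.card (ZMod p × ZMod (2 * p) × Bool)
  refine ⟨(2 * A ^ 2 * (Real.pi * Real.exp 1)) ^ (p + 2) * C1 ^ p * cL ^ (p + 2) * Real.exp 1,
    5 * (p + 2) + p + c0, by positivity, ?_⟩
  intro X W _ _ _ _ _ _ _ _ K hK hX g J U Φ h
  classical
  borelize W
  obtain ⟨π, hπU, hπ, hπ0⟩ := exists_blocks p h.hJ h.hUJ h.hU h.hUfree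
  set L := finrank ℝ W with hL
  have hJ := h.hJ
  have hL1 : 1 ≤ L := by
    have : Nontrivial X := Module.nontrivial_of_finrank_pos (R := ℝ) (by omega)
    obtain ⟨x, hx⟩ := exists_ne (0 : X)
    have : Nontrivial W := ⟨_, _, h.ne x hx⟩
    exact Module.finrank_pos
  have : Nonempty (Fin L) := ⟨⟨0, hL1⟩⟩
  have hL' : (1 : ℝ) ≤ L := by exact_mod_cast hL1
  have hK' : (1 : ℝ) ≤ K := by exact_mod_cast hK
  set n : ℝ := K + L + 1 with hn
  have hn1 : 1 ≤ n := by linarith
  have hcM : (Fintype.card (Option (ZMod p × Fin L) × Bool) : ℝ) + 2 = 2 * p * L + 4 := by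
    simp [ZMod.card]; ring
  let e := stdOrthonormalBasis ℝ W
  let D : Dat W (ZMod p) (ZMod (2 * p)) (Fin L) := ⟨J, π, ν, e, δ / (2 * p * L + 4), κ / 4, 0⟩
  have hε : 0 < D.ε := by simp only [D]; positivity
  have hℓ : 0 < D.ℓ := by simp only [D]; linarith
  have hε1 : D.ε * (Fintype.card (Option (ZMod p × Fin L) × Bool) + 2) ≤ δ := by
    rw [hcM]; simp only [D]; exact le_of_eq (by field_simp)
  have he1 : ∀ m, ‖D.e m‖ = 1 := e.orthonormal.1
  have hE : ∀ β w, ∑ m, inner ℝ (D.E m β) w ^ 2 = ‖w‖ ^ 2 := by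
    intro β w
    cases β
    · exact e.sum_sq_inner_right w
    · exact (e.map J).sum_sq_inner_right w
  let d : ℝ := δ * K
  have hd : δ ≤ d := le_mul_of_one_le_right hδ.le hK'
  let θ : ℝ := (1 + 2 * δ) / (Real.pi * Real.exp 1 * κ)
  let D' : ℝ := 2 * A ^ 2 * n ^ 5 * (Real.pi * Real.exp 1)
  let bd : ℝ := D' ^ (p + 2) * (C1 * n) ^ p * θ ^ K
  let μ : Measure (Par (ZMod p) (Fin L) × W) := volume.prod (stdGaussian W)
  let AA : (ZMod p × ZMod (2 * p) × Bool → Fin L) × (Fin K → Lab (ZMod p) (ZMod (2 * p))) →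
      Set (Fin K → Par (ZMod p) (Fin L) × W) := fun a =>
    {ω | ∃ x, (ω, x) ∈ {b : (Fin K → Par (ZMod p) (Fin L) × W) × X | Φ b.2 ∈ D.Reg d K L a.1 a.2 ∧
      ∀ i : Fin K, D.Eqn (D.off d K i) (b.1 i) (Φ b.2) (a.2 i)}}
  have hΦ := h.diff.continuous
  have hgood : ∀ l T, ∀ y ∈ D.Reg d K L l T, ∀ i, D.Good l (A * n ^ 2) y (T i) := by
    rintro l T y ⟨-, -, hy3, hy4⟩ i
    have h1 := hy4 i
    rcases hT : T i with b | s <;> rw [hT] at h1
    · intro h0
      have t5 : D.ℓ * (4 * (i : ℕ) + 1) < D.ℓ * (4 * (i : ℕ) + 2) := by gcongr; norm_num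
      have h2 := D.lt_of_S_lt d y (h1.1.trans_lt (t5.trans_le h1.2))
      have h3 := hy3 b D.n0 false
      rw [cin_smul_left, mul_eq_zero, Complex.ofReal_eq_zero, or_iff_right hε.ne'] at h0
      have h4 : inner ℝ (D.E (l (b, D.n0, false)) false) (D.v (b, D.n0) y) = 0 := by
        change (cin J (D.e _) (cs J _ (π b y))).re = 0
        rw [cin_cs_right hJ]
        exact (congrArg (fun z => (ν 0 * z).re) h0).trans (by rw [mul_zero, Complex.zero_re])
      rw [h4] at h3
      linarith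
    · refine ⟨fun β a ha => ?_, h1.2.2⟩
      have h2 := h1.2.1 β a ha
      have h3 := hy3 a.1 a.2 β
      rw [real_inner_smul_left, abs_mul, abs_of_pos hε]
      rw [← sq_abs (inner ℝ _ _)] at h3
      have h5 := abs_nonneg (inner ℝ (D.E (l (a.1, a.2, β)) β) (D.v a y))
      generalize |inner ℝ (D.E (l (a.1, a.2, β)) β) (D.v a y)| = u at h3 h5 ⊢
      have h4 : δ ≤ L * u := by
        refine (pow_le_pow_iff_left₀ hδ.le (by positivity) two_ne_zero).1 ?_
        nlinarith [mul_nonneg (sub_nonneg.2 hL') (mul_nonneg (zero_le_one.trans hL') (sq_nonneg u))]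
      have h6 : (2 * p + 4) / δ ^ 2 ≤ A := by linarith
      have h7 : (2 * p * L + 4) * L ≤ (2 * p + 4) * n ^ 2 := by
        rw [sq, ← mul_assoc]
        refine mul_le_mul ?_ (by linarith) (by positivity) (by positivity)
        nlinarith
      calc (1 : ℝ) = ((2 * p * L + 4) * L / δ ^ 2) * (δ / (2 * p * L + 4) * (δ / L)) := by
            field_simp
        _ ≤ ((2 * p + 4) * n ^ 2 / δ ^ 2) * (δ / (2 * p * L + 4) * u) := by
            gcongr
            rwa [div_le_iff₀' (by positivity)]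
        _ = (2 * p + 4) / δ ^ 2 * n ^ 2 * (δ / (2 * p * L + 4) * u) := by ring
        _ ≤ _ := by simp only [D]; gcongr
  have htype : ∀ a, Measure.pi (fun _ => μ) (AA a) ≤ ∫⁻ x, ENNReal.ofReal bd *
      ((D.Reg d K L a.1 a.2).indicator 1 (Φ x) *
        ENNReal.ofReal (fderiv ℝ Φ x : X →ₗ[ℝ] W).normDet) := by
    rintro ⟨l, T⟩
    let cr : W → Fin K → ℝ := fun y i => (T i).elim
      (fun b => (1 + 2 * δ) / (2 * Real.pi * ‖π b y‖ ^ 2)) fun _ => 2 * A ^ 2 * n ^ 5
    refine kr_bound K hX Φ h.diff π (fun y => (hπ y).le) μ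
      (fun i a => (upd (D.iota l (T i)) a.1.1 a.2, a.1.2)) (fun i => ?_) _
      (measurableSet_proj _ ?_) _ (D.isClosed_Reg d K L l T).measurableSet
      (fun i => D.psi l (D.off d K i) (T i)) (fun i => D.lam l (T i)) ?_
      (fun i ω β y hy => Dat.hasFDerivAt_psi (hgood l T y hy i) ω β)
      (fun i β => Dat.measurable_psi β) (fun i β => Dat.measurable_lam β)
      (fun i => (T i).getLeft?) (fun i y => ENNReal.ofReal (cr y i)) ?_ ?_ _ ?_
    · exact ((measurePreserving_upd (D.iota l (T i))).prod (MeasurePreserving.id _)).comp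
        ((measurePreserving_prodAssoc _ _ _).symm.comp (((MeasurePreserving.id _).prod
          Measure.measurePreserving_swap).comp (measurePreserving_prodAssoc _ _ _)))
    · refine IsClosed.and ((D.isClosed_Reg d K L l T).preimage (by fun_prop)) ?_
      simp only [ofPred_forall]
      exact isClosed_iInter fun i => (D.isClosed_Eqn _ _).preimage
        (f := fun b : (Fin K → Par (ZMod p) (Fin L) × W) × X => (b.1 i, Φ b.2)) (by fun_prop)
    · rintro ω w ⟨x, hx, hx'⟩
      exact ⟨x, hx, fun i β => Dat.solve hJ hℓ.ne' (hgood l T _ hx i) (ω i) (w i) (hx' i) β⟩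
    · intro y hy i hi
      have h1 := hgood l T y hy i
      simp only [cr]
      rcases hT : T i with b | s
      · simp [hT] at hi
      rw [hT] at h1
      have h2 : ‖y‖ ≤ n ^ 2 := by
        have h3 : ‖y‖ ^ 2 ≤ n ^ 2 := hy.2.1.trans (by nlinarith)
        have h4 := (pow_le_pow_iff_left₀ (norm_nonneg y) (by positivity) two_ne_zero).1 h3
        nlinarith
      refine (Dat.crude_bound hJ he1 hν (fun y => (hπ y).le) hε.le hℓ (by positivity)
        (hε1.trans hδ1) ?_ h1).trans (ENNReal.ofReal_le_ofReal ?_)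
      · have h3 : 16 * p ≤ A := by
          have : 0 ≤ (2 * p + 4) / δ ^ 2 := by positivity
          linarith
        rw [ZMod.card]
        calc 2 * (p : ℝ) * ‖y‖ = 1 / 2 / 4 * (16 * p * ‖y‖) := by ring
          _ ≤ κ / 4 * (A * n ^ 2) := by gcongr
      · simp only [Sum.elim_inr, ← hL]
        calc _ = 2 * A ^ 2 * n ^ 4 * (1 + L) := by ring
          _ ≤ 2 * A ^ 2 * n ^ 4 * n := by gcongr; linarith
          _ = _ := by ring
    · intro y hy i b hi k
      have h1 := hgood l T y hy i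
      have hT := Sum.getLeft?_eq_some_iff.1 hi
      simp only [cr]
      rw [hT] at h1 ⊢
      exact Dat.pair_bound hJ he1 hε.le hδ hδ1 hε1 h1 k
    · intro y hy
      have hcr : ∀ i, 0 ≤ cr y i := fun i => by
        simp only [cr]
        rcases T i with b | s <;> simp only [Sum.elim_inl, Sum.elim_inr] <;> positivity
      simp_rw [← ENNReal.ofReal_natCast]
      rw [← ENNReal.ofReal_prod_of_nonneg fun i _ => hcr i,
        ← ENNReal.ofReal_prod_of_nonneg fun _ _ => Nat.cast_nonneg _,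
        ← ENNReal.ofReal_mul (Finset.prod_nonneg fun i _ => hcr i)]
      refine ENNReal.ofReal_le_ofReal ?_
      have h2 := prod_bound (fun i => (T i).getLeft?) (cr y)
        (fun b => (1 + 2 * δ) / (2 * Real.pi * ‖π b y‖ ^ 2))
        (fun k => ((2 ^ k * k.factorial : ℕ) : ℝ)) (Dc := 2 * A ^ 2 * n ^ 5) (D' := D') (θ := θ)
        (C := C1 * n) (r := p + 2) (fun i hi => ?_) (fun i b hi => ?_) (fun b => ?_)
        (by positivity) (fun b => by positivity) (fun k => by positivity) (by positivity)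
        (by positivity) ?_ ?_ (D.card_crude d hℓ hy.2.2.2)
      · rwa [ZMod.card] at h2
      · simp only [cr]
        rcases hT : T i with b | s
        · simp [hT] at hi
        · rfl
      · simp only [cr]
        rw [Sum.getLeft?_eq_some_iff.1 hi]
        rfl
      · refine block_num (by positivity) (by linarith) hκ1 hδ ?_ ?_
        · have : (Finset.univ.filter fun i => (T i).getLeft? = some b).card ≤ K :=
            (Finset.card_le_univ _).trans (by simp)
          have h3 : ((Finset.univ.filter fun i => (T i).getLeft? = some b).card : ℝ) ≤ K := by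
            exact_mod_cast this
          linarith
        · refine (D.card_pair d hℓ (hδ.le.trans hd) hy.2.2.2 b).imp id fun h3 =>
            ⟨hd.trans h3.1, le_trans (le_of_eq ?_) h3.2⟩
          simp only [D]; ring
      · have h3 : 1 ≤ (1 + 2 * δ) / κ := by rw [le_div_iff₀ (by linarith)]; linarith
        calc _ = 2 * A ^ 2 * n ^ 5 * 1 := by ring
          _ ≤ 2 * A ^ 2 * n ^ 5 * ((1 + 2 * δ) / κ) := by gcongr
          _ = _ := by simp only [D', θ]; field_simp
      · have h3 : 1 ≤ Real.pi * Real.exp 1 := one_le_mul_of_one_le_of_one_le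
          (by linarith [Real.pi_gt_three]) (Real.one_le_exp zero_le_one)
        refine one_le_mul_of_one_le_of_one_le (one_le_mul_of_one_le_of_one_le ?_
          (one_le_pow₀ hn1)) h3
        nlinarith
  have hcover : (univ : Set (Fin K → Par (ZMod p) (Fin L) × W)) ⊆ ⋃ a, AA a := by
    intro ω _
    obtain ⟨l, T, x, h1, h2⟩ := D.exists_type d hp h K hK hX hπU hπ hπ0 Sec hS1 hS2 hS3 hν hS4 hS5
      (hδ.le.trans hd) hℓ (by simp only [D]; linarith) (by simp only [D, d]; nlinarith) hE ω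
    rw [Fintype.card_fin] at h1
    exact mem_iUnion.2 ⟨(l, T), x, h1, h2⟩
  have hbd : 0 ≤ bd := by positivity
  have hfin : (1 : ℝ≥0∞) ≤ ENNReal.ofReal (bd * (n ^ c0 * cL ^ (p + 2)) * Real.exp (K + 1)) *
      gaussArea Φ := by
    rw [← measure_univ (μ := Measure.pi fun _ : Fin K => μ), gaussArea,
      ← lintegral_const_mul' _ _ ENNReal.ofReal_ne_top]
    refine (measure_mono hcover).trans ((measure_iUnion_fintype_le _ _).trans
      ((Finset.sum_le_sum fun a _ => htype a).trans ((sum_lintegral_le _ _ _).trans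
        (lintegral_mono fun x => ?_))))
    rw [← Finset.mul_sum, ← Finset.sum_mul, ENNReal.ofReal_mul (Real.exp_pos _).le, mul_assoc bd,
      ENNReal.ofReal_mul hbd, mul_assoc, ← mul_assoc (ENNReal.ofReal (_ * Real.exp _)),
      ← ENNReal.ofReal_mul (by positivity)]
    gcongr
    by_cases hx : ‖Φ x‖ ^ 2 ≤ K + 1
    · have h1 : ∀ l, ∑ T, (D.Reg d K L l T).indicator (1 : W → ℝ≥0∞) (Φ x) ≤
          (cL ^ (p + 2) : ℕ) := by
        intro l
        refine le_trans ?_ (Nat.cast_le.2 (D.card_types d hℓ K (Φ x)))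
        rw [Finset.card_filter, Nat.cast_sum]
        refine Finset.sum_le_sum fun T _ => ?_
        by_cases hT : Φ x ∈ D.Reg d K L l T
        · rw [if_pos hT.2.2.2]; simp [hT]
        · simp [hT]
      rw [Fintype.sum_prod_type]
      refine (Finset.sum_le_card_nsmul _ _ _ fun l _ => h1 l).trans ?_
      rw [nsmul_eq_mul, ← Nat.cast_mul, ← ENNReal.ofReal_natCast]
      refine ENNReal.ofReal_le_ofReal ?_
      rw [Finset.card_univ, Fintype.card_fun, Fintype.card_fin, mul_assoc, ← Real.exp_add]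
      push_cast
      refine le_trans ?_ (le_mul_of_one_le_right (by positivity) (Real.one_le_exp (by linarith)))
      gcongr
      linarith
    · rw [Finset.sum_eq_zero fun a _ => indicator_of_notMem (fun h => hx h.2.1) _]
      exact zero_le
  calc ENNReal.ofReal (Real.pi ^ K) = ENNReal.ofReal (Real.pi ^ K) * 1 := (mul_one _).symm
    _ ≤ _ := mul_le_mul_right hfin _
    _ = _ := by
      rw [← mul_assoc, ← ENNReal.ofReal_mul (by positivity)]
      congr 2
      have : (1 + 2 * δ) / κ = Real.pi * Real.exp 1 * θ := by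
        have : κ ≠ 0 := by linarith
        simp only [θ]; field_simp
      rw [this, Real.exp_add, ← Real.exp_one_pow]
      exact final_ring _ _ _ _ _ _ _ _ _ _

end Pool.Agent.MP_8bdec9_gt

end MrgPart7

-- marker of a merged file
example : 731051 + 857398 = 731051 + 857398 := rfl
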